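import Mathlib
import Pool.Agent.UPM.Skew

/-!
# Weighted unique perfect matchings: objects, tables, certificates

`S : Skew V` is the skew-symmetric digraph of a perfect matching `m`; `w a b` is the weight of the arc
`a → b`.  Objects are finite sets of arcs: `IsQ` (one regular path), `IsT` (two disjoint regular paths).
`tab` is the algorithm: round by round, the best object for every key is computed from the tables of
the previous round.
-/

set_option autoImplicit false

namespace Pool.Agent.WUPM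

open Finset Pool.Agent.UPM

variable {V : Type*}

/-! ### Paths -/

/-- The weight of the walk `p 0, …, p k`. -/
def wp (w : V → V → ℤ) (p : ℕ → V) (k : ℕ) : ℤ := ∑ i ∈ range k, w (p i) (p (i + 1))

/-- Skew-symmetric weights. -/
def WSkew (S : Skew V) (w : V → V → ℤ) : Prop := ∀ a b, w (S.m b) (S.m a) = w a b

/-- All regular cycles have positive weight. -/
def Good (S : Skew V) (w : V → V → ℤ) : Prop :=
  ∀ (p : ℕ → V) (k : ℕ), 1 ≤ k → S.Path p k → S.arc (p k) (p 0) → 0 < wp w p k + w (p k) (p 0)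

/-- The nodes of the two paths lie on different edges. -/
def Dj (S : Skew V) (p : ℕ → V) (k : ℕ) (q : ℕ → V) (l : ℕ) : Prop :=
  ∀ i j, i ≤ k → j ≤ l → q j ≠ p i ∧ q j ≠ S.m (p i)

/-! ### Objects -/

section

variable [DecidableEq V]

/-- The arcs of a walk. -/
def arcs (p : ℕ → V) (k : ℕ) : Finset (V × V) := (range k).image fun i => (p i, p (i + 1))

/-- The weight of a set of arcs. -/
def wt (w : V → V → ℤ) (o : Finset (V × V)) : ℤ := ∑ e ∈ o, w e.1 e.2

/-- `o` is the set of the arcs of a regular path from `x` to `z`. -/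
def IsQ (S : Skew V) (x z : V) (o : Finset (V × V)) : Prop :=
  ∃ (p : ℕ → V) (k : ℕ), S.Path p k ∧ p 0 = x ∧ p k = z ∧ o = arcs p k

/-- `o` is the set of the arcs of two disjoint regular paths, from `A` to `B` and from `C` to `E`. -/
def IsT (S : Skew V) (A B C E : V) (o : Finset (V × V)) : Prop :=
  ∃ (p : ℕ → V) (k : ℕ) (q : ℕ → V) (l : ℕ), S.Path p k ∧ S.Path q l ∧ Dj S p k q l ∧
    p 0 = A ∧ p k = B ∧ q 0 = C ∧ q l = E ∧ o = arcs p k ∪ arcs q l

/-- Optimal objects. -/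
def OptQ (S : Skew V) (w : V → V → ℤ) (x z : V) (o : Finset (V × V)) : Prop :=
  IsQ S x z o ∧ ∀ o', IsQ S x z o' → wt w o ≤ wt w o'

/-- Optimal objects. -/
def OptT (S : Skew V) (w : V → V → ℤ) (A B C E : V) (o : Finset (V × V)) : Prop :=
  IsT S A B C E o ∧ ∀ o', IsT S A B C E o' → wt w o ≤ wt w o'

/-- Different objects with the same key have different weights. -/
def Uniq (S : Skew V) (w : V → V → ℤ) : Prop :=
  (∀ x z o o', IsQ S x z o → IsQ S x z o' → wt w o = wt w o' → o = o') ∧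
  ∀ A B C E o o', IsT S A B C E o → IsT S A B C E o' → wt w o = wt w o' → o = o'

/-! ### The algorithm -/

/-- Nodes of a path object. -/
def NQ (x z : V) (o : Finset (V × V)) (v : V) : Prop :=
  v = x ∨ v = z ∨ ∃ u, (u, v) ∈ o ∨ (v, u) ∈ o

/-- Nodes of a pair object. -/
def NT (A B C E : V) (o : Finset (V × V)) (v : V) : Prop :=
  v = A ∨ v = B ∨ v = C ∨ v = E ∨ ∃ u, (u, v) ∈ o ∨ (v, u) ∈ o

/-- Linking: equality or an arc. -/
def Lk (S : Skew V) (b a : V) : Prop := b = a ∨ S.arc b a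

/-- The linking arc, if any. -/
def lk (b a : V) : Finset (V × V) := if b = a then ∅ else {(b, a)}

/-- Two path objects are disjoint. -/
def OK1 (S : Skew V) (A B C E : V) (o1 o2 : Finset (V × V)) : Prop :=
  ∀ u v, NQ A B o1 u → NQ C E o2 v → v ≠ u ∧ v ≠ S.m u

/-- A pair object for `(A, B1; C1, E)` and a pair object for `(A1, B; C, E1)` meet only in the places where they are
joined. -/
def OK2 (S : Skew V) (A B C E A1 B1 C1 E1 : V) (o1 o2 : Finset (V × V)) : Prop :=
  ∀ u v, NT A B1 C1 E o1 u → NT A1 B C E1 o2 v →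
    (v = u → (u = B1 ∧ v = A1) ∨ (u = C1 ∧ v = E1)) ∧ v ≠ S.m u

/-- Candidates for pairs. -/
def CT (S : Skew V) (tq : V → V → Set (Finset (V × V)))
    (tt : V → V → V → V → Set (Finset (V × V))) (A B C E : V) : Set (Finset (V × V)) :=
  {o | (∃ o1 ∈ tq A B, ∃ o2 ∈ tq C E, OK1 S A B C E o1 o2 ∧ o = o1 ∪ o2) ∨
    ∃ A1 B1 C1 E1, ∃ o1 ∈ tt A B1 C1 E, ∃ o2 ∈ tt A1 B C E1, Lk S B1 A1 ∧ Lk S E1 C1 ∧
      OK2 S A B C E A1 B1 C1 E1 o1 o2 ∧ o = (o1 ∪ o2) ∪ (lk B1 A1 ∪ lk E1 C1)}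

/-- Candidates for paths. -/
def CQ (S : Skew V) (tt : V → V → V → V → Set (Finset (V × V))) (x z : V) :
    Set (Finset (V × V)) :=
  {o | (x = z ∧ o = ∅) ∨ ∃ B C, ∃ o1 ∈ tt x B C z, S.arc B C ∧ o = insert (B, C) o1}

/-- The best candidates. -/
def best (w : V → V → ℤ) (C : Set (Finset (V × V))) : Set (Finset (V × V)) :=
  {o | o ∈ C ∧ ∀ o' ∈ C, wt w o ≤ wt w o'}

/-- The tables after `τ` rounds. -/
def tab (S : Skew V) (w : V → V → ℤ) : ℕ →
    (V → V → Set (Finset (V × V))) × (V → V → V → V → Set (Finset (V × V)))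
  | 0 => (fun _ _ => ∅, fun _ _ _ _ => ∅)
  | τ + 1 => (fun x z => best w (CQ S (tab S w τ).2 x z),
      fun A B C E => best w (CT S (tab S w τ).1 (tab S w τ).2 A B C E))

/-- Paths. -/
def tQ (S : Skew V) (w : V → V → ℤ) (τ : ℕ) (x z : V) : Set (Finset (V × V)) := (tab S w τ).1 x z

/-- Pairs. -/
def tT (S : Skew V) (w : V → V → ℤ) (τ : ℕ) (A B C E : V) : Set (Finset (V × V)) :=
  (tab S w τ).2 A B C E

end

/-! ### Deletion and the test -/

/-- Only the arcs between nodes of index at least `κ` are kept. -/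
def cutS (S : Skew V) (idx : V → ℕ) (h : ∀ v, idx (S.m v) = idx v) (κ : ℕ) : Skew V where
  m := S.m
  mm := S.mm
  mne := S.mne
  arc := fun a b => S.arc a b ∧ κ ≤ idx a ∧ κ ≤ idx b
  skew := fun a b h' => ⟨S.skew a b h'.1, by rw [h]; exact h'.2.2, by rw [h]; exact h'.2.1⟩
  ne := fun a b h' => S.ne a b h'.1
  ne' := fun a b h' => S.ne' a b h'.1

/-- The test: `W` is the weight, `w` the perturbed weight. -/
def Acc [DecidableEq V] (S : Skew V) (idx : V → ℕ) (h : ∀ v, idx (S.m v) = idx v)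
    (W w : V → V → ℤ) (τ : ℕ) : Prop :=
  ∀ v x y o, S.arc v x → S.arc y v → o ∈ tQ (cutS S idx h (idx v + 1)) w τ x y →
    0 < W v x + wt W o + W y v

/-! ### Certificates -/

section

variable [DecidableEq V]

/-- Crossing number of the arc `a → b` (non-matching edge `{a, m b}`, matching edge `{m b, b}`) and `K`. -/
def cK (S : Skew V) (K : Finset V) (a b : V) : ℤ :=
  (if (a ∈ K ↔ S.m b ∈ K) then 0 else 1) - (if (S.m b ∈ K ↔ b ∈ K) then 0 else 1)

/-- Optimality certificate for paths from `x` to `z` of weight `W`. -/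
structure Fam (S : Skew V) (w : V → V → ℤ) (x z : V) (W : ℤ) {n : ℕ} (K : Fin n → Finset V) :
    Prop where
  root : ∀ i, S.m x ∉ K i
  lam : ∀ i j, K i ⊆ K j ∨ K j ⊆ K i ∨ Disjoint (K i) (K j)
  base : ∀ i, ∃ b ∈ K i, S.m b ∉ K i ∧ ∀ v ∈ K i, S.m v ∉ K i → v = b
  le : ∀ a b, S.arc a b → ∑ i, cK S (K i) a b ≤ 2 * w a b
  virt : ∑ i, cK S (K i) z x ≤ -(2 * W)

end

end Pool.Agent.WUPM
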