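import Mathlib
import Pool.Agent.WUPM.Defs

/-!
# Basic lemmas on paths and objects
-/

set_option autoImplicit false

namespace Pool.Agent.WUPM

open Finset Pool.Agent.UPM

variable {V : Type*}

theorem Path.inj {S : Skew V} {p : ℕ → V} {k i j : ℕ} (h : S.Path p k) (hi : i ≤ k) (hj : j ≤ k)
    (e : p i = p j) : i = j := by
  by_contra hne
  exact (h.ne_of hne hi hj).1 e.symm

theorem Path.ne_m {S : Skew V} {p : ℕ → V} {k i j : ℕ} (h : S.Path p k) (hi : i ≤ k) (hj : j ≤ k) :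
    p j ≠ S.m (p i) := by
  by_cases hij : i = j
  · subst hij
    exact (S.mne _).symm
  · exact (h.ne_of hij hi hj).2

theorem path_zero (S : Skew V) (p : ℕ → V) : S.Path p 0 :=
  ⟨fun i hi => absurd hi (Nat.not_lt_zero _), fun i j hij hj => by omega⟩

section

variable [DecidableEq V]

theorem mem_arcs {p : ℕ → V} {k : ℕ} {e : V × V} :
    e ∈ arcs p k ↔ ∃ i, i < k ∧ e = (p i, p (i + 1)) := by
  unfold arcs
  rw [mem_image]
  constructor
  · rintro ⟨i, hi, h⟩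
    exact ⟨i, mem_range.1 hi, h.symm⟩
  · rintro ⟨i, hi, h⟩
    exact ⟨i, mem_range.2 hi, h.symm⟩

theorem arcs_zero (p : ℕ → V) : arcs p 0 = ∅ := by simp [arcs]

theorem wt_arcs {S : Skew V} (w : V → V → ℤ) {p : ℕ → V} {k : ℕ} (h : S.Path p k) :
    wt w (arcs p k) = wp w p k := by
  unfold wt wp arcs
  rw [sum_image]
  intro i hi j hj e
  rw [coe_range, Set.mem_Iio] at hi hj
  exact Path.inj h hi.le hj.le (Prod.ext_iff.1 e).1

theorem arcs_disjoint {S : Skew V} {p q : ℕ → V} {k l : ℕ} (hd : Dj S p k q l) :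
    Disjoint (arcs p k) (arcs q l) := by
  rw [disjoint_left]
  intro e he he'
  obtain ⟨i, hi, rfl⟩ := mem_arcs.1 he
  obtain ⟨j, hj, h⟩ := mem_arcs.1 he'
  exact (hd i j hi.le hj.le).1 (Prod.ext_iff.1 h).1.symm

theorem wt_union (w : V → V → ℤ) {o o' : Finset (V × V)} (h : Disjoint o o') :
    wt w (o ∪ o') = wt w o + wt w o' := sum_union h

theorem wt_pair {S : Skew V} (w : V → V → ℤ) {p q : ℕ → V} {k l : ℕ} (hp : S.Path p k)
    (hq : S.Path q l) (hd : Dj S p k q l) :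
    wt w (arcs p k ∪ arcs q l) = wp w p k + wp w q l := by
  rw [wt_union w (arcs_disjoint hd), wt_arcs w hp, wt_arcs w hq]

/-- The nodes of a path object. -/
theorem nq_iff {p : ℕ → V} {k : ℕ} {v : V} :
    NQ (p 0) (p k) (arcs p k) v ↔ ∃ i, i ≤ k ∧ v = p i := by
  constructor
  · rintro (h | h | ⟨u, h | h⟩)
    · exact ⟨0, Nat.zero_le _, h⟩
    · exact ⟨k, le_rfl, h⟩
    · obtain ⟨i, hi, e⟩ := mem_arcs.1 h
      exact ⟨i + 1, hi, (Prod.ext_iff.1 e).2⟩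
    · obtain ⟨i, hi, e⟩ := mem_arcs.1 h
      exact ⟨i, hi.le, (Prod.ext_iff.1 e).1⟩
  · rintro ⟨i, hi, rfl⟩
    rcases Nat.lt_or_ge i k with h | h
    · exact Or.inr (Or.inr ⟨p (i + 1), Or.inr (mem_arcs.2 ⟨i, h, rfl⟩)⟩)
    · obtain rfl : i = k := by omega
      exact Or.inr (Or.inl rfl)

/-- The nodes of a pair object. -/
theorem nt_iff {p q : ℕ → V} {k l : ℕ} {v : V} :
    NT (p 0) (p k) (q 0) (q l) (arcs p k ∪ arcs q l) v ↔
      (∃ i, i ≤ k ∧ v = p i) ∨ ∃ j, j ≤ l ∧ v = q j := by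
  rw [← nq_iff, ← nq_iff]
  unfold NT NQ
  simp only [mem_union]
  constructor
  · rintro (h | h | h | h | ⟨u, (h | h) | (h | h)⟩)
    · exact Or.inl (Or.inl h)
    · exact Or.inl (Or.inr (Or.inl h))
    · exact Or.inr (Or.inl h)
    · exact Or.inr (Or.inr (Or.inl h))
    · exact Or.inl (Or.inr (Or.inr ⟨u, Or.inl h⟩))
    · exact Or.inr (Or.inr (Or.inr ⟨u, Or.inl h⟩))
    · exact Or.inl (Or.inr (Or.inr ⟨u, Or.inr h⟩))
    · exact Or.inr (Or.inr (Or.inr ⟨u, Or.inr h⟩))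
  · rintro ((h | h | ⟨u, h | h⟩) | (h | h | ⟨u, h | h⟩))
    · exact Or.inl h
    · exact Or.inr (Or.inl h)
    · exact Or.inr (Or.inr (Or.inr (Or.inr ⟨u, Or.inl (Or.inl h)⟩)))
    · exact Or.inr (Or.inr (Or.inr (Or.inr ⟨u, Or.inr (Or.inl h)⟩)))
    · exact Or.inr (Or.inr (Or.inl h))
    · exact Or.inr (Or.inr (Or.inr (Or.inl h)))
    · exact Or.inr (Or.inr (Or.inr (Or.inr ⟨u, Or.inl (Or.inr h)⟩)))
    · exact Or.inr (Or.inr (Or.inr (Or.inr ⟨u, Or.inr (Or.inr h)⟩)))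

end

end Pool.Agent.WUPM
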