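import Mathlib
import Pool.Agent.WUPM.Defs
import Pool.Agent.UPM.Unique

/-!
# Statements of the packages
-/

set_option autoImplicit false

namespace Pool.Agent.WUPM

open Finset Pool.Agent.UPM

/-- The number of rounds. -/
def rnd (K : ℕ) : ℕ := 1 + K * (K + 4)

/-- **P2** (duality, from Sebő's theorem). -/
def DualStmt : Prop :=
  ∀ (V : Type) [Fintype V] [DecidableEq V] (S : Skew V) (w : V → V → ℤ), WSkew S w → Good S w →
    ∀ (p : ℕ → V) (h : ℕ), 1 ≤ h → S.Path p h →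
    (∀ (q : ℕ → V) (l : ℕ), S.Path q l → q 0 = p 0 → q l = p h → wp w p h ≤ wp w q l) →
    ∃ (n : ℕ) (K : Fin n → Finset V), Fam S w (p 0) (p h) (wp w p h) K

/-- **P3** (crossings of a path and a set which cuts one matching edge). -/
def CrossStmt : Prop :=
  ∀ (V : Type) [Fintype V] [DecidableEq V] (S : Skew V) (K : Finset V) (b : V), b ∈ K →
    S.m b ∉ K → (∀ v ∈ K, S.m v ∉ K → v = b) → ∀ (q : ℕ → V) (l : ℕ), S.Path q l →
    ((q 0 ∈ K ↔ q l ∈ K) → 0 ≤ wp (cK S K) q l) ∧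
    (¬ (q 0 ∈ K ↔ q l ∈ K) → -1 ≤ wp (cK S K) q l) ∧
    (¬ (q 0 ∈ K ↔ q l ∈ K) → (∀ i, 1 ≤ i → i ≤ l → q i ≠ b ∧ q i ≠ S.m b) → 1 ≤ wp (cK S K) q l)

/-- The set `K` meets the walk `m p_0, p_0, m p_1, p_1, …, m p_h, p_h` (positions `0, …, 2 h + 1`) exactly in the positions
`s, …, t`. -/
def Iv {V : Type} [DecidableEq V] (S : Skew V) (K : Finset V) (p : ℕ → V) (h s t : ℕ) : Prop :=
  1 ≤ s ∧ s ≤ t ∧ t ≤ 2 * h + 1 ∧ s % 2 = t % 2 ∧
    ∀ i, i ≤ h → (S.m (p i) ∈ K ↔ s ≤ 2 * i ∧ 2 * i ≤ t) ∧ (p i ∈ K ↔ s ≤ 2 * i + 1 ∧ 2 * i + 1 ≤ t)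

/-- **P4** (pattern of the certificate along the optimal path). -/
def PatternStmt : Prop :=
  ∀ (V : Type) [Fintype V] [DecidableEq V] (S : Skew V) (w : V → V → ℤ) (p : ℕ → V) (h : ℕ),
    1 ≤ h → S.Path p h → ∀ (n : ℕ) (K : Fin n → Finset V), Fam S w (p 0) (p h) (wp w p h) K →
    (∀ i, (∀ j, j ≤ h → p j ∉ K i ∧ S.m (p j) ∉ K i) ∨ ∃ s t, Iv S (K i) p h s t) ∧
    ∀ j, j < h → ∑ i, cK S (K i) (p j) (p (j + 1)) = 2 * w (p j) (p (j + 1))

/-- The weight of the segment `p a, …, p b`. -/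
def sg {V : Type} (w : V → V → ℤ) (p : ℕ → V) (a b : ℕ) : ℤ := wp w (fun i => p (a + i)) (b - a)

/-- The segment `p a, …, p b` is optimal. -/
def SegOpt {V : Type} (S : Skew V) (w : V → V → ℤ) (p : ℕ → V) (a b : ℕ) : Prop :=
  ∀ (q : ℕ → V) (l : ℕ), S.Path q l → q 0 = p a → q l = p b → sg w p a b ≤ wp w q l

/-- The pair of the segments `p a, …, p b` and `p c, …, p e` is optimal. -/
def PairOpt {V : Type} (S : Skew V) (w : V → V → ℤ) (p : ℕ → V) (a b c e : ℕ) : Prop :=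
  ∀ (q : ℕ → V) (k : ℕ) (r : ℕ → V) (l : ℕ), S.Path q k → S.Path r l → Dj S q k r l →
    q 0 = p a → q k = p b → r 0 = p c → r l = p e → sg w p a b + sg w p c e ≤ wp w q k + wp w r l

/-- The interval `o` contains the interval `i`. -/
def Nest (o i : ℕ × ℕ) : Prop := o.1 ≤ i.1 ∧ i.2 ≤ o.2

/-- A chain of states around the node `p j`. For the interval `(s, t)`: inner left node `s / 2`, outer left node
`(s - 1) / 2`, inner right node `t / 2`, outer right node `(t + 1) / 2`.  The piece between the intervals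
`o` and `i` consists of the left segment from `o.1 / 2` to `(i.1 - 1) / 2` (empty iff `o.1 = i.1` is even) and the right
segment from `(i.2 + 1) / 2` to `o.2 / 2` (empty iff `o.2 = i.2` is odd). -/
structure Chain {V : Type} (S : Skew V) (w : V → V → ℤ) (p : ℕ → V) (h j : ℕ)
    (C : Finset (ℕ × ℕ)) : Prop where
  rng : ∀ σ ∈ C, 1 ≤ σ.1 ∧ σ.1 ≤ 2 * j + 1 ∧ 2 * j + 1 ≤ σ.2 ∧ σ.2 ≤ 2 * h + 1 ∧ σ.1 % 2 = σ.2 % 2
  outer : (1, 2 * h + 1) ∈ C
  inner : (2 * j + 1, 2 * j + 1) ∈ C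
  tot : ∀ σ ∈ C, ∀ σ' ∈ C, Nest σ σ' ∨ Nest σ' σ
  pair : ∀ o ∈ C, ∀ i ∈ C, Nest o i → o.1 / 2 ≤ (i.1 - 1) / 2 → (i.2 + 1) / 2 ≤ o.2 / 2 →
    PairOpt S w p (o.1 / 2) ((i.1 - 1) / 2) ((i.2 + 1) / 2) (o.2 / 2)
  left : ∀ o ∈ C, ∀ i ∈ C, Nest o i → (∀ σ ∈ C, Nest o σ → Nest σ i → σ = o ∨ σ = i) →
    o.1 / 2 ≤ (i.1 - 1) / 2 → SegOpt S w p (o.1 / 2) ((i.1 - 1) / 2)
  right : ∀ o ∈ C, ∀ i ∈ C, Nest o i → (∀ σ ∈ C, Nest o σ → Nest σ i → σ = o ∨ σ = i) →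
    (i.2 + 1) / 2 ≤ o.2 / 2 → SegOpt S w p ((i.2 + 1) / 2) (o.2 / 2)
  left' : ∀ o ∈ C, ∀ i ∈ C, Nest o i → ¬ (i.2 + 1) / 2 ≤ o.2 / 2 →
    o.1 / 2 ≤ (i.1 - 1) / 2 → SegOpt S w p (o.1 / 2) ((i.1 - 1) / 2)
  right' : ∀ o ∈ C, ∀ i ∈ C, Nest o i → ¬ o.1 / 2 ≤ (i.1 - 1) / 2 →
    (i.2 + 1) / 2 ≤ o.2 / 2 → SegOpt S w p ((i.2 + 1) / 2) (o.2 / 2)

/-- **P5** (Lemmas A, A', B). -/
def ChainStmt : Prop :=
  ∀ (V : Type) [Fintype V] [DecidableEq V] (S : Skew V) (w : V → V → ℤ), WSkew S w → Good S w →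
    ∀ (p : ℕ → V) (h : ℕ), 1 ≤ h → S.Path p h →
    (∀ (q : ℕ → V) (l : ℕ), S.Path q l → q 0 = p 0 → q l = p h → wp w p h ≤ wp w q l) →
    ∀ j, j < h → ∃ C, Chain S w p h j C

/-- **P6a** (soundness of the rules; one step). -/
def CandStmt : Prop :=
  ∀ (V : Type) [Fintype V] [DecidableEq V] (S : Skew V) (tq : V → V → Set (Finset (V × V)))
    (tt : V → V → V → V → Set (Finset (V × V))), (∀ x z o, o ∈ tq x z → IsQ S x z o) →
    (∀ A B C E o, o ∈ tt A B C E → IsT S A B C E o) →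
    (∀ x z o, o ∈ CQ S tt x z → IsQ S x z o) ∧
    ∀ A B C E o, o ∈ CT S tq tt A B C E → IsT S A B C E o

/-- **P6a** (soundness of the tables). -/
def SoundStmt : Prop :=
  ∀ (V : Type) [Fintype V] [DecidableEq V] (S : Skew V) (w : V → V → ℤ) (τ : ℕ),
    (∀ x z o, o ∈ tQ S w τ x z → IsQ S x z o) ∧
    ∀ A B C E o, o ∈ tT S w τ A B C E → IsT S A B C E o

/-- **P6b** (completeness of the tables). -/
def CompleteStmt : Prop :=
  ∀ (V : Type) [Fintype V] [DecidableEq V] (S : Skew V) (w : V → V → ℤ) (K τ : ℕ), WSkew S w →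
    Good S w → Uniq S w → Fintype.card V ≤ 2 ^ K → rnd K ≤ τ →
    ∀ x z o, OptQ S w x z o → tQ S w τ x z = {o}

/-- The perturbed weight. -/
def gw {V : Type} (S : Skew V) (W : V → V → ℤ) (c : V × V → ℕ) (L : ℕ) (a b : V) : ℤ :=
  2 ^ L * W a b + 2 ^ c (a, b) + 2 ^ c (S.m b, S.m a)

/-- The symmetrised arcs of an object. -/
def Msk {V : Type} (S : Skew V) (o : Finset (V × V)) (e : V × V) : Prop :=
  e ∈ o ∨ (S.m e.2, S.m e.1) ∈ o

/-- Comparison of bit masks. -/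
def Cx {V : Type} (c : V × V → ℕ) (M1 M2 : V × V → Prop) : Prop :=
  ∃ e, M2 e ∧ ¬ M1 e ∧ ∀ f, c e < c f → M1 f → M2 f

/-- An object which does not contain an arc and its mirror image. -/
def Reg {V : Type} (S : Skew V) (o : Finset (V × V)) : Prop :=
  ∀ a b, (a, b) ∈ o → (S.m b, S.m a) ∉ o

/-- **P9** (the perturbed weight). -/
def GenericStmt : Prop :=
  ∀ (V : Type) [Fintype V] [DecidableEq V] (S : Skew V) (W : V → V → ℤ) (c : V × V → ℕ) (L : ℕ),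
    Function.Injective c → (∀ e, c e < L) →
    (WSkew S W → WSkew S (gw S W c L)) ∧ (Good S W → Good S (gw S W c L)) ∧
    Uniq S (gw S W c L) ∧
    (∀ x z o, IsQ S x z o → Reg S o) ∧ (∀ A B C E o, IsT S A B C E o → Reg S o) ∧
    ∀ o o', Reg S o → Reg S o' → (wt (gw S W c L) o < wt (gw S W c L) o' ↔
      wt W o < wt W o' ∨ (wt W o = wt W o' ∧ Cx c (Msk S o) (Msk S o')))

/-- **P7** (the test). -/
def TestStmt : Prop :=
  ∀ (V : Type) [Fintype V] [DecidableEq V] (S : Skew V) (idx : V → ℕ)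
    (hidx : ∀ v, idx (S.m v) = idx v) (W : V → V → ℤ) (c : V × V → ℕ) (L K τ : ℕ),
    (∀ u v, idx u = idx v → v = u ∨ v = S.m u) → WSkew S W → Function.Injective c →
    (∀ e, c e < L) → Fintype.card V ≤ 2 ^ K → rnd K ≤ τ →
    (Acc S idx hidx W (gw S W c L) τ ↔ Good S W)

/-- The weight of a perfect matching (twice the usual one). -/
def pmw {V : Type} [Fintype V] (wt : V → V → ℤ) (f : V → V) : ℤ := ∑ v, wt v (f v)

/-- The arc weights. -/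
def aw {V : Type} (wt : V → V → ℤ) (f : V → V) (a b : V) : ℤ :=
  2 * wt a (f b) - wt a (f a) - wt b (f b)

/-- **P8** (positive cycles and unique minimum weight perfect matchings). -/
def CycleStmt : Prop :=
  ∀ (V : Type) [Fintype V] [DecidableEq V] (adj : V → V → Prop) (hs : ∀ a b, adj a b → adj b a)
    (hi : ∀ a, ¬ adj a a) (f : V → V) (hf : IsPM adj f) (wt : V → V → ℤ),
    (∀ a b, wt a b = wt b a) →
    (WSkew (skewOf adj hs hi f hf) (aw wt f) ∧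
      (Good (skewOf adj hs hi f hf) (aw wt f) ↔
        ∀ g, IsPM adj g → g ≠ f → pmw wt f < pmw wt g))

end Pool.Agent.WUPM
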