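import Mathlib
import Pool.Agent.WUPM.Stmts
import Pool.Agent.WUPM.Basic

/-!
# The tables contain only genuine objects
-/

set_option autoImplicit false

namespace Pool.Agent.WUPM

open Finset Pool.Agent.UPM

variable {V : Type*} {S : Skew V}

/-- Two paths joined by an arc. -/
def jn (p q : ℕ → V) (k : ℕ) : ℕ → V := fun i => if i ≤ k then p i else q (i - (k + 1))

theorem jn_le (p q : ℕ → V) {k i : ℕ} (h : i ≤ k) : jn p q k i = p i := if_pos h

theorem jn_gt (p q : ℕ → V) {k i : ℕ} (h : k < i) : jn p q k i = q (i - (k + 1)) :=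
  if_neg (not_le.2 h)

theorem jn_path {p q : ℕ → V} {k l : ℕ} (hp : S.Path p k) (hq : S.Path q l)
    (ha : S.arc (p k) (q 0)) (hc : ∀ i j, i ≤ k → j ≤ l → q j ≠ p i ∧ q j ≠ S.m (p i)) :
    S.Path (jn p q k) (k + 1 + l) := by
  refine ⟨fun i hi => ?_, fun i j hij hj => ?_⟩
  · rcases lt_trichotomy i k with h | h | h
    · rw [jn_le p q h.le, jn_le p q (by omega)]
      exact hp.1 i h
    · subst h
      rw [jn_le p q le_rfl, jn_gt p q (Nat.lt_succ_self i)]
      simpa using ha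
    · rw [jn_gt p q h, jn_gt p q (by omega)]
      have e : i + 1 - (k + 1) = (i - (k + 1)) + 1 := by omega
      rw [e]
      exact hq.1 _ (by omega)
  · by_cases h1 : j ≤ k
    · rw [jn_le p q h1, jn_le p q (by omega : i ≤ k)]
      exact hp.2 i j hij h1
    · rw [jn_gt p q (not_le.1 h1)]
      by_cases h2 : i ≤ k
      · rw [jn_le p q h2]
        exact hc i _ h2 (by omega)
      · rw [jn_gt p q (not_le.1 h2)]
        exact hq.2 _ _ (by omega) (by omega)

/-- Linking two paths. -/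
theorem link [DecidableEq V] {p q : ℕ → V} {k l : ℕ} (hp : S.Path p k) (hq : S.Path q l)
    (hL : Lk S (p k) (q 0))
    (hc : ∀ i j, i ≤ k → j ≤ l → (q j = p i → i = k ∧ j = 0) ∧ q j ≠ S.m (p i)) :
    ∃ (r : ℕ → V) (n : ℕ), S.Path r n ∧ r 0 = p 0 ∧ r n = q l ∧
      arcs r n = (arcs p k ∪ arcs q l) ∪ lk (p k) (q 0) ∧
      ∀ i, i ≤ n → (∃ i', i' ≤ k ∧ r i = p i') ∨ ∃ j, j ≤ l ∧ r i = q j := by
  rcases hL with h | h
  · refine ⟨Skew.glue p q k, k + l, hp.glue hq h ?_, Skew.glue_le p q (Nat.zero_le _),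
      Skew.glue_add p q h l, ?_, ?_⟩
    · intro i j hi hj hjl
      obtain ⟨h1, h2⟩ := hc i j hi.le hjl
      exact ⟨fun e => by have := h1 e; omega, h2⟩
    · rw [lk, if_pos h, union_empty]
      ext e
      rw [mem_union, mem_arcs, mem_arcs, mem_arcs]
      constructor
      · rintro ⟨i, hi, rfl⟩
        by_cases h1 : i < k
        · left
          refine ⟨i, h1, ?_⟩
          rw [Skew.glue_le p q h1.le, Skew.glue_le p q (by omega)]
        · right
          refine ⟨i - k, by omega, ?_⟩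
          rw [Skew.glue_ge p q h (by omega), Skew.glue_ge p q h (by omega)]
          have e : i + 1 - k = i - k + 1 := by omega
          rw [e]
      · rintro (⟨i, hi, rfl⟩ | ⟨i, hi, rfl⟩)
        · refine ⟨i, by omega, ?_⟩
          rw [Skew.glue_le p q hi.le, Skew.glue_le p q (by omega)]
        · refine ⟨k + i, by omega, ?_⟩
          rw [Skew.glue_add p q h, add_assoc, Skew.glue_add p q h]
    · intro i hi
      by_cases h1 : i ≤ k
      · exact Or.inl ⟨i, h1, Skew.glue_le p q h1⟩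
      · exact Or.inr ⟨i - k, by omega, Skew.glue_ge p q h (by omega)⟩
  · have hne : p k ≠ q 0 := fun e => S.ne _ _ h e.symm
    refine ⟨jn p q k, k + 1 + l, jn_path hp hq h ?_, jn_le p q (Nat.zero_le _), ?_, ?_, ?_⟩
    · intro i j hi hjl
      obtain ⟨h1, h2⟩ := hc i j hi hjl
      refine ⟨fun e => ?_, h2⟩
      obtain ⟨rfl, rfl⟩ := h1 e
      exact hne e.symm
    · rw [jn_gt p q (by omega)]
      congr 1
      omega
    · rw [lk, if_neg hne]
      ext e
      rw [mem_union, mem_union, mem_arcs, mem_arcs, mem_arcs, mem_singleton]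
      constructor
      · rintro ⟨i, hi, rfl⟩
        rcases lt_trichotomy i k with h1 | h1 | h1
        · left; left
          refine ⟨i, h1, ?_⟩
          rw [jn_le p q h1.le, jn_le p q (by omega)]
        · right
          subst h1
          rw [jn_le p q le_rfl, jn_gt p q (Nat.lt_succ_self i)]
          simp
        · left; right
          refine ⟨i - (k + 1), by omega, ?_⟩
          rw [jn_gt p q h1, jn_gt p q (by omega)]
          have e : i + 1 - (k + 1) = i - (k + 1) + 1 := by omega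
          rw [e]
      · rintro ((⟨i, hi, rfl⟩ | ⟨i, hi, rfl⟩) | rfl)
        · refine ⟨i, by omega, ?_⟩
          rw [jn_le p q hi.le, jn_le p q (by omega)]
        · refine ⟨k + 1 + i, by omega, ?_⟩
          rw [jn_gt p q (by omega), jn_gt p q (by omega)]
          have e1 : k + 1 + i - (k + 1) = i := by omega
          have e2 : k + 1 + i + 1 - (k + 1) = i + 1 := by omega
          rw [e1, e2]
        · refine ⟨k, by omega, ?_⟩
          rw [jn_le p q le_rfl, jn_gt p q (Nat.lt_succ_self k)]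
          simp
    · intro i hi
      by_cases h1 : i ≤ k
      · exact Or.inl ⟨i, h1, jn_le p q h1⟩
      · exact Or.inr ⟨i - (k + 1), by omega, jn_gt p q (by omega)⟩

theorem m_symm {S : Skew V} {u v : V} (h : u ≠ S.m v) : v ≠ S.m u := fun e => h (by rw [e, S.mm])

/-- One step. -/
theorem cand : CandStmt := by
  intro V _ _ S tq tt hq ht
  constructor
  · rintro x z o (⟨rfl, rfl⟩ | ⟨B, C, o1, ho1, hBC, rfl⟩)
    · exact ⟨fun _ => x, 0, path_zero S _, rfl, rfl, (arcs_zero _).symm⟩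
    · obtain ⟨p, k, q, l, hp, hq', hd, rfl, rfl, rfl, rfl, rfl⟩ := ht _ _ _ _ _ ho1
      obtain ⟨r, n, hr, h0, hn, ha, -⟩ := link hp hq' (Or.inr hBC) fun i j hi hj =>
        ⟨fun e => absurd e (hd i j hi hj).1, (hd i j hi hj).2⟩
      refine ⟨r, n, hr, h0, hn, ?_⟩
      rw [ha, lk, if_neg (fun e => S.ne _ _ hBC e.symm), insert_eq, union_comm]
  · rintro A B C E o (⟨o1, ho1, o2, ho2, hok, rfl⟩ | ⟨A1, B1, C1, E1, o1, ho1, o2, ho2, hL, hR, hok,
      rfl⟩)
    · obtain ⟨p, k, hp, rfl, rfl, rfl⟩ := hq _ _ _ ho1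
      obtain ⟨q, l, hq', rfl, rfl, rfl⟩ := hq _ _ _ ho2
      refine ⟨p, k, q, l, hp, hq', fun i j hi hj => ?_, rfl, rfl, rfl, rfl, rfl⟩
      exact hok _ _ (nq_iff.2 ⟨i, hi, rfl⟩) (nq_iff.2 ⟨j, hj, rfl⟩)
    · obtain ⟨L1, k1, R1, l1, hL1, hR1, hd1, rfl, rfl, rfl, rfl, rfl⟩ := ht _ _ _ _ _ ho1
      obtain ⟨L2, k2, R2, l2, hL2, hR2, hd2, rfl, rfl, rfl, rfl, rfl⟩ := ht _ _ _ _ _ ho2
      -- left nodes and right nodes
      have k11 : ∀ i j, i ≤ k1 → j ≤ k2 → (L2 j = L1 i → i = k1 ∧ j = 0) ∧ L2 j ≠ S.m (L1 i) := by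
        intro i j hi hj
        obtain ⟨h1, h2⟩ := hok (L1 i) (L2 j) (nt_iff.2 (Or.inl ⟨i, hi, rfl⟩))
          (nt_iff.2 (Or.inl ⟨j, hj, rfl⟩))
        refine ⟨fun e => ?_, h2⟩
        rcases h1 e with ⟨h3, h4⟩ | ⟨h3, h4⟩
        · exact ⟨Path.inj hL1 hi le_rfl h3, Path.inj hL2 hj (Nat.zero_le _) h4⟩
        · exact absurd h3.symm (hd1 i 0 hi (Nat.zero_le _)).1
      have k22 : ∀ i j, i ≤ l2 → j ≤ l1 → (R1 j = R2 i → i = l2 ∧ j = 0) ∧ R1 j ≠ S.m (R2 i) := by
        intro i j hi hj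
        obtain ⟨h1, h2⟩ := hok (R1 j) (R2 i) (nt_iff.2 (Or.inr ⟨j, hj, rfl⟩))
          (nt_iff.2 (Or.inr ⟨i, hi, rfl⟩))
        refine ⟨fun e => ?_, m_symm h2⟩
        rcases h1 e.symm with ⟨h3, h4⟩ | ⟨h3, h4⟩
        · exact absurd h3 (hd1 k1 j le_rfl hj).1
        · exact ⟨Path.inj hR2 hi le_rfl h4, Path.inj hR1 hj (Nat.zero_le _) h3⟩
      have k12 : ∀ i j, i ≤ k1 → j ≤ l2 → R2 j ≠ L1 i ∧ R2 j ≠ S.m (L1 i) := by
        intro i j hi hj
        obtain ⟨h1, h2⟩ := hok (L1 i) (R2 j) (nt_iff.2 (Or.inl ⟨i, hi, rfl⟩))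
          (nt_iff.2 (Or.inr ⟨j, hj, rfl⟩))
        refine ⟨fun e => ?_, h2⟩
        rcases h1 e with ⟨h3, h4⟩ | ⟨h3, h4⟩
        · exact absurd h4 (hd2 0 j (Nat.zero_le _) hj).1
        · exact absurd h3.symm (hd1 i 0 hi (Nat.zero_le _)).1
      have k21 : ∀ i j, i ≤ k2 → j ≤ l1 → R1 j ≠ L2 i ∧ R1 j ≠ S.m (L2 i) := by
        intro i j hi hj
        obtain ⟨h1, h2⟩ := hok (R1 j) (L2 i) (nt_iff.2 (Or.inr ⟨j, hj, rfl⟩))
          (nt_iff.2 (Or.inl ⟨i, hi, rfl⟩))
        refine ⟨fun e => ?_, m_symm h2⟩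
        rcases h1 e.symm with ⟨h3, h4⟩ | ⟨h3, h4⟩
        · exact absurd h3 (hd1 k1 j le_rfl hj).1
        · exact absurd h4.symm (hd2 i l2 hi le_rfl).1
      obtain ⟨p, k, hp, hp0, hpk, hpa, hpn⟩ := link hL1 hL2 hL k11
      obtain ⟨q, l, hq', hq0, hql, hqa, hqn⟩ := link hR2 hR1 hR k22
      refine ⟨p, k, q, l, hp, hq', fun i j hi hj => ?_, hp0, hpk, hq0, hql, ?_⟩
      · rcases hpn i hi with ⟨i', hi', e1⟩ | ⟨i', hi', e1⟩ <;>
          rcases hqn j hj with ⟨j', hj', e2⟩ | ⟨j', hj', e2⟩ <;> rw [e1, e2]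
        · exact k12 i' j' hi' hj'
        · exact hd1 i' j' hi' hj'
        · exact hd2 i' j' hi' hj'
        · exact k21 i' j' hi' hj'
      · rw [hpa, hqa]
        ext e
        simp only [mem_union]
        tauto

/-- Soundness of the tables. -/
theorem sound : SoundStmt := by
  intro V _ _ S w τ
  induction τ with
  | zero =>
    exact ⟨fun x z o h => absurd h (Set.notMem_empty _), fun A B C E o h =>
      absurd h (Set.notMem_empty _)⟩
  | succ τ ih =>
    obtain ⟨h1, h2⟩ := cand V S (tab S w τ).1 (tab S w τ).2 ih.1 ih.2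
    exact ⟨fun x z o h => h1 x z o h.1, fun A B C E o h => h2 A B C E o h.1⟩

end Pool.Agent.WUPM
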