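import Mathlib
import Pool.Agent.WUPM.Sound

/-!
# Candidates: soundness and weights
-/

set_option autoImplicit false
set_option linter.unusedSectionVars false

namespace Pool.Agent.WUPM

open Finset Pool.Agent.UPM

section

variable {V : Type} [Fintype V] [DecidableEq V] {S : Skew V}

/-- (1) -/
theorem CQ_sound {tq : V → V → Set (Finset (V × V))} {tt : V → V → V → V → Set (Finset (V × V))}
    (hq : ∀ x z, ∀ o ∈ tq x z, IsQ S x z o) (ht : ∀ A B C E, ∀ o ∈ tt A B C E, IsT S A B C E o)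
    {x z : V} {o : Finset (V × V)} (ho : o ∈ CQ S tt x z) : IsQ S x z o :=
  (cand V S tq tt hq ht).1 x z o ho

theorem CT_sound {tq : V → V → Set (Finset (V × V))} {tt : V → V → V → V → Set (Finset (V × V))}
    (hq : ∀ x z, ∀ o ∈ tq x z, IsQ S x z o) (ht : ∀ A B C E, ∀ o ∈ tt A B C E, IsT S A B C E o)
    {A B C E : V} {o : Finset (V × V)} (ho : o ∈ CT S tq tt A B C E) : IsT S A B C E o :=
  (cand V S tq tt hq ht).2 A B C E o ho

end

section

variable {V : Type*} [DecidableEq V] {S : Skew V}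

/-! ### Tails and heads -/

theorem IsT.tail_ne {A B C E : V} {o : Finset (V × V)} (ho : IsT S A B C E o) {u v : V}
    (h : (u, v) ∈ o) : u ≠ B ∧ u ≠ E := by
  obtain ⟨p, k, q, l, hp, hq, hd, rfl, rfl, rfl, rfl, rfl⟩ := ho
  rcases mem_union.1 h with h | h
  · obtain ⟨i, hi, he⟩ := mem_arcs.1 h
    obtain ⟨rfl, rfl⟩ := Prod.ext_iff.1 he
    exact ⟨fun e => by have := Path.inj hp hi.le le_rfl e; omega,
      fun e => (hd i l hi.le le_rfl).1 e.symm⟩
  · obtain ⟨i, hi, he⟩ := mem_arcs.1 h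
    obtain ⟨rfl, rfl⟩ := Prod.ext_iff.1 he
    exact ⟨fun e => (hd k i le_rfl hi.le).1 e,
      fun e => by have := Path.inj hq hi.le le_rfl e; omega⟩

theorem IsT.head_ne {A B C E : V} {o : Finset (V × V)} (ho : IsT S A B C E o) {u v : V}
    (h : (u, v) ∈ o) : v ≠ A ∧ v ≠ C := by
  obtain ⟨p, k, q, l, hp, hq, hd, rfl, rfl, rfl, rfl, rfl⟩ := ho
  rcases mem_union.1 h with h | h
  · obtain ⟨i, hi, he⟩ := mem_arcs.1 h
    obtain ⟨rfl, rfl⟩ := Prod.ext_iff.1 he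
    exact ⟨fun e => by have := Path.inj hp (Nat.succ_le_of_lt hi) (Nat.zero_le _) e; omega,
      fun e => (hd (i + 1) 0 hi (Nat.zero_le _)).1 e.symm⟩
  · obtain ⟨i, hi, he⟩ := mem_arcs.1 h
    obtain ⟨rfl, rfl⟩ := Prod.ext_iff.1 he
    exact ⟨fun e => (hd 0 (i + 1) (Nat.zero_le _) hi).1 e,
      fun e => by have := Path.inj hq (Nat.succ_le_of_lt hi) (Nat.zero_le _) e; omega⟩

theorem IsT.ends_ne {A B C E : V} {o : Finset (V × V)} (ho : IsT S A B C E o) :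
    C ≠ A ∧ C ≠ B ∧ E ≠ A ∧ E ≠ B := by
  obtain ⟨p, k, q, l, hp, hq, hd, rfl, rfl, rfl, rfl, rfl⟩ := ho
  exact ⟨(hd 0 0 (Nat.zero_le _) (Nat.zero_le _)).1, (hd k 0 le_rfl (Nat.zero_le _)).1,
    (hd 0 l (Nat.zero_le _) le_rfl).1, (hd k l le_rfl le_rfl).1⟩

/-! ### Weights -/

theorem wt_empty (W : V → V → ℤ) : wt W ∅ = 0 := by simp [wt]

theorem wt_lk (W : V → V → ℤ) (b a : V) : wt W (lk b a) = if b = a then 0 else W b a := by
  unfold lk
  split_ifs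
  · exact wt_empty W
  · simp [wt]

/-- (2) -/
theorem wt_ok1 (W : V → V → ℤ) {A B C E : V} {o1 o2 : Finset (V × V)} (h1 : IsQ S A B o1)
    (h2 : IsQ S C E o2) (h : OK1 S A B C E o1 o2) : wt W (o1 ∪ o2) = wt W o1 + wt W o2 := by
  obtain ⟨p, k, hp, rfl, rfl, rfl⟩ := h1
  obtain ⟨q, l, hq, rfl, rfl, rfl⟩ := h2
  refine wt_union W (arcs_disjoint (S := S) fun i j hi hj => ?_)
  exact h _ _ (nq_iff.2 ⟨i, hi, rfl⟩) (nq_iff.2 ⟨j, hj, rfl⟩)

/-- (3) -/
theorem wt_ok2 (W : V → V → ℤ) {A B C E A1 B1 C1 E1 : V} {o1 o2 : Finset (V × V)}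
    (h1 : IsT S A B1 C1 E o1) (h2 : IsT S A1 B C E1 o2)
    (h : OK2 S A B C E A1 B1 C1 E1 o1 o2) :
    wt W ((o1 ∪ o2) ∪ (lk B1 A1 ∪ lk E1 C1)) = wt W o1 + wt W o2 +
      (if B1 = A1 then 0 else W B1 A1) + (if E1 = C1 then 0 else W E1 C1) := by
  have d1 : Disjoint o1 o2 := by
    rw [disjoint_left]
    rintro ⟨u, v⟩ g1 g2
    have n1 : NT A B1 C1 E o1 u := Or.inr (Or.inr (Or.inr (Or.inr ⟨v, Or.inr g1⟩)))
    have n2 : NT A1 B C E1 o2 u := Or.inr (Or.inr (Or.inr (Or.inr ⟨v, Or.inr g2⟩)))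
    rcases (h u u n1 n2).1 rfl with ⟨e, _⟩ | ⟨_, e⟩
    · exact (h1.tail_ne g1).1 e
    · exact (h2.tail_ne g2).2 e
  have d2 : Disjoint (lk B1 A1) (lk E1 C1) := by
    rw [disjoint_left]
    intro x g1 g2
    unfold lk at g1 g2
    split_ifs at g1 g2 with e1 e2
    · exact notMem_empty _ g1
    · exact notMem_empty _ g1
    · exact notMem_empty _ g2
    · rw [mem_singleton] at g1 g2
      rw [g1] at g2
      obtain ⟨e3, e4⟩ := Prod.ext_iff.1 g2
      simp only at e3 e4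
      have n1 : NT A B1 C1 E o1 B1 := Or.inr (Or.inl rfl)
      have n2 : NT A1 B C E1 o2 E1 := Or.inr (Or.inr (Or.inr (Or.inl rfl)))
      rcases (h B1 E1 n1 n2).1 e3.symm with ⟨_, e⟩ | ⟨e, _⟩
      · exact h2.ends_ne.2.2.1 e
      · exact h1.ends_ne.2.1 e.symm
  have d3 : Disjoint (o1 ∪ o2) (lk B1 A1 ∪ lk E1 C1) := by
    rw [disjoint_left]
    intro x g1 g2
    rcases mem_union.1 g2 with g2 | g2
    · unfold lk at g2
      split_ifs at g2 with e1
      · exact notMem_empty _ g2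
      · rw [mem_singleton] at g2
        subst g2
        rcases mem_union.1 g1 with g1 | g1
        · exact (h1.tail_ne g1).1 rfl
        · exact (h2.head_ne g1).1 rfl
    · unfold lk at g2
      split_ifs at g2 with e1
      · exact notMem_empty _ g2
      · rw [mem_singleton] at g2
        subst g2
        rcases mem_union.1 g1 with g1 | g1
        · exact (h1.head_ne g1).2 rfl
        · exact (h2.tail_ne g1).2 rfl
  rw [wt_union W d3, wt_union W d1, wt_union W d2, wt_lk, wt_lk]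
  ring

/-- (4) -/
theorem wt_ins (W : V → V → ℤ) {x z B C : V} {o1 : Finset (V × V)} (h1 : IsT S x B C z o1) :
    wt W (insert (B, C) o1) = wt W o1 + W B C := by
  unfold wt
  rw [sum_insert]
  · ring
  · intro h
    exact (h1.tail_ne h).1 rfl

/-! ### Bounds -/

theorem IsQ.arc_mem {x z : V} {o : Finset (V × V)} (h : IsQ S x z o) {a b : V} (hab : (a, b) ∈ o) :
    S.arc a b := by
  obtain ⟨p, k, hp, rfl, rfl, rfl⟩ := h
  obtain ⟨i, hi, he⟩ := mem_arcs.1 hab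
  obtain ⟨rfl, rfl⟩ := Prod.ext_iff.1 he
  exact hp.1 i hi

theorem IsT.arc_mem {A B C E : V} {o : Finset (V × V)} (h : IsT S A B C E o) {a b : V}
    (hab : (a, b) ∈ o) : S.arc a b := by
  obtain ⟨p, k, q, l, hp, hq, hd, rfl, rfl, rfl, rfl, rfl⟩ := h
  rcases mem_union.1 hab with h | h
  · obtain ⟨i, hi, he⟩ := mem_arcs.1 h
    obtain ⟨rfl, rfl⟩ := Prod.ext_iff.1 he
    exact hp.1 i hi
  · obtain ⟨i, hi, he⟩ := mem_arcs.1 h
    obtain ⟨rfl, rfl⟩ := Prod.ext_iff.1 he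
    exact hq.1 i hi

theorem IsQ.tail_inj {x z : V} {o : Finset (V × V)} (h : IsQ S x z o) {a b b' : V}
    (h1 : (a, b) ∈ o) (h2 : (a, b') ∈ o) : b = b' := by
  obtain ⟨p, k, hp, rfl, rfl, rfl⟩ := h
  obtain ⟨i, hi, he⟩ := mem_arcs.1 h1
  obtain ⟨j, hj, he'⟩ := mem_arcs.1 h2
  have e1 := (Prod.ext_iff.1 he).1
  have e2 := (Prod.ext_iff.1 he').1
  simp only at e1 e2
  have := Path.inj hp hi.le hj.le (e1.symm.trans e2)
  subst this
  exact ((Prod.ext_iff.1 he).2).trans (Prod.ext_iff.1 he').2.symm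

theorem IsT.tail_inj {A B C E : V} {o : Finset (V × V)} (h : IsT S A B C E o) {a b b' : V}
    (h1 : (a, b) ∈ o) (h2 : (a, b') ∈ o) : b = b' := by
  obtain ⟨p, k, q, l, hp, hq, hd, rfl, rfl, rfl, rfl, rfl⟩ := h
  rcases mem_union.1 h1 with h1 | h1 <;> rcases mem_union.1 h2 with h2 | h2
  · exact IsQ.tail_inj ⟨p, k, hp, rfl, rfl, rfl⟩ h1 h2
  · obtain ⟨i, hi, he⟩ := mem_arcs.1 h1
    obtain ⟨j, hj, he'⟩ := mem_arcs.1 h2
    have e1 := (Prod.ext_iff.1 he).1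
    have e2 := (Prod.ext_iff.1 he').1
    simp only at e1 e2
    exact absurd (e2.symm.trans e1) (hd i j hi.le hj.le).1
  · obtain ⟨i, hi, he⟩ := mem_arcs.1 h2
    obtain ⟨j, hj, he'⟩ := mem_arcs.1 h1
    have e1 := (Prod.ext_iff.1 he).1
    have e2 := (Prod.ext_iff.1 he').1
    simp only at e1 e2
    exact absurd (e2.symm.trans e1) (hd i j hi.le hj.le).1
  · exact IsQ.tail_inj ⟨q, l, hq, rfl, rfl, rfl⟩ h1 h2

variable [Fintype V]

theorem card_le_of_tail {o : Finset (V × V)} (h : ∀ a b b', (a, b) ∈ o → (a, b') ∈ o → b = b') :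
    o.card ≤ Fintype.card V := by
  rw [← card_univ]
  refine card_le_card_of_injOn Prod.fst (fun _ _ => mem_coe.2 (mem_univ _)) ?_
  rintro ⟨a, b⟩ h1 ⟨a', b'⟩ h2 e
  simp only at e
  subst e
  rw [h a b b' (mem_coe.1 h1) (mem_coe.1 h2)]

theorem IsQ.card_le {x z : V} {o : Finset (V × V)} (h : IsQ S x z o) :
    o.card ≤ Fintype.card V := card_le_of_tail fun _ _ _ => h.tail_inj

theorem IsT.card_le {A B C E : V} {o : Finset (V × V)} (h : IsT S A B C E o) :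
    o.card ≤ Fintype.card V := card_le_of_tail fun _ _ _ => h.tail_inj

theorem abs_wt_le {W : V → V → ℤ} {c : ℤ} (hc : 0 ≤ c) {o : Finset (V × V)}
    (h : ∀ a b, (a, b) ∈ o → |W a b| ≤ c) (hn : o.card ≤ Fintype.card V) :
    |wt W o| ≤ c * Fintype.card V := by
  have h1 : |wt W o| ≤ ∑ e ∈ o, |W e.1 e.2| := abs_sum_le_sum_abs _ _
  have h2 : ∑ e ∈ o, |W e.1 e.2| ≤ o.card • c := sum_le_card_nsmul _ _ _ fun e he => h e.1 e.2 he
  have h3 : (o.card : ℤ) ≤ Fintype.card V := by exact_mod_cast hn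
  rw [nsmul_eq_mul] at h2
  have h4 : (o.card : ℤ) * c ≤ Fintype.card V * c := mul_le_mul_of_nonneg_right h3 hc
  rw [mul_comm c]
  exact h1.trans (h2.trans h4)

/-- (5) -/
theorem IsQ.abs_wt_le {W : V → V → ℤ} {c : ℤ} (hc : 0 ≤ c) (hW : ∀ a b, S.arc a b → |W a b| ≤ c)
    {x z : V} {o : Finset (V × V)} (h : IsQ S x z o) : |wt W o| ≤ c * Fintype.card V :=
  WUPM.abs_wt_le hc (fun a b hab => hW a b (h.arc_mem hab)) h.card_le

theorem IsT.abs_wt_le {W : V → V → ℤ} {c : ℤ} (hc : 0 ≤ c) (hW : ∀ a b, S.arc a b → |W a b| ≤ c)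
    {A B C E : V} {o : Finset (V × V)} (h : IsT S A B C E o) : |wt W o| ≤ c * Fintype.card V :=
  WUPM.abs_wt_le hc (fun a b hab => hW a b (h.arc_mem hab)) h.card_le

/-! ### Uniqueness of the best candidates -/

/-- (6) -/
theorem best_uniqQ {w : V → V → ℤ} (hU : Uniq S w) {x z : V} {C : Set (Finset (V × V))}
    (hC : ∀ o ∈ C, IsQ S x z o) {o o' : Finset (V × V)} (h : o ∈ best w C) (h' : o' ∈ best w C) :
    o = o' :=
  hU.1 x z o o' (hC o h.1) (hC o' h'.1) (le_antisymm (h.2 o' h'.1) (h'.2 o h.1))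

theorem best_uniqT {w : V → V → ℤ} (hU : Uniq S w) {A B C E : V} {D : Set (Finset (V × V))}
    (hD : ∀ o ∈ D, IsT S A B C E o) {o o' : Finset (V × V)} (h : o ∈ best w D)
    (h' : o' ∈ best w D) : o = o' :=
  hU.2 A B C E o o' (hD o h.1) (hD o' h'.1) (le_antisymm (h.2 o' h'.1) (h'.2 o h.1))

end

end Pool.Agent.WUPM
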