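import Mathlib
import Pool.Agent.NC.FO
import Pool.Agent.UPM.Det

/-!
# The system of formulas for weighted unique perfect matching (definitions)
-/

set_option autoImplicit false

namespace Pool.Agent.WUPM

open Finset Pool.Agent.NC Pool.Agent.UPM

/-! ### Determinants modulo 2 of matrices of power series -/

/-- Coefficient of `t^d` in the entry `(x, y)` of the `k`-th power of the leading `i × i` block of the
matrix with the entries `∑ d, a x y d * t^d`. -/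
def powd (a : ℕ → ℕ → ℕ → ZMod 2) (i : ℕ) : ℕ → ℕ → ℕ → ℕ → ZMod 2
  | 0, d, x, y => if x = y ∧ d = 0 then 1 else 0
  | 1, d, x, y => a x y d
  | k + 2, d, x, y => ∑ z ∈ range i, ∑ e ∈ range (d + 1),
      powd a i ((k + 2) / 2) e x z * powd a i (k + 2 - (k + 2) / 2) (d - e) z y
  termination_by k => k
  decreasing_by all_goals omega

/-- Coefficient of `t^m` in the last diagonal entry of the geometric series of the leading block of
size `i + 1`. -/
def geod (a : ℕ → ℕ → ℕ → ZMod 2) (i m : ℕ) : ZMod 2 := ∑ k ∈ range (m + 1), powd a (i + 1) k m i i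

/-- Coefficient of `t^m` in `det (1 - A)`. -/
def detd (n : ℕ) (a : ℕ → ℕ → ℕ → ZMod 2) (m : ℕ) : ZMod 2 :=
  invc (fun m => prodc (geod a) n 0 m) 1 m

open Classical in
/-- The matrix of a weighted graph: the entry `(x, y)` is `t^(D + wt x y)` if `x` and `y` are adjacent and
not in `{u, v}`. -/
noncomputable def matd (adj : ℕ → ℕ → Prop) (wt : ℕ → ℕ → ℕ) (D u v : ℕ) (x y d : ℕ) : ZMod 2 :=
  if adj x y ∧ x ≠ u ∧ x ≠ v ∧ y ≠ u ∧ y ≠ v ∧ d = D + wt x y then 1 else 0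

/-- **P10a**. -/
def DetRecStmt : Prop :=
  ∀ (n : ℕ) (a : ℕ → ℕ → ℕ → ZMod 2), (∀ x y, a x y 0 = 0) → ∀ m,
    detd n a m = PowerSeries.coeff m
      (1 - Matrix.of fun x y : Fin n => PowerSeries.mk (a x y)).det

/-- **P10b**. The candidate for the perfect matching. -/
def MateStmt : Prop :=
  ∀ (n P D : ℕ) (adj : ℕ → ℕ → Prop) (wt : ℕ → ℕ → ℕ),
    (∀ x y, adj x y → adj y x) → (∀ x, ¬ adj x x) → (∀ x y, wt x y = wt y x) →
    (∀ x y, adj x y → wt x y ≤ P) → n * P < D →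
    ∀ f : Fin n → Fin n, IsPM (fun x y : Fin n => adj x y) f →
    (∀ g, IsPM (fun x y : Fin n => adj x y) g → g ≠ f →
      ∑ v : Fin n, wt v (f v) < ∑ v : Fin n, wt v (g v)) →
    detd n (matd adj wt D n n) (n * D + ∑ v : Fin n, wt v (f v)) = 1 ∧
    (∀ m, n * D ≤ m → m < n * D + ∑ v : Fin n, wt v (f v) → detd n (matd adj wt D n n) m = 0) ∧
    ∀ u v : Fin n, adj u v →
      ((2 * wt u v ≤ ∑ v : Fin n, wt v (f v) ∧
        detd n (matd adj wt D u v) (n * D + ∑ v : Fin n, wt v (f v) - 2 * (D + wt u v)) = 1) ↔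
      f u = v)

/-! ### Parameters -/

/-- The number of rounds. -/
def rdn (K : ℕ) : ℕ := 1 + K * (K + 4)

section

variable (p : Polynomial ℕ) (N : ℕ)

/-- Number of nodes: the greatest `n` with `n * n * (p n + 1) ≤ N`. -/
def nn : ℕ := ((range N).filter fun i => (i + 1) * (i + 1) * (p.eval (i + 1) + 1) ≤ N).card

/-- Bound of the weights. -/
def PP : ℕ := p.eval (nn p N)

/-- Degree shift. -/
def DD : ℕ := nn p N * PP p N + 1

/-- Greatest degree. -/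
def MX : ℕ := nn p N * (DD p N + PP p N)

/-- Offset for the weights of objects. -/
def off : ℕ := 2 * PP p N * nn p N

/-- Logarithm of the number of nodes. -/
def kk : ℕ := Nat.log 2 N + 1

/-- Logarithm of the greatest degree. -/
def km : ℕ := Nat.log 2 (MX p N) + 1

/-- Number of rounds. -/
def rd : ℕ := rdn (kk N)

/-- Bound for the registers. -/
def bnd : ℕ := N + 2 * MX p N + 4 * off p N + 4 * PP p N + rd N + 2

/-- Number of stages. -/
def tot : ℕ := 3 * km p N + rd N + 8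

end

/-! ### Formulas: input and determinants -/

section

variable (p : Polynomial ℕ) (N : ℕ) (w : List Bool) (F : Itp)

/-- Letters of the input. -/
def bitF (a b c : ℕ) : Prop := w.getD ((a * nn p N + b) * (PP p N + 1) + c) false = true

/-- `a` and `b` are adjacent and the weight is `c`. -/
def wtF (a b c : ℕ) : Prop :=
  bitF p N w a b c ∧ (c = PP p N ∨ ¬ bitF p N w a b (c + 1))

/-- Entries of the matrix. -/
def delF (u v x y d : ℕ) : Prop :=
  ¬ x = u ∧ ¬ x = v ∧ ¬ y = u ∧ ¬ y = v ∧ ∃ c, c < PP p N + 1 ∧ wtF p N w x y c ∧ d = DD p N + c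

/-- Powers. -/
def powF (u v i k d x y : ℕ) : Prop :=
  (k = 0 ∧ x = y ∧ d = 0) ∨ (k = 1 ∧ delF p N w u v x y d) ∨
    (2 ≤ k ∧ Par i fun z => Par (d + 1) fun e =>
      F 1 (vec [u, v, i, k / 2, e, x, z]) ∧ F 1 (vec [u, v, i, k - k / 2, d - e, z, y]))

/-- Geometric series. -/
def geoF (u v i m : ℕ) : Prop := Par (m + 1) fun k => F 1 (vec [u, v, i + 1, k, m, i, i])

/-- Products. -/
def prodF (u v len lo k : ℕ) : Prop :=
  (len = 0 ∧ k = 0) ∨ (len = 1 ∧ geoF F u v lo k) ∨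
    (2 ≤ len ∧ Par (k + 1) fun j => F 2 (vec [u, v, len / 2, lo, j]) ∧
      F 2 (vec [u, v, len - len / 2, lo + len / 2, k - j]))

/-- Inverses. -/
def invF (u v q k : ℕ) : Prop :=
  ((q = 0 ∨ k < q) ∧ k = 0) ∨
    (¬ (q = 0 ∨ k < q) ∧ Par (k + 1) fun j => j % q = 0 ∧ F 2 (vec [u, v, nn p N, 0, j / q]) ∧
      F 3 (vec [u, v, 2 * q, k - j]))

/-- The degree of the minimum weight perfect matching. -/
def minF (m : ℕ) : Prop :=
  nn p N * DD p N ≤ m ∧ F 3 (vec [nn p N, nn p N, 1, m]) ∧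
    ∀ m', m' < m → nn p N * DD p N ≤ m' → ¬ F 3 (vec [nn p N, nn p N, 1, m'])

/-- The perfect matching. -/
def mateF (u v : ℕ) : Prop :=
  ∃ c, c < PP p N + 1 ∧ wtF p N w u v c ∧ ∃ m, m < MX p N + 1 ∧ minF p N F m ∧
    nn p N * DD p N + 2 * c ≤ m ∧ F 3 (vec [u, v, 1, m - 2 * (DD p N + c)])

/-! ### Formulas: arcs and objects -/

/-- Arcs between nodes of index at least `κ`; `l` is the weight plus `2 * PP`. -/
def arcF (κ a b l : ℕ) : Prop :=
  κ ≤ a ∧ κ ≤ b ∧ ¬ b = a ∧ ∃ a', a' < nn p N ∧ mateF p N w F a a' ∧ κ ≤ a' ∧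
    ∃ b', b' < nn p N ∧ mateF p N w F b b' ∧ κ ≤ b' ∧
      ∃ c₁, c₁ < PP p N + 1 ∧ wtF p N w a b' c₁ ∧ ∃ c₂, c₂ < PP p N + 1 ∧ wtF p N w a a' c₂ ∧
        ∃ c₃, c₃ < PP p N + 1 ∧ wtF p N w b b' c₃ ∧ l + c₂ + c₃ = 2 * c₁ + 2 * PP p N

/-- Links. -/
def lkF (κ b a l : ℕ) : Prop := (b = a ∧ l = 2 * PP p N) ∨ arcF p N w F κ b a l

/-- Weights of path objects. -/
def qW (κ τ x z s : ℕ) : Prop := F 4 (vec [κ, τ, x, z, s])

/-- Arcs of path objects. -/
def qA (κ τ x z a b : ℕ) : Prop := F 5 (vec [κ, τ, x, z, a, b])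

/-- Weights of pair objects. -/
def tW (κ τ A B C E s : ℕ) : Prop := F 6 (vec [κ, τ, A, B, C, E, s])

/-- Arcs of pair objects. -/
def tA (κ τ A B C E a b : ℕ) : Prop := F 7 (vec [κ, τ, A, B, C, E, a, b])

/-- Nodes of path objects. -/
def nqF (κ τ x z v : ℕ) : Prop :=
  v = x ∨ v = z ∨ ∃ u, u < nn p N ∧ (qA F κ τ x z u v ∨ qA F κ τ x z v u)

/-- Nodes of pair objects. -/
def ntF (κ τ A B C E v : ℕ) : Prop :=
  v = A ∨ v = B ∨ v = C ∨ v = E ∨
    ∃ u, u < nn p N ∧ (tA F κ τ A B C E u v ∨ tA F κ τ A B C E v u)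

/-- Disjoint path objects. -/
def ok1F (κ τ A B C E : ℕ) : Prop :=
  ∀ u, u < nn p N → ∀ v, v < nn p N → nqF p N F κ τ A B u → nqF p N F κ τ C E v →
    ¬ v = u ∧ ¬ mateF p N w F u v

end

/-- Keys: `k` is the deletion index, `r` is the round. -/
structure Ky where
  k : ℕ
  r : ℕ
  a : ℕ
  b : ℕ
  c : ℕ
  e : ℕ

/-- Candidates: `t` is the type. -/
structure Cd where
  t : ℕ
  a : ℕ
  b : ℕ
  c : ℕ
  e : ℕ

section

variable (p : Polynomial ℕ) (N : ℕ) (w : List Bool) (F : Itp)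

/-- Compatible pair objects. -/
def ok2F (K : Ky) (d : Cd) : Prop :=
  ∀ u, u < nn p N → ∀ v, v < nn p N → ntF p N F K.k K.r K.a d.b d.c K.e u →
    ntF p N F K.k K.r d.a K.b K.c d.e v →
    (v = u → (u = d.b ∧ v = d.a) ∨ (u = d.c ∧ v = d.e)) ∧ ¬ mateF p N w F u v

/-- The candidate `d` is valid and its weight plus offset is `s`. Types: 0: two paths; 1: two pairs;
2: trivial path; 3: a pair and an arc. -/
def cW (K : Ky) (d : Cd) (s : ℕ) : Prop :=
  (d.t = 0 ∧ ok1F p N w F K.k K.r K.a K.b K.c K.e ∧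
    ∃ s₁, s₁ < 2 * off p N + 1 ∧ qW F K.k K.r K.a K.b s₁ ∧
      ∃ s₂, s₂ < 2 * off p N + 1 ∧ qW F K.k K.r K.c K.e s₂ ∧ s + off p N = s₁ + s₂) ∨
  (d.t = 1 ∧ ok2F p N w F K d ∧
    ∃ s₁, s₁ < 2 * off p N + 1 ∧ tW F K.k K.r K.a d.b d.c K.e s₁ ∧
      ∃ s₂, s₂ < 2 * off p N + 1 ∧ tW F K.k K.r d.a K.b K.c d.e s₂ ∧
        ∃ l₁, l₁ < 4 * PP p N + 1 ∧ lkF p N w F K.k d.b d.a l₁ ∧
          ∃ l₂, l₂ < 4 * PP p N + 1 ∧ lkF p N w F K.k d.e d.c l₂ ∧
            s + off p N + 4 * PP p N = s₁ + s₂ + l₁ + l₂) ∨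
  (d.t = 2 ∧ K.a = K.b ∧ s = off p N) ∨
  (d.t = 3 ∧ ∃ s₁, s₁ < 2 * off p N + 1 ∧ tW F K.k K.r K.a d.b d.c K.b s₁ ∧
      ∃ l, l < 4 * PP p N + 1 ∧ arcF p N w F K.k d.b d.c l ∧ s + 2 * PP p N = s₁ + l)

/-- The arcs of the candidate `d`. -/
def cA (K : Ky) (d : Cd) (a b : ℕ) : Prop :=
  (d.t = 0 ∧ (qA F K.k K.r K.a K.b a b ∨ qA F K.k K.r K.c K.e a b)) ∨
  (d.t = 1 ∧ (tA F K.k K.r K.a d.b d.c K.e a b ∨ tA F K.k K.r d.a K.b K.c d.e a b ∨
    (¬ d.b = d.a ∧ a = d.b ∧ b = d.a) ∨ (¬ d.e = d.c ∧ a = d.e ∧ b = d.c))) ∨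
  (d.t = 3 ∧ (tA F K.k K.r K.a d.b d.c K.b a b ∨ (a = d.b ∧ b = d.c)))

/-- The symmetrised arcs of the candidate `d`. -/
def mskF (K : Ky) (d : Cd) (a b : ℕ) : Prop :=
  cA F K d a b ∨ ∃ a', a' < nn p N ∧ mateF p N w F a a' ∧
    ∃ b', b' < nn p N ∧ mateF p N w F b b' ∧ cA F K d b' a'

/-- Comparison of candidates. -/
def lessF (K : Ky) (d₁ : Cd) (s₁ : ℕ) (d₂ : Cd) (s₂ : ℕ) : Prop :=
  s₁ < s₂ ∨ (s₁ = s₂ ∧ ∃ a, a < nn p N ∧ ∃ b, b < nn p N ∧ mskF p N w F K d₂ a b ∧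
    ¬ mskF p N w F K d₁ a b ∧ ∀ a', a' < nn p N → ∀ b', b' < nn p N →
      a * nn p N + b < a' * nn p N + b' → mskF p N w F K d₁ a' b' → mskF p N w F K d₂ a' b')

/-- Quantifier over candidates of type `lo` or `lo + 1`. -/
def exCd (n lo : ℕ) (P : Cd → Prop) : Prop :=
  ∃ t, t < 2 ∧ ∃ a, a < n ∧ ∃ b, b < n ∧ ∃ c, c < n ∧ ∃ e, e < n ∧ P ⟨lo + t, a, b, c, e⟩

/-- The candidate `d` is valid, its weight plus offset is `s`, and it is best. -/
def bestF (lo : ℕ) (K : Ky) (d : Cd) (s : ℕ) : Prop :=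
  cW p N w F K d s ∧ ¬ exCd (nn p N) lo fun d' => ∃ s', s' < 2 * off p N + 1 ∧
    cW p N w F K d' s' ∧ lessF p N w F K d' s' d s

/-- Weights of the new objects. -/
def newW (lo : ℕ) (K : Ky) (s : ℕ) : Prop :=
  1 ≤ K.r ∧ exCd (nn p N) lo fun d => bestF p N w F lo ⟨K.k, K.r - 1, K.a, K.b, K.c, K.e⟩ d s

/-- Arcs of the new objects. -/
def newA (lo : ℕ) (K : Ky) (a b : ℕ) : Prop :=
  1 ≤ K.r ∧ exCd (nn p N) lo fun d => (∃ s, s < 2 * off p N + 1 ∧
    bestF p N w F lo ⟨K.k, K.r - 1, K.a, K.b, K.c, K.e⟩ d s) ∧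
      cA F ⟨K.k, K.r - 1, K.a, K.b, K.c, K.e⟩ d a b

/-! ### The output -/

/-- The input is well formed. -/
def inpF : Prop :=
  nn p N * nn p N * (PP p N + 1) = N ∧
    ∀ a, a < nn p N → ∀ b, b < nn p N → ¬ bitF p N w a a 0 ∧
      (∀ c, c < PP p N → bitF p N w a b (c + 1) → bitF p N w a b c) ∧
      ∀ c, c < PP p N + 1 → bitF p N w a b c → bitF p N w b a c

/-- The candidate is a perfect matching. -/
def pmF : Prop :=
  ∀ u, u < nn p N → ∃ v, v < nn p N ∧ mateF p N w F u v ∧ mateF p N w F v u ∧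
    ∀ v', v' < nn p N → mateF p N w F u v' → v' = v

/-- The test. -/
def accF : Prop :=
  ∀ v, v < nn p N → ∀ v', v' < nn p N → mateF p N w F v v' →
    ∀ x, x < nn p N → ∀ y, y < nn p N →
      ∀ l₁, l₁ < 4 * PP p N + 1 → arcF p N w F 0 v x l₁ →
        ∀ l₂, l₂ < 4 * PP p N + 1 → arcF p N w F 0 y v l₂ →
          ∀ s, s < 2 * off p N + 1 → qW F (v - (v - v') + 1) (rd N) x y s →
            off p N + 4 * PP p N < s + l₁ + l₂

/-- The output. -/
def outF : Prop := inpF p N w ∧ pmF p N w F ∧ accF p N w F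

end

/-- The system. -/
def sys (p : Polynomial ℕ) (i : ℕ) (w : List Bool) (F : Itp) (e : ℕ → ℕ) : Prop :=
  match i with
  | 0 => outF p w.length w F
  | 1 => powF p w.length w F (e 0) (e 1) (e 2) (e 3) (e 4) (e 5) (e 6)
  | 2 => prodF F (e 0) (e 1) (e 2) (e 3) (e 4)
  | 3 => invF p w.length F (e 0) (e 1) (e 2) (e 3)
  | 4 => newW p w.length w F 2 ⟨e 0, e 1, e 2, e 3, 0, 0⟩ (e 4)
  | 5 => newA p w.length w F 2 ⟨e 0, e 1, e 2, e 3, 0, 0⟩ (e 4) (e 5)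
  | 6 => newW p w.length w F 0 ⟨e 0, e 1, e 2, e 3, e 4, e 5⟩ (e 6)
  | 7 => newA p w.length w F 0 ⟨e 0, e 1, e 2, e 3, e 4, e 5⟩ (e 6) (e 7)
  | _ => False

/-! ### Statements of the packages -/

open Classical in
/-- The matrix given by the formula. -/
noncomputable def dmat (p : Polynomial ℕ) (N : ℕ) (w : List Bool) (u v x y d : ℕ) : ZMod 2 :=
  if delF p N w u v x y d then 1 else 0

/-- Stages of the system. -/
noncomputable abbrev St (p : Polynomial ℕ) (B : ℕ) (w : List Bool) (t : ℕ) : Itp :=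
  stage (sys p) 8 B w t

/-- Stages of the system, for truncated arguments. -/
noncomputable def Fc (p : Polynomial ℕ) (B : ℕ) (w : List Bool) (t : ℕ) : Itp := fun j e =>
  St p B w t j (clamp 8 B e)

/-- **P12a**. -/
def DetSemStmt : Prop :=
  ∀ (p : Polynomial ℕ) (w : List Bool) (B t κ u v m : ℕ), MX p w.length < 2 ^ κ →
    2 * MX p w.length + w.length + 2 ≤ B → 3 * κ + 3 ≤ t → u ≤ nn p w.length →
    v ≤ nn p w.length → m ≤ MX p w.length →
    (Fc p B w t 3 (vec [u, v, 1, m]) ↔ detd (nn p w.length) (dmat p w.length w u v) m = 1)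

/-- The nodes of the graph of a word. -/
abbrev VV (p : Polynomial ℕ) (w : List Bool) : Type := Fin (nn p w.length)

/-- Adjacency. -/
def adjV (p : Polynomial ℕ) (w : List Bool) (a b : VV p w) : Prop := bitF p w.length w a b 0

open Classical in
/-- Weights. -/
noncomputable def wtV (p : Polynomial ℕ) (w : List Bool) (a b : VV p w) : ℕ :=
  ((range (PP p w.length)).filter fun c => bitF p w.length w a b (c + 1)).card

open Classical in
/-- The words of the weighted graphs with weights at most `p n`, which have exactly one perfect matching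
of minimum weight. Letter number `(a * n + b) * (p n + 1) + c` is `true` iff `a` and `b` are adjacent and
`c` is at most the weight. -/
def wupmLang (p : Polynomial ℕ) : Set (List Bool) :=
  {x | ∃ (n : ℕ) (G : SimpleGraph (Fin n)) (w : Sym2 (Fin n) → ℕ),
    (∀ e ∈ G.edgeSet, w e ≤ p.eval n) ∧
    (x = List.ofFn fun i : Fin (n * n * (p.eval n + 1)) =>
      decide (G.Adj i.divNat.divNat i.divNat.modNat ∧
        (i.modNat : ℕ) ≤ w s(i.divNat.divNat, i.divNat.modNat))) ∧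
    ∃! M : G.Subgraph, M.IsPerfectMatching ∧
      ∀ M' : G.Subgraph, M'.IsPerfectMatching → ∑ᶠ e ∈ M.edgeSet, w e ≤ ∑ᶠ e ∈ M'.edgeSet, w e}

/-- **P13a**. -/
def LangStmt : Prop :=
  ∀ (p : Polynomial ℕ) (x : List Bool), x ∈ wupmLang p ↔
    inpF p x.length x ∧ ∃ f : VV p x → VV p x, IsPM (adjV p x) f ∧
      ∀ g, IsPM (adjV p x) g → g ≠ f → ∑ v, wtV p x v (f v) < ∑ v, wtV p x v (g v)

end Pool.Agent.WUPM
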