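import Mathlib
import Pool.Agent.WUPM.SysDefs

/-!
# The language in terms of the formulas
-/

set_option autoImplicit false

namespace Pool.Agent.WUPM

open Pool.Agent.UPM Pool.Agent.NC Finset

/-! ### Matchings as subgraphs and as involutions -/

/-- Subgraphs and involutions which describe the same matching. -/
def Same {V : Type} (G : SimpleGraph V) (M : G.Subgraph) (f : V → V) : Prop :=
  ∀ a b, M.Adj a b ↔ f a = b

theorem exists_sub {V : Type} (G : SimpleGraph V) (f : V → V) (hf : IsPM G.Adj f) :
    ∃ M : G.Subgraph, M.IsPerfectMatching ∧ Same G M f := by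
  refine ⟨⟨Set.univ, fun a b => f a = b, fun {a b} h => h ▸ hf.2 a, fun {a b} _ => trivial,
    ⟨fun a b h => by rw [← (show f a = b from h), hf.1]⟩⟩, ⟨?_, ?_⟩, fun a b => Iff.rfl⟩
  · intro v _
    exact ⟨f v, rfl, fun w hw => (show f v = w from hw).symm⟩
  · intro v
    exact trivial

theorem exists_fun {V : Type} (G : SimpleGraph V) (M : G.Subgraph) (hM : M.IsPerfectMatching) :
    ∃ f : V → V, IsPM G.Adj f ∧ Same G M f := by
  classical
  have h1 : ∀ v, ∃! w, M.Adj v w := fun v => hM.1 (hM.2 v)
  choose f hf hfu using h1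
  have h2 : ∀ a b, M.Adj a b ↔ f a = b := fun a b =>
    ⟨fun h => (hfu a b h).symm, fun h => h ▸ hf a⟩
  refine ⟨f, ⟨fun v => ?_, fun v => M.adj_sub (hf v)⟩, h2⟩
  exact (h2 _ _).1 (hf v).symm

theorem same_inj {V : Type} (G : SimpleGraph V) {M M' : G.Subgraph} (hM : M.IsPerfectMatching)
    (hM' : M'.IsPerfectMatching) {f : V → V} (h : Same G M f) (h' : Same G M' f) : M = M' := by
  ext a b
  · exact iff_of_true (hM.2 a) (hM'.2 a)
  · exact (h a b).trans (h' a b).symm

section

variable {V : Type} [Fintype V]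

/-- The weight of a matching. -/
theorem two_mul_weight (G : SimpleGraph V) (wt : Sym2 V → ℕ) {M : G.Subgraph} {f : V → V}
    (hf : IsPM G.Adj f) (h : Same G M f) :
    2 * ∑ᶠ e ∈ M.edgeSet, wt e = ∑ v, wt s(v, f v) := by
  classical
  have hE : M.edgeSet = ↑(univ.image fun v => s(v, f v)) := by
    ext e
    induction e with
    | _ a b =>
      rw [SimpleGraph.Subgraph.mem_edgeSet, h a b]
      simp only [coe_image, coe_univ, Set.image_univ, Set.mem_range, Sym2.eq_iff]
      constructor
      · rintro rfl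
        exact ⟨a, Or.inl ⟨rfl, rfl⟩⟩
      · rintro ⟨v, ⟨rfl, rfl⟩ | ⟨rfl, rfl⟩⟩
        · rfl
        · exact hf.1 _
  rw [hE, finsum_mem_coe_finset, mul_sum,
    ← sum_fiberwise_of_maps_to (s := univ) (t := univ.image fun v => s(v, f v))
      (g := fun v => s(v, f v)) (fun v _ => mem_image_of_mem _ (mem_univ v))]
  refine sum_congr rfl fun e he => ?_
  obtain ⟨v, _, rfl⟩ := mem_image.1 he
  have hne : v ≠ f v := (hf.2 v).ne
  have hfib : (univ.filter fun u => s(u, f u) = s(v, f v)) = {v, f v} := by
    ext u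
    simp only [mem_filter, mem_univ, true_and, Sym2.eq_iff, mem_insert, mem_singleton]
    constructor
    · rintro (⟨h1, _⟩ | ⟨h1, _⟩)
      · exact Or.inl h1
      · exact Or.inr h1
    · rintro (rfl | rfl)
      · exact Or.inl ⟨rfl, rfl⟩
      · exact Or.inr ⟨rfl, hf.1 v⟩
  have : ∀ u ∈ univ.filter (fun u => s(u, f u) = s(v, f v)), wt s(u, f u) = wt s(v, f v) :=
    fun u hu => by rw [(mem_filter.1 hu).2]
  rw [sum_congr rfl this, sum_const, hfib, card_pair hne]
  simp

/-- There is exactly one perfect matching of minimum weight. -/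
theorem unique_min_iff (G : SimpleGraph V) (wt : Sym2 V → ℕ) :
    (∃! M : G.Subgraph, M.IsPerfectMatching ∧ ∀ M' : G.Subgraph, M'.IsPerfectMatching →
      ∑ᶠ e ∈ M.edgeSet, wt e ≤ ∑ᶠ e ∈ M'.edgeSet, wt e) ↔
    ∃ f : V → V, IsPM G.Adj f ∧ ∀ g, IsPM G.Adj g → g ≠ f →
      ∑ v, wt s(v, f v) < ∑ v, wt s(v, g v) := by
  constructor
  · rintro ⟨M, ⟨hM, hmin⟩, hu⟩
    obtain ⟨f, hf, hs⟩ := exists_fun G M hM
    refine ⟨f, hf, fun g hg hne => ?_⟩
    obtain ⟨M', hM', hs'⟩ := exists_sub G g hg
    rw [← two_mul_weight G wt hf hs, ← two_mul_weight G wt hg hs']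
    by_contra hlt
    have hle : ∑ᶠ e ∈ M'.edgeSet, wt e ≤ ∑ᶠ e ∈ M.edgeSet, wt e := by omega
    have hMM := hu M' ⟨hM', fun M'' h'' => hle.trans (hmin M'' h'')⟩
    subst hMM
    exact hne (funext fun v => ((hs v (g v)).1 ((hs' v (g v)).2 rfl)).symm)
  · rintro ⟨f, hf, hmin⟩
    obtain ⟨M, hM, hs⟩ := exists_sub G f hf
    have key : ∀ M' : G.Subgraph, M'.IsPerfectMatching → M' ≠ M →
        ∑ᶠ e ∈ M.edgeSet, wt e < ∑ᶠ e ∈ M'.edgeSet, wt e := by
      intro M' hM' hne
      obtain ⟨g, hg, hs'⟩ := exists_fun G M' hM'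
      have hgf : g ≠ f := by
        rintro rfl
        exact hne (same_inj G hM' hM hs' hs)
      have := hmin g hg hgf
      rw [← two_mul_weight G wt hf hs, ← two_mul_weight G wt hg hs'] at this
      omega
    refine ⟨M, ⟨hM, fun M' hM' => ?_⟩, fun M' hM' => ?_⟩
    · by_cases e : M' = M
      · rw [e]
      · exact (key M' hM' e).le
    · by_contra hne
      exact absurd (hM'.2 M hM) (not_le.2 (key M' hM'.1 hne))

end

/-! ### The number of nodes -/

/-- Length of the words of the graphs with `n` nodes. -/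
def wlen (p : Polynomial ℕ) (n : ℕ) : ℕ := n * n * (p.eval n + 1)

theorem eval_mono (p : Polynomial ℕ) {a b : ℕ} (h : a ≤ b) : p.eval a ≤ p.eval b := by
  rw [Polynomial.eval_eq_sum_range, Polynomial.eval_eq_sum_range]
  exact sum_le_sum fun i _ => Nat.mul_le_mul_left _ (Nat.pow_le_pow_left h i)

theorem wlen_mono (p : Polynomial ℕ) {a b : ℕ} (h : a ≤ b) : wlen p a ≤ wlen p b :=
  Nat.mul_le_mul (Nat.mul_le_mul h h) (Nat.add_le_add_right (eval_mono p h) 1)

theorem wlen_lt (p : Polynomial ℕ) {a b : ℕ} (h : a < b) : wlen p a < wlen p b := by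
  have h1 : a * a < b * b := Nat.mul_self_lt_mul_self h
  calc a * a * (p.eval a + 1) < b * b * (p.eval a + 1) :=
        Nat.mul_lt_mul_of_pos_right h1 (Nat.succ_pos _)
    _ ≤ b * b * (p.eval b + 1) :=
        Nat.mul_le_mul_left _ (Nat.add_le_add_right (eval_mono p h.le) 1)

theorem le_wlen (p : Polynomial ℕ) (n : ℕ) : n ≤ wlen p n := by
  unfold wlen
  nlinarith [Nat.le_mul_self n, Nat.zero_le (n * n * p.eval n)]

theorem nn_wlen (p : Polynomial ℕ) (n : ℕ) : nn p (wlen p n) = n := by
  have : (range (wlen p n)).filter (fun i => wlen p (i + 1) ≤ wlen p n) = range n := by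
    ext i
    simp only [mem_filter, mem_range]
    constructor
    · rintro ⟨_, h⟩
      by_contra hi
      exact absurd (wlen_lt p (show n < i + 1 by omega)) (not_lt.2 h)
    · intro h
      exact ⟨h.trans_le (le_wlen p n), wlen_mono p h⟩
  change ((range (wlen p n)).filter fun i => wlen p (i + 1) ≤ wlen p n).card = n
  rw [this, card_range]

/-! ### Words -/

theorem div_mod_aux {n a b : ℕ} (hb : b < n) : (a * n + b) / n = a ∧ (a * n + b) % n = b := by
  constructor
  · rw [mul_comm, Nat.mul_add_div (by omega), Nat.div_eq_of_lt hb, add_zero]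
  · rw [mul_comm, Nat.mul_add_mod, Nat.mod_eq_of_lt hb]

theorem pos_lt {n P a b k : ℕ} (ha : a < n) (hb : b < n) (hk : k < P + 1) :
    (a * n + b) * (P + 1) + k < n * n * (P + 1) := by
  have h1 : a * n + n ≤ n * n := by
    rw [← Nat.succ_mul]
    exact Nat.mul_le_mul_right n ha
  have h2 : (a * n + b + 1) * (P + 1) ≤ n * n * (P + 1) := Nat.mul_le_mul_right _ (by omega)
  calc (a * n + b) * (P + 1) + k < (a * n + b) * (P + 1) + (P + 1) := by omega
    _ = (a * n + b + 1) * (P + 1) := by ring
    _ ≤ _ := h2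

open Classical in
/-- The word of a weighted graph. -/
noncomputable def code {n : ℕ} (P : ℕ) (G : SimpleGraph (Fin n)) (wt : Sym2 (Fin n) → ℕ) :
    List Bool :=
  List.ofFn fun i : Fin (n * n * (P + 1)) =>
    decide (G.Adj i.divNat.divNat i.divNat.modNat ∧
      (i.modNat : ℕ) ≤ wt s(i.divNat.divNat, i.divNat.modNat))

theorem code_length {n : ℕ} (P : ℕ) (G : SimpleGraph (Fin n)) (wt : Sym2 (Fin n) → ℕ) :
    (code P G wt).length = n * n * (P + 1) := by
  unfold code
  rw [List.length_ofFn]

theorem code_bit {n : ℕ} (P : ℕ) (G : SimpleGraph (Fin n)) (wt : Sym2 (Fin n) → ℕ) (a b : Fin n)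
    {k : ℕ} (hk : k < P + 1) :
    (code P G wt).getD ((a * n + b) * (P + 1) + k) false = true ↔
      G.Adj a b ∧ k ≤ wt s(a, b) := by
  classical
  have hlt := pos_lt a.2 b.2 hk
  rw [List.getD_eq_getElem _ _ (by rw [code_length]; exact hlt)]
  unfold code
  rw [List.getElem_ofFn, decide_eq_true_iff]
  obtain ⟨h1, h2⟩ := div_mod_aux (n := P + 1) (a := a * n + b) hk
  obtain ⟨h3, h4⟩ := div_mod_aux (n := n) (a := a) b.2
  have e1 : (⟨(a * n + b) * (P + 1) + k, hlt⟩ : Fin (n * n * (P + 1))).divNat.divNat = a := by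
    apply Fin.ext
    simp only [Fin.coe_divNat]
    rw [h1, h3]
  have e2 : (⟨(a * n + b) * (P + 1) + k, hlt⟩ : Fin (n * n * (P + 1))).divNat.modNat = b := by
    apply Fin.ext
    simp only [Fin.coe_divNat, Fin.coe_modNat]
    rw [h1, h4]
  have e3 : ((⟨(a * n + b) * (P + 1) + k, hlt⟩ : Fin (n * n * (P + 1))).modNat : ℕ) = k := by
    simp only [Fin.coe_modNat]
    rw [h2]
  rw [e1, e2, e3]

/-! ### Weights of a well formed word -/

section

variable {p : Polynomial ℕ} {w : List Bool}

open Classical in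
/-- Weights. -/
noncomputable def wtN (p : Polynomial ℕ) (w : List Bool) (a b : ℕ) : ℕ :=
  ((range (PP p w.length)).filter fun k => bitF p w.length w a b (k + 1)).card

theorem wtN_le (p : Polynomial ℕ) (w : List Bool) (a b : ℕ) : wtN p w a b ≤ PP p w.length := by
  classical
  unfold wtN
  exact (card_filter_le _ _).trans (card_range _).le

theorem bit_iff (hw : inpF p w.length w) {a b : ℕ} (ha : a < nn p w.length)
    (hb : b < nn p w.length) {k : ℕ} (hk : k < PP p w.length + 1) :
    bitF p w.length w a b k ↔ bitF p w.length w a b 0 ∧ k ≤ wtN p w a b := by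
  classical
  have hmono : ∀ j k, j ≤ k → k < PP p w.length + 1 → bitF p w.length w a b k →
      bitF p w.length w a b j := by
    intro j k hjk
    induction k, hjk using Nat.le_induction with
    | base => exact fun _ h => h
    | succ k _ ih => exact fun h1 h2 => ih (by omega) ((hw.2 a ha b hb).2.1 k (by omega) h2)
  constructor
  · intro h
    refine ⟨hmono 0 k (Nat.zero_le _) hk h, ?_⟩
    have hs : range k ⊆ (range (PP p w.length)).filter
        fun k => bitF p w.length w a b (k + 1) := by
      intro j hj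
      rw [mem_range] at hj
      exact mem_filter.2 ⟨mem_range.2 (by omega), hmono (j + 1) k hj hk h⟩
    have := card_le_card hs
    rwa [card_range] at this
  · rintro ⟨h0, hle⟩
    cases k with
    | zero => exact h0
    | succ k =>
      by_contra hnot
      have hs : ((range (PP p w.length)).filter fun k => bitF p w.length w a b (k + 1)) ⊆
          range k := by
        intro j hj
        rw [mem_filter, mem_range] at hj
        rw [mem_range]
        by_contra hjk
        exact hnot (hmono (k + 1) (j + 1) (by omega) (by omega) hj.2)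
      have := card_le_card hs
      rw [card_range] at this
      unfold wtN at hle
      omega

/-- Meaning of the formula for the weights. -/
theorem wtF_iff (hw : inpF p w.length w) (a b : VV p w) {k : ℕ} (hk : k < PP p w.length + 1) :
    wtF p w.length w a b k ↔ adjV p w a b ∧ wtV p w a b = k := by
  have h1 := wtN_le p w a b
  have e : wtV p w a b = wtN p w a b := rfl
  rw [e]
  unfold wtF adjV
  constructor
  · rintro ⟨hb, hn⟩
    have h2 := (bit_iff hw a.2 b.2 hk).1 hb
    refine ⟨h2.1, ?_⟩
    by_contra hne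
    have h3 : k < wtN p w a b := lt_of_le_of_ne h2.2 fun e => hne e.symm
    rcases hn with hn | hn
    · omega
    · exact hn ((bit_iff hw a.2 b.2 (by omega)).2 ⟨h2.1, h3⟩)
  · rintro ⟨h0, hk'⟩
    refine ⟨(bit_iff hw a.2 b.2 hk).2 ⟨h0, hk'.ge⟩, ?_⟩
    by_cases h : k = PP p w.length
    · exact Or.inl h
    · refine Or.inr fun h4 => ?_
      have := ((bit_iff hw a.2 b.2 (by omega)).1 h4).2
      omega

theorem wtV_le (a b : VV p w) : wtV p w a b ≤ PP p w.length := wtN_le p w a b

theorem adjV_symm (hw : inpF p w.length w) (a b : VV p w) (h : adjV p w a b) : adjV p w b a :=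
  (hw.2 a a.2 b b.2).2.2 0 (Nat.succ_pos _) h

theorem adjV_irrefl (hw : inpF p w.length w) (a : VV p w) : ¬ adjV p w a a :=
  (hw.2 a a.2 a a.2).1

theorem wtV_comm (hw : inpF p w.length w) (a b : VV p w) : wtV p w a b = wtV p w b a := by
  classical
  unfold wtV
  refine congrArg card ?_
  ext k
  rw [mem_filter, mem_filter, mem_range]
  exact and_congr_right fun hk =>
    ⟨(hw.2 a a.2 b b.2).2.2 _ (by omega), (hw.2 b b.2 a a.2).2.2 _ (by omega)⟩

end

theorem lang : LangStmt := by
  classical
  intro p w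
  constructor
  · rintro ⟨n, G, wt, hle, hw, hM⟩
    rw [unique_min_iff] at hM
    have hw : w = code (p.eval n) G wt := hw
    have hl : w.length = wlen p n := by rw [hw, code_length]; rfl
    have hn : n = nn p w.length := by rw [hl, nn_wlen]
    subst hn
    have hP : p.eval (nn p w.length) = PP p w.length := rfl
    rw [hP] at hle hw
    have hbit : ∀ (a b : VV p w) (k : ℕ), k < PP p w.length + 1 →
        (bitF p w.length w a b k ↔ G.Adj a b ∧ k ≤ wt s(a, b)) := by
      intro a b k hk
      have := code_bit (PP p w.length) G wt a b hk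
      rw [← hw] at this
      exact this
    have hwf : inpF p w.length w := by
      refine ⟨?_, ?_⟩
      · rw [hl, nn_wlen]
        unfold PP
        rw [nn_wlen]
        rfl
      · intro a ha b hb
        refine ⟨fun h => ?_, fun k hk h => ?_, fun k hk h => ?_⟩
        · exact G.irrefl ((hbit ⟨a, ha⟩ ⟨a, ha⟩ 0 (by omega)).1 h).1
        · have h1 := (hbit ⟨a, ha⟩ ⟨b, hb⟩ _ (by omega)).1 h
          exact (hbit ⟨a, ha⟩ ⟨b, hb⟩ _ (by omega)).2 ⟨h1.1, by omega⟩
        · have h1 := (hbit ⟨a, ha⟩ ⟨b, hb⟩ _ hk).1 h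
          refine (hbit ⟨b, hb⟩ ⟨a, ha⟩ _ hk).2 ⟨h1.1.symm, ?_⟩
          rw [Sym2.eq_swap]
          exact h1.2
    have hA : adjV p w = G.Adj := by
      funext a b
      refine propext ((hbit a b 0 (Nat.succ_pos _)).trans ?_)
      simp
    have hW : ∀ a b : VV p w, adjV p w a b → wt s(a, b) = wtV p w a b := by
      intro a b hab
      have hab' : G.Adj a b := hA ▸ hab
      have h1 : wt s(a, b) ≤ PP p w.length := hle _ ((G.mem_edgeSet).2 hab')
      have h2 : wtF p w.length w a b (wt s(a, b)) := by
        refine ⟨(hbit a b _ (by omega)).2 ⟨hab', le_rfl⟩, ?_⟩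
        by_cases h : wt s(a, b) = PP p w.length
        · exact Or.inl h
        · refine Or.inr fun h4 => ?_
          have := ((hbit a b _ (by omega)).1 h4).2
          omega
      exact ((wtF_iff hwf a b (by omega)).1 h2).2.symm
    have hS : ∀ f : VV p w → VV p w, IsPM (adjV p w) f →
        ∑ v, wt s(v, f v) = ∑ v, wtV p w v (f v) := fun f hf =>
      sum_congr rfl fun v _ => hW v (f v) (hf.2 v)
    refine ⟨hwf, ?_⟩
    obtain ⟨f, hf, hmin⟩ := hM
    have hf' : IsPM (adjV p w) f := by rw [hA]; exact hf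
    refine ⟨f, hf', fun g hg hne => ?_⟩
    have hg' : IsPM G.Adj g := by rw [← hA]; exact hg
    rw [← hS f hf', ← hS g hg]
    exact hmin g hg' hne
  · rintro ⟨hwf, f, hf, hmin⟩
    let G : SimpleGraph (VV p w) :=
      ⟨adjV p w, ⟨fun a b h => adjV_symm hwf a b h⟩, ⟨fun a h => adjV_irrefl hwf a h⟩⟩
    let wt : Sym2 (VV p w) → ℕ := Sym2.lift ⟨fun a b => wtV p w a b, fun a b => wtV_comm hwf a b⟩
    refine ⟨nn p w.length, G, wt, ?_, ?_, ?_⟩
    · intro e
      induction e with
      | _ a b => exact fun _ => wtV_le a b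
    · change w = code (p.eval (nn p w.length)) G wt
      have hl : w.length = nn p w.length * nn p w.length * (PP p w.length + 1) :=
        hwf.1.symm
      refine List.ext_getElem (by rw [code_length]; exact hl) fun i h1 h2 => ?_
      have e : ∀ b b' : Bool, (b = true ↔ b' = true) → b = b' := by decide
      refine e _ _ ?_
      have hn : 0 < nn p w.length := by
        by_contra h0
        have : nn p w.length = 0 := by omega
        rw [this] at hl
        simp only [Nat.mul_zero, Nat.zero_mul] at hl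
        omega
      have h3 : i < nn p w.length * nn p w.length * (PP p w.length + 1) := hl ▸ h1
      have hq : i / (PP p w.length + 1) < nn p w.length * nn p w.length :=
        Nat.div_lt_of_lt_mul (by rwa [Nat.mul_comm] at h3)
      set q := i / (PP p w.length + 1) with hqd
      set k := i % (PP p w.length + 1) with hkd
      have hk : k < PP p w.length + 1 := Nat.mod_lt _ (Nat.succ_pos _)
      have ha : q / nn p w.length < nn p w.length := Nat.div_lt_of_lt_mul hq
      have hb : q % nn p w.length < nn p w.length := Nat.mod_lt _ hn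
      have hi : (q / nn p w.length * nn p w.length + q % nn p w.length) *
          (PP p w.length + 1) + k = i := by
        rw [Nat.div_add_mod', hqd, hkd, Nat.div_add_mod']
      have c1 : (w[i] = true) ↔ bitF p w.length w (q / nn p w.length) (q % nn p w.length) k := by
        unfold bitF
        rw [hi, List.getD_eq_getElem _ _ h1]
      have c2 := code_bit (PP p w.length) G wt ⟨_, ha⟩ ⟨_, hb⟩ hk
      change (code (PP p w.length) G wt).getD ((q / nn p w.length * nn p w.length +
        q % nn p w.length) * (PP p w.length + 1) + k) false = true ↔ _ at c2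
      rw [hi, List.getD_eq_getElem _ _ (by exact h2)] at c2
      rw [c1, bit_iff hwf ha hb hk]
      exact c2.symm
    · rw [unique_min_iff]
      exact ⟨f, hf, fun g hg hne => hmin g hg hne⟩

end Pool.Agent.WUPM
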