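import Mathlib
import Pool.Agent.WUPM.SysDefs
import Pool.Agent.WUPM.Stmts
import Pool.Agent.WUPM.Lang
import Pool.Agent.UPM.SysAlg

/-!
# Semantics of the formulas for weights and arcs
-/

set_option autoImplicit false

namespace Pool.Agent.WUPM

open Finset Pool.Agent.NC Pool.Agent.UPM

section

variable {p : Polynomial ℕ} {w : List Bool}

/-- Indices of nodes. -/
def idxV (f : VV p w → VV p w) (v : VV p w) : ℕ := (v : ℕ) - (v - (f v : ℕ))

theorem idxV_eq (f : VV p w → VV p w) (v : VV p w) : idxV f v = min (v : ℕ) (f v : ℕ) := by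
  unfold idxV
  omega

theorem le_idxV (f : VV p w → VV p w) (κ : ℕ) (v : VV p w) :
    κ ≤ idxV f v ↔ κ ≤ (v : ℕ) ∧ κ ≤ (f v : ℕ) := by
  rw [idxV_eq]
  omega

theorem idxV_mate {f : VV p w → VV p w} (hf : ∀ v, f (f v) = v) (v : VV p w) :
    idxV f (f v) = idxV f v := by
  rw [idxV_eq, idxV_eq, hf, min_comm]

theorem idxV_inj {f : VV p w → VV p w} (hf : ∀ v, f (f v) = v) (u v : VV p w)
    (h : idxV f u = idxV f v) : v = u ∨ v = f u := by
  rw [idxV_eq, idxV_eq] at h
  rcases Nat.le_total (u : ℕ) (f u : ℕ) with h1 | h1 <;>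
    rcases Nat.le_total (v : ℕ) (f v : ℕ) with h2 | h2
  · rw [min_eq_left h1, min_eq_left h2] at h
    exact Or.inl (Fin.ext h).symm
  · rw [min_eq_left h1, min_eq_right h2] at h
    right
    rw [Fin.ext h, hf]
  · rw [min_eq_right h1, min_eq_left h2] at h
    exact Or.inr (Fin.ext h).symm
  · rw [min_eq_right h1, min_eq_right h2] at h
    left
    rw [← hf u, Fin.ext h, hf]

/-- Integer weights. -/
noncomputable def wtZ (p : Polynomial ℕ) (w : List Bool) (a b : VV p w) : ℤ := wtV p w a b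

/-- Injective numbering of the pairs. -/
def cV (p : Polynomial ℕ) (w : List Bool) (e : VV p w × VV p w) : ℕ := (e.1 : ℕ) * nn p w.length + e.2

theorem cV_inj : Function.Injective (cV p w) := by
  rintro ⟨a, b⟩ ⟨c, d⟩ h
  unfold cV at h
  have h1 := a.2
  have h2 := b.2
  have h3 := c.2
  have h4 := d.2
  have e1 : ((a : ℕ) * nn p w.length + b) / nn p w.length = a := by
    rw [mul_comm, Nat.mul_add_div (by omega), Nat.div_eq_of_lt h2, add_zero]
  have e2 : ((c : ℕ) * nn p w.length + d) / nn p w.length = c := by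
    rw [mul_comm, Nat.mul_add_div (by omega), Nat.div_eq_of_lt h4, add_zero]
  have e3 : (a : ℕ) = c := by rw [← e1, ← e2]; exact congrArg (· / nn p w.length) h
  have e4 : a = c := Fin.ext e3
  subst e4
  have : (b : ℕ) = d := by
    have : (a : ℕ) * nn p w.length + b = a * nn p w.length + d := h
    omega
  rw [Fin.ext this]

theorem cV_lt (e : VV p w × VV p w) : cV p w e < nn p w.length * nn p w.length := by
  obtain ⟨a, b⟩ := e
  have h1 := a.2
  have h2 := b.2
  unfold cV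
  have : (a : ℕ) * nn p w.length + nn p w.length ≤ nn p w.length * nn p w.length := by
    have : ((a : ℕ) + 1) * nn p w.length ≤ nn p w.length * nn p w.length :=
      Nat.mul_le_mul_right _ h1
    rwa [add_mul, one_mul] at this
  dsimp only
  omega

end

section

variable {p : Polynomial ℕ} {w : List Bool} {F : Itp} {f : VV p w → VV p w}
  (hi : inpF p w.length w) (hf : IsPM (adjV p w) f)
  (hM : ∀ u v : VV p w, mateF p w.length w F u v ↔ f u = v)

/-- The skew-symmetric digraph. -/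
abbrev SV (hi : inpF p w.length w) (hf : IsPM (adjV p w) f) : Skew (VV p w) :=
  skewOf (adjV p w) (adjV_symm hi) (adjV_irrefl hi) f hf

/-- The digraph after the deletion of the nodes of index below `κ`. -/
abbrev SK (hi : inpF p w.length w) (hf : IsPM (adjV p w) f) (κ : ℕ) : Skew (VV p w) :=
  cutS (SV hi hf) (idxV f) (idxV_mate hf.1) κ

theorem aw_bound (a b : VV p w) : |aw (wtZ p w) f a b| ≤ 2 * PP p w.length := by
  have h1 := wtV_le (p := p) (w := w) a (f b)
  have h2 := wtV_le (p := p) (w := w) a (f a)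
  have h3 := wtV_le (p := p) (w := w) b (f b)
  unfold aw wtZ
  rw [abs_le]
  omega

include hi hf hM in
theorem arc_sem (κ : ℕ) (a b : VV p w) (l : ℕ) : arcF p w.length w F κ a b l ↔
    (SK hi hf κ).arc a b ∧ (l : ℤ) = aw (wtZ p w) f a b + 2 * PP p w.length := by
  have h1 := wtV_le (p := p) (w := w) a (f b)
  have h2 := wtV_le (p := p) (w := w) a (f a)
  have h3 := wtV_le (p := p) (w := w) b (f b)
  have hadj : ∀ v, adjV p w v (f v) := hf.2
  have hkey : arcF p w.length w F κ a b l ↔ (κ ≤ (a : ℕ) ∧ κ ≤ (b : ℕ) ∧ ¬ (b : ℕ) = a ∧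
      κ ≤ (f a : ℕ) ∧ κ ≤ (f b : ℕ) ∧ adjV p w a (f b) ∧
      l + wtV p w a (f a) + wtV p w b (f b) = 2 * wtV p w a (f b) + 2 * PP p w.length) := by
    unfold arcF
    constructor
    · rintro ⟨g1, g2, g3, a', ha', g4, g5, b', hb', g6, g7, c₁, hc₁, g8, c₂, hc₂, g9, c₃, hc₃,
        g10, g11⟩
      have ea : (f a : ℕ) = a' := congrArg Fin.val ((hM a ⟨a', ha'⟩).1 g4)
      have eb : (f b : ℕ) = b' := congrArg Fin.val ((hM b ⟨b', hb'⟩).1 g6)
      subst ea
      subst eb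
      rw [wtF_iff hi _ _ hc₁] at g8
      rw [wtF_iff hi _ _ hc₂] at g9
      rw [wtF_iff hi _ _ hc₃] at g10
      exact ⟨g1, g2, g3, g5, g7, g8.1, by omega⟩
    · rintro ⟨g1, g2, g3, g5, g7, g8, g9⟩
      refine ⟨g1, g2, g3, f a, (f a).2, (hM _ _).2 rfl, g5, f b, (f b).2, (hM _ _).2 rfl, g7,
        wtV p w a (f b), by omega, ?_, wtV p w a (f a), by omega, ?_, wtV p w b (f b), by omega, ?_,
        by omega⟩
      · rw [wtF_iff hi _ _ (by omega)]
        exact ⟨g8, rfl⟩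
      · rw [wtF_iff hi _ _ (by omega)]
        exact ⟨hadj a, rfl⟩
      · rw [wtF_iff hi _ _ (by omega)]
        exact ⟨hadj b, rfl⟩
  rw [hkey]
  change _ ↔ ((adjV p w a (f b) ∧ b ≠ a) ∧ κ ≤ idxV f a ∧ κ ≤ idxV f b) ∧ _
  rw [le_idxV, le_idxV]
  have e1 : ¬ (b : ℕ) = a ↔ b ≠ a := by rw [Ne, Fin.ext_iff]
  rw [e1]
  unfold aw wtZ
  constructor
  · rintro ⟨g1, g2, g3, g4, g5, g6, g7⟩
    exact ⟨⟨⟨g6, g3⟩, ⟨g1, g4⟩, g2, g5⟩, by omega⟩
  · rintro ⟨⟨⟨g6, g3⟩, ⟨g1, g4⟩, g2, g5⟩, g7⟩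
    exact ⟨g1, g2, g3, g4, g5, g6, by omega⟩

end

end Pool.Agent.WUPM
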