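import Mathlib
import Pool.Agent.WUPM.SysArc

/-!
# Semantics of the tables: statements
-/

set_option autoImplicit false

namespace Pool.Agent.WUPM

open Finset Pool.Agent.NC Pool.Agent.UPM

section

variable {p : Polynomial ℕ} {w : List Bool}

/-- The relations of `F` represent the tables `tq`, `tt` (deletion index `κ`, round `τ`). -/
structure Rep (F : Itp) (κ τ : ℕ) (W : VV p w → VV p w → ℤ)
    (tq : VV p w → VV p w → Set (Finset (VV p w × VV p w)))
    (tt : VV p w → VV p w → VV p w → VV p w → Set (Finset (VV p w × VV p w))) : Prop where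
  qw : ∀ (x z : VV p w) (s : ℕ), s < 2 * off p w.length + 1 →
    (qW F κ τ x z s ↔ ∃ o ∈ tq x z, (s : ℤ) = wt W o + off p w.length)
  qa : ∀ x z a b : VV p w, qA F κ τ x z a b ↔ ∃ o ∈ tq x z, (a, b) ∈ o
  tw : ∀ (A B C E : VV p w) (s : ℕ), s < 2 * off p w.length + 1 →
    (tW F κ τ A B C E s ↔ ∃ o ∈ tt A B C E, (s : ℤ) = wt W o + off p w.length)
  ta : ∀ A B C E a b : VV p w, tA F κ τ A B C E a b ↔ ∃ o ∈ tt A B C E, (a, b) ∈ o

/-- The arc weights. -/
noncomputable abbrev WV (f : VV p w → VV p w) : VV p w → VV p w → ℤ := aw (wtZ p w) f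

/-- The perturbed arc weights. -/
noncomputable abbrev GV {f : VV p w → VV p w} (hi : inpF p w.length w) (hf : IsPM (adjV p w) f) :
    VV p w → VV p w → ℤ :=
  gw (SV hi hf) (WV f) (cV p w) (nn p w.length * nn p w.length)

end

/-- **S1** (one round; helper79). -/
def StepStmt : Prop :=
  ∀ (p : Polynomial ℕ) (w : List Bool) (F : Itp) (f : VV p w → VV p w) (hi : inpF p w.length w)
    (hf : IsPM (adjV p w) f), (∀ u v : VV p w, mateF p w.length w F u v ↔ f u = v) →
    ∀ κ τ, Rep F κ τ (WV f) (tQ (SK hi hf κ) (GV hi hf) τ) (tT (SK hi hf κ) (GV hi hf) τ) →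
    (∀ (x z : VV p w) (s : ℕ), newW p w.length w F 2 ⟨κ, τ + 1, x, z, 0, 0⟩ s ↔
      ∃ o ∈ tQ (SK hi hf κ) (GV hi hf) (τ + 1) x z, (s : ℤ) = wt (WV f) o + off p w.length) ∧
    (∀ x z a b : VV p w, newA p w.length w F 2 ⟨κ, τ + 1, x, z, 0, 0⟩ a b ↔
      ∃ o ∈ tQ (SK hi hf κ) (GV hi hf) (τ + 1) x z, (a, b) ∈ o) ∧
    (∀ (A B C E : VV p w) (s : ℕ), newW p w.length w F 0 ⟨κ, τ + 1, A, B, C, E⟩ s ↔
      ∃ o ∈ tT (SK hi hf κ) (GV hi hf) (τ + 1) A B C E,
        (s : ℤ) = wt (WV f) o + off p w.length) ∧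
    ∀ A B C E a b : VV p w, newA p w.length w F 0 ⟨κ, τ + 1, A, B, C, E⟩ a b ↔
      ∃ o ∈ tT (SK hi hf κ) (GV hi hf) (τ + 1) A B C E, (a, b) ∈ o

/-- **S2** (all rounds; helper22; from `StepStmt`). At stage `t` the tables of round `τ` are correct if the
matching is correct from stage `t₀` on and `t₀ + τ + 1 ≤ t`. -/
def TimeStmt : Prop :=
  ∀ (p : Polynomial ℕ) (w : List Bool) (f : VV p w → VV p w) (hi : inpF p w.length w)
    (hf : IsPM (adjV p w) f) (t₀ : ℕ),
    (∀ t, t₀ ≤ t → ∀ u v : VV p w,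
      mateF p w.length w (Fc p (bnd p w.length) w t) u v ↔ f u = v) →
    ∀ τ t κ, τ ≤ rd w.length → t₀ + τ + 1 ≤ t → κ ≤ nn p w.length + 1 →
      Rep (Fc p (bnd p w.length) w t) κ τ (WV f) (tQ (SK hi hf κ) (GV hi hf) τ)
        (tT (SK hi hf κ) (GV hi hf) τ)

/-- **S3** (the test; helper22). -/
def AccSemStmt : Prop :=
  ∀ (p : Polynomial ℕ) (w : List Bool) (F : Itp) (f : VV p w → VV p w) (hi : inpF p w.length w)
    (hf : IsPM (adjV p w) f), (∀ u v : VV p w, mateF p w.length w F u v ↔ f u = v) →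
    (∀ κ, κ ≤ nn p w.length + 1 → Rep F κ (rd w.length) (WV f)
      (tQ (SK hi hf κ) (GV hi hf) (rd w.length)) (tT (SK hi hf κ) (GV hi hf) (rd w.length))) →
    (accF p w.length w F ↔
      Acc (SV hi hf) (idxV f) (idxV_mate hf.1) (WV f) (GV hi hf) (rd w.length))

/-- **S4** (the matching; helper55; from `DetSemStmt`, `DetRecStmt`, `MateStmt`). From stage
`3 * km + 3` on the formula for the matching has a constant meaning, and it is the unique minimum weight
perfect matching if there is one. -/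
def MateSemStmt : Prop :=
  ∀ (p : Polynomial ℕ) (w : List Bool), inpF p w.length w →
    (∀ t t', 3 * km p w.length + 3 ≤ t → 3 * km p w.length + 3 ≤ t' → ∀ u v : VV p w,
      (mateF p w.length w (Fc p (bnd p w.length) w t) u v ↔
        mateF p w.length w (Fc p (bnd p w.length) w t') u v)) ∧
    ∀ f : VV p w → VV p w, IsPM (adjV p w) f →
      (∀ g, IsPM (adjV p w) g → g ≠ f → ∑ v, wtV p w v (f v) < ∑ v, wtV p w v (g v)) →
      ∀ t, 3 * km p w.length + 3 ≤ t → ∀ u v : VV p w,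
        (mateF p w.length w (Fc p (bnd p w.length) w t) u v ↔ f u = v)

/-- **S5** (final; helper55; from `S2`, `S3`, `S4`, `LangStmt`, `acc_iff_unique`). -/
def FinalStmt : Prop :=
  ∀ (p : Polynomial ℕ) (x : List Bool), x ∈ wupmLang p ↔
    stage (sys p) 8 (bnd p x.length) x (tot p x.length) 0 fun _ => 0

end Pool.Agent.WUPM
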