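import Mathlib
import Pool.Agent.WUPM.SysTabDefs
import Pool.Agent.WUPM.Cands

/-!
# The test
-/

set_option autoImplicit false

namespace Pool.Agent.WUPM

open Finset Pool.Agent.NC Pool.Agent.UPM

theorem acc_sem : AccSemStmt := by
  intro p w F f hi hf hM hrep
  have harc : ∀ (a b : VV p w) (l : ℕ), arcF p w.length w F 0 a b l ↔
      (SV hi hf).arc a b ∧ (l : ℤ) = WV f a b + 2 * PP p w.length := by
    intro a b l
    rw [arc_sem hi hf hM 0 a b l]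
    have : (SK hi hf 0).arc a b ↔ (SV hi hf).arc a b :=
      ⟨fun h => h.1, fun h => ⟨h, Nat.zero_le _, Nat.zero_le _⟩⟩
    rw [this]
  have hidx : ∀ v : VV p w, (v : ℕ) - (v - (f v : ℕ)) + 1 ≤ nn p w.length + 1 := by
    intro v
    have := v.2
    omega
  have hbd : ∀ a b : VV p w, |WV f a b| ≤ 2 * PP p w.length := fun a b => aw_bound a b
  constructor
  · intro hacc v x y o h1 h2 ho
    have hb1 := abs_le.1 (hbd v x)
    have hb2 := abs_le.1 (hbd y v)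
    obtain ⟨l₁, hl₁⟩ : ∃ l : ℕ, (l : ℤ) = WV f v x + 2 * PP p w.length :=
      ⟨(WV f v x + 2 * PP p w.length).toNat, Int.toNat_of_nonneg (by omega)⟩
    obtain ⟨l₂, hl₂⟩ : ∃ l : ℕ, (l : ℤ) = WV f y v + 2 * PP p w.length :=
      ⟨(WV f y v + 2 * PP p w.length).toNat, Int.toNat_of_nonneg (by omega)⟩
    have hQ := (sound _ _ _ _).1 _ _ _ ho
    have hb3 := abs_le.1 (hQ.abs_wt_le (W := WV f) (c := 2 * PP p w.length) (by positivity)
      fun a b _ => hbd a b)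
    have hoff : (off p w.length : ℤ) = 2 * PP p w.length * Fintype.card (VV p w) := by
      unfold off
      rw [Fintype.card_fin]
      push_cast
      ring
    rw [← hoff] at hb3
    obtain ⟨s, hs⟩ : ∃ s : ℕ, (s : ℤ) = wt (WV f) o + off p w.length :=
      ⟨(wt (WV f) o + off p w.length).toNat, Int.toNat_of_nonneg (by omega)⟩
    have hsb : s < 2 * off p w.length + 1 := by omega
    have hq := ((hrep _ (hidx v)).qw x y s hsb).2 ⟨o, ho, hs⟩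
    have := hacc v v.2 (f v) (f v).2 ((hM _ _).2 rfl) x x.2 y y.2 l₁ (by omega)
      ((harc _ _ _).2 ⟨h1, hl₁⟩) l₂ (by omega) ((harc _ _ _).2 ⟨h2, hl₂⟩) s hsb hq
    omega
  · intro hacc v hv v' hv' hm x hx y hy l₁ hl₁ ha₁ l₂ hl₂ ha₂ s hs hq
    have e : (f ⟨v, hv⟩ : ℕ) = v' := congrArg Fin.val ((hM ⟨v, hv⟩ ⟨v', hv'⟩).1 hm)
    subst e
    obtain ⟨o, ho, hso⟩ := ((hrep _ (hidx ⟨v, hv⟩)).qw ⟨x, hx⟩ ⟨y, hy⟩ s hs).1 hq
    have h1 := (harc ⟨v, hv⟩ ⟨x, hx⟩ l₁).1 ha₁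
    have h2 := (harc ⟨y, hy⟩ ⟨v, hv⟩ l₂).1 ha₂
    have h3 := hacc ⟨v, hv⟩ ⟨x, hx⟩ ⟨y, hy⟩ o h1.1 h2.1 ho
    have h4 := h1.2
    have h5 := h2.2
    omega

end Pool.Agent.WUPM
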