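import Mathlib
import Pool.Agent.WUPM.SysDefs
import Pool.Agent.WUPM.Lang

/-!
# The formulas of the system are definable
-/

set_option autoImplicit false

namespace Pool.Agent.WUPM

open Pool.Agent.NC Finset

/-! ### Numeric functions -/

theorem nf_pow {f : ℕ → (ℕ → ℕ) → ℕ} (hf : NF f) (k : ℕ) : NF fun N e => f N e ^ k := by
  induction k with
  | zero => exact (NF.const 1).congr fun _ _ => (pow_zero _).symm
  | succ k ih => exact (ih.mul hf).congr fun _ _ => (pow_succ _ _).symm

theorem nf_eval (p : Polynomial ℕ) {f : ℕ → (ℕ → ℕ) → ℕ} (hf : NF f) :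
    NF fun N e => p.eval (f N e) := by
  induction p using Polynomial.induction_on' with
  | add p q hp hq => exact (hp.add hq).congr fun _ _ => (Polynomial.eval_add).symm
  | monomial k a =>
    exact ((NF.const a).mul (nf_pow hf k)).congr fun _ _ => (Polynomial.eval_monomial).symm

open Pool.Agent.PT in
theorem nf_nn (p : Polynomial ℕ) : NF fun N _ => nn p N := by
  classical
  refine (UF.sum (b := fun x _ => x.length) (f := fun x e i =>
    if (i + 1) * (i + 1) * (p.eval (i + 1) + 1) ≤ x.length then 1 else 0) UF.len ?_).congr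
      fun x e => ?_
  · have h1 : NF fun _ e => e 0 + 1 := (NF.var 0).add (NF.const 1)
    have h : UP (Γ := Unit) fun x e => (e 0 + 1) * (e 0 + 1) * (p.eval (e 0 + 1) + 1) ≤ x.length :=
      UP.le ((h1.mul h1).mul ((nf_eval p h1).add (NF.const 1))) UF.len
    exact UF.congr h fun x e => by congr
  · rw [sum_boole, Nat.cast_id]
    rfl

theorem nf_PP (p : Polynomial ℕ) : NF fun N _ => PP p N := nf_eval p (nf_nn p)

theorem nf_DD (p : Polynomial ℕ) : NF fun N _ => DD p N :=
  ((nf_nn p).mul (nf_PP p)).add (NF.const 1)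

theorem nf_MX (p : Polynomial ℕ) : NF fun N _ => MX p N :=
  (nf_nn p).mul ((nf_DD p).add (nf_PP p))

theorem nf_off (p : Polynomial ℕ) : NF fun N _ => off p N :=
  ((NF.const 2).mul (nf_PP p)).mul (nf_nn p)

theorem nf_kk : NF fun N _ => kk N := (NF.log NF.len).add (NF.const 1)

theorem nf_km (p : Polynomial ℕ) : NF fun N _ => km p N := (NF.log (nf_MX p)).add (NF.const 1)

theorem nf_rd : NF fun N _ => rd N :=
  (NF.const 1).add (nf_kk.mul (nf_kk.add (NF.const 4)))

theorem nf_bnd (p : Polynomial ℕ) : NF fun N _ => bnd p N :=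
  ((((NF.len.add ((NF.const 2).mul (nf_MX p))).add ((NF.const 4).mul (nf_off p))).add
    ((NF.const 4).mul (nf_PP p))).add nf_rd).add (NF.const 2)

theorem nf_tot (p : Polynomial ℕ) : NF fun N _ => tot p N :=
  (((NF.const 3).mul (nf_km p)).add nf_rd).add (NF.const 8)

theorem nf_tot_succ (p : Polynomial ℕ) : NF fun N _ => tot p N + 1 := (nf_tot p).add (NF.const 1)

/-! ### Bounds -/

theorem wlen_nn_le (p : Polynomial ℕ) (N : ℕ) : wlen p (nn p N) ≤ N := by
  by_cases h : nn p N = 0
  · rw [h]
    simp [wlen]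
  · have h2 : ¬ (range N).filter (fun i => wlen p (i + 1) ≤ N) ⊆ range (nn p N - 1) := fun hs => by
      have := card_le_card hs
      change nn p N ≤ _ at this
      rw [card_range] at this
      omega
    obtain ⟨i, hi, hi'⟩ := not_subset.1 h2
    rw [mem_filter] at hi
    rw [mem_range, not_lt] at hi'
    exact (wlen_mono p (by omega)).trans hi.2

theorem nn_le_length (p : Polynomial ℕ) (N : ℕ) : nn p N ≤ N := (le_wlen p _).trans (wlen_nn_le p N)

theorem MX_le (p : Polynomial ℕ) (N : ℕ) : MX p N ≤ 3 * N := by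
  have h := wlen_nn_le p N
  have h0 := nn_le_length p N
  change nn p N * nn p N * (PP p N + 1) ≤ N at h
  unfold MX DD
  generalize nn p N = n at h h0
  generalize PP p N = P at h
  rcases Nat.eq_zero_or_pos n with rfl | hn
  · simp
  · have h1 : n * P ≤ n * n * P := by nlinarith [Nat.zero_le (n * P)]
    nlinarith

theorem km_le (p : Polynomial ℕ) (N : ℕ) : km p N ≤ kk N + 2 := by
  have h : Nat.log 2 (MX p N) ≤ Nat.log 2 (N * 2 * 2) :=
    Nat.log_mono_right ((MX_le p N).trans (by omega))
  unfold km kk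
  rcases Nat.eq_zero_or_pos N with rfl | hN
  · simp only [Nat.zero_mul, Nat.log_zero_right] at h ⊢
    omega
  · rw [Nat.log_mul_base (by norm_num) (by omega), Nat.log_mul_base (by norm_num) (by omega)] at h
    omega

theorem polyLog_tot_succ (p : Polynomial ℕ) : PolyLog fun N => tot p N + 1 := by
  refine ⟨24, fun N => ?_⟩
  have h0 := km_le p N
  change tot p N + 1 ≤ kk N ^ 24 + 24
  have h1 : 1 ≤ kk N := Nat.le_add_left _ _
  unfold tot rd rdn
  generalize kk N = K at h0 h1
  rcases Nat.lt_or_ge K 2 with h2 | h2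
  · obtain rfl : K = 1 := by omega
    omega
  · have h3 : 2 ^ 22 ≤ K ^ 22 := Nat.pow_le_pow_left h2 22
    have h4 : K ^ 24 = K ^ 22 * K ^ 2 := by ring
    have h5 : 24 * K ^ 2 ≤ K ^ 24 := by
      rw [h4]
      exact Nat.mul_le_mul_right _ (by omega)
    have h6 : K ≤ K ^ 2 := Nat.le_self_pow (by norm_num) K
    nlinarith

theorem polyLog_tot (p : Polynomial ℕ) : PolyLog fun N => tot p N := by
  obtain ⟨k, hk⟩ := polyLog_tot_succ p
  exact ⟨k, fun N => (Nat.le_succ _).trans (hk N)⟩

/-! ### Determinants -/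

section

variable {p : Polynomial ℕ} {a b c d i j k l m n r s t u v x y z κ τ A B C E :
  ℕ → (ℕ → ℕ) → ℕ}

theorem fo_bit (ha : NF a) (hb : NF b) (hc : NF c) :
    FO fun N w _ e => bitF p N w (a N e) (b N e) (c N e) := by
  have h : FO fun N w _ e => bitF p N w (e 0) (e 1) (e 2) := by
    unfold bitF
    repeat' with_reducible first
      | assumption | exact NF.var _ | exact NF.const _ | exact NF.len
      | exact nf_nn _ | exact nf_PP _ | exact nf_DD _ | exact nf_MX _ | exact nf_off _
      | exact nf_rd | apply NF.add | apply NF.sub | apply NF.mul | apply NF.div | apply NF.mod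
      | apply NL.cons | exact NL.nil | apply FO.and | apply FO.or | apply FO.not | apply FO.imp
      | apply FO.ex | apply FO.all | apply FO.par | apply FO.rel | apply FO.inp
      | apply FO.le | apply FO.lt | apply FO.eq | dsimp only
  exact h.app (NL.cons ha (NL.cons hb (NL.cons hc NL.nil)))

theorem fo_wt (ha : NF a) (hb : NF b) (hc : NF c) :
    FO fun N w _ e => wtF p N w (a N e) (b N e) (c N e) := by
  have h : FO fun N w _ e => wtF p N w (e 0) (e 1) (e 2) := by
    unfold wtF
    repeat' with_reducible first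
      | apply fo_bit
      | assumption | exact NF.var _ | exact NF.const _ | exact NF.len
      | exact nf_nn _ | exact nf_PP _ | exact nf_DD _ | exact nf_MX _ | exact nf_off _
      | exact nf_rd | apply NF.add | apply NF.sub | apply NF.mul | apply NF.div | apply NF.mod
      | apply NL.cons | exact NL.nil | apply FO.and | apply FO.or | apply FO.not | apply FO.imp
      | apply FO.ex | apply FO.all | apply FO.par | apply FO.rel | apply FO.inp
      | apply FO.le | apply FO.lt | apply FO.eq | dsimp only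
  exact h.app (NL.cons ha (NL.cons hb (NL.cons hc NL.nil)))

theorem fo_del (hu : NF u) (hv : NF v) (hx : NF x) (hy : NF y) (hd : NF d) :
    FO fun N w _ e => delF p N w (u N e) (v N e) (x N e) (y N e) (d N e) := by
  have h : FO fun N w _ e => delF p N w (e 0) (e 1) (e 2) (e 3) (e 4) := by
    unfold delF
    repeat' with_reducible first
      | apply fo_wt
      | assumption | exact NF.var _ | exact NF.const _ | exact NF.len
      | exact nf_nn _ | exact nf_PP _ | exact nf_DD _ | exact nf_MX _ | exact nf_off _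
      | exact nf_rd | apply NF.add | apply NF.sub | apply NF.mul | apply NF.div | apply NF.mod
      | apply NL.cons | exact NL.nil | apply FO.and | apply FO.or | apply FO.not | apply FO.imp
      | apply FO.ex | apply FO.all | apply FO.par | apply FO.rel | apply FO.inp
      | apply FO.le | apply FO.lt | apply FO.eq | dsimp only
  exact h.app (NL.cons hu (NL.cons hv (NL.cons hx (NL.cons hy (NL.cons hd NL.nil)))))

theorem fo_pow : FO fun N w F e => powF p N w F (e 0) (e 1) (e 2) (e 3) (e 4) (e 5) (e 6) := by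
  unfold powF
  repeat' with_reducible first
    | apply fo_del
    | assumption | exact NF.var _ | exact NF.const _ | exact NF.len
    | exact nf_nn _ | exact nf_PP _ | exact nf_DD _ | exact nf_MX _ | exact nf_off _
    | exact nf_rd | apply NF.add | apply NF.sub | apply NF.mul | apply NF.div | apply NF.mod
    | apply NL.cons | exact NL.nil | apply FO.and | apply FO.or | apply FO.not | apply FO.imp
    | apply FO.ex | apply FO.all | apply FO.par | apply FO.rel | apply FO.inp
    | apply FO.le | apply FO.lt | apply FO.eq | dsimp only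

theorem fo_geo (hu : NF u) (hv : NF v) (hi : NF i) (hm : NF m) :
    FO fun N _ F e => geoF F (u N e) (v N e) (i N e) (m N e) := by
  have h : FO fun _ _ F e => geoF F (e 0) (e 1) (e 2) (e 3) := by
    unfold geoF
    repeat' with_reducible first
      | assumption | exact NF.var _ | exact NF.const _ | exact NF.len
      | exact nf_nn _ | exact nf_PP _ | exact nf_DD _ | exact nf_MX _ | exact nf_off _
      | exact nf_rd | apply NF.add | apply NF.sub | apply NF.mul | apply NF.div | apply NF.mod
      | apply NL.cons | exact NL.nil | apply FO.and | apply FO.or | apply FO.not | apply FO.imp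
      | apply FO.ex | apply FO.all | apply FO.par | apply FO.rel | apply FO.inp
      | apply FO.le | apply FO.lt | apply FO.eq | dsimp only
  exact h.app (NL.cons hu (NL.cons hv (NL.cons hi (NL.cons hm NL.nil))))

theorem fo_prod : FO fun _ _ F e => prodF F (e 0) (e 1) (e 2) (e 3) (e 4) := by
  unfold prodF
  repeat' with_reducible first
    | apply fo_geo
    | assumption | exact NF.var _ | exact NF.const _ | exact NF.len
    | exact nf_nn _ | exact nf_PP _ | exact nf_DD _ | exact nf_MX _ | exact nf_off _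
    | exact nf_rd | apply NF.add | apply NF.sub | apply NF.mul | apply NF.div | apply NF.mod
    | apply NL.cons | exact NL.nil | apply FO.and | apply FO.or | apply FO.not | apply FO.imp
    | apply FO.ex | apply FO.all | apply FO.par | apply FO.rel | apply FO.inp
    | apply FO.le | apply FO.lt | apply FO.eq | dsimp only

theorem fo_inv : FO fun N _ F e => invF p N F (e 0) (e 1) (e 2) (e 3) := by
  unfold invF
  repeat' with_reducible first
    | assumption | exact NF.var _ | exact NF.const _ | exact NF.len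
    | exact nf_nn _ | exact nf_PP _ | exact nf_DD _ | exact nf_MX _ | exact nf_off _
    | exact nf_rd | apply NF.add | apply NF.sub | apply NF.mul | apply NF.div | apply NF.mod
    | apply NL.cons | exact NL.nil | apply FO.and | apply FO.or | apply FO.not | apply FO.imp
    | apply FO.ex | apply FO.all | apply FO.par | apply FO.rel | apply FO.inp
    | apply FO.le | apply FO.lt | apply FO.eq | dsimp only

theorem fo_min (hm : NF m) : FO fun N _ F e => minF p N F (m N e) := by
  have h : FO fun N _ F e => minF p N F (e 0) := by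
    unfold minF
    repeat' with_reducible first
      | assumption | exact NF.var _ | exact NF.const _ | exact NF.len
      | exact nf_nn _ | exact nf_PP _ | exact nf_DD _ | exact nf_MX _ | exact nf_off _
      | exact nf_rd | apply NF.add | apply NF.sub | apply NF.mul | apply NF.div | apply NF.mod
      | apply NL.cons | exact NL.nil | apply FO.and | apply FO.or | apply FO.not | apply FO.imp
      | apply FO.ex | apply FO.all | apply FO.par | apply FO.rel | apply FO.inp
      | apply FO.le | apply FO.lt | apply FO.eq | dsimp only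
  exact h.app (NL.cons hm NL.nil)

theorem fo_mate (hu : NF u) (hv : NF v) :
    FO fun N w F e => mateF p N w F (u N e) (v N e) := by
  have h : FO fun N w F e => mateF p N w F (e 0) (e 1) := by
    unfold mateF
    repeat' with_reducible first
      | apply fo_wt | apply fo_min
      | assumption | exact NF.var _ | exact NF.const _ | exact NF.len
      | exact nf_nn _ | exact nf_PP _ | exact nf_DD _ | exact nf_MX _ | exact nf_off _
      | exact nf_rd | apply NF.add | apply NF.sub | apply NF.mul | apply NF.div | apply NF.mod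
      | apply NL.cons | exact NL.nil | apply FO.and | apply FO.or | apply FO.not | apply FO.imp
      | apply FO.ex | apply FO.all | apply FO.par | apply FO.rel | apply FO.inp
      | apply FO.le | apply FO.lt | apply FO.eq | dsimp only
  exact h.app (NL.cons hu (NL.cons hv NL.nil))

/-! ### Objects -/

theorem fo_arc (hκ : NF κ) (ha : NF a) (hb : NF b) (hl : NF l) :
    FO fun N w F e => arcF p N w F (κ N e) (a N e) (b N e) (l N e) := by
  have h : FO fun N w F e => arcF p N w F (e 0) (e 1) (e 2) (e 3) := by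
    unfold arcF
    repeat' with_reducible first
      | apply fo_mate | apply fo_wt
      | assumption | exact NF.var _ | exact NF.const _ | exact NF.len
      | exact nf_nn _ | exact nf_PP _ | exact nf_DD _ | exact nf_MX _ | exact nf_off _
      | exact nf_rd | apply NF.add | apply NF.sub | apply NF.mul | apply NF.div | apply NF.mod
      | apply NL.cons | exact NL.nil | apply FO.and | apply FO.or | apply FO.not | apply FO.imp
      | apply FO.ex | apply FO.all | apply FO.par | apply FO.rel | apply FO.inp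
      | apply FO.le | apply FO.lt | apply FO.eq | dsimp only
  exact h.app (NL.cons hκ (NL.cons ha (NL.cons hb (NL.cons hl NL.nil))))

theorem fo_lk (hκ : NF κ) (ha : NF a) (hb : NF b) (hl : NF l) :
    FO fun N w F e => lkF p N w F (κ N e) (a N e) (b N e) (l N e) := by
  have h : FO fun N w F e => lkF p N w F (e 0) (e 1) (e 2) (e 3) := by
    unfold lkF
    repeat' with_reducible first
      | apply fo_arc
      | assumption | exact NF.var _ | exact NF.const _ | exact NF.len
      | exact nf_nn _ | exact nf_PP _ | exact nf_DD _ | exact nf_MX _ | exact nf_off _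
      | exact nf_rd | apply NF.add | apply NF.sub | apply NF.mul | apply NF.div | apply NF.mod
      | apply NL.cons | exact NL.nil | apply FO.and | apply FO.or | apply FO.not | apply FO.imp
      | apply FO.ex | apply FO.all | apply FO.par | apply FO.rel | apply FO.inp
      | apply FO.le | apply FO.lt | apply FO.eq | dsimp only
  exact h.app (NL.cons hκ (NL.cons ha (NL.cons hb (NL.cons hl NL.nil))))

theorem fo_qW (hκ : NF κ) (hτ : NF τ) (hx : NF x) (hz : NF z) (hs : NF s) :
    FO fun N _ F e => qW F (κ N e) (τ N e) (x N e) (z N e) (s N e) := by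
  unfold qW
  exact FO.rel 4 (NL.cons hκ (NL.cons hτ (NL.cons hx (NL.cons hz (NL.cons hs NL.nil)))))

theorem fo_qA (hκ : NF κ) (hτ : NF τ) (hx : NF x) (hz : NF z) (ha : NF a) (hb : NF b) :
    FO fun N _ F e => qA F (κ N e) (τ N e) (x N e) (z N e) (a N e) (b N e) := by
  unfold qA
  exact FO.rel 5 (NL.cons hκ (NL.cons hτ (NL.cons hx (NL.cons hz (NL.cons ha (NL.cons hb
    NL.nil))))))

theorem fo_tW (hκ : NF κ) (hτ : NF τ) (hA : NF A) (hB : NF B) (hC : NF C) (hE : NF E)
    (hs : NF s) :
    FO fun N _ F e => tW F (κ N e) (τ N e) (A N e) (B N e) (C N e) (E N e) (s N e) := by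
  unfold tW
  exact FO.rel 6 (NL.cons hκ (NL.cons hτ (NL.cons hA (NL.cons hB (NL.cons hC (NL.cons hE
    (NL.cons hs NL.nil)))))))

theorem fo_tA (hκ : NF κ) (hτ : NF τ) (hA : NF A) (hB : NF B) (hC : NF C) (hE : NF E)
    (ha : NF a) (hb : NF b) :
    FO fun N _ F e => tA F (κ N e) (τ N e) (A N e) (B N e) (C N e) (E N e) (a N e) (b N e) := by
  unfold tA
  exact FO.rel 7 (NL.cons hκ (NL.cons hτ (NL.cons hA (NL.cons hB (NL.cons hC (NL.cons hE
    (NL.cons ha (NL.cons hb NL.nil))))))))

theorem fo_nq (hκ : NF κ) (hτ : NF τ) (hx : NF x) (hz : NF z) (hv : NF v) :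
    FO fun N _ F e => nqF p N F (κ N e) (τ N e) (x N e) (z N e) (v N e) := by
  have h : FO fun N _ F e => nqF p N F (e 0) (e 1) (e 2) (e 3) (e 4) := by
    unfold nqF
    repeat' with_reducible first
      | apply fo_qA
      | assumption | exact NF.var _ | exact NF.const _ | exact NF.len
      | exact nf_nn _ | exact nf_PP _ | exact nf_DD _ | exact nf_MX _ | exact nf_off _
      | exact nf_rd | apply NF.add | apply NF.sub | apply NF.mul | apply NF.div | apply NF.mod
      | apply NL.cons | exact NL.nil | apply FO.and | apply FO.or | apply FO.not | apply FO.imp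
      | apply FO.ex | apply FO.all | apply FO.par | apply FO.rel | apply FO.inp
      | apply FO.le | apply FO.lt | apply FO.eq | dsimp only
  exact h.app (NL.cons hκ (NL.cons hτ (NL.cons hx (NL.cons hz (NL.cons hv NL.nil)))))

theorem fo_nt (hκ : NF κ) (hτ : NF τ) (hA : NF A) (hB : NF B) (hC : NF C) (hE : NF E)
    (hv : NF v) :
    FO fun N _ F e => ntF p N F (κ N e) (τ N e) (A N e) (B N e) (C N e) (E N e) (v N e) := by
  have h : FO fun N _ F e => ntF p N F (e 0) (e 1) (e 2) (e 3) (e 4) (e 5) (e 6) := by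
    unfold ntF
    repeat' with_reducible first
      | apply fo_tA
      | assumption | exact NF.var _ | exact NF.const _ | exact NF.len
      | exact nf_nn _ | exact nf_PP _ | exact nf_DD _ | exact nf_MX _ | exact nf_off _
      | exact nf_rd | apply NF.add | apply NF.sub | apply NF.mul | apply NF.div | apply NF.mod
      | apply NL.cons | exact NL.nil | apply FO.and | apply FO.or | apply FO.not | apply FO.imp
      | apply FO.ex | apply FO.all | apply FO.par | apply FO.rel | apply FO.inp
      | apply FO.le | apply FO.lt | apply FO.eq | dsimp only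
  exact h.app (NL.cons hκ (NL.cons hτ (NL.cons hA (NL.cons hB (NL.cons hC (NL.cons hE
    (NL.cons hv NL.nil)))))))

theorem fo_ok1 (hκ : NF κ) (hτ : NF τ) (hA : NF A) (hB : NF B) (hC : NF C) (hE : NF E) :
    FO fun N w F e => ok1F p N w F (κ N e) (τ N e) (A N e) (B N e) (C N e) (E N e) := by
  have h : FO fun N w F e => ok1F p N w F (e 0) (e 1) (e 2) (e 3) (e 4) (e 5) := by
    unfold ok1F
    repeat' with_reducible first
      | apply fo_nq | apply fo_mate
      | assumption | exact NF.var _ | exact NF.const _ | exact NF.len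
      | exact nf_nn _ | exact nf_PP _ | exact nf_DD _ | exact nf_MX _ | exact nf_off _
      | exact nf_rd | apply NF.add | apply NF.sub | apply NF.mul | apply NF.div | apply NF.mod
      | apply NL.cons | exact NL.nil | apply FO.and | apply FO.or | apply FO.not | apply FO.imp
      | apply FO.ex | apply FO.all | apply FO.par | apply FO.rel | apply FO.inp
      | apply FO.le | apply FO.lt | apply FO.eq | dsimp only
  exact h.app (NL.cons hκ (NL.cons hτ (NL.cons hA (NL.cons hB (NL.cons hC (NL.cons hE
    NL.nil))))))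

end

section

variable {p : Polynomial ℕ} {s s' k₁ k₂ k₃ k₄ k₅ k₆ d₁ d₂ d₃ d₄ d₅ g₁ g₂ g₃ g₄ g₅ a b :
  ℕ → (ℕ → ℕ) → ℕ}

theorem fo_ok2 (h₁ : NF k₁) (h₂ : NF k₂) (h₃ : NF k₃) (h₄ : NF k₄) (h₅ : NF k₅) (h₆ : NF k₆)
    (e₁ : NF d₁) (e₂ : NF d₂) (e₃ : NF d₃) (e₄ : NF d₄) (e₅ : NF d₅) :
    FO fun N w F e => ok2F p N w F ⟨k₁ N e, k₂ N e, k₃ N e, k₄ N e, k₅ N e, k₆ N e⟩
      ⟨d₁ N e, d₂ N e, d₃ N e, d₄ N e, d₅ N e⟩ := by
  have h : FO fun N w F e => ok2F p N w F ⟨e 0, e 1, e 2, e 3, e 4, e 5⟩
      ⟨e 6, e 7, e 8, e 9, e 10⟩ := by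
    unfold ok2F
    repeat' with_reducible first
      | apply fo_nt | apply fo_mate
      | assumption | exact NF.var _ | exact NF.const _ | exact NF.len
      | exact nf_nn _ | exact nf_PP _ | exact nf_DD _ | exact nf_MX _ | exact nf_off _
      | exact nf_rd | apply NF.add | apply NF.sub | apply NF.mul | apply NF.div | apply NF.mod
      | apply NL.cons | exact NL.nil | apply FO.and | apply FO.or | apply FO.not | apply FO.imp
      | apply FO.ex | apply FO.all | apply FO.par | apply FO.rel | apply FO.inp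
      | apply FO.le | apply FO.lt | apply FO.eq | dsimp only
  exact h.app (NL.cons h₁ (NL.cons h₂ (NL.cons h₃ (NL.cons h₄ (NL.cons h₅ (NL.cons h₆
    (NL.cons e₁ (NL.cons e₂ (NL.cons e₃ (NL.cons e₄ (NL.cons e₅ NL.nil)))))))))))

theorem fo_cW (h₁ : NF k₁) (h₂ : NF k₂) (h₃ : NF k₃) (h₄ : NF k₄) (h₅ : NF k₅) (h₆ : NF k₆)
    (e₁ : NF d₁) (e₂ : NF d₂) (e₃ : NF d₃) (e₄ : NF d₄) (e₅ : NF d₅) (hs : NF s) :
    FO fun N w F e => cW p N w F ⟨k₁ N e, k₂ N e, k₃ N e, k₄ N e, k₅ N e, k₆ N e⟩
      ⟨d₁ N e, d₂ N e, d₃ N e, d₄ N e, d₅ N e⟩ (s N e) := by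
  have h : FO fun N w F e => cW p N w F ⟨e 0, e 1, e 2, e 3, e 4, e 5⟩
      ⟨e 6, e 7, e 8, e 9, e 10⟩ (e 11) := by
    unfold cW
    repeat' with_reducible first
      | apply fo_ok1 | apply fo_ok2 | apply fo_qW | apply fo_tW | apply fo_lk | apply fo_arc
      | assumption | exact NF.var _ | exact NF.const _ | exact NF.len
      | exact nf_nn _ | exact nf_PP _ | exact nf_DD _ | exact nf_MX _ | exact nf_off _
      | exact nf_rd | apply NF.add | apply NF.sub | apply NF.mul | apply NF.div | apply NF.mod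
      | apply NL.cons | exact NL.nil | apply FO.and | apply FO.or | apply FO.not | apply FO.imp
      | apply FO.ex | apply FO.all | apply FO.par | apply FO.rel | apply FO.inp
      | apply FO.le | apply FO.lt | apply FO.eq | dsimp only
  exact h.app (NL.cons h₁ (NL.cons h₂ (NL.cons h₃ (NL.cons h₄ (NL.cons h₅ (NL.cons h₆
    (NL.cons e₁ (NL.cons e₂ (NL.cons e₃ (NL.cons e₄ (NL.cons e₅ (NL.cons hs NL.nil))))))))))))

theorem fo_cA (h₁ : NF k₁) (h₂ : NF k₂) (h₃ : NF k₃) (h₄ : NF k₄) (h₅ : NF k₅) (h₆ : NF k₆)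
    (e₁ : NF d₁) (e₂ : NF d₂) (e₃ : NF d₃) (e₄ : NF d₄) (e₅ : NF d₅) (ha : NF a) (hb : NF b) :
    FO fun N _ F e => cA F ⟨k₁ N e, k₂ N e, k₃ N e, k₄ N e, k₅ N e, k₆ N e⟩
      ⟨d₁ N e, d₂ N e, d₃ N e, d₄ N e, d₅ N e⟩ (a N e) (b N e) := by
  have h : FO fun _ _ F e => cA F ⟨e 0, e 1, e 2, e 3, e 4, e 5⟩
      ⟨e 6, e 7, e 8, e 9, e 10⟩ (e 11) (e 12) := by
    unfold cA
    repeat' with_reducible first
      | apply fo_qA | apply fo_tA
      | assumption | exact NF.var _ | exact NF.const _ | exact NF.len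
      | exact nf_nn _ | exact nf_PP _ | exact nf_DD _ | exact nf_MX _ | exact nf_off _
      | exact nf_rd | apply NF.add | apply NF.sub | apply NF.mul | apply NF.div | apply NF.mod
      | apply NL.cons | exact NL.nil | apply FO.and | apply FO.or | apply FO.not | apply FO.imp
      | apply FO.ex | apply FO.all | apply FO.par | apply FO.rel | apply FO.inp
      | apply FO.le | apply FO.lt | apply FO.eq | dsimp only
  exact h.app (NL.cons h₁ (NL.cons h₂ (NL.cons h₃ (NL.cons h₄ (NL.cons h₅ (NL.cons h₆
    (NL.cons e₁ (NL.cons e₂ (NL.cons e₃ (NL.cons e₄ (NL.cons e₅ (NL.cons ha (NL.cons hb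
    NL.nil)))))))))))))

theorem fo_msk (h₁ : NF k₁) (h₂ : NF k₂) (h₃ : NF k₃) (h₄ : NF k₄) (h₅ : NF k₅) (h₆ : NF k₆)
    (e₁ : NF d₁) (e₂ : NF d₂) (e₃ : NF d₃) (e₄ : NF d₄) (e₅ : NF d₅) (ha : NF a) (hb : NF b) :
    FO fun N w F e => mskF p N w F ⟨k₁ N e, k₂ N e, k₃ N e, k₄ N e, k₅ N e, k₆ N e⟩
      ⟨d₁ N e, d₂ N e, d₃ N e, d₄ N e, d₅ N e⟩ (a N e) (b N e) := by
  have h : FO fun N w F e => mskF p N w F ⟨e 0, e 1, e 2, e 3, e 4, e 5⟩
      ⟨e 6, e 7, e 8, e 9, e 10⟩ (e 11) (e 12) := by
    unfold mskF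
    repeat' with_reducible first
      | apply fo_cA | apply fo_mate
      | assumption | exact NF.var _ | exact NF.const _ | exact NF.len
      | exact nf_nn _ | exact nf_PP _ | exact nf_DD _ | exact nf_MX _ | exact nf_off _
      | exact nf_rd | apply NF.add | apply NF.sub | apply NF.mul | apply NF.div | apply NF.mod
      | apply NL.cons | exact NL.nil | apply FO.and | apply FO.or | apply FO.not | apply FO.imp
      | apply FO.ex | apply FO.all | apply FO.par | apply FO.rel | apply FO.inp
      | apply FO.le | apply FO.lt | apply FO.eq | dsimp only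
  exact h.app (NL.cons h₁ (NL.cons h₂ (NL.cons h₃ (NL.cons h₄ (NL.cons h₅ (NL.cons h₆
    (NL.cons e₁ (NL.cons e₂ (NL.cons e₃ (NL.cons e₄ (NL.cons e₅ (NL.cons ha (NL.cons hb
    NL.nil)))))))))))))

theorem fo_less (h₁ : NF k₁) (h₂ : NF k₂) (h₃ : NF k₃) (h₄ : NF k₄) (h₅ : NF k₅) (h₆ : NF k₆)
    (e₁ : NF d₁) (e₂ : NF d₂) (e₃ : NF d₃) (e₄ : NF d₄) (e₅ : NF d₅) (hs : NF s)
    (f₁ : NF g₁) (f₂ : NF g₂) (f₃ : NF g₃) (f₄ : NF g₄) (f₅ : NF g₅) (hs' : NF s') :
    FO fun N w F e => lessF p N w F ⟨k₁ N e, k₂ N e, k₃ N e, k₄ N e, k₅ N e, k₆ N e⟩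
      ⟨d₁ N e, d₂ N e, d₃ N e, d₄ N e, d₅ N e⟩ (s N e)
      ⟨g₁ N e, g₂ N e, g₃ N e, g₄ N e, g₅ N e⟩ (s' N e) := by
  have h : FO fun N w F e => lessF p N w F ⟨e 0, e 1, e 2, e 3, e 4, e 5⟩
      ⟨e 6, e 7, e 8, e 9, e 10⟩ (e 11) ⟨e 12, e 13, e 14, e 15, e 16⟩ (e 17) := by
    unfold lessF
    repeat' with_reducible first
      | apply fo_msk
      | assumption | exact NF.var _ | exact NF.const _ | exact NF.len
      | exact nf_nn _ | exact nf_PP _ | exact nf_DD _ | exact nf_MX _ | exact nf_off _
      | exact nf_rd | apply NF.add | apply NF.sub | apply NF.mul | apply NF.div | apply NF.mod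
      | apply NL.cons | exact NL.nil | apply FO.and | apply FO.or | apply FO.not | apply FO.imp
      | apply FO.ex | apply FO.all | apply FO.par | apply FO.rel | apply FO.inp
      | apply FO.le | apply FO.lt | apply FO.eq | dsimp only
  exact h.app (NL.cons h₁ (NL.cons h₂ (NL.cons h₃ (NL.cons h₄ (NL.cons h₅ (NL.cons h₆
    (NL.cons e₁ (NL.cons e₂ (NL.cons e₃ (NL.cons e₄ (NL.cons e₅ (NL.cons hs (NL.cons f₁
    (NL.cons f₂ (NL.cons f₃ (NL.cons f₄ (NL.cons f₅ (NL.cons hs' NL.nil))))))))))))))))))

theorem fo_exCd {n : ℕ → (ℕ → ℕ) → ℕ} {lo : ℕ}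
    {Φ : ℕ → List Bool → Itp → (ℕ → ℕ) → Cd → Prop} (hn : NF n)
    (h : FO fun N w F e => Φ N w F (fun i => e (i + 5)) ⟨lo + e 4, e 3, e 2, e 1, e 0⟩) :
    FO fun N w F e => exCd (n N e) lo fun d => Φ N w F e d := by
  unfold exCd
  exact FO.ex (NF.const 2) (FO.ex (NF.ren (fun i => i + 1) hn)
    (FO.ex (NF.ren (fun i => i + 2) hn) (FO.ex (NF.ren (fun i => i + 3) hn)
    (FO.ex (NF.ren (fun i => i + 4) hn) h))))

theorem fo_best (lo : ℕ) (h₁ : NF k₁) (h₂ : NF k₂) (h₃ : NF k₃) (h₄ : NF k₄) (h₅ : NF k₅)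
    (h₆ : NF k₆) (e₁ : NF d₁) (e₂ : NF d₂) (e₃ : NF d₃) (e₄ : NF d₄) (e₅ : NF d₅) (hs : NF s) :
    FO fun N w F e => bestF p N w F lo ⟨k₁ N e, k₂ N e, k₃ N e, k₄ N e, k₅ N e, k₆ N e⟩
      ⟨d₁ N e, d₂ N e, d₃ N e, d₄ N e, d₅ N e⟩ (s N e) := by
  have h : FO fun N w F e => bestF p N w F lo ⟨e 0, e 1, e 2, e 3, e 4, e 5⟩
      ⟨e 6, e 7, e 8, e 9, e 10⟩ (e 11) := by
    unfold bestF
    repeat' with_reducible first
      | apply fo_cW | apply fo_less | apply fo_exCd
      | assumption | exact NF.var _ | exact NF.const _ | exact NF.len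
      | exact nf_nn _ | exact nf_PP _ | exact nf_DD _ | exact nf_MX _ | exact nf_off _
      | exact nf_rd | apply NF.add | apply NF.sub | apply NF.mul | apply NF.div | apply NF.mod
      | apply NL.cons | exact NL.nil | apply FO.and | apply FO.or | apply FO.not | apply FO.imp
      | apply FO.ex | apply FO.all | apply FO.par | apply FO.rel | apply FO.inp
      | apply FO.le | apply FO.lt | apply FO.eq | dsimp only
  exact h.app (NL.cons h₁ (NL.cons h₂ (NL.cons h₃ (NL.cons h₄ (NL.cons h₅ (NL.cons h₆
    (NL.cons e₁ (NL.cons e₂ (NL.cons e₃ (NL.cons e₄ (NL.cons e₅ (NL.cons hs NL.nil))))))))))))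

theorem fo_newW (lo : ℕ) (h₁ : NF k₁) (h₂ : NF k₂) (h₃ : NF k₃) (h₄ : NF k₄) (h₅ : NF k₅)
    (h₆ : NF k₆) (hs : NF s) :
    FO fun N w F e => newW p N w F lo ⟨k₁ N e, k₂ N e, k₃ N e, k₄ N e, k₅ N e, k₆ N e⟩
      (s N e) := by
  have h : FO fun N w F e => newW p N w F lo ⟨e 0, e 1, e 2, e 3, e 4, e 5⟩ (e 6) := by
    unfold newW
    repeat' with_reducible first
      | apply fo_best | apply fo_exCd
      | assumption | exact NF.var _ | exact NF.const _ | exact NF.len
      | exact nf_nn _ | exact nf_PP _ | exact nf_DD _ | exact nf_MX _ | exact nf_off _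
      | exact nf_rd | apply NF.add | apply NF.sub | apply NF.mul | apply NF.div | apply NF.mod
      | apply NL.cons | exact NL.nil | apply FO.and | apply FO.or | apply FO.not | apply FO.imp
      | apply FO.ex | apply FO.all | apply FO.par | apply FO.rel | apply FO.inp
      | apply FO.le | apply FO.lt | apply FO.eq | dsimp only
  exact h.app (NL.cons h₁ (NL.cons h₂ (NL.cons h₃ (NL.cons h₄ (NL.cons h₅ (NL.cons h₆
    (NL.cons hs NL.nil)))))))

theorem fo_newA (lo : ℕ) (h₁ : NF k₁) (h₂ : NF k₂) (h₃ : NF k₃) (h₄ : NF k₄) (h₅ : NF k₅)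
    (h₆ : NF k₆) (ha : NF a) (hb : NF b) :
    FO fun N w F e => newA p N w F lo ⟨k₁ N e, k₂ N e, k₃ N e, k₄ N e, k₅ N e, k₆ N e⟩
      (a N e) (b N e) := by
  have h : FO fun N w F e => newA p N w F lo ⟨e 0, e 1, e 2, e 3, e 4, e 5⟩ (e 6) (e 7) := by
    unfold newA
    repeat' with_reducible first
      | apply fo_best | apply fo_exCd | apply fo_cA
      | assumption | exact NF.var _ | exact NF.const _ | exact NF.len
      | exact nf_nn _ | exact nf_PP _ | exact nf_DD _ | exact nf_MX _ | exact nf_off _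
      | exact nf_rd | apply NF.add | apply NF.sub | apply NF.mul | apply NF.div | apply NF.mod
      | apply NL.cons | exact NL.nil | apply FO.and | apply FO.or | apply FO.not | apply FO.imp
      | apply FO.ex | apply FO.all | apply FO.par | apply FO.rel | apply FO.inp
      | apply FO.le | apply FO.lt | apply FO.eq | dsimp only
  exact h.app (NL.cons h₁ (NL.cons h₂ (NL.cons h₃ (NL.cons h₄ (NL.cons h₅ (NL.cons h₆
    (NL.cons ha (NL.cons hb NL.nil))))))))

end

/-! ### The output -/

theorem fo_inp (p : Polynomial ℕ) : FO fun N w _ _ => inpF p N w := by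
  unfold inpF
  repeat' with_reducible first
    | apply fo_bit
    | assumption | exact NF.var _ | exact NF.const _ | exact NF.len
    | exact nf_nn _ | exact nf_PP _ | exact nf_DD _ | exact nf_MX _ | exact nf_off _
    | exact nf_rd | apply NF.add | apply NF.sub | apply NF.mul | apply NF.div | apply NF.mod
    | apply NL.cons | exact NL.nil | apply FO.and | apply FO.or | apply FO.not | apply FO.imp
    | apply FO.ex | apply FO.all | apply FO.par | apply FO.rel | apply FO.inp
    | apply FO.le | apply FO.lt | apply FO.eq | dsimp only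

theorem fo_pm (p : Polynomial ℕ) : FO fun N w F _ => pmF p N w F := by
  unfold pmF
  repeat' with_reducible first
    | apply fo_mate
    | assumption | exact NF.var _ | exact NF.const _ | exact NF.len
    | exact nf_nn _ | exact nf_PP _ | exact nf_DD _ | exact nf_MX _ | exact nf_off _
    | exact nf_rd | apply NF.add | apply NF.sub | apply NF.mul | apply NF.div | apply NF.mod
    | apply NL.cons | exact NL.nil | apply FO.and | apply FO.or | apply FO.not | apply FO.imp
    | apply FO.ex | apply FO.all | apply FO.par | apply FO.rel | apply FO.inp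
    | apply FO.le | apply FO.lt | apply FO.eq | dsimp only

theorem fo_acc (p : Polynomial ℕ) : FO fun N w F _ => accF p N w F := by
  unfold accF
  repeat' with_reducible first
    | apply fo_mate | apply fo_arc | apply fo_qW
    | assumption | exact NF.var _ | exact NF.const _ | exact NF.len
    | exact nf_nn _ | exact nf_PP _ | exact nf_DD _ | exact nf_MX _ | exact nf_off _
    | exact nf_rd | apply NF.add | apply NF.sub | apply NF.mul | apply NF.div | apply NF.mod
    | apply NL.cons | exact NL.nil | apply FO.and | apply FO.or | apply FO.not | apply FO.imp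
    | apply FO.ex | apply FO.all | apply FO.par | apply FO.rel | apply FO.inp
    | apply FO.le | apply FO.lt | apply FO.eq | dsimp only

theorem fo_out (p : Polynomial ℕ) : FO fun N w F _ => outF p N w F :=
  (fo_inp p).and ((fo_pm p).and (fo_acc p))

theorem sys_fod (p : Polynomial ℕ) : ∀ i, i < 8 → FOD (sys p i)
  | 0, _ => fo_out p
  | 1, _ => fo_pow
  | 2, _ => fo_prod
  | 3, _ => fo_inv
  | 4, _ => fo_newW 2 (NF.var 0) (NF.var 1) (NF.var 2) (NF.var 3) (NF.const 0) (NF.const 0)
      (NF.var 4)
  | 5, _ => fo_newA 2 (NF.var 0) (NF.var 1) (NF.var 2) (NF.var 3) (NF.const 0) (NF.const 0)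
      (NF.var 4) (NF.var 5)
  | 6, _ => fo_newW 0 (NF.var 0) (NF.var 1) (NF.var 2) (NF.var 3) (NF.var 4) (NF.var 5)
      (NF.var 6)
  | 7, _ => fo_newA 0 (NF.var 0) (NF.var 1) (NF.var 2) (NF.var 3) (NF.var 4) (NF.var 5)
      (NF.var 6) (NF.var 7)
  | i + 8, h => by omega

theorem sys_out (p : Polynomial ℕ) (i : ℕ) (h : 8 ≤ i) (x : List Bool) (F : Itp) (e : ℕ → ℕ) :
    ¬ sys p i x F e := by
  obtain ⟨j, rfl⟩ := Nat.exists_eq_add_of_le h
  rw [Nat.add_comm 8 j]
  exact id

end Pool.Agent.WUPM
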