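import Mathlib
import Pool.Agent.WUPM.Stmts

/-!
# The chain of states around a node of an optimal path (Lemmas A, A', B)
-/

set_option autoImplicit false
set_option linter.unusedSectionVars false

namespace Pool.Agent.WUPM

open Finset Pool.Agent.UPM

section

variable {V : Type} [DecidableEq V] {S : Skew V} {w : V → V → ℤ} {p : ℕ → V} {h : ℕ}

/-! ### Segments -/

theorem sg_eq {V : Type} (w : V → V → ℤ) (p : ℕ → V) (a b : ℕ) :
    sg w p a b = ∑ j ∈ Ico a b, w (p j) (p (j + 1)) := by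
  unfold sg wp
  rw [sum_Ico_eq_sum_range]
  rfl

theorem sg_self {V : Type} (w : V → V → ℤ) (p : ℕ → V) (a : ℕ) : sg w p a a = 0 := by
  rw [sg_eq, Ico_self, sum_empty]

theorem sg_succ {V : Type} (w : V → V → ℤ) (p : ℕ → V) {a b : ℕ} (hab : a ≤ b) :
    sg w p a (b + 1) = sg w p a b + w (p b) (p (b + 1)) := by
  rw [sg_eq, sg_eq, sum_Ico_succ_top hab]

/-- Indicator of the node `p a` in the interval. -/
def ind (s t a : ℕ) : ℤ := if s ≤ 2 * a + 1 ∧ 2 * a + 1 ≤ t then 1 else 0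

theorem Iv.sg_part {K : Finset V} {s t : ℕ} (H : Iv S K p h s t) {a b : ℕ} (hab : a ≤ b)
    (hb : b ≤ h) :
    sg (cK S K) p a b = (if s % 2 = 0 then 1 else -1) * (ind s t b - ind s t a) := by
  obtain ⟨h1, h2, h3, h4, H⟩ := H
  induction b, hab using Nat.le_induction with
  | base => rw [sg_self, sub_self, mul_zero]
  | succ b hab ih =>
    rw [sg_succ _ p hab, ih (by omega)]
    have e1 := H b (by omega)
    have e2 := H (b + 1) hb
    unfold cK ind
    simp only [e1.2, e2.1, e2.2]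
    by_cases hs : s % 2 = 0
    · rw [if_pos hs]
      split_ifs <;> omega
    · rw [if_neg hs]
      split_ifs <;> omega

/-- No danger for a single part. -/
def Safe1 (l m a b : ℕ) : Prop :=
  (l % 2 = 1 → ¬ (l < 2 * a + 1 ∧ 2 * a + 1 ≤ m ∧ m < 2 * b + 1)) ∧
    (l % 2 = 0 → ¬ (2 * a + 1 < l ∧ l ≤ 2 * b + 1 ∧ 2 * b + 1 ≤ m))

/-- No danger for two parts. -/
def Safe2 (l m a b d e : ℕ) : Prop :=
  (l % 2 = 1 → ¬ (l < 2 * a + 1 ∧ 2 * a + 1 ≤ m ∧ m < 2 * b + 1) ∧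
      ¬ (l < 2 * a + 1 ∧ 2 * d + 1 ≤ m ∧ m < 2 * e + 1) ∧
      ¬ (2 * b + 1 < l ∧ l < 2 * d + 1 ∧ 2 * d + 1 ≤ m ∧ m < 2 * e + 1)) ∧
    (l % 2 = 0 → ¬ (2 * a + 1 < l ∧ l ≤ 2 * b + 1 ∧ 2 * b + 1 ≤ m ∧ m < 2 * d) ∧
      ¬ (2 * a + 1 < l ∧ l ≤ 2 * b + 1 ∧ 2 * e + 1 ≤ m) ∧
      ¬ (2 * d + 1 < l ∧ l ≤ 2 * e + 1 ∧ 2 * e + 1 ≤ m))

/-! ### Lower bounds -/

/-- `1` if `K` separates the nodes. -/
def ct (K : Finset V) (u v : V) : ℤ := if (u ∈ K ↔ v ∈ K) then 0 else 1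

/-- The path avoids the matching edge of `b`. -/
def Av (S : Skew V) (b : V) (q : ℕ → V) (l : ℕ) : Prop :=
  ∀ i, 1 ≤ i → i ≤ l → q i ≠ b ∧ q i ≠ S.m b

theorem lower [Fintype V] (hX : CrossStmt) {K : Finset V} {b : V} (hb : b ∈ K) (hb' : S.m b ∉ K)
    (hu : ∀ v ∈ K, S.m v ∉ K → v = b) {q : ℕ → V} {l : ℕ} (hq : S.Path q l) :
    - ct K (q 0) (q l) ≤ wp (cK S K) q l ∧ (Av S b q l → ct K (q 0) (q l) ≤ wp (cK S K) q l) := by
  obtain ⟨h1, h2, h3⟩ := hX V S K b hb hb' hu q l hq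
  unfold ct
  by_cases h4 : (q 0 ∈ K ↔ q l ∈ K)
  · rw [if_pos h4]
    have := h1 h4
    exact ⟨by omega, fun _ => this⟩
  · rw [if_neg h4]
    exact ⟨h2 h4, fun h5 => h3 h4 h5⟩

theorem Av.of_start {b : V} {q : ℕ → V} {l : ℕ} (hq : S.Path q l)
    (h0 : b = q 0 ∨ b = S.m (q 0)) : Av S b q l := by
  intro i h1 h2
  have h3 := hq.2 0 i (by omega) h2
  rcases h0 with rfl | rfl
  · exact h3
  · rw [S.mm]; exact ⟨h3.2, h3.1⟩

theorem Av.of_dj {b : V} {q r : ℕ → V} {k l : ℕ} (hd : Dj S q k r l)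
    (h0 : b = q 0 ∨ b = S.m (q 0)) : Av S b r l := by
  intro i _ h2
  have h3 := hd 0 i (Nat.zero_le _) h2
  rcases h0 with rfl | rfl
  · exact h3
  · rw [S.mm]; exact ⟨h3.2, h3.1⟩

theorem Dj.symm {q r : ℕ → V} {k l : ℕ} (hd : Dj S q k r l) : Dj S r l q k := by
  intro i j hi hj
  have := hd j i hj hi
  refine ⟨fun e => this.1 e.symm, fun e => this.2 ?_⟩
  rw [e, S.mm]

theorem Av.one {b : V} {q r : ℕ → V} {k l : ℕ} (hd : Dj S q k r l) : Av S b q k ∨ Av S b r l := by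
  by_cases h1 : Av S b q k
  · exact Or.inl h1
  right
  unfold Av at h1
  push Not at h1
  obtain ⟨i, h2, h3, h4⟩ := h1
  intro j _ hj
  have h5 := hd i j h3 hj
  by_cases h6 : q i = b
  · rw [← h6]; exact h5
  · have h7 := h4 h6
    rw [h7, S.mm] at h5
    exact ⟨h5.2, h5.1⟩

theorem Iv.ct_nodes {K : Finset V} {s t : ℕ} (H : Iv S K p h s t) {a b : ℕ} (ha : a ≤ h)
    (hb : b ≤ h) : ct K (p a) (p b) =
    if (s ≤ 2 * a + 1 ∧ 2 * a + 1 ≤ t) ↔ (s ≤ 2 * b + 1 ∧ 2 * b + 1 ≤ t) then 0 else 1 := by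
  obtain ⟨h1, h2, h3, h4, H⟩ := H
  unfold ct
  simp only [(H a ha).2, (H b hb).2]

/-- The base of an interval. -/
theorem Iv.base {K : Finset V} {b : V} (hu : ∀ v ∈ K, S.m v ∉ K → v = b) {s t : ℕ}
    (H : Iv S K p h s t) {a : ℕ} (ha : a ≤ h)
    (h1 : (s % 2 = 1 ∧ a = s / 2) ∨ (s % 2 = 0 ∧ a = t / 2)) : b = p a ∨ b = S.m (p a) := by
  obtain ⟨g1, g2, g3, g4, H⟩ := H
  obtain ⟨e1, e2⟩ := H a ha
  rcases h1 with ⟨h1, h2⟩ | ⟨h1, h2⟩
  · left
    exact (hu (p a) (e2.2 (by omega)) (fun h3 => by have := e1.1 h3; omega)).symm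
  · right
    refine (hu (S.m (p a)) (e1.2 (by omega)) (fun h3 => ?_)).symm
    rw [S.mm] at h3
    have := e2.1 h3
    omega

/-- Comparison of the crossing numbers, one part. -/
theorem cmp1 [Fintype V] (hX : CrossStmt) {K : Finset V} {b : V} (hb : b ∈ K) (hb' : S.m b ∉ K)
    (hu : ∀ v ∈ K, S.m v ∉ K → v = b) {q : ℕ → V} {k : ℕ} (hq : S.Path q k) {a d : ℕ} (had : a ≤ d)
    (hd : d ≤ h) (h0 : q 0 = p a) (hk : q k = p d)
    (hK : (∀ j, j ≤ h → p j ∉ K ∧ S.m (p j) ∉ K) ∨ ∃ s t, Iv S K p h s t ∧ Safe1 s t a d) :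
    sg (cK S K) p a d ≤ wp (cK S K) q k := by
  obtain ⟨g1, g2⟩ := lower hX hb hb' hu hq
  rcases hK with hK | ⟨s, t, H, hs⟩
  · have h2 : sg (cK S K) p a d = 0 := by
      rw [sg_eq]
      apply sum_eq_zero
      intro j hj
      rw [mem_Ico] at hj
      unfold cK
      rw [if_pos, if_pos, sub_zero]
      · exact ⟨fun h => absurd h (hK (j + 1) (by omega)).2,
          fun h => absurd h (hK (j + 1) (by omega)).1⟩
      · exact ⟨fun h => absurd h (hK j (by omega)).1,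
          fun h => absurd h (hK (j + 1) (by omega)).2⟩
    rw [h2]
    have h3 : ct K (q 0) (q k) = 0 := by
      unfold ct
      rw [if_pos]
      rw [h0, hk]
      exact ⟨fun h => absurd h (hK a (by omega)).1, fun h => absurd h (hK d hd).1⟩
    omega
  · rw [H.sg_part had hd]
    have hcut := H.ct_nodes (a := a) (b := d) (by omega) hd
    have g3 : (s % 2 = 1 ∧ a = s / 2) ∨ (s % 2 = 0 ∧ a = t / 2) →
        ct K (q 0) (q k) ≤ wp (cK S K) q k := fun g =>
      g2 (Av.of_start hq (by rw [h0]; exact H.base hu (by omega) g))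
    rw [h0, hk, hcut] at g1 g3
    obtain ⟨e1, e2, e3, e4, _⟩ := H
    clear hcut g2
    generalize wp (cK S K) q k = X at g1 g3
    unfold ind
    unfold Safe1 at hs
    rcases Nat.mod_two_eq_zero_or_one s with hl | hl
    · rw [if_pos hl]
      have hs2 := hs.2 hl
      split_ifs at g1 g3 ⊢ <;> omega
    · rw [if_neg (by omega)]
      have hs2 := hs.1 hl
      split_ifs at g1 g3 ⊢ <;> omega

/-- Comparison of the crossing numbers, two parts. -/
theorem cmp2 [Fintype V] (hX : CrossStmt) {K : Finset V} {b : V} (hb : b ∈ K) (hb' : S.m b ∉ K)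
    (hu : ∀ v ∈ K, S.m v ∉ K → v = b) {q r : ℕ → V} {k l : ℕ} (hq : S.Path q k)
    (hr : S.Path r l) (hdj : Dj S q k r l) {a d c e : ℕ} (had : a ≤ d) (hdc : d < c) (hce : c ≤ e)
    (he : e ≤ h) (h0 : q 0 = p a) (hk : q k = p d) (hr0 : r 0 = p c) (hrl : r l = p e)
    (hK : (∀ j, j ≤ h → p j ∉ K ∧ S.m (p j) ∉ K) ∨ ∃ s t, Iv S K p h s t ∧ Safe2 s t a d c e) :
    sg (cK S K) p a d + sg (cK S K) p c e ≤ wp (cK S K) q k + wp (cK S K) r l := by
  obtain ⟨g1, g2⟩ := lower hX hb hb' hu hq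
  obtain ⟨f1, f2⟩ := lower hX hb hb' hu hr
  rcases hK with hK | ⟨s, t, H, hs⟩
  · have h2 : ∀ a d, d ≤ h → sg (cK S K) p a d = 0 := by
      intro a d hd
      rw [sg_eq]
      apply sum_eq_zero
      intro j hj
      rw [mem_Ico] at hj
      unfold cK
      rw [if_pos, if_pos, sub_zero]
      · exact ⟨fun h => absurd h (hK (j + 1) (by omega)).2,
          fun h => absurd h (hK (j + 1) (by omega)).1⟩
      · exact ⟨fun h => absurd h (hK j (by omega)).1,
          fun h => absurd h (hK (j + 1) (by omega)).2⟩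
    rw [h2 a d (by omega), h2 c e he]
    have h3 : ct K (q 0) (q k) = 0 := by
      unfold ct
      rw [if_pos]
      rw [h0, hk]
      exact ⟨fun h => absurd h (hK a (by omega)).1, fun h => absurd h (hK d (by omega)).1⟩
    have h4 : ct K (r 0) (r l) = 0 := by
      unfold ct
      rw [if_pos]
      rw [hr0, hrl]
      exact ⟨fun h => absurd h (hK c (by omega)).1, fun h => absurd h (hK e he).1⟩
    omega
  · rw [H.sg_part had (by omega), H.sg_part hce he]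
    have hcut := H.ct_nodes (a := a) (b := d) (by omega) (by omega)
    have hcut' := H.ct_nodes (a := c) (b := e) (by omega) he
    have g3 : (s % 2 = 1 ∧ a = s / 2) ∨ (s % 2 = 0 ∧ a = t / 2) →
        ct K (q 0) (q k) ≤ wp (cK S K) q k ∧ ct K (r 0) (r l) ≤ wp (cK S K) r l := fun g => by
      have g' := H.base hu (a := a) (by omega) g
      rw [← h0] at g'
      exact ⟨g2 (Av.of_start hq g'), f2 (Av.of_dj hdj g')⟩
    have g4 : (s % 2 = 1 ∧ c = s / 2) ∨ (s % 2 = 0 ∧ c = t / 2) →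
        ct K (q 0) (q k) ≤ wp (cK S K) q k ∧ ct K (r 0) (r l) ≤ wp (cK S K) r l := fun g => by
      have g' := H.base hu (a := c) (by omega) g
      rw [← hr0] at g'
      exact ⟨g2 (Av.of_dj hdj.symm g'), f2 (Av.of_start hr g')⟩
    have g5 : ct K (q 0) (q k) ≤ wp (cK S K) q k ∨ ct K (r 0) (r l) ≤ wp (cK S K) r l :=
      (Av.one (b := b) hdj).imp g2 f2
    rw [h0, hk, hcut] at g1
    rw [hr0, hrl, hcut'] at f1
    rw [h0, hk, hcut, hr0, hrl, hcut'] at g3 g4 g5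
    obtain ⟨e1, e2, e3, e4, _⟩ := H
    clear hcut hcut' g2 f2
    generalize wp (cK S K) q k = X at g1 g3 g4 g5
    generalize wp (cK S K) r l = Y at f1 g3 g4 g5
    unfold ind
    unfold Safe2 at hs
    rcases Nat.mod_two_eq_zero_or_one s with hl | hl
    · rw [if_pos hl]
      have hs2 := hs.2 hl
      clear hs
      split_ifs at g1 f1 g3 g4 g5 ⊢ <;> omega
    · rw [if_neg (by omega)]
      have hs2 := hs.1 hl
      clear hs
      split_ifs at g1 f1 g3 g4 g5 ⊢ <;> omega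

end

section

variable {V : Type} [Fintype V] [DecidableEq V] {S : Skew V} {w : V → V → ℤ} {p : ℕ → V} {h : ℕ}
  {n : ℕ} {K : Fin n → Finset V}

theorem sum_cK_le (F : Fam S w (p 0) (p h) (wp w p h) K) {q : ℕ → V} {l : ℕ} (hq : S.Path q l) :
    ∑ i, wp (cK S (K i)) q l ≤ 2 * wp w q l := by
  unfold wp
  rw [sum_comm, mul_sum]
  refine sum_le_sum fun j hj => ?_
  rw [mem_range] at hj
  exact F.le _ _ (hq.1 j hj)

theorem sum_sg (ht : ∀ j, j < h → ∑ i, cK S (K i) (p j) (p (j + 1)) = 2 * w (p j) (p (j + 1)))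
    {a b : ℕ} (hb : b ≤ h) : ∑ i, sg (cK S (K i)) p a b = 2 * sg w p a b := by
  simp only [sg_eq]
  rw [sum_comm, mul_sum]
  refine sum_congr rfl fun j hj => ?_
  rw [mem_Ico] at hj
  exact ht j (by omega)

theorem seg_core (hX : CrossStmt) (F : Fam S w (p 0) (p h) (wp w p h) K)
    (hpat : ∀ i, (∀ j, j ≤ h → p j ∉ K i ∧ S.m (p j) ∉ K i) ∨ ∃ s t, Iv S (K i) p h s t)
    (ht : ∀ j, j < h → ∑ i, cK S (K i) (p j) (p (j + 1)) = 2 * w (p j) (p (j + 1)))
    {a b : ℕ} (hab : a ≤ b) (hb : b ≤ h)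
    (hs : ∀ i s t, Iv S (K i) p h s t → Safe1 s t a b) : SegOpt S w p a b := by
  intro q l hq h0 hl
  have h1 := sum_cK_le F hq
  have h2 := sum_sg ht (a := a) hb
  have h3 : ∑ i, sg (cK S (K i)) p a b ≤ ∑ i, wp (cK S (K i)) q l := by
    refine sum_le_sum fun i _ => ?_
    obtain ⟨b', hb1, hb2, hb3⟩ := F.base i
    refine cmp1 hX hb1 hb2 hb3 hq hab hb h0 hl ?_
    rcases hpat i with h4 | ⟨s, t, h4⟩
    · exact Or.inl h4
    · exact Or.inr ⟨s, t, h4, hs i s t h4⟩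
  omega

theorem pair_core (hX : CrossStmt) (F : Fam S w (p 0) (p h) (wp w p h) K)
    (hpat : ∀ i, (∀ j, j ≤ h → p j ∉ K i ∧ S.m (p j) ∉ K i) ∨ ∃ s t, Iv S (K i) p h s t)
    (ht : ∀ j, j < h → ∑ i, cK S (K i) (p j) (p (j + 1)) = 2 * w (p j) (p (j + 1)))
    {a b c e : ℕ} (hab : a ≤ b) (hbc : b < c) (hce : c ≤ e) (he : e ≤ h)
    (hs : ∀ i s t, Iv S (K i) p h s t → Safe2 s t a b c e) : PairOpt S w p a b c e := by
  intro q k r l hq hr hd h0 hk hr0 hrl
  have h1 := sum_cK_le F hq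
  have h1' := sum_cK_le F hr
  have h2 := sum_sg ht (a := a) (b := b) (by omega)
  have h2' := sum_sg ht (a := c) he
  have h3 : ∑ i, (sg (cK S (K i)) p a b + sg (cK S (K i)) p c e) ≤
      ∑ i, (wp (cK S (K i)) q k + wp (cK S (K i)) r l) := by
    refine sum_le_sum fun i _ => ?_
    obtain ⟨b', hb1, hb2, hb3⟩ := F.base i
    refine cmp2 hX hb1 hb2 hb3 hq hr hd hab hbc hce he h0 hk hr0 hrl ?_
    rcases hpat i with h4 | ⟨s, t, h4⟩
    · exact Or.inl h4
    · exact Or.inr ⟨s, t, h4, hs i s t h4⟩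
  rw [sum_add_distrib, sum_add_distrib] at h3
  omega

/-! ### Laminarity of the intervals -/

/-- The intervals `(s, t)` and `o` are nested or disjoint. -/
def Lm (s t : ℕ) (o : ℕ × ℕ) : Prop :=
  (t < o.1 ∨ o.2 < s) ∨ (s ≤ o.1 ∧ o.2 ≤ t) ∨ (o.1 ≤ s ∧ t ≤ o.2)

theorem exists_pos (S : Skew V) (p : ℕ → V) (h k : ℕ) (hk : k ≤ 2 * h + 1) :
    ∃ v : V, ∀ (L : Finset V) (s t : ℕ), Iv S L p h s t → (v ∈ L ↔ s ≤ k ∧ k ≤ t) := by
  rcases Nat.even_or_odd' k with ⟨i, rfl | rfl⟩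
  · exact ⟨S.m (p i), fun L s t H => (H.2.2.2.2 i (by omega)).1⟩
  · exact ⟨p i, fun L s t H => (H.2.2.2.2 i (by omega)).2⟩

theorem Iv.lm {L L' : Finset V} {s t s' t' : ℕ} (H : Iv S L p h s t) (H' : Iv S L' p h s' t')
    (hl : L ⊆ L' ∨ L' ⊆ L ∨ Disjoint L L') : Lm s t (s', t') := by
  have G := H
  have G' := H'
  obtain ⟨e1, e2, e3, e4, _⟩ := G
  obtain ⟨e1', e2', e3', e4', _⟩ := G'
  rcases hl with hl | hl | hl
  · obtain ⟨v, hv⟩ := exists_pos S p h s (by omega)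
    obtain ⟨u, hu⟩ := exists_pos S p h t (by omega)
    have h1 := (hv L' s' t' H').1 (hl ((hv L s t H).2 (by omega)))
    have h2 := (hu L' s' t' H').1 (hl ((hu L s t H).2 (by omega)))
    unfold Lm
    right; right
    exact ⟨h1.1, h2.2⟩
  · obtain ⟨v, hv⟩ := exists_pos S p h s' (by omega)
    obtain ⟨u, hu⟩ := exists_pos S p h t' (by omega)
    have h1 := (hv L s t H).1 (hl ((hv L' s' t' H').2 (by omega)))
    have h2 := (hu L s t H).1 (hl ((hu L' s' t' H').2 (by omega)))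
    unfold Lm
    right; left
    exact ⟨h1.1, h2.2⟩
  · unfold Lm
    left
    by_contra h1
    dsimp only at h1
    obtain ⟨v, hv⟩ := exists_pos S p h (max s s') (by omega)
    have h2 := (hv L s t H).2 (by omega)
    have h3 := (hv L' s' t' H').2 (by omega)
    exact disjoint_left.1 hl h2 h3

end

/-- **P5** from P2, P3, P4. -/
theorem chain_of (hD : DualStmt) (hX : CrossStmt) (hP : PatternStmt) : ChainStmt := by
  classical
  intro V _ _ S w hw hg p h h1 hp hopt j hj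
  obtain ⟨n, K, F⟩ := hD V S w hw hg p h h1 hp hopt
  obtain ⟨hpat, ht⟩ := hP V S w p h h1 hp n K F
  let C : Finset (ℕ × ℕ) := insert (1, 2 * h + 1) (insert (2 * j + 1, 2 * j + 1)
    (((range (2 * h + 2)) ×ˢ (range (2 * h + 2))).filter fun σ => (∃ i, Iv S (K i) p h σ.1 σ.2) ∧
      σ.1 ≤ 2 * j + 1 ∧ 2 * j + 1 ≤ σ.2 ∧ σ.2 ≤ 2 * h))
  have hC : ∀ σ, σ ∈ C ↔ σ = (1, 2 * h + 1) ∨ σ = (2 * j + 1, 2 * j + 1) ∨
      ((∃ i, Iv S (K i) p h σ.1 σ.2) ∧ σ.1 ≤ 2 * j + 1 ∧ 2 * j + 1 ≤ σ.2 ∧ σ.2 ≤ 2 * h) := by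
    intro σ
    simp only [C, mem_insert, mem_filter, mem_product, mem_range]
    constructor
    · rintro (h2 | h2 | h2)
      · exact Or.inl h2
      · exact Or.inr (Or.inl h2)
      · exact Or.inr (Or.inr h2.2)
    · rintro (h2 | h2 | h2)
      · exact Or.inl h2
      · exact Or.inr (Or.inl h2)
      · refine Or.inr (Or.inr ⟨?_, h2⟩)
        omega
  have hrng : ∀ σ ∈ C, 1 ≤ σ.1 ∧ σ.1 ≤ 2 * j + 1 ∧ 2 * j + 1 ≤ σ.2 ∧ σ.2 ≤ 2 * h + 1 ∧
      σ.1 % 2 = σ.2 % 2 := by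
    intro σ hσ
    rcases (hC σ).1 hσ with rfl | rfl | ⟨⟨i, H⟩, h3, h4, h5⟩
    · refine ⟨?_, ?_, ?_, ?_, ?_⟩ <;> dsimp only <;> omega
    · refine ⟨?_, ?_, ?_, ?_, ?_⟩ <;> dsimp only <;> omega
    · obtain ⟨e1, e2, e3, e4, _⟩ := H
      omega
  have hlam : ∀ σ ∈ C, ∀ i s t, Iv S (K i) p h s t → Lm s t σ := by
    intro σ hσ i s t H
    rcases (hC σ).1 hσ with rfl | rfl | ⟨⟨i', H'⟩, _⟩
    · obtain ⟨e1, e2, e3, e4, _⟩ := H
      unfold Lm
      simp only; omega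
    · obtain ⟨e1, e2, e3, e4, _⟩ := H
      unfold Lm
      simp only; omega
    · exact H.lm H' (F.lam i i')
  have htot : ∀ σ ∈ C, ∀ σ' ∈ C, Nest σ σ' ∨ Nest σ' σ := by
    intro σ hσ σ' hσ'
    have r1 := hrng σ hσ
    have r2 := hrng σ' hσ'
    unfold Nest
    rcases (hC σ).1 hσ with h3 | h3 | ⟨⟨i, H⟩, _⟩
    · rw [h3] at r1 ⊢
      simp only at r1 ⊢; omega
    · rw [h3] at r1 ⊢
      simp only at r1 ⊢; omega
    · have := hlam σ' hσ' i _ _ H
      unfold Lm at this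
      omega
  refine ⟨C, hrng, (hC _).2 (Or.inl rfl), (hC _).2 (Or.inr (Or.inl rfl)), htot, ?_, ?_, ?_, ?_, ?_⟩
  · intro o ho i hi hn h2 h3
    have r1 := hrng o ho
    have r2 := hrng i hi
    unfold Nest at hn
    refine pair_core hX F hpat ht h2 (by omega) h3 (by omega) ?_
    intro k s t H
    have l1 := hlam o ho k s t H
    have l2 := hlam i hi k s t H
    obtain ⟨e1, e2, e3, e4, _⟩ := H
    unfold Lm at l1 l2
    unfold Safe2
    refine ⟨fun hs => ⟨?_, ?_, ?_⟩, fun hs => ⟨?_, ?_, ?_⟩⟩ <;> omega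
  · intro o ho i hi hn hcons h2
    have r1 := hrng o ho
    have r2 := hrng i hi
    unfold Nest at hn
    refine seg_core hX F hpat ht h2 (by omega) ?_
    intro k s t H
    have l1 := hlam o ho k s t H
    have l2 := hlam i hi k s t H
    have H' := H
    obtain ⟨e1, e2, e3, e4, _⟩ := H
    unfold Lm at l1 l2
    unfold Safe1
    refine ⟨fun hs => ?_, fun hs h4 => ?_⟩
    · omega
    · have hm : (s, t) ∈ C := (hC _).2 (Or.inr (Or.inr ⟨⟨k, H'⟩, by simp only; omega⟩))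
      rcases hcons (s, t) hm (by unfold Nest; simp only; omega) (by unfold Nest; simp only; omega)
        with h5 | h5
      · rw [← h5] at h4 l1 r1
        simp only at h4 l1 r1
        omega
      · rw [← h5] at h4 l2 r2
        simp only at h4 l2 r2
        omega
  · intro o ho i hi hn hcons h2
    have r1 := hrng o ho
    have r2 := hrng i hi
    unfold Nest at hn
    refine seg_core hX F hpat ht h2 (by omega) ?_
    intro k s t H
    have l1 := hlam o ho k s t H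
    have l2 := hlam i hi k s t H
    have H' := H
    obtain ⟨e1, e2, e3, e4, _⟩ := H
    unfold Lm at l1 l2
    unfold Safe1
    refine ⟨fun hs h4 => ?_, fun hs => ?_⟩
    · have hm : (s, t) ∈ C := (hC _).2 (Or.inr (Or.inr ⟨⟨k, H'⟩, by simp only; omega⟩))
      rcases hcons (s, t) hm (by unfold Nest; simp only; omega) (by unfold Nest; simp only; omega)
        with h5 | h5
      · rw [← h5] at h4 l1 r1
        simp only at h4 l1 r1
        omega
      · rw [← h5] at h4 l2 r2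
        simp only at h4 l2 r2
        omega
    · omega
  · intro o ho i hi hn hemp h2
    have r1 := hrng o ho
    have r2 := hrng i hi
    unfold Nest at hn
    refine seg_core hX F hpat ht h2 (by omega) ?_
    intro k s t H
    have l1 := hlam o ho k s t H
    have l2 := hlam i hi k s t H
    obtain ⟨e1, e2, e3, e4, _⟩ := H
    unfold Lm at l1 l2
    unfold Safe1
    refine ⟨fun hs => ?_, fun hs => ?_⟩ <;> omega
  · intro o ho i hi hn hemp h2
    have r1 := hrng o ho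
    have r2 := hrng i hi
    unfold Nest at hn
    refine seg_core hX F hpat ht h2 (by omega) ?_
    intro k s t H
    have l1 := hlam o ho k s t H
    have l2 := hlam i hi k s t H
    obtain ⟨e1, e2, e3, e4, _⟩ := H
    unfold Lm at l1 l2
    unfold Safe1
    refine ⟨fun hs => ?_, fun hs => ?_⟩ <;> omega

end Pool.Agent.WUPM
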