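import Mathlib
import Pool.Agent.WUPM.Basic
import Pool.Agent.WUPM.Stmts

/-!
# Completeness of the tables
-/

set_option autoImplicit false
set_option linter.unusedSectionVars false

namespace Pool.Agent.WUPM.Cpl

open Finset Pool.Agent.UPM

variable {V : Type} [DecidableEq V]

/-! ### Segments -/

/-- The arcs of the segment `p a, …, p b`. -/
def ar (p : ℕ → V) (a b : ℕ) : Finset (V × V) := arcs (fun i => p (a + i)) (b - a)

theorem mem_ar {p : ℕ → V} {a b : ℕ} {e : V × V} :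
    e ∈ ar p a b ↔ ∃ i, a ≤ i ∧ i < b ∧ e = (p i, p (i + 1)) := by
  unfold ar
  rw [mem_arcs]
  constructor
  · rintro ⟨i, hi, h⟩
    exact ⟨a + i, by omega, by omega, h⟩
  · rintro ⟨i, h1, h2, h⟩
    refine ⟨i - a, by omega, ?_⟩
    rw [h]
    have e1 : a + (i - a) = i := by omega
    have e2 : a + (i - a + 1) = i + 1 := by omega
    simp only [e1, e2]

theorem seg_path {S : Skew V} {p : ℕ → V} {h : ℕ} (hp : S.Path p h) {a b : ℕ} (hab : a ≤ b)
    (hb : b ≤ h) : S.Path (fun i => p (a + i)) (b - a) := hp.sub a (b - a) (by omega)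

theorem seg_end (p : ℕ → V) {a b : ℕ} (hab : a ≤ b) : (fun i => p (a + i)) (b - a) = p b := by
  change p (a + (b - a)) = p b
  congr 1
  omega

theorem seg_start (p : ℕ → V) (a : ℕ) : (fun i => p (a + i)) 0 = p a := by
  change p (a + 0) = p a
  rw [add_zero]

theorem seg_dj {S : Skew V} {p : ℕ → V} {h : ℕ} (hp : S.Path p h) {a b c e : ℕ} (hab : a ≤ b)
    (hbc : b < c) (hce : c ≤ e) (he : e ≤ h) :
    Dj S (fun i => p (a + i)) (b - a) (fun i => p (c + i)) (e - c) := by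
  intro i j hi hj
  exact hp.ne_of (by omega) (by omega) (by omega)

theorem nq_seg {p : ℕ → V} {a b : ℕ} (hab : a ≤ b) {v : V} (h : NQ (p a) (p b) (ar p a b) v) :
    ∃ i, a ≤ i ∧ i ≤ b ∧ v = p i := by
  have h1 : NQ ((fun i => p (a + i)) 0) ((fun i => p (a + i)) (b - a))
      (arcs (fun i => p (a + i)) (b - a)) v := by
    rw [seg_end p hab, seg_start]
    exact h
  obtain ⟨i, hi, e⟩ := (nq_iff (p := fun i => p (a + i))).1 h1
  exact ⟨a + i, by omega, by omega, e⟩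

theorem nt_seg {p : ℕ → V} {a b c e : ℕ} (hab : a ≤ b) (hce : c ≤ e) {v : V}
    (h : NT (p a) (p b) (p c) (p e) (ar p a b ∪ ar p c e) v) :
    ∃ i, ((a ≤ i ∧ i ≤ b) ∨ (c ≤ i ∧ i ≤ e)) ∧ v = p i := by
  have h1 : NT ((fun i => p (a + i)) 0) ((fun i => p (a + i)) (b - a))
      ((fun i => p (c + i)) 0) ((fun i => p (c + i)) (e - c))
      (arcs (fun i => p (a + i)) (b - a) ∪ arcs (fun i => p (c + i)) (e - c)) v := by
    rw [seg_end p hab, seg_start, seg_end p hce, seg_start]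
    exact h
  rcases (nt_iff (p := fun i => p (a + i)) (q := fun i => p (c + i))).1 h1 with ⟨i, hi, e1⟩ | ⟨i, hi, e1⟩
  · exact ⟨a + i, Or.inl ⟨by omega, by omega⟩, e1⟩
  · exact ⟨c + i, Or.inr ⟨by omega, by omega⟩, e1⟩

/-! ### Optimal objects -/

theorem isQ_seg {S : Skew V} {p : ℕ → V} {h : ℕ} (hp : S.Path p h) {a b : ℕ} (hab : a ≤ b)
    (hb : b ≤ h) : IsQ S (p a) (p b) (ar p a b) :=
  ⟨_, _, seg_path hp hab hb, seg_start p a, seg_end p hab, rfl⟩

theorem isT_seg {S : Skew V} {p : ℕ → V} {h : ℕ} (hp : S.Path p h) {a b c e : ℕ} (hab : a ≤ b)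
    (hbc : b < c) (hce : c ≤ e) (he : e ≤ h) :
    IsT S (p a) (p b) (p c) (p e) (ar p a b ∪ ar p c e) :=
  ⟨_, _, _, _, seg_path hp hab (by omega), seg_path hp hce he, seg_dj hp hab hbc hce he,
    seg_start p a, seg_end p hab, seg_start p c, seg_end p hce, rfl⟩

theorem optQ_seg {S : Skew V} {w : V → V → ℤ} {p : ℕ → V} {h : ℕ} (hp : S.Path p h) {a b : ℕ}
    (hab : a ≤ b) (hb : b ≤ h) (ho : SegOpt S w p a b) : OptQ S w (p a) (p b) (ar p a b) := by
  refine ⟨isQ_seg hp hab hb, ?_⟩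
  rintro o' ⟨q, l, hq, h1, h2, rfl⟩
  rw [wt_arcs w hq]
  unfold ar
  rw [wt_arcs w (seg_path hp hab hb)]
  exact ho q l hq h1 h2

theorem optT_seg {S : Skew V} {w : V → V → ℤ} {p : ℕ → V} {h : ℕ} (hp : S.Path p h) {a b c e : ℕ}
    (hab : a ≤ b) (hbc : b < c) (hce : c ≤ e) (he : e ≤ h) (ho : PairOpt S w p a b c e) :
    OptT S w (p a) (p b) (p c) (p e) (ar p a b ∪ ar p c e) := by
  refine ⟨isT_seg hp hab hbc hce he, ?_⟩
  rintro o' ⟨q, k, r, l, hq, hr, hd, h1, h2, h3, h4, rfl⟩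
  rw [wt_pair w hq hr hd]
  unfold ar
  rw [wt_pair w (seg_path hp hab (by omega)) (seg_path hp hce he) (seg_dj hp hab hbc hce he)]
  exact ho q k r l hq hr hd h1 h2 h3 h4

theorem pair_of_seg {S : Skew V} {w : V → V → ℤ} {p : ℕ → V} {a b c e : ℕ}
    (h1 : SegOpt S w p a b) (h2 : SegOpt S w p c e) : PairOpt S w p a b c e := by
  intro q k r l hq hr _ e1 e2 e3 e4
  exact add_le_add (h1 q k hq e1 e2) (h2 r l hr e3 e4)

theorem seg_triv (S : Skew V) (w : V → V → ℤ) (p : ℕ → V) (a : ℕ) : SegOpt S w p a a := by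
  intro q l hq h1 h2
  have hl : l = 0 := (Path.inj hq (Nat.zero_le _) le_rfl (h1.trans h2.symm)).symm
  subst hl
  unfold sg wp
  simp

/-! ### The tables -/

theorem best_eq {w : V → V → ℤ} {C : Set (Finset (V × V))} {P : Finset (V × V) → Prop}
    (hP : ∀ o ∈ C, P o) {o : Finset (V × V)} (ho : o ∈ C) (hmin : ∀ o', P o' → wt w o ≤ wt w o')
    (hu : ∀ o', P o' → wt w o = wt w o' → o = o') : best w C = {o} := by
  ext o'
  constructor
  · rintro ⟨h1, h2⟩
    have h3 := h2 o ho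
    have h4 := hmin o' (hP o' h1)
    exact (hu o' (hP o' h1) (le_antisymm h4 h3)).symm
  · rintro rfl
    exact ⟨ho, fun o'' h => hmin o'' (hP o'' h)⟩

/-- The table knows the segment. -/
def KQ (S : Skew V) (w : V → V → ℤ) (p : ℕ → V) (τ a b : ℕ) : Prop :=
  tQ S w τ (p a) (p b) = {ar p a b}

/-- The table knows the pair of segments. -/
def KT (S : Skew V) (w : V → V → ℤ) (p : ℕ → V) (τ a b c e : ℕ) : Prop :=
  tT S w τ (p a) (p b) (p c) (p e) = {ar p a b ∪ ar p c e}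

variable {S : Skew V} {w : V → V → ℤ}

theorem tQ_succ (τ : ℕ) (x z : V) : tQ S w (τ + 1) x z = best w (CQ S (tab S w τ).2 x z) := rfl

theorem tT_succ (τ : ℕ) (A B C E : V) :
    tT S w (τ + 1) A B C E = best w (CT S (tab S w τ).1 (tab S w τ).2 A B C E) := rfl

/-- The hypotheses on the rules. -/
structure Ctx (S : Skew V) (w : V → V → ℤ) : Prop where
  uq : ∀ x z o o', IsQ S x z o → IsQ S x z o' → wt w o = wt w o' → o = o'
  ut : ∀ A B C E o o', IsT S A B C E o → IsT S A B C E o' → wt w o = wt w o' → o = o'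
  cq : ∀ τ x z o, o ∈ CQ S (tab S w τ).2 x z → IsQ S x z o
  ct : ∀ τ A B C E o, o ∈ CT S (tab S w τ).1 (tab S w τ).2 A B C E → IsT S A B C E o

theorem tQ_eq (hc : Ctx S w) {τ : ℕ} {x z : V} {o : Finset (V × V)} (ho : OptQ S w x z o)
    (h : o ∈ CQ S (tab S w τ).2 x z) : tQ S w (τ + 1) x z = {o} :=
  best_eq (P := IsQ S x z) (fun o' h' => hc.cq τ x z o' h') h ho.2
    (fun o' h' e => hc.uq x z o o' ho.1 h' e)

theorem tT_eq (hc : Ctx S w) {τ : ℕ} {A B C E : V} {o : Finset (V × V)} (ho : OptT S w A B C E o)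
    (h : o ∈ CT S (tab S w τ).1 (tab S w τ).2 A B C E) : tT S w (τ + 1) A B C E = {o} :=
  best_eq (P := IsT S A B C E) (fun o' h' => hc.ct τ A B C E o' h') h ho.2
    (fun o' h' e => hc.ut A B C E o o' ho.1 h' e)

/-- Rule 1. -/
theorem r1 (hc : Ctx S w) {p : ℕ → V} {h : ℕ} (hp : S.Path p h) {a b c e τ : ℕ} (hab : a ≤ b)
    (hbc : b < c) (hce : c ≤ e) (he : e ≤ h) (h1 : SegOpt S w p a b) (h2 : SegOpt S w p c e)
    (k1 : KQ S w p τ a b) (k2 : KQ S w p τ c e) : KT S w p (τ + 1) a b c e := by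
  refine tT_eq hc (optT_seg hp hab hbc hce he (pair_of_seg h1 h2)) (Or.inl ?_)
  refine ⟨ar p a b, ?_, ar p c e, ?_, ?_, rfl⟩
  · have : ar p a b ∈ tQ S w τ (p a) (p b) := by rw [k1]; rfl
    exact this
  · have : ar p c e ∈ tQ S w τ (p c) (p e) := by rw [k2]; rfl
    exact this
  · intro u v hu hv
    obtain ⟨i, hi1, hi2, rfl⟩ := nq_seg hab hu
    obtain ⟨j, hj1, hj2, rfl⟩ := nq_seg hce hv
    exact hp.ne_of (by omega) (by omega) (by omega)

theorem lk_mem {p : ℕ → V} {h : ℕ} (hp : S.Path p h) {b' a' : ℕ} (h1 : b' ≤ a') (h2 : a' ≤ b' + 1)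
    (h3 : a' ≤ h) {e : V × V} : e ∈ lk (p b') (p a') ↔ b' < a' ∧ e = (p b', p (b' + 1)) := by
  unfold lk
  rcases Nat.lt_or_ge b' a' with h4 | h4
  · obtain rfl : a' = b' + 1 := by omega
    rw [if_neg (fun e => by have := Path.inj hp (by omega) h3 e; omega), mem_singleton]
    exact ⟨fun h => ⟨h4, h⟩, fun h => h.2⟩
  · obtain rfl : a' = b' := by omega
    rw [if_pos rfl]
    exact ⟨fun h => absurd h (notMem_empty _), fun h => absurd h.1 (lt_irrefl _)⟩

theorem Lk_seg {p : ℕ → V} {h : ℕ} (hp : S.Path p h) {b' a' : ℕ} (h1 : b' ≤ a')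
    (h2 : a' ≤ b' + 1) (h3 : a' ≤ h) : Lk S (p b') (p a') := by
  rcases Nat.lt_or_ge b' a' with h4 | h4
  · obtain rfl : a' = b' + 1 := by omega
    exact Or.inr (hp.1 b' (by omega))
  · obtain rfl : a' = b' := by omega
    exact Or.inl rfl

/-- Rule 2. -/
theorem r2 (hc : Ctx S w) {p : ℕ → V} {h : ℕ} (hp : S.Path p h) {a b c e a' b' c' e' τ : ℕ}
    (hab : a ≤ b') (hb : b' ≤ a') (hb1 : a' ≤ b' + 1) (hab' : a' ≤ b) (hbc : b < c)
    (hce : c ≤ e') (he' : e' ≤ c') (he1 : c' ≤ e' + 1) (hce' : c' ≤ e) (he : e ≤ h)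
    (ho : PairOpt S w p a b c e) (k1 : KT S w p τ a b' c' e) (k2 : KT S w p τ a' b c e') :
    KT S w p (τ + 1) a b c e := by
  have hlk : b' ≤ b := by omega
  refine tT_eq hc (optT_seg hp (by omega) hbc (by omega) he ho) (Or.inr ?_)
  refine ⟨p a', p b', p c', p e', ar p a b' ∪ ar p c' e, ?_, ar p a' b ∪ ar p c e', ?_,
    Lk_seg hp hb hb1 (by omega), Lk_seg hp he' he1 (by omega), ?_, ?_⟩
  · have : ar p a b' ∪ ar p c' e ∈ tT S w τ (p a) (p b') (p c') (p e) := by rw [k1]; rfl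
    exact this
  · have : ar p a' b ∪ ar p c e' ∈ tT S w τ (p a') (p b) (p c) (p e') := by rw [k2]; rfl
    exact this
  · intro u v hu hv
    obtain ⟨i, hi, rfl⟩ := nt_seg hab hce' hu
    obtain ⟨j, hj, rfl⟩ := nt_seg hab' hce hv
    refine ⟨fun hji => ?_, Path.ne_m hp (by omega) (by omega)⟩
    have hij : j = i := Path.inj hp (by omega) (by omega) hji
    subst hij
    rcases hi with hi | hi
    · left
      have h1 : j = b' := by omega
      have h2 : j = a' := by omega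
      exact ⟨by rw [h1], by rw [h2]⟩
    · right
      have h1 : j = c' := by omega
      have h2 : j = e' := by omega
      exact ⟨by rw [h1], by rw [h2]⟩
  · ext x
    simp only [mem_union, mem_ar, lk_mem hp hb hb1 (by omega : a' ≤ h),
      lk_mem hp he' he1 (by omega : c' ≤ h)]
    constructor
    · rintro (⟨i, h1, h2, rfl⟩ | ⟨i, h1, h2, rfl⟩)
      · rcases Nat.lt_or_ge i b' with h3 | h3
        · exact Or.inl (Or.inl (Or.inl ⟨i, h1, h3, rfl⟩))
        · rcases Nat.lt_or_ge i a' with h4 | h4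
          · obtain rfl : i = b' := by omega
            exact Or.inr (Or.inl ⟨h4, rfl⟩)
          · exact Or.inl (Or.inr (Or.inl ⟨i, h4, h2, rfl⟩))
      · rcases Nat.lt_or_ge i e' with h3 | h3
        · exact Or.inl (Or.inr (Or.inr ⟨i, h1, h3, rfl⟩))
        · rcases Nat.lt_or_ge i c' with h4 | h4
          · obtain rfl : i = e' := by omega
            exact Or.inr (Or.inr ⟨h4, rfl⟩)
          · exact Or.inl (Or.inl (Or.inr ⟨i, h4, h2, rfl⟩))
    · rintro (((⟨i, h1, h2, rfl⟩ | ⟨i, h1, h2, rfl⟩) | (⟨i, h1, h2, rfl⟩ | ⟨i, h1, h2, rfl⟩)) |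
        (⟨h1, rfl⟩ | ⟨h1, rfl⟩))
      · exact Or.inl ⟨i, h1, by omega, rfl⟩
      · exact Or.inr ⟨i, by omega, h2, rfl⟩
      · exact Or.inl ⟨i, by omega, h2, rfl⟩
      · exact Or.inr ⟨i, h1, by omega, rfl⟩
      · exact Or.inl ⟨b', hab, by omega, rfl⟩
      · exact Or.inr ⟨e', by omega, by omega, rfl⟩

/-- Rule 3. -/
theorem r3 (hc : Ctx S w) {p : ℕ → V} {h j : ℕ} (hp : S.Path p h) (hj : j < h)
    (ho : SegOpt S w p 0 h) {τ : ℕ} (k1 : KT S w p τ 0 j (j + 1) h) : KQ S w p (τ + 1) 0 h := by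
  refine tQ_eq hc (optQ_seg hp (Nat.zero_le _) le_rfl ho) (Or.inr ?_)
  refine ⟨p j, p (j + 1), ar p 0 j ∪ ar p (j + 1) h, ?_, hp.1 j hj, ?_⟩
  · have : ar p 0 j ∪ ar p (j + 1) h ∈ tT S w τ (p 0) (p j) (p (j + 1)) (p h) := by rw [k1]; rfl
    exact this
  · ext x
    simp only [mem_insert, mem_union, mem_ar]
    constructor
    · rintro ⟨i, h1, h2, rfl⟩
      rcases Nat.lt_trichotomy i j with h3 | h3 | h3
      · exact Or.inr (Or.inl ⟨i, h1, h3, rfl⟩)
      · exact Or.inl (by rw [h3])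
      · exact Or.inr (Or.inr ⟨i, h3, h2, rfl⟩)
    · rintro (rfl | ⟨i, h1, h2, rfl⟩ | ⟨i, h1, h2, rfl⟩)
      · exact ⟨j, Nat.zero_le _, hj, rfl⟩
      · exact ⟨i, h1, by omega, rfl⟩
      · exact ⟨i, Nat.zero_le _, h2, rfl⟩

/-! ### Balanced composition -/

theorem median {α : Type} (B : Finset α) (f : α → ℕ) {k : ℕ} (hB : B.Nonempty)
    (hcard : B.card < 2 ^ (k + 1)) : ∃ m ∈ B, (B.filter (fun x => f x < f m)).card < 2 ^ k ∧
      (B.filter (fun x => f m < f x)).card < 2 ^ k := by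
  classical
  have hN : 0 < 2 ^ k := Nat.pos_of_ne_zero (by positivity)
  by_cases hG : (B.filter (fun m => 2 ^ k ≤ (B.filter (fun x => f x ≤ f m)).card)).Nonempty
  · obtain ⟨m, hm, hmin⟩ := exists_min_image _ f hG
    rw [mem_filter] at hm
    refine ⟨m, hm.1, ?_, ?_⟩
    · by_contra hcon
      push Not at hcon
      have hne : (B.filter (fun x => f x < f m)).Nonempty := card_pos.1 (by omega)
      obtain ⟨m', hm', hmax⟩ := exists_max_image _ f hne
      have hm2 := (mem_filter.1 hm')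
      have h1 : 2 ^ k ≤ (B.filter (fun x => f x ≤ f m')).card := by
        refine hcon.trans (card_le_card fun x hx => ?_)
        exact mem_filter.2 ⟨(mem_filter.1 hx).1, hmax x hx⟩
      have h2 := hmin m' (mem_filter.2 ⟨hm2.1, h1⟩)
      have h3 := hm2.2
      omega
    · have h1 : (B.filter (fun x => f x ≤ f m)).card + (B.filter (fun x => ¬ f x ≤ f m)).card =
          B.card := card_filter_add_card_filter_not _
      have h2 : (B.filter (fun x => f m < f x)) = (B.filter (fun x => ¬ f x ≤ f m)) :=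
        filter_congr fun x _ => by simp
      rw [h2]
      have h3 := hm.2
      rw [pow_succ] at hcard
      omega
  · obtain ⟨m, hm, hmax⟩ := exists_max_image B f hB
    have h1 : ¬ 2 ^ k ≤ (B.filter (fun x => f x ≤ f m)).card := fun h =>
      hG ⟨m, mem_filter.2 ⟨hm, h⟩⟩
    refine ⟨m, hm, ?_, ?_⟩
    · have h2 : (B.filter (fun x => f x < f m)).card ≤ (B.filter (fun x => f x ≤ f m)).card :=
        card_le_card fun x hx => mem_filter.2 ⟨(mem_filter.1 hx).1, (mem_filter.1 hx).2.le⟩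
      omega
    · have h2 : (B.filter (fun x => f m < f x)) = ∅ := by
        rw [filter_eq_empty_iff]
        intro x hx
        have := hmax x hx
        omega
      rw [h2, card_empty]
      exact hN

/-- The states strictly between two states. -/
def btw (C : Finset (ℕ × ℕ)) (o i : ℕ × ℕ) : Finset (ℕ × ℕ) :=
  C.filter fun σ => ((o.1 ≤ σ.1 ∧ σ.2 ≤ o.2) ∧ (σ.1 ≤ i.1 ∧ i.2 ≤ σ.2)) ∧ σ ≠ o ∧ σ ≠ i

/-- Exactness for paths with at most `H` arcs from time `τ₀` on. -/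
def Ex (S : Skew V) (w : V → V → ℤ) (H τ₀ : ℕ) : Prop :=
  ∀ τ, τ₀ ≤ τ → ∀ (q : ℕ → V) (l : ℕ), l ≤ H → S.Path q l →
    (∀ (r : ℕ → V) (n : ℕ), S.Path r n → r 0 = q 0 → r n = q l → wp w q l ≤ wp w r n) →
    tQ S w τ (q 0) (q l) = {arcs q l}

theorem Ex.seg {H τ₀ τ : ℕ} (hE : Ex S w H τ₀) (hτ : τ₀ ≤ τ) {p : ℕ → V} {h : ℕ}
    (hp : S.Path p h) {a b : ℕ} (hab : a ≤ b) (hb : b ≤ h) (hH : b - a ≤ H)
    (ho : SegOpt S w p a b) : KQ S w p τ a b := by
  have hs : p (a + 0) = p a := by rw [add_zero]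
  have he : p (a + (b - a)) = p b := by congr 1; omega
  have h1 := hE τ hτ (fun i => p (a + i)) (b - a) hH (seg_path hp hab hb)
    (fun r n hr e1 e2 => ho r n hr (e1.trans hs) (e2.trans he))
  change tQ S w τ (p (a + 0)) (p (a + (b - a))) = {ar p a b} at h1
  rw [hs, he] at h1
  exact h1

/-- One-sided pieces. -/
theorem piece1 (hc : Ctx S w) {H τ₀ τ : ℕ} (hE : Ex S w H τ₀) (hτ : τ₀ + 1 ≤ τ) {p : ℕ → V}
    {h : ℕ} (hp : S.Path p h) {a b c e : ℕ} (hab : a ≤ b) (hbc : b < c) (hce : c ≤ e) (he : e ≤ h)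
    (hH1 : b - a ≤ H) (hH2 : e - c ≤ H) (h1 : SegOpt S w p a b) (h2 : SegOpt S w p c e) :
    KT S w p τ a b c e := by
  obtain ⟨τ', rfl⟩ : ∃ τ', τ = τ' + 1 := ⟨τ - 1, by omega⟩
  exact r1 hc hp hab hbc hce he h1 h2 (hE.seg (by omega) hp hab (by omega) hH1 h1)
    (hE.seg (by omega) hp hce he hH2 h2)

theorem pieces (hc : Ctx S w) {H τ₀ : ℕ} (hE : Ex S w H τ₀) {p : ℕ → V} {h j : ℕ}
    (hp : S.Path p h) (hj : j < h) (hj1 : j ≤ H) (hj2 : h - (j + 1) ≤ H) {C : Finset (ℕ × ℕ)}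
    (hC : Chain S w p h j C) : ∀ k, ∀ o ∈ C, ∀ i ∈ C, Nest o i → o.1 / 2 ≤ (i.1 - 1) / 2 →
      (i.2 + 1) / 2 ≤ o.2 / 2 → (btw C o i).card < 2 ^ k → ∀ τ, τ₀ + 1 + k ≤ τ →
      KT S w p τ (o.1 / 2) ((i.1 - 1) / 2) ((i.2 + 1) / 2) (o.2 / 2) := by
  -- consecutive states
  have base : ∀ o ∈ C, ∀ i ∈ C, Nest o i → o.1 / 2 ≤ (i.1 - 1) / 2 →
      (i.2 + 1) / 2 ≤ o.2 / 2 → btw C o i = ∅ → ∀ τ, τ₀ + 1 ≤ τ →
      KT S w p τ (o.1 / 2) ((i.1 - 1) / 2) ((i.2 + 1) / 2) (o.2 / 2) := by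
    intro o ho i hi hn hL hR hb τ hτ
    have h1 := hC.rng o ho
    have h2 := hC.rng i hi
    have hcons : ∀ σ ∈ C, Nest o σ → Nest σ i → σ = o ∨ σ = i := by
      intro σ hσ h3 h4
      by_contra hcon
      push Not at hcon
      have : σ ∈ btw C o i := mem_filter.2 ⟨hσ, ⟨h3, h4⟩, hcon⟩
      rw [hb] at this
      exact notMem_empty _ this
    exact piece1 hc hE hτ hp hL (by omega) hR (by omega) (by omega) (by omega)
      (hC.left o ho i hi hn hcons hL) (hC.right o ho i hi hn hcons hR)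
  intro k
  induction k with
  | zero =>
    intro o ho i hi hn hL hR hb τ hτ
    rw [pow_zero, Nat.lt_one_iff, card_eq_zero] at hb
    exact base o ho i hi hn hL hR hb τ (by omega)
  | succ k ih =>
    intro o ho i hi hn hL hR hb τ hτ
    by_cases hB : (btw C o i) = ∅
    · exact base o ho i hi hn hL hR hB τ (by omega)
    obtain ⟨m, hm, hm1, hm2⟩ := median (btw C o i) (fun σ => σ.2 - σ.1)
      (nonempty_iff_ne_empty.2 hB) hb
    obtain ⟨hmC, ⟨⟨n1, n2⟩, ⟨n3, n4⟩⟩, hmo, hmi⟩ := mem_filter.1 hm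
    have h1 := hC.rng o ho
    have h2 := hC.rng i hi
    have h3 := hC.rng m hmC
    have c1 : (btw C o m).card < 2 ^ k := by
      refine lt_of_le_of_lt (card_le_card fun σ hσ => ?_) hm2
      obtain ⟨hσC, ⟨⟨q1, q2⟩, ⟨q3, q4⟩⟩, hσo, hσm⟩ := mem_filter.1 hσ
      have h4 := hC.rng σ hσC
      have h5 : ¬ (σ.1 = m.1 ∧ σ.2 = m.2) := fun e => hσm (Prod.ext e.1 e.2)
      refine mem_filter.2 ⟨mem_filter.2 ⟨hσC, ⟨⟨q1, q2⟩, ⟨by omega, by omega⟩⟩, hσo, ?_⟩, by omega⟩
      rintro rfl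
      exact h5 ⟨by omega, by omega⟩
    have c2 : (btw C m i).card < 2 ^ k := by
      refine lt_of_le_of_lt (card_le_card fun σ hσ => ?_) hm1
      obtain ⟨hσC, ⟨⟨q1, q2⟩, ⟨q3, q4⟩⟩, hσm, hσi⟩ := mem_filter.1 hσ
      have h4 := hC.rng σ hσC
      have h5 : ¬ (σ.1 = m.1 ∧ σ.2 = m.2) := fun e => hσm (Prod.ext e.1 e.2)
      refine mem_filter.2 ⟨mem_filter.2 ⟨hσC, ⟨⟨by omega, by omega⟩, ⟨q3, q4⟩⟩, ?_, hσi⟩, by omega⟩
      rintro rfl
      exact h5 ⟨by omega, by omega⟩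
    have nom : Nest o m := ⟨n1, n2⟩
    have nmi : Nest m i := ⟨n3, n4⟩
    obtain ⟨τ', rfl⟩ : ∃ τ', τ = τ' + 1 := ⟨τ - 1, by omega⟩
    have hpo := hC.pair o ho i hi hn hL hR
    by_cases hLo : o.1 / 2 ≤ (m.1 - 1) / 2
    · by_cases hRo : (m.2 + 1) / 2 ≤ o.2 / 2
      · have K1 := ih o ho m hmC nom hLo hRo c1 τ' (by omega)
        by_cases hLi : m.1 / 2 ≤ (i.1 - 1) / 2
        · by_cases hRi : (i.2 + 1) / 2 ≤ m.2 / 2
          · have K2 := ih m hmC i hi nmi hLi hRi c2 τ' (by omega)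
            exact r2 hc hp hLo (by omega) (by omega) hLi (by omega) hRi (by omega) (by omega)
              hRo (by omega) hpo K1 K2
          · -- the right part of `(m, i)` is empty
            have hs := hC.left' m hmC i hi nmi hRi hLi
            have K2 := piece1 hc hE (τ := τ') (by omega) hp hLi
              (by omega : (i.1 - 1) / 2 < (i.2 + 1) / 2) le_rfl (by omega) (by omega) (by omega)
              hs (seg_triv S w p _)
            have e1 : (m.2 + 1) / 2 = (i.2 + 1) / 2 := by omega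
            rw [e1] at K1
            exact r2 hc hp hLo (by omega) (by omega) hLi (by omega) le_rfl le_rfl (by omega)
              hR (by omega) hpo K1 K2
        · -- the left part of `(m, i)` is empty
          have hRi : (i.2 + 1) / 2 ≤ m.2 / 2 := by omega
          have hs := hC.right' m hmC i hi nmi hLi hRi
          have K2 := piece1 hc hE (τ := τ') (by omega) hp (a := (i.1 - 1) / 2) le_rfl
            (by omega : (i.1 - 1) / 2 < (i.2 + 1) / 2) hRi (by omega) (by omega) (by omega)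
            (seg_triv S w p _) hs
          have e1 : (m.1 - 1) / 2 = (i.1 - 1) / 2 := by omega
          rw [e1] at K1
          exact r2 hc hp hL le_rfl (by omega) le_rfl (by omega) hRi (by omega) (by omega)
            hRo (by omega) hpo K1 K2
      · -- the right part of `(o, m)` is empty
        have hLi : m.1 / 2 ≤ (i.1 - 1) / 2 := by omega
        have hRi : (i.2 + 1) / 2 ≤ m.2 / 2 := by omega
        have K2 := ih m hmC i hi nmi hLi hRi c2 τ' (by omega)
        have hs := hC.left' o ho m hmC nom hRo hLo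
        have K1 := piece1 hc hE (τ := τ') (by omega) hp hLo
          (by omega : (m.1 - 1) / 2 < o.2 / 2) le_rfl (by omega) (by omega) (by omega)
          hs (seg_triv S w p _)
        have e1 : m.2 / 2 = o.2 / 2 := by omega
        rw [e1] at K2
        exact r2 hc hp hLo (by omega) (by omega) hLi (by omega) hR le_rfl (by omega)
          le_rfl (by omega) hpo K1 K2
    · -- the left part of `(o, m)` is empty
      have hRo : (m.2 + 1) / 2 ≤ o.2 / 2 := by omega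
      have hLi : m.1 / 2 ≤ (i.1 - 1) / 2 := by omega
      have hRi : (i.2 + 1) / 2 ≤ m.2 / 2 := by omega
      have K2 := ih m hmC i hi nmi hLi hRi c2 τ' (by omega)
      have hs := hC.right' o ho m hmC nom hLo hRo
      have K1 := piece1 hc hE (τ := τ') (by omega) hp (a := o.1 / 2) le_rfl
        (by omega : o.1 / 2 < (m.2 + 1) / 2) hRo (by omega) (by omega) (by omega)
        (seg_triv S w p _) hs
      have e1 : m.1 / 2 = o.1 / 2 := by omega
      rw [e1] at K2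
      exact r2 hc hp le_rfl le_rfl (by omega) hL (by omega) hRi (by omega) (by omega)
        hRo (by omega) hpo K1 K2

/-! ### The main induction -/

theorem step (hc : Ctx S w) {H τ₀ K : ℕ} (hE : Ex S w H τ₀)
    (hch : ∀ (p : ℕ → V) (h : ℕ), 1 ≤ h → S.Path p h →
      (∀ (q : ℕ → V) (l : ℕ), S.Path q l → q 0 = p 0 → q l = p h → wp w p h ≤ wp w q l) →
      ∀ j, j < h → ∃ C, Chain S w p h j C)
    (hK : ∀ (p : ℕ → V) (h : ℕ), S.Path p h → h < 2 ^ K) :
    Ex S w (2 * H + 1) (τ₀ + (K + 3)) := by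
  intro τ hτ p h hh hp hopt
  rcases Nat.eq_zero_or_pos h with h0 | h0
  · exact hE τ (by omega) p h (by omega) hp hopt
  have hj : h / 2 < h := by omega
  obtain ⟨C, hC⟩ := hch p h h0 hp hopt (h / 2) hj
  have hcard : C.card < 2 ^ (K + 1) := by
    have h1 : C.card ≤ (range (2 * h + 1)).card := by
      refine card_le_card_of_injOn (fun σ => σ.2 - σ.1) ?_ ?_
      · intro σ hσ
        have := hC.rng σ hσ
        simp only [coe_range, Set.mem_Iio]
        omega
      · intro σ hσ σ' hσ' e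
        have h2 := hC.rng σ hσ
        have h3 := hC.rng σ' hσ'
        simp only at e
        rcases hC.tot σ hσ σ' hσ' with ⟨h4, h5⟩ | ⟨h4, h5⟩
        · exact Prod.ext (by omega) (by omega)
        · exact Prod.ext (by omega) (by omega)
    rw [card_range] at h1
    have h2 := hK p h hp
    rw [pow_succ]
    omega
  obtain ⟨τ', rfl⟩ : ∃ τ', τ = τ' + 1 := ⟨τ - 1, by omega⟩
  have hso : SegOpt S w p 0 h := by
    intro q l hq e1 e2
    have h1 := hopt q l hq e1 e2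
    unfold sg
    simpa using h1
  have h1 := pieces hc hE hp hj (by omega) (by omega) hC (K + 1) (1, 2 * h + 1) hC.outer
    (2 * (h / 2) + 1, 2 * (h / 2) + 1) hC.inner ⟨by simp, by simp; omega⟩ (by simp) (by simp; omega)
    (lt_of_le_of_lt (card_filter_le _ _) hcard) τ' (by omega)
  have e1 : (2 * (h / 2) + 1 - 1) / 2 = h / 2 := by omega
  have e2 : (2 * (h / 2) + 1 + 1) / 2 = h / 2 + 1 := by omega
  have e3 : (2 * h + 1) / 2 = h := by omega
  simp only [e1, e2, e3] at h1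
  have h2 := r3 hc hp hj hso (τ := τ') h1
  unfold KQ ar at h2
  simpa using h2

theorem main (hc : Ctx S w) {K : ℕ}
    (hch : ∀ (p : ℕ → V) (h : ℕ), 1 ≤ h → S.Path p h →
      (∀ (q : ℕ → V) (l : ℕ), S.Path q l → q 0 = p 0 → q l = p h → wp w p h ≤ wp w q l) →
      ∀ j, j < h → ∃ C, Chain S w p h j C)
    (hK : ∀ (p : ℕ → V) (h : ℕ), S.Path p h → h < 2 ^ K) (k : ℕ) :
    Ex S w (2 ^ k - 1) (1 + k * (K + 3)) := by
  induction k with
  | zero =>
    intro τ hτ q l hl hq hopt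
    obtain rfl : l = 0 := by simpa using hl
    obtain ⟨τ', rfl⟩ : ∃ τ', τ = τ' + 1 := ⟨τ - 1, by omega⟩
    rw [arcs_zero]
    refine tQ_eq hc ⟨⟨q, 0, hq, rfl, rfl, (arcs_zero q).symm⟩, ?_⟩ (Or.inl ⟨rfl, rfl⟩)
    rintro o' ⟨r, n, hr, e1, e2, rfl⟩
    rw [wt_arcs w hr, ← arcs_zero q, wt_arcs w hq]
    exact hopt r n hr e1 e2
  | succ k ih =>
    have h1 := step hc ih hch hK
    have h2 : 1 ≤ 2 ^ k := Nat.one_le_two_pow
    have e1 : 2 * (2 ^ k - 1) + 1 = 2 ^ (k + 1) - 1 := by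
      rw [pow_succ]
      omega
    have e2 : 1 + k * (K + 3) + (K + 3) = 1 + (k + 1) * (K + 3) := by ring
    rw [e1, e2] at h1
    exact h1

end Pool.Agent.WUPM.Cpl

namespace Pool.Agent.WUPM

open Finset Pool.Agent.UPM

/-- **P6b.** -/
theorem complete_of (hch : ChainStmt) (hcand : CandStmt) (hsound : SoundStmt) : CompleteStmt := by
  intro V _ _ S w K τ hw hG hU hV hτ x z o ho
  have hc : Cpl.Ctx S w := by
    refine ⟨hU.1, hU.2, fun τ x z o h => ?_, fun τ A B C E o h => ?_⟩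
    · exact (hcand V S (tab S w τ).1 (tab S w τ).2 (hsound V S w τ).1 (hsound V S w τ).2).1 x z o h
    · exact (hcand V S (tab S w τ).1 (tab S w τ).2 (hsound V S w τ).1
        (hsound V S w τ).2).2 A B C E o h
  have hK : ∀ (p : ℕ → V) (h : ℕ), S.Path p h → h < 2 ^ K := by
    intro p h hp
    have h1 : (range (h + 1)).card ≤ Fintype.card V := by
      rw [← card_univ]
      refine card_le_card_of_injOn p (fun _ _ => mem_coe.2 (mem_univ _)) ?_
      intro i hi j hj e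
      rw [coe_range, Set.mem_Iio] at hi hj
      exact Path.inj hp (by omega) (by omega) e
    rw [card_range] at h1
    omega
  have hE := Cpl.main hc (hch V S w hw hG) hK K
  obtain ⟨⟨p, h, hp, rfl, rfl, rfl⟩, hmin⟩ := ho
  refine hE τ ?_ p h ?_ hp ?_
  · refine le_trans ?_ hτ
    unfold rnd
    have : K * (K + 3) ≤ K * (K + 4) := Nat.mul_le_mul_left _ (by omega)
    omega
  · have := hK p h hp
    omega
  · intro r n hr e1 e2
    have h1 := hmin (arcs r n) ⟨r, n, hr, e1, e2, rfl⟩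
    rwa [wt_arcs w hp, wt_arcs w hr] at h1

end Pool.Agent.WUPM
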