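import Mathlib
import Pool.Agent.WUPM.Stmts

/-!
# Crossings of a regular path and a set which cuts one matching edge
-/

set_option autoImplicit false

namespace Pool.Agent.WUPM

open Finset Pool.Agent.UPM

section Cross

variable {V : Type} [DecidableEq V] (S : Skew V) (K : Finset V) (q : ℕ → V)

/-- Crossings of the non-matching edges. -/
def crossN (l : ℕ) : ℤ := ∑ i ∈ range l, (if (q i ∈ K ↔ S.m (q (i + 1)) ∈ K) then 0 else 1)

/-- Crossings of the matching edges. -/
def crossM (l : ℕ) : ℤ := ∑ i ∈ range l, (if (S.m (q (i + 1)) ∈ K ↔ q (i + 1) ∈ K) then 0 else 1)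

lemma wp_cK (l : ℕ) : wp (cK S K) q l = crossN S K q l - crossM S K q l := by
  unfold wp cK crossN crossM
  rw [sum_sub_distrib]

lemma crossN_nonneg (l : ℕ) : 0 ≤ crossN S K q l := by
  unfold crossN
  refine sum_nonneg fun i _ => ?_
  split_ifs <;> norm_num

lemma cross_parity (l : ℕ) :
    ∃ k : ℤ, crossN S K q l + crossM S K q l = 2 * k + (if (q 0 ∈ K ↔ q l ∈ K) then 0 else 1) := by
  induction l with
  | zero => exact ⟨0, by simp [crossN, crossM]⟩
  | succ l ih =>
    obtain ⟨k, hk⟩ := ih
    have e1 : crossN S K q (l + 1) = crossN S K q l +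
        (if (q l ∈ K ↔ S.m (q (l + 1)) ∈ K) then 0 else 1) := by
      unfold crossN; rw [sum_range_succ]
    have e2 : crossM S K q (l + 1) = crossM S K q l +
        (if (S.m (q (l + 1)) ∈ K ↔ q (l + 1) ∈ K) then 0 else 1) := by
      unfold crossM; rw [sum_range_succ]
    rw [e1, e2]
    by_cases h0 : q 0 ∈ K <;> by_cases h1 : q l ∈ K <;> by_cases h2 : S.m (q (l + 1)) ∈ K <;>
      by_cases h3 : q (l + 1) ∈ K <;> simp only [h0, h1, h2, h3, iff_true, iff_false,
        not_true_eq_false, if_true, if_false] at hk ⊢ <;>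
      first
      | exact ⟨k, by linarith⟩
      | exact ⟨k + 1, by linarith⟩

lemma crossM_eq {b : V} (hb : b ∈ K) (hmb : S.m b ∉ K) (hK : ∀ v ∈ K, S.m v ∉ K → v = b) {l : ℕ}
    (hq : S.Path q l) :
    crossM S K q l = (open Classical in
      if ∃ i, 1 ≤ i ∧ i ≤ l ∧ (q i = b ∨ q i = S.m b) then 1 else 0) := by
  classical
  induction l with
  | zero =>
    rw [if_neg (by rintro ⟨i, h1, h2, -⟩; omega)]
    simp [crossM]
  | succ l ih =>
    have e2 : crossM S K q (l + 1) = crossM S K q l +
        (if (S.m (q (l + 1)) ∈ K ↔ q (l + 1) ∈ K) then 0 else 1) := by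
      unfold crossM; rw [sum_range_succ]
    rw [e2, ih (hq.mono (by omega))]
    have key : (S.m (q (l + 1)) ∈ K ↔ q (l + 1) ∈ K) ↔ ¬ (q (l + 1) = b ∨ q (l + 1) = S.m b) := by
      constructor
      · rintro h (e | e)
        · rw [e] at h
          exact hmb (h.mpr hb)
        · rw [e, S.mm] at h
          exact hmb (h.mp hb)
      · intro h
        constructor
        · intro h1
          by_contra h2
          refine h (Or.inr ?_)
          have := hK _ h1 (by rw [S.mm]; exact h2)
          rw [← this, S.mm]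
        · intro h1
          by_contra h2
          exact h (Or.inl (hK _ h1 h2))
    by_cases h1 : q (l + 1) = b ∨ q (l + 1) = S.m b
    · have h2 : ¬ ∃ i, 1 ≤ i ∧ i ≤ l ∧ (q i = b ∨ q i = S.m b) := by
        rintro ⟨i, h3, h4, h5⟩
        have h6 := hq.2 i (l + 1) (by omega) le_rfl
        rcases h1 with e1 | e1 <;> rcases h5 with e5 | e5
        · exact h6.1 (by rw [e1, e5])
        · exact h6.2 (by rw [e1, e5, S.mm])
        · exact h6.2 (by rw [e1, e5])
        · exact h6.1 (by rw [e1, e5])
      rw [if_neg h2, if_neg (fun h => (key.mp h) h1), if_pos ⟨l + 1, by omega, le_rfl, h1⟩]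
      norm_num
    · rw [if_pos (key.mpr h1), add_zero]
      congr 1
      apply propext
      constructor
      · rintro ⟨i, h3, h4, h5⟩
        exact ⟨i, h3, by omega, h5⟩
      · rintro ⟨i, h3, h4, h5⟩
        refine ⟨i, h3, ?_, h5⟩
        by_contra h6
        have : i = l + 1 := by omega
        subst this
        exact h1 h5

end Cross

/-- **P3**. -/
theorem crossStmt : CrossStmt := by
  intro V _ _ S K b hb hmb hK q l hq
  classical
  obtain ⟨k, hk⟩ := cross_parity S K q l
  have h1 := crossN_nonneg S K q l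
  have h2 := crossM_eq S K q hb hmb hK hq
  rw [wp_cK]
  refine ⟨fun h => ?_, fun h => ?_, fun h h3 => ?_⟩
  · rw [if_pos h] at hk
    split_ifs at h2 <;> omega
  · split_ifs at h2 <;> omega
  · rw [if_neg h] at hk
    rw [if_neg (by
      rintro ⟨i, h4, h5, h6⟩
      rcases h6 with h6 | h6
      · exact (h3 i h4 h5).1 h6
      · exact (h3 i h4 h5).2 h6)] at h2
    omega

end Pool.Agent.WUPM
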