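import Mathlib
import Pool.Agent.WUPM.Stmts

/-!
# Positive regular cycles and unique minimum weight perfect matchings
-/

set_option autoImplicit false

namespace Pool.Agent.WUPM

open Finset Pool.Agent.UPM

private theorem orbit_path {V : Type*} [Finite V] (adj : V → V → Prop)
    (hs : ∀ a b, adj a b → adj b a) (hi : ∀ a, ¬ adj a a) (f : V → V) (hf : IsPM adj f)
    (g : V → V) (hg : IsPM adj g) (h : Equiv.Perm V) (hhv : ∀ v, h v = f (g v)) (a : V)
    (ha : g a ≠ f a) :
    2 ≤ Function.minimalPeriod h a ∧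
    (skewOf adj hs hi f hf).Path (fun i => (h ^ i) a) (Function.minimalPeriod h a - 1) ∧
    (skewOf adj hs hi f hf).arc ((h ^ (Function.minimalPeriod h a - 1)) a) ((h ^ 0) a) := by
  classical
  have hfne : ∀ v, f v ≠ v := fun v h => hi v (by have := hf.2 v; rwa [h] at this)
  have hgne : ∀ v, g v ≠ v := fun v h => hi v (by have := hg.2 v; rwa [h] at this)
  let F : Equiv.Perm V := ⟨f, f, hf.1, hf.1⟩
  let G : Equiv.Perm V := ⟨g, g, hg.1, hg.1⟩
  have hFF : F * F = 1 := Equiv.ext fun v => hf.1 v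
  have hGG : G * G = 1 := Equiv.ext fun v => hg.1 v
  have hFG : h = F * G := Equiv.ext fun v => hhv v
  have hinv : h⁻¹ = G * F := by
    rw [inv_eq_iff_mul_eq_one, hFG]
    calc F * G * (G * F) = F * (G * G) * F := by group
      _ = 1 := by rw [hGG, mul_one, hFF]
  have hsc : SemiconjBy F h h⁻¹ := by
    change F * h = h⁻¹ * F
    rw [hinv, hFG]
    rw [← mul_assoc, hFF, one_mul, mul_assoc, hFF, mul_one]
  have hscn : ∀ n : ℕ, F * h ^ n = (h ^ n)⁻¹ * F := by
    intro n
    have := hsc.pow_right n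
    rw [inv_pow] at this
    exact this
  -- no collision
  have hno : ∀ n : ℕ, (h ^ n) a ≠ f a := by
    intro n hn
    rcases Nat.even_or_odd' n with ⟨m, rfl | rfl⟩
    · apply hfne ((h ^ m) a)
      have h1 : F ((h ^ m) a) = (h ^ m)⁻¹ (F a) := by
        have := congrArg (fun e : Equiv.Perm V => e a) (hscn m)
        simpa using this
      have h2 : F a = (h ^ m) ((h ^ m) a) := by
        change f a = _
        rw [← hn, two_mul, pow_add]; rfl
      have h3 : F ((h ^ m) a) = (h ^ m) a := by rw [h1, h2]; simp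
      exact h3
    · apply hgne ((h ^ m) a)
      have h1 : F ((h ^ m) a) = (h ^ m)⁻¹ (F a) := by
        have := congrArg (fun e : Equiv.Perm V => e a) (hscn m)
        simpa using this
      have h2 : F a = (h ^ m) (h ((h ^ m) a)) := by
        change f a = _
        have e : 2 * m + 1 = m + (1 + m) := by omega
        rw [← hn, e, pow_add, pow_add, pow_one]; rfl
      have h3 : F ((h ^ m) a) = h ((h ^ m) a) := by rw [h1, h2]; simp
      have h4 : F ((h ^ m) a) = F (G ((h ^ m) a)) := by rw [h3, hhv]; rfl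
      exact (F.injective h4).symm
  have hno2 : ∀ i j : ℕ, (h ^ j) a ≠ f ((h ^ i) a) := by
    intro i j hij
    apply hno (i + j)
    have h1 : F ((h ^ i) a) = (h ^ i)⁻¹ (F a) := by
      have := congrArg (fun e : Equiv.Perm V => e a) (hscn i)
      simpa using this
    have h2 : (h ^ j) a = (h ^ i)⁻¹ (F a) := by rw [← h1]; exact hij
    rw [pow_add, Equiv.Perm.mul_apply, h2]
    simp
    rfl
  -- period
  have hfin : ∃ n > 0, h ^ n = 1 := by
    have := isOfFinOrder_of_finite h
    rw [isOfFinOrder_iff_pow_eq_one] at this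
    exact this
  obtain ⟨n0, hn0, hn1⟩ := hfin
  have hper : Function.IsPeriodicPt h n0 a := by
    rw [Function.IsPeriodicPt, Function.IsFixedPt, ← Equiv.Perm.coe_pow, hn1]; rfl
  have hpos := hper.minimalPeriod_pos hn0
  set n := Function.minimalPeriod h a with hn
  have hna : (h ^ n) a = a := by
    have := Function.isPeriodicPt_minimalPeriod h a
    rw [Function.IsPeriodicPt, Function.IsFixedPt, ← Equiv.Perm.coe_pow] at this
    exact this
  have hn2 : n ≠ 1 := by
    intro h1
    rw [h1, pow_one, hhv] at hna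
    apply ha
    rw [← hf.1 (g a), hna]
  have hmove : ∀ i : ℕ, h ((h ^ i) a) ≠ (h ^ i) a := by
    intro i hi'
    apply ha
    have : h a = a := by
      apply (h ^ i).injective
      rw [← Equiv.Perm.mul_apply, ← pow_succ, pow_succ']
      exact hi'
    rw [hhv] at this
    rw [← hf.1 (g a), this]
  refine ⟨by omega, ⟨?_, ?_⟩, ?_⟩
  · intro i _
    change adj ((h ^ i) a) (f ((h ^ (i + 1)) a)) ∧ (h ^ (i + 1)) a ≠ (h ^ i) a
    rw [pow_succ', Equiv.Perm.mul_apply]
    refine ⟨?_, hmove i⟩
    rw [hhv, hf.1]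
    exact hg.2 _
  · intro i j hij hj
    refine ⟨?_, fun e => hno2 i j e⟩
    intro e
    have e' : h^[j] a = h^[i] a := by
      rw [← Equiv.Perm.coe_pow, ← Equiv.Perm.coe_pow]; exact e
    have := Function.iterate_injOn_Iio_minimalPeriod (f := h) (x := a)
      (show j < Function.minimalPeriod h a by omega)
      (show i < Function.minimalPeriod h a by omega) e'
    omega
  · change adj ((h ^ (n - 1)) a) (f ((h ^ 0) a)) ∧ (h ^ 0) a ≠ (h ^ (n - 1)) a
    have e : (h ^ 0) a = h ((h ^ (n - 1)) a) := by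
      rw [← Equiv.Perm.mul_apply, ← pow_succ', Nat.sub_add_cancel hpos, hna]; rfl
    rw [e]
    refine ⟨?_, hmove _⟩
    rw [hhv, hf.1]
    exact hg.2 _

/-- Sums along orbits. -/
private theorem sum_orbit {V : Type*} (h : Equiv.Perm V) (ψ : V → ℤ) (a : V) (n : ℕ)
    (hn : (h ^ n) a = a) (q : ℕ) :
    ∑ i ∈ range (n * q), ψ ((h ^ i) a) = q * ∑ i ∈ range n, ψ ((h ^ i) a) := by
  induction q with
  | zero => simp
  | succ q ih =>
    rw [Nat.mul_succ, Finset.sum_range_add, ih]
    have hnq : ∀ q : ℕ, (h ^ (n * q)) a = a := by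
      intro q
      induction q with
      | zero => simp
      | succ q ih' => rw [Nat.mul_succ, pow_add, Equiv.Perm.mul_apply, hn, ih']
    have : ∀ x, (h ^ (n * q + x)) a = (h ^ x) a := by
      intro x
      rw [Nat.add_comm, pow_add, Equiv.Perm.mul_apply, hnq]
    simp only [this]
    push_cast
    ring

private theorem good_lt {V : Type} [Fintype V] [DecidableEq V] (adj : V → V → Prop)
    (hs : ∀ a b, adj a b → adj b a) (hi : ∀ a, ¬ adj a a) (f : V → V) (hf : IsPM adj f)
    (wt : V → V → ℤ) (hG : Good (skewOf adj hs hi f hf) (aw wt f))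
    (g : V → V) (hg : IsPM adj g) (hne : g ≠ f) : pmw wt f < pmw wt g := by
  let F : Equiv.Perm V := ⟨f, f, hf.1, hf.1⟩
  let G : Equiv.Perm V := ⟨g, g, hg.1, hg.1⟩
  let h : Equiv.Perm V := F * G
  have hhv : ∀ v, h v = f (g v) := fun v => rfl
  set ψ : V → ℤ := fun v => aw wt f v (h v) with hψ
  have htot : ∑ v, ψ v = 2 * (pmw wt g - pmw wt f) := by
    have h1 : ∀ v, ψ v = 2 * wt v (g v) - wt v (f v) - wt (h v) (f (h v)) := by
      intro v
      rw [hψ]
      unfold aw
      simp only [hhv, hf.1]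
    simp only [h1]
    rw [sum_sub_distrib, sum_sub_distrib, ← mul_sum]
    rw [Equiv.sum_comp h (fun v => wt v (f v))]
    unfold pmw
    ring
  have hfin : ∃ n > 0, h ^ n = 1 := by
    have := isOfFinOrder_of_finite h
    rw [isOfFinOrder_iff_pow_eq_one] at this
    exact this
  obtain ⟨N, hN, hN1⟩ := hfin
  have hpos : ∀ a, g a ≠ f a → 0 < ∑ i ∈ range N, ψ ((h ^ i) a) := by
    intro a ha
    obtain ⟨h1, h2, h3⟩ := orbit_path adj hs hi f hf g hg h hhv a ha
    set n := Function.minimalPeriod h a with hn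
    have hna : (h ^ n) a = a := by
      have := Function.isPeriodicPt_minimalPeriod h a
      rw [Function.IsPeriodicPt, Function.IsFixedPt, ← Equiv.Perm.coe_pow] at this
      exact this
    have hper : Function.IsPeriodicPt h N a := by
      rw [Function.IsPeriodicPt, Function.IsFixedPt, ← Equiv.Perm.coe_pow, hN1]; rfl
    obtain ⟨q, hq⟩ := hper.minimalPeriod_dvd
    rw [← hn] at hq
    have hq0 : 0 < q := by
      rcases Nat.eq_zero_or_pos q with h0 | h0
      · rw [h0, Nat.mul_zero] at hq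
        omega
      · exact h0
    rw [hq, sum_orbit h ψ a n hna q]
    have h4 := hG (fun i => (h ^ i) a) (n - 1) (by omega) h2 h3
    have h5 : ∑ i ∈ range n, ψ ((h ^ i) a) =
        wp (aw wt f) (fun i => (h ^ i) a) (n - 1) +
          aw wt f ((h ^ (n - 1)) a) ((h ^ 0) a) := by
      obtain ⟨k, hk⟩ : ∃ k, n = k + 1 := ⟨n - 1, by omega⟩
      rw [hk, sum_range_succ, Nat.add_sub_cancel]
      unfold wp
      congr 1
      · refine sum_congr rfl fun i _ => ?_
        rw [hψ]
        simp only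
        rw [← Equiv.Perm.mul_apply, ← pow_succ']
      · rw [hψ]
        simp only
        rw [← Equiv.Perm.mul_apply, ← pow_succ', ← hk, hna]
        simp
    rw [h5]
    have : (0 : ℤ) < q := by exact_mod_cast hq0
    exact mul_pos this h4
  have hnn : ∀ a, 0 ≤ ∑ i ∈ range N, ψ ((h ^ i) a) := by
    intro a
    by_cases ha : g a = f a
    · have h1 : h a = a := by rw [hhv, ha, hf.1]
      have h2 : ∀ i : ℕ, (h ^ i) a = a := by
        intro i
        induction i with
        | zero => simp
        | succ i ih => rw [pow_succ, Equiv.Perm.mul_apply, h1, ih]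
      have h3 : ψ a = 0 := by
        rw [hψ]
        unfold aw
        simp only
        rw [h1]
        ring
      simp only [h2, h3]
      simp
    · exact (hpos a ha).le
  have hsw : ∑ a, ∑ i ∈ range N, ψ ((h ^ i) a) = N * ∑ v, ψ v := by
    rw [sum_comm]
    have : ∀ i ∈ range N, ∑ a, ψ ((h ^ i) a) = ∑ v, ψ v := fun i _ =>
      Equiv.sum_comp (h ^ i) ψ
    rw [sum_congr rfl this]
    simp
  have hgt : 0 < ∑ a, ∑ i ∈ range N, ψ ((h ^ i) a) := by
    obtain ⟨a, ha⟩ := Function.ne_iff.1 hne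
    exact sum_pos' (fun a _ => hnn a) ⟨a, mem_univ a, hpos a ha⟩
  rw [hsw, htot] at hgt
  have hN' : (0 : ℤ) < N := by exact_mod_cast hN
  have := (mul_pos_iff_of_pos_left hN').1 hgt
  linarith

private theorem cycle_wt {V : Type} [Fintype V] [DecidableEq V] (adj : V → V → Prop)
    (hs : ∀ a b, adj a b → adj b a) (hi : ∀ a, ¬ adj a a) (f : V → V) (hf : IsPM adj f)
    (wt : V → V → ℤ) (hw : ∀ a b, wt a b = wt b a)
    (p : ℕ → V) (k : ℕ) (hk : 1 ≤ k) (hp : (skewOf adj hs hi f hf).Path p k)
    (hkp : (skewOf adj hs hi f hf).arc (p k) (p 0)) :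
    ∃ g, IsPM adj g ∧ g ≠ f ∧
      pmw wt g - pmw wt f = wp (aw wt f) p k + aw wt f (p k) (p 0) := by
  have hfne : ∀ v, f v ≠ v := fun v h => hi v (by have := hf.2 v; rwa [h] at this)
  have hp2 : ∀ i j, i ≤ k → j ≤ k → i ≠ j → p j ≠ p i := by
    intro i j h1 h2 h3
    rcases lt_or_gt_of_ne h3 with h | h
    · exact (hp.2 i j h h2).1
    · exact (hp.2 j i h h1).1.symm
  have hp3 : ∀ i j, i ≤ k → j ≤ k → p j ≠ f (p i) := by
    intro i j h1 h2
    rcases lt_trichotomy i j with h | h | h
    · exact (hp.2 i j h h2).2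
    · subst h; exact (hfne _).symm
    · intro e
      apply (hp.2 j i h h1).2
      change p i = f (p j)
      rw [e, hf.1]
  let ι : Fin (k + 1) ↪ V := ⟨fun i => p i, by
    intro i j hij
    by_contra hne
    exact hp2 j i (by omega) (by omega) (fun e => hne (Fin.ext e.symm)) hij⟩
  have hι : ∀ i : Fin (k + 1), ι i = p i := fun i => rfl
  have harc : ∀ i : Fin (k + 1), adj (ι i) (f (ι (i + 1))) ∧ ι (i + 1) ≠ ι i := by
    intro i
    rw [hι, hι, Fin.val_add_one]
    split_ifs with hlast
    · rw [hlast]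
      exact hkp
    · have : (i : ℕ) < k := by
        rcases Nat.lt_or_ge i k with h | h
        · exact h
        · exact absurd (Fin.ext (by simp; omega)) hlast
      exact hp.1 i this
  let σ : Equiv.Perm V := (finRotate (k + 1)).viaEmbedding ι
  have hσ1 : ∀ i : Fin (k + 1), σ (ι i) = ι (i + 1) := by
    intro i
    change (finRotate (k + 1)).viaEmbedding ι (ι i) = _
    rw [Equiv.Perm.viaEmbedding_apply, finRotate_apply]
  have hσ2 : ∀ v, v ∉ Set.range ι → σ v = v := fun v hv =>
    Equiv.Perm.viaEmbedding_apply_of_notMem _ _ _ hv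
  let F : Equiv.Perm V := ⟨f, f, hf.1, hf.1⟩
  let g : Equiv.Perm V := F * σ * F * (F * σ)⁻¹
  have hgv : ∀ v, g v = f (σ (f (σ⁻¹ (f v)))) := fun v => rfl
  have hnr : ∀ i : Fin (k + 1), f (ι i) ∉ Set.range ι := by
    rintro i ⟨j, hj⟩
    exact hp3 i j (by omega) (by omega) hj
  have hg1 : ∀ i : Fin (k + 1), g (ι i) = f (ι (i + 1)) := by
    intro i
    have e1 : σ⁻¹ (f (ι i)) = f (ι i) := by
      rw [Equiv.Perm.inv_eq_iff_eq, hσ2 _ (hnr i)]
    rw [hgv, e1, hf.1, hσ1]
  have hg2 : ∀ i : Fin (k + 1), g (f (ι (i + 1))) = ι i := by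
    intro i
    have e1 : σ⁻¹ (ι (i + 1)) = ι i := by
      rw [Equiv.Perm.inv_eq_iff_eq, hσ1]
    rw [hgv, hf.1, e1, hσ2 _ (hnr i), hf.1]
  have hg3 : ∀ v, v ∉ Set.range ι → f v ∉ Set.range ι → g v = f v := by
    intro v h1 h2
    have e1 : σ⁻¹ (f v) = f v := by
      rw [Equiv.Perm.inv_eq_iff_eq, hσ2 _ h2]
    rw [hgv, e1, hf.1, hσ2 v h1]
  refine ⟨g, ⟨?_, ?_⟩, ?_, ?_⟩
  · intro v
    have hFF : F * F = 1 := Equiv.ext fun v => hf.1 v
    have : g * g = 1 := by
      calc g * g = F * σ * (F * F) * (F * σ)⁻¹ := by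
            change F * σ * F * (F * σ)⁻¹ * (F * σ * F * (F * σ)⁻¹) = _
            group
        _ = 1 := by rw [hFF]; group
    exact congrArg (fun e : Equiv.Perm V => e v) this
  · intro v
    by_cases h1 : v ∈ Set.range ι
    · obtain ⟨i, rfl⟩ := h1
      rw [hg1]
      exact (harc i).1
    · by_cases h2 : f v ∈ Set.range ι
      · obtain ⟨j, hj⟩ := h2
        have e : v = f (ι (j - 1 + 1)) := by rw [sub_add_cancel, hj, hf.1]
        rw [e, hg2]
        exact hs _ _ (harc (j - 1)).1
      · rw [hg3 v h1 h2]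
        exact hf.2 v
  · intro e
    have h0 := congrFun e (ι 0)
    rw [hg1] at h0
    apply (harc 0).2
    rw [← hf.1 (ι (0 + 1)), h0, hf.1]
  · -- weights
    set d : V → ℤ := fun v => wt v (g v) - wt v (f v) with hd
    have hdv : pmw wt g - pmw wt f = ∑ v, d v := by
      unfold pmw
      rw [hd, sum_sub_distrib]
    set ι' : Fin (k + 1) ↪ V := ⟨fun i => f (ι i), fun i j hij => by
      apply ι.injective
      rw [← hf.1 (ι i), ← hf.1 (ι j)]
      exact congrArg f hij⟩ with hι'
    have hι'v : ∀ i, ι' i = f (ι i) := fun i => rfl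
    have hdis : Disjoint (univ.map ι) (univ.map ι') := by
      rw [Finset.disjoint_left]
      intro v h1 h2
      rw [mem_map] at h1 h2
      obtain ⟨i, _, rfl⟩ := h1
      obtain ⟨j, _, hj⟩ := h2
      rw [hι'v] at hj
      exact hnr j ⟨i, hj.symm⟩
    have hsplit : ∑ v, d v = ∑ v ∈ (univ.map ι) ∪ (univ.map ι'), d v := by
      symm
      apply sum_subset (subset_univ _)
      intro v _ hv
      rw [mem_union, not_or] at hv
      have h1 : v ∉ Set.range ι := by
        rintro ⟨i, rfl⟩
        exact hv.1 (mem_map_of_mem ι (mem_univ i))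
      have h2 : f v ∉ Set.range ι := by
        rintro ⟨i, hi'⟩
        apply hv.2
        rw [mem_map]
        exact ⟨i, mem_univ i, by rw [hι'v, hi', hf.1]⟩
      rw [hd]
      simp only
      rw [hg3 v h1 h2]
      ring
    rw [hdv, hsplit, sum_union hdis, sum_map, sum_map]
    have hre : ∑ i, d (ι' i) = ∑ i : Fin (k + 1), d (ι' (i + 1)) :=
      (Equiv.sum_comp (Equiv.addRight (1 : Fin (k + 1))) (fun i => d (ι' i))).symm
    rw [hre, ← sum_add_distrib]
    have hterm : ∀ i : Fin (k + 1), d (ι i) + d (ι' (i + 1)) = aw wt f (ι i) (ι (i + 1)) := by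
      intro i
      rw [hd]
      unfold aw
      simp only [hι'v]
      rw [hg1, hg2, hf.1, hw (f (ι (i + 1))) (ι i), hw (f (ι (i + 1))) (ι (i + 1))]
      ring
    rw [sum_congr rfl fun i _ => hterm i, Fin.sum_univ_castSucc]
    unfold wp
    rw [Finset.sum_range]
    congr 1
    · refine sum_congr rfl fun i _ => ?_
      rw [hι, hι]
      congr 2
      rw [Fin.val_add_one, if_neg]
      · rfl
      · intro e
        have := congrArg Fin.val e
        simp at this
        omega
    · rw [hι, hι]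
      congr 2
      rw [Fin.last_add_one]
      rfl

/-- **P8**. -/
theorem cycle : CycleStmt := by
  intro V _ _ adj hs hi f hf wt hw
  refine ⟨?_, ?_, ?_⟩
  · intro a b
    change aw wt f (f b) (f a) = aw wt f a b
    unfold aw
    rw [hf.1, hf.1, hw (f b) a, hw (f b) b, hw (f a) a]
    ring
  · intro hG g hg hne
    exact good_lt adj hs hi f hf wt hG g hg hne
  · intro h p k hk hp hkp
    obtain ⟨g, hg, hne, he⟩ := cycle_wt adj hs hi f hf wt hw p k hk hp hkp
    have := h g hg hne
    linarith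

end Pool.Agent.WUPM
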