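import Mathlib
import Pool.Agent.UPM.Skew

/-!
# Weights of perfect matchings and of regular closed paths
-/

set_option autoImplicit false
set_option linter.unusedSectionVars false

namespace Pool.Agent.WUPM.CC

open Finset Pool.Agent.UPM

/-- The sum of a function over the iterates in a multiple of the period. -/
theorem sum_iter {V : Type*} (h : V → V) (f : V → ℤ) (v : V) (q : ℕ)
    (hq : h^[q] v = v) (c : ℕ) :
    ∑ i ∈ range (c * q), f (h^[i] v) = c * ∑ i ∈ range q, f (h^[i] v) := by
  induction c with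
  | zero => simp
  | succ c ih =>
    rw [Nat.succ_mul, sum_range_add, ih]
    have h1 : ∀ c, h^[c * q] v = v := by
      intro c
      induction c with
      | zero => rw [Nat.zero_mul]; rfl
      | succ c ih2 => rw [Nat.succ_mul, Function.iterate_add_apply, hq, ih2]
    have h2 : ∀ i, h^[c * q + i] v = h^[i] v := by
      intro i
      rw [Nat.add_comm, Function.iterate_add_apply, h1]
    simp only [h2]
    push_cast
    ring

/-- A function on a finite set whose sum over every cycle of a permutation is non-negative. -/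
theorem sum_cycles {V : Type*} [Fintype V] (h : Equiv.Perm V) (f : V → ℤ)
    (hcyc : ∀ v, 0 ≤ ∑ i ∈ range (Function.minimalPeriod h v), f (h^[i] v)) :
    0 ≤ ∑ v, f v := by
  classical
  obtain ⟨N, hN, hN1⟩ : ∃ n > 0, h ^ n = 1 := by
    have := isOfFinOrder_of_finite h
    rw [isOfFinOrder_iff_pow_eq_one] at this
    exact this
  have hper : ∀ v, h^[N] v = v := by
    intro v
    rw [← Equiv.Perm.coe_pow, hN1]
    rfl
  have h1 : ∀ i : ℕ, ∑ v, f (h^[i] v) = ∑ v, f v := by
    intro i
    have h2 : ∀ v, h^[i] v = (h ^ i) v := fun v => by rw [Equiv.Perm.coe_pow]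
    simp only [h2]
    exact Equiv.sum_comp (h ^ i) f
  have h2 : (N : ℤ) * ∑ v, f v = ∑ v, ∑ i ∈ range N, f (h^[i] v) := by
    rw [sum_comm, sum_congr rfl fun i _ => h1 i, sum_const, card_range, nsmul_eq_mul]
  have h3 : 0 ≤ ∑ v, ∑ i ∈ range N, f (h^[i] v) := by
    refine sum_nonneg fun v _ => ?_
    obtain ⟨c, hc⟩ : Function.minimalPeriod h v ∣ N :=
      Function.IsPeriodicPt.minimalPeriod_dvd (hper v)
    rw [hc, Nat.mul_comm, sum_iter h f v _ (Function.isPeriodicPt_minimalPeriod h v)]
    exact mul_nonneg (Int.natCast_nonneg c) (hcyc v)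
  rw [← h2] at h3
  have h4 : (0 : ℤ) < N := by exact_mod_cast hN
  exact nonneg_of_mul_nonneg_right h3 h4

/-- The same with a strict inequality. -/
theorem sum_cycles_pos {V : Type*} [Fintype V] (h : Equiv.Perm V) (f : V → ℤ)
    (hcyc : ∀ v, 0 ≤ ∑ i ∈ range (Function.minimalPeriod h v), f (h^[i] v)) {a : V}
    (ha : 0 < ∑ i ∈ range (Function.minimalPeriod h a), f (h^[i] a)) :
    0 < ∑ v, f v := by
  classical
  obtain ⟨N, hN, hN1⟩ : ∃ n > 0, h ^ n = 1 := by
    have := isOfFinOrder_of_finite h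
    rw [isOfFinOrder_iff_pow_eq_one] at this
    exact this
  have hper : ∀ v, h^[N] v = v := by
    intro v
    rw [← Equiv.Perm.coe_pow, hN1]
    rfl
  have h1 : ∀ i : ℕ, ∑ v, f (h^[i] v) = ∑ v, f v := by
    intro i
    have h2 : ∀ v, h^[i] v = (h ^ i) v := fun v => by rw [Equiv.Perm.coe_pow]
    simp only [h2]
    exact Equiv.sum_comp (h ^ i) f
  have h2 : (N : ℤ) * ∑ v, f v = ∑ v, ∑ i ∈ range N, f (h^[i] v) := by
    rw [sum_comm, sum_congr rfl fun i _ => h1 i, sum_const, card_range, nsmul_eq_mul]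
  have h0 : ∀ v, ∃ c : ℕ, N = Function.minimalPeriod h v * c ∧
      ∑ i ∈ range N, f (h^[i] v) =
        c * ∑ i ∈ range (Function.minimalPeriod h v), f (h^[i] v) := by
    intro v
    obtain ⟨c, hc⟩ : Function.minimalPeriod h v ∣ N :=
      Function.IsPeriodicPt.minimalPeriod_dvd (hper v)
    refine ⟨c, hc, ?_⟩
    conv_lhs => rw [hc, Nat.mul_comm, sum_iter h f v _ (Function.isPeriodicPt_minimalPeriod h v)]
  have h3 : 0 < ∑ v, ∑ i ∈ range N, f (h^[i] v) := by
    refine sum_pos' (fun v _ => ?_) ⟨a, mem_univ a, ?_⟩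
    · obtain ⟨c, -, hc⟩ := h0 v
      rw [hc]
      exact mul_nonneg (Int.natCast_nonneg c) (hcyc v)
    · obtain ⟨c, hc1, hc⟩ := h0 a
      rw [hc]
      have : 0 < c := by
        rcases Nat.eq_zero_or_pos c with h | h
        · rw [h, Nat.mul_zero] at hc1
          omega
        · exact h
      exact mul_pos (by exact_mod_cast this) ha
  rw [← h2] at h3
  have h4 : (0 : ℤ) < N := by exact_mod_cast hN
  exact (mul_pos_iff_of_pos_left h4).1 h3

/-- The alternating cycles of two perfect matchings are regular closed paths. -/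
theorem cycle_regular {V : Type*} [Fintype V] (S : Skew V) (g : V → V) (hgg : ∀ v, g (g v) = v)
    (hgne : ∀ v, g v ≠ v) (harc : ∀ v, g v ≠ S.m v → S.arc v (S.m (g v)))
    (h : Equiv.Perm V) (hh : ∀ v, h v = S.m (g v)) {a : V} (ha : g a ≠ S.m a) :
    ∃ k, 1 ≤ k ∧ Function.minimalPeriod h a = k + 1 ∧ S.Path (fun i => h^[i] a) k ∧
      S.arc (h^[k] a) (h^[0] a) := by
  classical
  let F : Equiv.Perm V := ⟨S.m, S.m, S.mm, S.mm⟩
  let G : Equiv.Perm V := ⟨g, g, hgg, hgg⟩
  have hFF : F * F = 1 := Equiv.ext fun v => S.mm v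
  have hGG : G * G = 1 := Equiv.ext fun v => hgg v
  have hFG : h = F * G := Equiv.ext fun v => hh v
  have hinv : h⁻¹ = G * F := by
    rw [hFG, inv_eq_iff_mul_eq_one]
    calc F * G * (G * F) = F * (G * G) * F := by group
      _ = 1 := by rw [hGG, mul_one, hFF]
  have hsc : SemiconjBy F h h⁻¹ := by
    change F * h = h⁻¹ * F
    rw [hinv, hFG]
    change F * (F * G) = G * F * F
    rw [← mul_assoc, hFF, one_mul, mul_assoc, hFF, mul_one]
  have hscn : ∀ n : ℕ, F * h ^ n = (h ^ n)⁻¹ * F := by
    intro n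
    have := hsc.pow_right n
    rw [inv_pow] at this
    exact this
  have hno : ∀ n : ℕ, (h ^ n) a ≠ S.m a := by
    intro n hn
    rcases Nat.even_or_odd' n with ⟨m, rfl | rfl⟩
    · apply S.mne ((h ^ m) a)
      have h1 : F ((h ^ m) a) = (h ^ m)⁻¹ (F a) := by
        have := congrArg (fun e : Equiv.Perm V => e a) (hscn m)
        simpa using this
      have h2 : F a = (h ^ m) ((h ^ m) a) := by
        change S.m a = _
        rw [← hn, two_mul, pow_add]; rfl
      have h3 : F ((h ^ m) a) = (h ^ m) a := by rw [h1, h2]; simp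
      exact h3
    · apply hgne ((h ^ m) a)
      have h1 : F ((h ^ m) a) = (h ^ m)⁻¹ (F a) := by
        have := congrArg (fun e : Equiv.Perm V => e a) (hscn m)
        simpa using this
      have h2 : F a = (h ^ m) (h ((h ^ m) a)) := by
        change S.m a = _
        have e : 2 * m + 1 = m + (1 + m) := by omega
        rw [← hn, e, pow_add, pow_add, pow_one]; rfl
      have h3 : F ((h ^ m) a) = h ((h ^ m) a) := by rw [h1, h2]; simp
      have h4 : F ((h ^ m) a) = F (G ((h ^ m) a)) := by
        rw [h3, hFG]; rfl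
      exact (F.injective h4).symm
  have hno2 : ∀ i j : ℕ, (h ^ j) a ≠ S.m ((h ^ i) a) := by
    intro i j hij
    apply hno (i + j)
    have h1 : F ((h ^ i) a) = (h ^ i)⁻¹ (F a) := by
      have := congrArg (fun e : Equiv.Perm V => e a) (hscn i)
      simpa using this
    have h2 : (h ^ j) a = (h ^ i)⁻¹ (F a) := by rw [← h1]; exact hij
    rw [pow_add, Equiv.Perm.mul_apply, h2]
    simp
    rfl
  obtain ⟨n0, hn0, hn1⟩ : ∃ n > 0, h ^ n = 1 := by
    have := isOfFinOrder_of_finite h
    rw [isOfFinOrder_iff_pow_eq_one] at this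
    exact this
  have hper : Function.IsPeriodicPt h n0 a := by
    rw [Function.IsPeriodicPt, Function.IsFixedPt, ← Equiv.Perm.coe_pow, hn1]; rfl
  have hpos := hper.minimalPeriod_pos hn0
  set n := Function.minimalPeriod h a with hn
  have hna : h^[n] a = a := Function.isPeriodicPt_minimalPeriod h a
  have hn2 : n ≠ 1 := by
    intro h1
    rw [h1] at hna
    apply ha
    have h2 : h a = a := hna
    rw [hh] at h2
    calc g a = S.m (S.m (g a)) := (S.mm _).symm
      _ = S.m a := by rw [h2]
  have hmove : ∀ i : ℕ, h (h^[i] a) ≠ h^[i] a := by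
    intro i hi'
    apply ha
    have h3 : h a = a := by
      apply (h.injective.iterate i)
      rw [← Function.iterate_succ_apply, Function.iterate_succ_apply']
      exact hi'
    rw [hh] at h3
    calc g a = S.m (S.m (g a)) := (S.mm _).symm
      _ = S.m a := by rw [h3]
  have harc' : ∀ i, S.arc (h^[i] a) (h (h^[i] a)) := by
    intro i
    rw [hh]
    apply harc
    intro h3
    apply hmove i
    rw [hh, h3, S.mm]
  refine ⟨n - 1, by omega, by omega, ⟨?_, ?_⟩, ?_⟩
  · intro i _
    have h3 := harc' i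
    rw [← Function.iterate_succ_apply' h] at h3
    exact h3
  · intro i j hij hj
    refine ⟨?_, fun e => hno2 i j (by rw [Equiv.Perm.coe_pow, Equiv.Perm.coe_pow]; exact e)⟩
    intro e
    have := Function.iterate_injOn_Iio_minimalPeriod (f := h) (x := a)
      (show j < Function.minimalPeriod h a by omega)
      (show i < Function.minimalPeriod h a by omega) e
    omega
  · have h3 := harc' (n - 1)
    rw [← Function.iterate_succ_apply' h] at h3
    have e : (n - 1).succ = n := by omega
    rw [e, hna] at h3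
    exact h3

/-- The weight of a path. -/
def pw {V : Type*} (wt : V → V → ℤ) (p : ℕ → V) (k : ℕ) : ℤ :=
  ∑ i ∈ range k, wt (p i) (p (i + 1))

/-- All regular closed paths have non-negative weight. -/
def NonNeg {V : Type*} (S : Skew V) (wt : V → V → ℤ) : Prop :=
  ∀ (p : ℕ → V) (k : ℕ), 1 ≤ k → S.Path p k → S.arc (p k) (p 0) → 0 ≤ pw wt p k + wt (p k) (p 0)

/-- All regular closed paths have positive weight. -/
def Pos {V : Type*} (S : Skew V) (wt : V → V → ℤ) : Prop :=
  ∀ (p : ℕ → V) (k : ℕ), 1 ≤ k → S.Path p k → S.arc (p k) (p 0) → 0 < pw wt p k + wt (p k) (p 0)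

theorem Pos.nonNeg {V : Type*} {S : Skew V} {wt : V → V → ℤ} (h : Pos S wt) : NonNeg S wt :=
  fun p k h1 h2 h3 => (h p k h1 h2 h3).le

open Classical in
/-- The weight of a perfect matching `g`, the weight of the matching `m` being zero. -/
noncomputable def gw {V : Type*} (S : Skew V) (wt : V → V → ℤ) (g : V → V) (v : V) : ℤ :=
  if g v = S.m v then 0 else wt v (S.m (g v))

theorem cycle_gw {V : Type*} [Fintype V] (S : Skew V) (wt : V → V → ℤ) (g : V → V)
    (hgg : ∀ v, g (g v) = v)
    (hgne : ∀ v, g v ≠ v) (harc : ∀ v, g v ≠ S.m v → S.arc v (S.m (g v)))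
    (h : Equiv.Perm V) (hh : ∀ v, h v = S.m (g v)) (a : V) :
    (g a = S.m a ∧ ∑ i ∈ range (Function.minimalPeriod h a), gw S wt g (h^[i] a) = 0) ∨
    (g a ≠ S.m a ∧ ∃ (p : ℕ → V) (k : ℕ), 1 ≤ k ∧ S.Path p k ∧ S.arc (p k) (p 0) ∧
      ∑ i ∈ range (Function.minimalPeriod h a), gw S wt g (h^[i] a) =
        pw wt p k + wt (p k) (p 0)) := by
  classical
  by_cases ha : g a = S.m a
  · left
    refine ⟨ha, ?_⟩
    have hfix : h a = a := by rw [hh, ha, S.mm]
    have : Function.minimalPeriod h a = 1 := Function.minimalPeriod_eq_one_iff_isFixedPt.2 hfix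
    rw [this, sum_range_one]
    exact if_pos ha
  · right
    refine ⟨ha, ?_⟩
    obtain ⟨k, hk, hper, hp, har⟩ := cycle_regular S g hgg hgne harc h hh ha
    refine ⟨fun i => h^[i] a, k, hk, hp, har, ?_⟩
    have hne : ∀ i, g (h^[i] a) ≠ S.m (h^[i] a) := by
      intro i e
      apply ha
      have h3 : h a = a := by
        apply (h.injective.iterate i)
        rw [← Function.iterate_succ_apply, Function.iterate_succ_apply' h, hh, e, S.mm]
      rw [hh] at h3
      calc g a = S.m (S.m (g a)) := (S.mm _).symm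
        _ = S.m a := by rw [h3]
    have hval : ∀ i, gw S wt g (h^[i] a) = wt (h^[i] a) (h^[i + 1] a) := by
      intro i
      unfold gw
      rw [if_neg (hne i), Function.iterate_succ_apply' h, hh]
    have hlast : h^[k + 1] a = a := by
      rw [← hper]
      exact Function.isPeriodicPt_minimalPeriod h a
    rw [hper, sum_range_succ, hval k, hlast]
    unfold pw
    rw [sum_congr rfl fun i _ => hval i]
    rfl

/-- Every perfect matching has non-negative weight. -/
theorem pm_nonneg {V : Type*} [Fintype V] {S : Skew V} {wt : V → V → ℤ} (hS : NonNeg S wt)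
    (g : V → V) (hgg : ∀ v, g (g v) = v) (hgne : ∀ v, g v ≠ v)
    (harc : ∀ v, g v ≠ S.m v → S.arc v (S.m (g v))) : 0 ≤ ∑ v, gw S wt g v := by
  let h : Equiv.Perm V := ⟨fun v => S.m (g v), fun v => g (S.m v), fun v => by
    simp only; rw [S.mm, hgg], fun v => by simp only; rw [hgg, S.mm]⟩
  refine sum_cycles h _ fun v => ?_
  rcases cycle_gw S wt g hgg hgne harc h (fun _ => rfl) v with ⟨_, h1⟩ | ⟨_, p, k, h1, h2, h3, h4⟩
  · rw [h1]
  · rw [h4]
    exact hS p k h1 h2 h3

/-- Every other perfect matching has positive weight. -/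
theorem pm_pos {V : Type*} [Fintype V] {S : Skew V} {wt : V → V → ℤ} (hS : Pos S wt)
    (g : V → V) (hgg : ∀ v, g (g v) = v) (hgne : ∀ v, g v ≠ v)
    (harc : ∀ v, g v ≠ S.m v → S.arc v (S.m (g v))) (hne : g ≠ S.m) :
    0 < ∑ v, gw S wt g v := by
  let h : Equiv.Perm V := ⟨fun v => S.m (g v), fun v => g (S.m v), fun v => by
    simp only; rw [S.mm, hgg], fun v => by simp only; rw [hgg, S.mm]⟩
  obtain ⟨a, ha⟩ := Function.ne_iff.1 hne
  refine sum_cycles_pos h _ (fun v => ?_) (a := a) ?_
  · rcases cycle_gw S wt g hgg hgne harc h (fun _ => rfl) v with ⟨_, h1⟩ | ⟨_, p, k, h1, h2, h3, h4⟩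
    · rw [h1]
    · rw [h4]
      exact (hS p k h1 h2 h3).le
  · rcases cycle_gw S wt g hgg hgne harc h (fun _ => rfl) a with ⟨h0, _⟩ | ⟨_, p, k, h1, h2, h3, h4⟩
    · exact absurd h0 ha
    · rw [h4]
      exact hS p k h1 h2 h3

end Pool.Agent.WUPM.CC
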