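import Mathlib
import Pool.Agent.Sebo.Main

/-!
# Laminar certificates for conservative integer weights

The edges of a conservative graph with even integer weights are subdivided into unit edges, and
Sebő's theorem is applied.
-/

set_option autoImplicit false
set_option linter.unusedSectionVars false
set_option linter.unusedSimpArgs false

namespace Pool.Agent.WUPM.CC

open Finset Pool.Agent.Sebo

/-! ### Distances -/

section Dist

variable {V E : Type*} [DecidableEq V] [DecidableEq E]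

theorem exists_dist {s t : E → V} {A : Finset E} {U : Finset V} {w : E → ℤ} {r : V}
    (hconn : ∀ v ∈ U, ∃ J ⊆ A, bd s t J = pt r + pt v) : ∃ lam : V → ℤ, IsDist s t A U w r lam := by
  classical
  have h : ∀ v : V, ∃ l : ℤ, v ∈ U → (∃ J ⊆ A, bd s t J = pt r + pt v ∧ wt w J = l) ∧
      ∀ J ⊆ A, bd s t J = pt r + pt v → l ≤ wt w J := by
    intro v
    by_cases hv : v ∈ U
    · obtain ⟨J, hJ, hb⟩ := hconn v hv
      obtain ⟨J0, hJ0, hmin⟩ := exists_min_image
        (A.powerset.filter fun J => bd s t J = pt r + pt v) (wt w)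
        ⟨J, mem_filter.2 ⟨mem_powerset.2 hJ, hb⟩⟩
      rw [mem_filter, mem_powerset] at hJ0
      refine ⟨wt w J0, fun _ => ⟨⟨J0, hJ0.1, hJ0.2, rfl⟩, fun J hJ hb => ?_⟩⟩
      exact hmin J (mem_filter.2 ⟨mem_powerset.2 hJ, hb⟩)
    · exact ⟨0, fun h => absurd h hv⟩
  choose lam hlam using h
  exact ⟨lam, fun v hv => hlam v hv⟩

theorem tele (f : ℕ → V → ZMod 2) (n : ℕ) : ∑ j ∈ range n, (f j + f (j + 1)) = f 0 + f n := by
  induction n with
  | zero => rw [sum_range_zero, fun_two]
  | succ n ih =>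
    rw [sum_range_succ, ih]
    calc f 0 + f n + (f n + f (n + 1)) = f 0 + (f n + f n) + f (n + 1) := by abel
      _ = f 0 + f (n + 1) := by rw [fun_two, add_zero]

end Dist

/-! ### Subdivision -/

section Subdivision

variable {V E : Type*} [DecidableEq V] [DecidableEq E]

/-- The `j`-th node on the subdivided edge `e`. -/
def node (s t : E → V) (len : E → ℕ) (e : E) (j : ℕ) : V ⊕ (E × ℕ) :=
  if j = 0 then Sum.inl (s e) else if j = len e then Sum.inl (t e) else Sum.inr (e, j)

/-- The first end of a piece. -/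
def ss (s t : E → V) (len : E → ℕ) (p : E × ℕ) : V ⊕ (E × ℕ) := node s t len p.1 p.2

/-- The second end of a piece. -/
def tt (s t : E → V) (len : E → ℕ) (p : E × ℕ) : V ⊕ (E × ℕ) := node s t len p.1 (p.2 + 1)

/-- The pieces of the edges of `A`. -/
def AA (len : E → ℕ) (A : Finset E) : Finset (E × ℕ) :=
  A.biUnion fun e => (range (len e)).image fun j => (e, j)

theorem mem_AA {len : E → ℕ} {A : Finset E} {p : E × ℕ} :
    p ∈ AA len A ↔ p.1 ∈ A ∧ p.2 < len p.1 := by
  unfold AA
  rw [mem_biUnion]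
  constructor
  · rintro ⟨e, he, hp⟩
    rw [mem_image] at hp
    obtain ⟨j, hj, rfl⟩ := hp
    exact ⟨he, mem_range.1 hj⟩
  · rintro ⟨h1, h2⟩
    exact ⟨p.1, h1, mem_image.2 ⟨p.2, mem_range.2 h2, rfl⟩⟩

theorem sum_AA {M : Type*} [AddCommMonoid M] {len : E → ℕ} {A : Finset E} (f : E × ℕ → M) :
    ∑ p ∈ AA len A, f p = ∑ e ∈ A, ∑ j ∈ range (len e), f (e, j) :=
  sum_finset_product _ _ _ fun p => by rw [mem_AA, mem_range]

variable {s t : E → V} {len : E → ℕ} {A : Finset E}

theorem node_zero (e : E) : node s t len e 0 = Sum.inl (s e) := if_pos rfl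

theorem node_len {e : E} (h : 0 < len e) : node s t len e (len e) = Sum.inl (t e) := by
  unfold node
  rw [if_neg (by omega), if_pos rfl]

theorem node_mid {e : E} {j : ℕ} (h : 0 < j) (h2 : j < len e) :
    node s t len e j = Sum.inr (e, j) := by
  unfold node
  rw [if_neg (by omega), if_neg (by omega)]

theorem node_eq_inr {e e' : E} {j j' : ℕ} (h : node s t len e' j' = Sum.inr (e, j)) :
    e' = e ∧ j' = j := by
  unfold node at h
  split_ifs at h
  have := Sum.inr.inj h
  rw [Prod.mk.injEq] at this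
  exact this

theorem bd_AA (hlen : ∀ e ∈ A, 0 < len e) : bd (ss s t len) (tt s t len) (AA len A) =
    ∑ e ∈ A, (pt (Sum.inl (s e)) + pt (Sum.inl (t e))) := by
  unfold bd
  rw [sum_AA]
  refine sum_congr rfl fun e he => ?_
  unfold ss tt
  simp only
  rw [tele (fun j => pt (node s t len e j)) (len e), node_zero, node_len (hlen e he)]

theorem bd_AA_inl (hlen : ∀ e ∈ A, 0 < len e) (v : V) :
    bd (ss s t len) (tt s t len) (AA len A) (Sum.inl v) = bd s t A v := by
  rw [bd_AA hlen, bd_apply, Finset.sum_apply]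
  refine sum_congr rfl fun e _ => ?_
  rw [Pi.add_apply, pt_apply, pt_apply, pt_apply, pt_apply]
  simp only [Sum.inl.injEq]

theorem bd_AA_inr (hlen : ∀ e ∈ A, 0 < len e) (q : E × ℕ) :
    bd (ss s t len) (tt s t len) (AA len A) (Sum.inr q) = 0 := by
  rw [bd_AA hlen, Finset.sum_apply]
  refine sum_eq_zero fun e _ => ?_
  rw [Pi.add_apply, pt_apply, pt_apply]
  simp

/-- The boundary of a part of an edge. -/
theorem bd_part (e : E) (n : ℕ) :
    bd (ss s t len) (tt s t len) ((range n).image fun j => (e, j)) =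
      pt (node s t len e 0) + pt (node s t len e n) := by
  unfold bd
  rw [sum_image (fun a _ b _ h => (Prod.mk.inj h).2)]
  unfold ss tt
  simp only
  rw [tele (fun j => pt (node s t len e j)) n]

/-- At an interior node. -/
theorem bd_mid {J : Finset (E × ℕ)} {e : E} {j : ℕ} (hj : j + 1 < len e) :
    bd (ss s t len) (tt s t len) J (Sum.inr (e, j + 1)) =
      (if (e, j + 1) ∈ J then 1 else 0) + (if (e, j) ∈ J then 1 else 0) := by
  have h1 : ∀ p : E × ℕ, pt (ss s t len p) (Sum.inr (e, j + 1)) =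
      if p = (e, j + 1) then (1 : ZMod 2) else 0 := by
    intro p
    rw [pt_apply]
    by_cases hp : p = (e, j + 1)
    · subst hp
      rw [if_pos rfl, if_pos]
      exact (node_mid (by omega) hj).symm
    · rw [if_neg hp, if_neg]
      intro h
      apply hp
      obtain ⟨h2, h3⟩ := node_eq_inr h.symm
      exact Prod.ext h2 h3
  have h2 : ∀ p : E × ℕ, pt (tt s t len p) (Sum.inr (e, j + 1)) =
      if p = (e, j) then (1 : ZMod 2) else 0 := by
    intro p
    rw [pt_apply]
    by_cases hp : p = (e, j)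
    · subst hp
      rw [if_pos rfl, if_pos]
      exact (node_mid (by omega) hj).symm
    · rw [if_neg hp, if_neg]
      intro h
      apply hp
      obtain ⟨h2, h3⟩ := node_eq_inr h.symm
      exact Prod.ext h2 (by simpa using h3)
  rw [bd_apply]
  simp only [h1, h2, sum_add_distrib]
  rw [sum_ite_eq', sum_ite_eq']

/-- An edge set without odd nodes consists of full edges. -/
theorem full {J : Finset (E × ℕ)} (hJ : J ⊆ AA len A)
    (hb : bd (ss s t len) (tt s t len) J = 0) :
    J = AA len (A.filter fun e => (e, 0) ∈ J) := by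
  have key : ∀ e, ∀ j, j < len e → ((e, j) ∈ J ↔ (e, 0) ∈ J) := by
    intro e j
    induction j with
    | zero => intro _; rfl
    | succ j ih =>
      intro hj
      rw [← ih (by omega)]
      have h := congrFun hb (Sum.inr (e, j + 1))
      rw [bd_mid hj, Pi.zero_apply] at h
      by_cases h1 : (e, j + 1) ∈ J <;> by_cases h2 : (e, j) ∈ J <;> simp [h1, h2] at h ⊢
  ext p
  rw [mem_AA, mem_filter]
  constructor
  · intro hp
    have h1 := mem_AA.1 (hJ hp)
    exact ⟨⟨h1.1, (key p.1 p.2 h1.2).1 hp⟩, h1.2⟩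
  · rintro ⟨⟨h1, h2⟩, h3⟩
    exact (key p.1 p.2 h3).2 h2

variable [Fintype V]

/-- The nodes of the subdivided graph. -/
def UU (len : E → ℕ) (A : Finset E) : Finset (V ⊕ (E × ℕ)) :=
  univ.image Sum.inl ∪ ((AA len A).filter fun p => 0 < p.2).image Sum.inr

theorem inl_mem_UU (v : V) : (Sum.inl v : V ⊕ (E × ℕ)) ∈ UU len A := by
  unfold UU
  rw [mem_union]
  exact Or.inl (mem_image_of_mem _ (mem_univ v))

theorem inr_mem_UU {p : E × ℕ} : (Sum.inr p : V ⊕ (E × ℕ)) ∈ UU len A ↔
    p.1 ∈ A ∧ p.2 < len p.1 ∧ 0 < p.2 := by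
  unfold UU
  rw [mem_union]
  constructor
  · rintro (h | h)
    · rw [mem_image] at h
      obtain ⟨_, _, h⟩ := h
      cases h
    · rw [mem_image] at h
      obtain ⟨q, hq, h⟩ := h
      rw [mem_filter, mem_AA] at hq
      rw [← Sum.inr.inj h]
      exact ⟨hq.1.1, hq.1.2, hq.2⟩
  · rintro ⟨h1, h2, h3⟩
    right
    exact mem_image_of_mem _ (mem_filter.2 ⟨mem_AA.2 ⟨h1, h2⟩, h3⟩)

theorem node_mem_UU {e : E} (he : e ∈ A) {j : ℕ} (hj : j ≤ len e) :
    node s t len e j ∈ UU len A := by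
  rcases Nat.eq_zero_or_pos j with rfl | h0
  · rw [node_zero]
    exact inl_mem_UU _
  · rcases Nat.lt_or_ge j (len e) with h1 | h1
    · rw [node_mid h0 h1]
      exact inr_mem_UU.2 ⟨he, h1, h0⟩
    · have : j = len e := le_antisymm hj h1
      subst this
      rw [node_len h0]
      exact inl_mem_UU _

/-- The colouring. -/
def colr : V ⊕ (E × ℕ) → Bool := Sum.elim (fun _ => false) fun p => decide (p.2 % 2 = 1)

theorem colr_node (heven : ∀ e, Even (len e)) (e : E) (j : ℕ) :
    colr (node s t len e j) = decide (j % 2 = 1) := by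
  unfold node
  split_ifs with h1 h2
  · subst h1; rfl
  · subst h2
    obtain ⟨k, hk⟩ := heven e
    have : ¬ (len e % 2 = 1) := by omega
    rw [decide_eq_false this]
    rfl
  · rfl

theorem sys_sub {sg : E → ℤ} (hlen : ∀ e ∈ A, 0 < len e) (heven : ∀ e, Even (len e))
    (hsg : ∀ e, sg e = 1 ∨ sg e = -1)
    (hcons : ∀ J ⊆ A, bd s t J = 0 → 0 ≤ ∑ e ∈ J, (len e : ℤ) * sg e) :
    Sys (ss s t len) (tt s t len) (AA len A) (UU len A) (fun p => sg p.1) colr where
  ends := by
    intro p hp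
    rw [mem_AA] at hp
    exact ⟨node_mem_UU hp.1 hp.2.le, node_mem_UU hp.1 hp.2⟩
  bip := by
    intro p _
    unfold ss tt
    rw [colr_node heven, colr_node heven]
    intro h
    have := decide_eq_decide.1 h
    omega
  unit := fun p _ => hsg p.1
  cons := by
    intro J hJ hb
    have hf := full hJ hb
    set J0 := A.filter fun e => (e, 0) ∈ J with hJ0
    have hlen0 : ∀ e ∈ J0, 0 < len e := fun e he => hlen e (mem_filter.1 he).1
    have hb0 : bd s t J0 = 0 := by
      funext v
      rw [← bd_AA_inl (len := len) hlen0, ← hf, hb]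
      rfl
    have h1 := hcons J0 (filter_subset _ _) hb0
    have h2 : wt (fun p : E × ℕ => sg p.1) J = ∑ e ∈ J0, (len e : ℤ) * sg e := by
      unfold wt
      rw [hf, sum_AA]
      refine sum_congr rfl fun e _ => ?_
      simp only
      rw [sum_const, card_range, nsmul_eq_mul]
    rw [h2]
    exact h1

theorem conn_sub {r : V} (hlen : ∀ e ∈ A, 0 < len e)
    (hconn : ∀ v, ∃ J ⊆ A, bd s t J = pt r + pt v) :
    ∀ x ∈ (UU len A : Finset (V ⊕ (E × ℕ))), ∃ J ⊆ AA len A,
      bd (ss s t len) (tt s t len) J = pt (Sum.inl r) + pt x := by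
  have h1 : ∀ v : V, ∃ J ⊆ AA len A,
      bd (ss s t len) (tt s t len) J = pt (Sum.inl r) + pt (Sum.inl v) := by
    intro v
    obtain ⟨J, hJ, hb⟩ := hconn v
    refine ⟨AA len J, fun p hp => ?_, ?_⟩
    · rw [mem_AA] at hp ⊢
      exact ⟨hJ hp.1, hp.2⟩
    · have hlenJ : ∀ e ∈ J, 0 < len e := fun e he => hlen e (hJ he)
      funext x
      rcases x with u | q
      · rw [bd_AA_inl hlenJ, hb, Pi.add_apply, Pi.add_apply, pt_apply, pt_apply, pt_apply,
          pt_apply]
        simp only [Sum.inl.injEq]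
      · rw [bd_AA_inr hlenJ, Pi.add_apply, pt_apply, pt_apply]
        simp
  intro x hx
  rcases x with v | p
  · exact h1 v
  · obtain ⟨hp1, hp2, hp3⟩ := inr_mem_UU.1 hx
    obtain ⟨J, hJ, hb⟩ := h1 (s p.1)
    refine ⟨symmDiff J ((range p.2).image fun j => (p.1, j)), ?_, ?_⟩
    · intro q hq
      rw [mem_symmDiff] at hq
      rcases hq with ⟨h, _⟩ | ⟨h, _⟩
      · exact hJ h
      · rw [mem_image] at h
        obtain ⟨j, hj, rfl⟩ := h
        rw [mem_range] at hj
        exact mem_AA.2 ⟨hp1, by simp only; omega⟩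
    · rw [bd_symmDiff, hb, bd_part, node_zero, node_mid hp3 hp2]
      calc pt (Sum.inl r) + pt (Sum.inl (s p.1)) + (pt (Sum.inl (s p.1)) + pt (Sum.inr (p.1, p.2)))
          = pt (Sum.inl r) + (pt (Sum.inl (s p.1)) + pt (Sum.inl (s p.1))) +
            pt (Sum.inr (p.1, p.2)) := by abel
        _ = pt (Sum.inl r) + pt (Sum.inr p) := by rw [fun_two, add_zero]

end Subdivision

/-! ### The certificate -/

section Cert

variable {V E : Type*} [DecidableEq V] [DecidableEq E] {s t : E → V} {len : E → ℕ} {A : Finset E}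

/-- The number of the pieces of `e` crossing `D`. -/
def crs (s t : E → V) (len : E → ℕ) (D : Finset (V ⊕ (E × ℕ))) (e : E) (n : ℕ) : ℤ :=
  ∑ j ∈ range n, if Cr (ss s t len) (tt s t len) D (e, j) then (1 : ℤ) else 0

theorem crs_nonneg (D : Finset (V ⊕ (E × ℕ))) (e : E) (n : ℕ) : 0 ≤ crs s t len D e n :=
  sum_nonneg fun _ _ => by split_ifs <;> norm_num

theorem crs_zero (D : Finset (V ⊕ (E × ℕ))) (e : E) (n : ℕ) (h : crs s t len D e n = 0) :
    ∀ j ≤ n, (node s t len e 0 ∈ D ↔ node s t len e j ∈ D) := by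
  induction n with
  | zero =>
    intro j hj
    rw [Nat.le_zero.1 hj]
  | succ n ih =>
    have h1 : crs s t len D e (n + 1) = crs s t len D e n +
        if Cr (ss s t len) (tt s t len) D (e, n) then (1 : ℤ) else 0 := by
      unfold crs
      rw [sum_range_succ]
    rw [h1] at h
    have h2 := crs_nonneg (s := s) (t := t) (len := len) D e n
    by_cases hc : Cr (ss s t len) (tt s t len) D (e, n)
    · rw [if_pos hc] at h
      omega
    · rw [if_neg hc, add_zero] at h
      intro j hj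
      rcases Nat.lt_or_ge j (n + 1) with h3 | h3
      · exact ih h j (by omega)
      · have : j = n + 1 := by omega
        subst this
        rw [cr_iff, not_not] at hc
        rw [ih h n le_rfl]
        exact hc

theorem crs_one (D : Finset (V ⊕ (E × ℕ))) (e : E) (n : ℕ) (h : crs s t len D e n = 1) :
    ¬ (node s t len e 0 ∈ D ↔ node s t len e n ∈ D) := by
  induction n with
  | zero =>
    unfold crs at h
    rw [sum_range_zero] at h
    norm_num at h
  | succ n ih =>
    have h1 : crs s t len D e (n + 1) = crs s t len D e n +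
        if Cr (ss s t len) (tt s t len) D (e, n) then (1 : ℤ) else 0 := by
      unfold crs
      rw [sum_range_succ]
    rw [h1] at h
    by_cases hc : Cr (ss s t len) (tt s t len) D (e, n)
    · rw [if_pos hc] at h
      have h5 : crs s t len D e n = 0 := by omega
      have h2 := crs_zero D e n h5 n le_rfl
      rw [h2]
      exact cr_iff.1 hc
    · rw [if_neg hc, add_zero] at h
      rw [cr_iff, not_not] at hc
      have h3 := ih h
      intro h4
      exact h3 (h4.trans hc.symm)

variable [Fintype V]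

/-- The trace of a set of nodes on the old vertices. -/
def tr (D : Finset (V ⊕ (E × ℕ))) : Finset V := univ.filter fun v => Sum.inl v ∈ D

theorem mem_tr {D : Finset (V ⊕ (E × ℕ))} {v : V} : v ∈ tr D ↔ Sum.inl v ∈ D := by
  unfold tr
  rw [mem_filter]
  simp

theorem cr_tr {D : Finset (V ⊕ (E × ℕ))} {e : E} (h : 0 < len e) :
    Cr s t (tr D) e ↔ ¬ (node s t len e 0 ∈ D ↔ node s t len e (len e) ∈ D) := by
  rw [cr_iff, mem_tr, mem_tr, node_zero, node_len h]

/-- **Laminar certificate** for a connected graph with conservative even weights. -/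
theorem cert_sub {sg : E → ℤ} {r : V} (hlen : ∀ e ∈ A, 0 < len e) (heven : ∀ e, Even (len e))
    (hsg : ∀ e, sg e = 1 ∨ sg e = -1)
    (hcons : ∀ J ⊆ A, bd s t J = 0 → 0 ≤ ∑ e ∈ J, (len e : ℤ) * sg e)
    (hconn : ∀ v, ∃ J ⊆ A, bd s t J = pt r + pt v) :
    ∃ (n : ℕ) (K : Fin n → Finset V), (∀ i, r ∉ K i) ∧
      (∀ i j, K i ⊆ K j ∨ K j ⊆ K i ∨ Disjoint (K i) (K j)) ∧
      (∀ i, ∃ f ∈ A, sg f = -1 ∧ Cr s t (K i) f ∧
        ∀ e ∈ A, sg e = -1 → Cr s t (K i) e → e = f) ∧
      (∀ e ∈ A, sg e = -1 → (univ.filter fun i => Cr s t (K i) e).card = len e) ∧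
      (∀ e ∈ A, (univ.filter fun i => Cr s t (K i) e).card ≤ len e) := by
  classical
  have hS := sys_sub hlen heven hsg hcons
  have hrU : (Sum.inl r : V ⊕ (E × ℕ)) ∈ UU len A := inl_mem_UU r
  obtain ⟨lam, hd⟩ := exists_dist (w := fun p : E × ℕ => sg p.1) (conn_sub hlen hconn)
  have hC := sebo hS hrU hd
  obtain ⟨mn, mx, -, -, hmM⟩ := exists_bounds (UU len A) lam 0
  set s' := ss s t len with hs'
  set t' := tt s t len with ht'
  set A' := AA len A with hA'
  set U' : Finset (V ⊕ (E × ℕ)) := UU len A with hU'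
  set I0 : Finset (Σ _ : ℤ, Finset (V ⊕ (E × ℕ))) :=
    (Icc mn mx).sigma (fun i => comps s' t' A' U' lam i) with hI0
  set I := I0.filter (fun p => Sum.inl r ∉ p.2) with hI
  have hIc : ∀ p ∈ I, p.2 ∈ comps s' t' A' U' lam p.1 := fun p hp =>
    (mem_sigma.1 (mem_filter.1 hp).1).2
  have hIr : ∀ p ∈ I, Sum.inl r ∉ p.2 := fun p hp => (mem_filter.1 hp).2
  -- crossings of a piece
  have hsum0 : ∀ q ∈ A', ∑ p ∈ I0, (if Cr s' t' p.2 q then (1 : ℤ) else 0) = 1 := by
    intro q hq
    rw [hI0, sum_sigma]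
    exact level_sum hS.ends hC.1 hmM hq
  have hsum1 : ∀ q ∈ A', ∑ p ∈ I, (if Cr s' t' p.2 q then (1 : ℤ) else 0) ≤ 1 := by
    intro q hq
    refine le_of_le_of_eq ?_ (hsum0 q hq)
    exact sum_le_sum_of_subset_of_nonneg (filter_subset _ _) fun _ _ _ => by
      split_ifs <;> norm_num
  have hsum2 : ∀ q ∈ A', sg q.1 = -1 →
      ∑ p ∈ I, (if Cr s' t' p.2 q then (1 : ℤ) else 0) = 1 := by
    intro q hq hneg
    refine Eq.trans ?_ (hsum0 q hq)
    refine sum_subset (filter_subset _ _) fun p hp hpI => ?_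
    have hr : Sum.inl r ∈ p.2 := by
      by_contra h
      exact hpI (mem_filter.2 ⟨hp, h⟩)
    rw [if_neg]
    intro hcr
    have hpc := (mem_sigma.1 hp).2
    obtain ⟨u, hu, hui, he⟩ := mem_comps.1 hpc
    have h1 := (hC.2 p.1 u hu hui).1
    rw [he] at h1
    have h2 := h1 hr q hq hcr
    simp only at h2
    rw [hneg] at h2
    norm_num at h2
  -- the unique negative piece
  have hbase : ∀ p ∈ I, ∃ f ∈ A', Cr s' t' p.2 f ∧ sg f.1 = -1 ∧
      ∀ q ∈ A', Cr s' t' p.2 q → sg q.1 = -1 → q = f := by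
    intro p hp
    obtain ⟨u, hu, hui, he⟩ := mem_comps.1 (hIc p hp)
    have h1 := (hC.2 p.1 u hu hui).2
    rw [he] at h1
    exact h1 (hIr p hp)
  have hcrs1 : ∀ p ∈ I, ∀ e ∈ A, sg e = -1 → crs s t len p.2 e (len e) ≤ 1 := by
    intro p hp e he hneg
    obtain ⟨f, hf, hf1, hf2, hf3⟩ := hbase p hp
    unfold crs
    rw [sum_boole]
    have h1 : ((range (len e)).filter fun j => Cr s' t' p.2 (e, j)).card ≤ 1 := by
      rw [card_le_one]
      intro a ha b hb
      rw [mem_filter, mem_range] at ha hb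
      have h2 := hf3 (e, a) (mem_AA.2 ⟨he, ha.1⟩) ha.2 hneg
      have h3 := hf3 (e, b) (mem_AA.2 ⟨he, hb.1⟩) hb.2 hneg
      exact (Prod.mk.inj (h2.trans h3.symm)).2
    exact_mod_cast h1
  -- the trace
  have htr0 : ∀ p ∈ I, ∀ e ∈ A, (if Cr s t (tr p.2) e then (1 : ℤ) else 0) ≤
      crs s t len p.2 e (len e) := by
    intro p _ e he
    have h0 := crs_nonneg (s := s) (t := t) (len := len) p.2 e (len e)
    split_ifs with h
    · rw [cr_tr (hlen e he)] at h
      by_contra h1
      exact h (crs_zero p.2 e (len e) (by omega) (len e) le_rfl)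
    · exact h0
  have htr1 : ∀ p ∈ I, ∀ e ∈ A, sg e = -1 → (if Cr s t (tr p.2) e then (1 : ℤ) else 0) =
      crs s t len p.2 e (len e) := by
    intro p hp e he hneg
    have h0 := crs_nonneg (s := s) (t := t) (len := len) p.2 e (len e)
    have h1 := hcrs1 p hp e he hneg
    have h2 := htr0 p hp e he
    by_cases h : Cr s t (tr p.2) e
    · rw [if_pos h] at h2 ⊢
      omega
    · rw [if_neg h]
      rw [cr_tr (hlen e he)] at h
      by_contra h3
      exact h (crs_one p.2 e (len e) (by omega))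
  have hcount : ∀ e ∈ A, ∑ p ∈ I, crs s t len p.2 e (len e) =
      ∑ j ∈ range (len e), ∑ p ∈ I, (if Cr s' t' p.2 (e, j) then (1 : ℤ) else 0) := by
    intro e _
    unfold crs
    rw [sum_comm]
  have hle : ∀ e ∈ A, ∑ p ∈ I, (if Cr s t (tr p.2) e then (1 : ℤ) else 0) ≤ len e := by
    intro e he
    refine (sum_le_sum fun p hp => htr0 p hp e he).trans ?_
    rw [hcount e he]
    refine (sum_le_sum fun j hj => hsum1 (e, j) (mem_AA.2 ⟨he, mem_range.1 hj⟩)).trans ?_
    rw [sum_const, card_range, nsmul_eq_mul, mul_one]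
  have heq : ∀ e ∈ A, sg e = -1 →
      ∑ p ∈ I, (if Cr s t (tr p.2) e then (1 : ℤ) else 0) = len e := by
    intro e he hneg
    rw [sum_congr rfl fun p hp => htr1 p hp e he hneg, hcount e he,
      sum_congr rfl fun j hj => hsum2 (e, j) (mem_AA.2 ⟨he, mem_range.1 hj⟩) hneg]
    rw [sum_const, card_range, nsmul_eq_mul, mul_one]
  -- laminarity
  have hlam : ∀ p ∈ I, ∀ q ∈ I, p.1 ≤ q.1 → tr p.2 ⊆ tr q.2 ∨ Disjoint (tr p.2) (tr q.2) := by
    intro p hp q hq hpq
    by_cases h : ∃ x, x ∈ p.2 ∧ x ∈ q.2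
    · left
      obtain ⟨x, hx1, hx2⟩ := h
      intro v hv
      rw [mem_tr] at hv ⊢
      rw [eq_cmp_of_mem (hIc p hp) hx1, mem_cmp] at hv
      rw [eq_cmp_of_mem (hIc q hq) hx2, mem_cmp]
      refine ⟨hv.1, ?_⟩
      have hcn := hv.2
      unfold Conn at hcn ⊢
      generalize (Sum.inl v : V ⊕ (E × ℕ)) = y at hcn ⊢
      induction hcn with
      | refl => exact Relation.ReflTransGen.refl
      | tail _ hab ih =>
        exact ih.tail ⟨hab.1.trans hpq, hab.2.1.trans hpq, hab.2.2⟩
    · right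
      rw [disjoint_left]
      intro v hv1 hv2
      exact h ⟨_, mem_tr.1 hv1, mem_tr.1 hv2⟩
  have hcardI : ∀ e, ((univ.filter fun i : Fin I.card =>
      Cr s t (tr ((I.equivFin.symm i : Σ _ : ℤ, Finset (V ⊕ (E × ℕ))).2)) e).card : ℤ) =
      ∑ p ∈ I, (if Cr s t (tr p.2) e then (1 : ℤ) else 0) := by
    intro e
    rw [← sum_boole, ← sum_coe_sort I fun p => (if Cr s t (tr p.2) e then (1 : ℤ) else 0)]
    exact Equiv.sum_comp I.equivFin.symm fun p => (if Cr s t (tr p.1.2) e then (1 : ℤ) else 0)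
  refine ⟨I.card, fun i => tr (I.equivFin.symm i : Σ _ : ℤ, Finset (V ⊕ (E × ℕ))).2, ?_, ?_, ?_,
    ?_, ?_⟩
  · intro i hr
    exact hIr _ (I.equivFin.symm i).2 (mem_tr.1 hr)
  · intro i j
    rcases le_total (I.equivFin.symm i).1.1 (I.equivFin.symm j).1.1 with h | h
    · rcases hlam _ (I.equivFin.symm i).2 _ (I.equivFin.symm j).2 h with h1 | h1
      · exact Or.inl h1
      · exact Or.inr (Or.inr h1)
    · rcases hlam _ (I.equivFin.symm j).2 _ (I.equivFin.symm i).2 h with h1 | h1
      · exact Or.inr (Or.inl h1)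
      · exact Or.inr (Or.inr h1.symm)
  · intro i
    have hp := (I.equivFin.symm i).2
    set p : Σ _ : ℤ, Finset (V ⊕ (E × ℕ)) := (I.equivFin.symm i).1 with hpdef
    obtain ⟨f, hf, hf1, hf2, hf3⟩ := hbase p hp
    have hfA := mem_AA.1 hf
    refine ⟨f.1, hfA.1, hf2, ?_, fun e he hneg hcr => ?_⟩
    · have h1 := htr1 p hp f.1 hfA.1 hf2
      by_contra h2
      rw [if_neg h2] at h1
      have h3 : 0 < crs s t len p.2 f.1 (len f.1) := by
        unfold crs
        refine sum_pos' (fun _ _ => by split_ifs <;> norm_num) ⟨f.2, mem_range.2 hfA.2, ?_⟩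
        have h4 : Cr (ss s t len) (tt s t len) p.2 (f.1, f.2) := hf1
        rw [if_pos h4]
        norm_num
      omega
    · have h1 := htr1 p hp e he hneg
      change Cr s t (tr p.2) e at hcr
      rw [if_pos hcr] at h1
      have h2 : ∃ j ∈ range (len e), Cr (ss s t len) (tt s t len) p.2 (e, j) := by
        by_contra h3
        push Not at h3
        have h4 : crs s t len p.2 e (len e) = 0 := by
          unfold crs
          exact sum_eq_zero fun j hj => if_neg (h3 j hj)
        omega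
      obtain ⟨j, hj, hcj⟩ := h2
      have h3 := hf3 (e, j) (mem_AA.2 ⟨he, mem_range.1 hj⟩) hcj hneg
      rw [← h3]
  · intro e he hneg
    have h1 := hcardI e
    rw [heq e he hneg] at h1
    exact_mod_cast h1
  · intro e he
    have h1 := hcardI e
    have h2 := hle e he
    rw [← h1] at h2
    exact_mod_cast h2

end Cert

end Pool.Agent.WUPM.CC
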