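import Mathlib
import Pool.Agent.WUPM.Subdiv
import Pool.Agent.WUPM.Cyc

/-!
# The laminar certificate of a perfect matching of minimum weight
-/

set_option autoImplicit false
set_option linter.unusedSectionVars false

namespace Pool.Agent.WUPM.CC

open Finset Pool.Agent.Sebo Pool.Agent.UPM

section Setup

variable {V : Type*} [Fintype V] [DecidableEq V]

/-- All pairs of vertices, oriented by a numbering. -/
def prs (rk : V → ℕ) : Finset (V × V) := univ.filter fun e => rk e.1 < rk e.2

theorem mem_prs {rk : V → ℕ} {e : V × V} : e ∈ prs rk ↔ rk e.1 < rk e.2 := by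
  unfold prs
  rw [mem_filter]
  simp

/-- The edges at a vertex. -/
def star (J : Finset (V × V)) (v : V) : Finset (V × V) := J.filter fun e => e.1 = v ∨ e.2 = v

theorem cr_single {v : V} {e : V × V} (he : e.1 ≠ e.2) :
    Cr Prod.fst Prod.snd {v} e ↔ (e.1 = v ∨ e.2 = v) := by
  unfold Cr
  rw [mem_singleton, mem_singleton]
  constructor
  · rintro (⟨h, _⟩ | ⟨_, h⟩)
    · exact Or.inl h
    · exact Or.inr h
  · rintro (h | h)
    · left
      exact ⟨h, fun h2 => he (h.trans h2.symm)⟩
    · right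
      exact ⟨fun h2 => he (h2.trans h.symm), h⟩

theorem star_parity {rk : V → ℕ} {J : Finset (V × V)} (hJ : J ⊆ prs rk)
    (hb : bd Prod.fst Prod.snd J = 0) (v : V) : ((star J v).card : ZMod 2) = 0 := by
  have h1 := handshake Prod.fst Prod.snd J {v}
  rw [hb] at h1
  simp only [Pi.zero_apply, sum_const_zero] at h1
  have h2 : cut Prod.fst Prod.snd {v} J = star J v := by
    unfold cut star
    refine filter_congr fun e he => ?_
    refine cr_single fun h => ?_
    have := mem_prs.1 (hJ he)
    rw [h] at this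
    exact lt_irrefl _ this
  rw [h2] at h1
  exact h1.symm

theorem sum_star {rk : V → ℕ} {J : Finset (V × V)} (hJ : J ⊆ prs rk) (f : V × V → ℤ) :
    ∑ v, ∑ e ∈ star J v, f e = 2 * ∑ e ∈ J, f e := by
  unfold star
  simp only [sum_filter]
  rw [sum_comm, mul_sum]
  refine sum_congr rfl fun e he => ?_
  have hne : e.1 ≠ e.2 := fun h => by
    have := mem_prs.1 (hJ he)
    rw [h] at this
    exact lt_irrefl _ this
  rw [← sum_filter]
  have h1 : (univ.filter fun v : V => e.1 = v ∨ e.2 = v) = {e.1, e.2} := by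
    ext v
    simp only [mem_filter, mem_univ, true_and, mem_insert, mem_singleton, eq_comm]
  rw [h1, sum_pair hne]
  ring

theorem card_star {rk : V → ℕ} {J : Finset (V × V)} (hJ : J ⊆ prs rk) :
    ∑ v, ((star J v).card : ℤ) = 2 * J.card := by
  have h := sum_star hJ fun _ => 1
  simp only [sum_const, nsmul_eq_mul, mul_one] at h
  exact h

end Setup

section Main

variable {V : Type*} [Fintype V] [DecidableEq V] (S : Skew V) (wt : V → V → ℤ)

/-- A bound for the weights. -/
def bnd : ℕ := ∑ u, ∑ v, (wt u v).natAbs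

open Classical in
/-- The weight of a pair of vertices which is not an edge of the matching. -/
noncomputable def ew (e : V × V) : ℤ :=
  if S.arc e.1 (S.m e.2) then wt e.1 (S.m e.2) else bnd wt

/-- The sign of a pair. -/
def sgn (e : V × V) : ℤ := if e.2 = S.m e.1 then -1 else 1

/-- The length of a pair. -/
noncomputable def eln (e : V × V) : ℕ :=
  if e.2 = S.m e.1 then 2 * (bnd wt + 1) else 2 * ((bnd wt + 1 : ℤ) + ew S wt e).toNat

theorem abs_ew_le (J : Finset (V × V)) :
    ∑ e ∈ J, (wt e.1 (S.m e.2)).natAbs ≤ bnd wt := by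
  have h1 : ∑ e : V × V, (wt e.1 (S.m e.2)).natAbs = bnd wt := by
    rw [Fintype.sum_prod_type]
    unfold bnd
    refine sum_congr rfl fun u _ => ?_
    exact Equiv.sum_comp (⟨S.m, S.m, S.mm, S.mm⟩ : V ≃ V) fun v => (wt u v).natAbs
  rw [← h1]
  exact sum_le_sum_of_subset (subset_univ J)

theorem neg_le_ew (e : V × V) : -((wt e.1 (S.m e.2)).natAbs : ℤ) ≤ ew S wt e := by
  unfold ew
  split_ifs
  · have := abs_nonneg (wt e.1 (S.m e.2))
    have h2 := neg_abs_le (wt e.1 (S.m e.2))
    rw [Int.natCast_natAbs]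
    exact h2
  · have h1 : (0 : ℤ) ≤ bnd wt := Int.natCast_nonneg _
    have h2 : (0 : ℤ) ≤ (wt e.1 (S.m e.2)).natAbs := Int.natCast_nonneg _
    omega

theorem sum_ew_ge (J : Finset (V × V)) : -(bnd wt : ℤ) ≤ ∑ e ∈ J, ew S wt e := by
  have h1 := abs_ew_le S wt J
  have h2 : ∑ e ∈ J, -((wt e.1 (S.m e.2)).natAbs : ℤ) ≤ ∑ e ∈ J, ew S wt e :=
    sum_le_sum fun e _ => neg_le_ew S wt e
  rw [sum_neg_distrib] at h2
  have h3 : ∑ e ∈ J, ((wt e.1 (S.m e.2)).natAbs : ℤ) ≤ bnd wt := by exact_mod_cast h1
  linarith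

theorem sum_ew_ge' {J : Finset (V × V)} {e : V × V} (he : e ∈ J) (hn : ¬ S.arc e.1 (S.m e.2)) :
    0 ≤ ∑ e ∈ J, ew S wt e := by
  rw [← add_sum_erase _ _ he]
  have h1 := sum_ew_ge S wt (J.erase e)
  have h2 : ew S wt e = bnd wt := if_neg hn
  rw [h2]
  linarith

theorem eln_nonM {e : V × V} (h : e.2 ≠ S.m e.1) :
    (eln S wt e : ℤ) = 2 * ((bnd wt + 1 : ℤ) + ew S wt e) ∧ 0 < eln S wt e := by
  have h1 := sum_ew_ge S wt {e}
  rw [sum_singleton] at h1
  have h2 : eln S wt e = 2 * ((bnd wt + 1 : ℤ) + ew S wt e).toNat := if_neg h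
  constructor
  · rw [h2]
    push_cast
    omega
  · rw [h2]
    omega

theorem eln_M {e : V × V} (h : e.2 = S.m e.1) : eln S wt e = 2 * (bnd wt + 1) := if_pos h

theorem eln_pos (e : V × V) : 0 < eln S wt e := by
  by_cases h : e.2 = S.m e.1
  · rw [eln_M S wt h]
    omega
  · exact (eln_nonM S wt h).2

theorem eln_even (e : V × V) : Even (eln S wt e) := by
  unfold eln
  split_ifs
  · exact ⟨bnd wt + 1, by ring⟩
  · exact ⟨_, by ring⟩

theorem sgn_cases (e : V × V) : sgn S e = 1 ∨ sgn S e = -1 := by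
  unfold sgn
  split_ifs
  · exact Or.inr rfl
  · exact Or.inl rfl

theorem sgn_neg {e : V × V} : sgn S e = -1 ↔ e.2 = S.m e.1 := by
  unfold sgn
  split_ifs with h
  · exact ⟨fun _ => h, fun _ => rfl⟩
  · constructor
    · intro h1
      norm_num at h1
    · intro h1
      exact absurd h1 h

variable {S wt}

/-- The edges of the matching at a vertex. -/
theorem star_M_le {rk : V → ℕ} {J : Finset (V × V)} (hJ : J ⊆ prs rk) (v : V) :
    (star (J.filter fun e => e.2 = S.m e.1) v).card ≤ 1 := by
  rw [card_le_one]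
  intro a ha b hb
  unfold star at ha hb
  rw [mem_filter, mem_filter] at ha hb
  obtain ⟨⟨ha1, ha2⟩, ha3⟩ := ha
  obtain ⟨⟨hb1, hb2⟩, hb3⟩ := hb
  have ha4 := mem_prs.1 (hJ ha1)
  have hb4 := mem_prs.1 (hJ hb1)
  obtain ⟨a1, a2⟩ := a
  obtain ⟨b1, b2⟩ := b
  simp only at *
  subst ha2
  subst hb2
  rcases ha3 with rfl | rfl <;> rcases hb3 with rfl | h
  · rfl
  · subst h
    rw [S.mm] at ha4
    omega
  · rw [S.mm] at hb4
    omega
  · rw [S.m_inj h]

/-- `m` is a matching of minimum weight. -/
theorem cons_skew (hS : NonNeg S wt) (hwt : ∀ a b, S.arc a b → wt (S.m b) (S.m a) = wt a b)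
    {rk : V → ℕ} {J : Finset (V × V)} (hJ : J ⊆ prs rk) (hb : bd Prod.fst Prod.snd J = 0) :
    0 ≤ ∑ e ∈ J, (eln S wt e : ℤ) * sgn S e := by
  classical
  set JM := J.filter fun e => e.2 = S.m e.1 with hJM
  set JN := J.filter fun e => ¬ e.2 = S.m e.1 with hJN
  have hJMs : JM ⊆ prs rk := (filter_subset _ _).trans hJ
  have hJNs : JN ⊆ prs rk := (filter_subset _ _).trans hJ
  have hsplit : ∑ e ∈ J, (eln S wt e : ℤ) * sgn S e =
      2 * ((bnd wt + 1 : ℤ) * ((JN.card : ℤ) - JM.card) + ∑ e ∈ JN, ew S wt e) := by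
    rw [← sum_filter_add_sum_filter_not J (fun e => e.2 = S.m e.1)]
    have h1 : ∑ e ∈ JM, (eln S wt e : ℤ) * sgn S e = -(2 * ((bnd wt + 1 : ℤ) * JM.card)) := by
      rw [sum_congr rfl (g := fun _ => -(2 * (bnd wt + 1 : ℤ)))]
      · rw [sum_const, nsmul_eq_mul]
        ring
      · intro e he
        have he2 := (mem_filter.1 he).2
        rw [eln_M S wt he2, (sgn_neg S).2 he2]
        push_cast
        ring
    have h2 : ∑ e ∈ JN, (eln S wt e : ℤ) * sgn S e =
        2 * ((bnd wt + 1 : ℤ) * JN.card + ∑ e ∈ JN, ew S wt e) := by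
      rw [sum_congr rfl (g := fun e => 2 * (bnd wt + 1 : ℤ) + 2 * ew S wt e)]
      · rw [sum_add_distrib, sum_const, nsmul_eq_mul, ← mul_sum]
        ring
      · intro e he
        have he2 := (mem_filter.1 he).2
        have hs : sgn S e = 1 := if_neg he2
        rw [(eln_nonM S wt he2).1, hs]
        ring
    rw [h1, h2]
    ring
  -- degrees
  have hpar : ∀ v, (star JM v).card ≤ (star JN v).card ∧
      ((star JN v).card = (star JM v).card ∨ (star JM v).card + 1 ≤ (star JN v).card) := by
    intro v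
    have h1 := star_parity hJ hb v
    have h2 : (star J v).card = (star JM v).card + (star JN v).card := by
      have h3 : star JM v = (star J v).filter fun e => e.2 = S.m e.1 := by
        unfold star
        rw [hJM, filter_filter, filter_filter]
        exact filter_congr fun _ _ => and_comm
      have h4 : star JN v = (star J v).filter fun e => ¬ e.2 = S.m e.1 := by
        unfold star
        rw [hJN, filter_filter, filter_filter]
        exact filter_congr fun _ _ => and_comm
      rw [h3, h4, card_filter_add_card_filter_not]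
    have h3 := star_M_le (S := S) hJ v
    rw [← hJM] at h3
    have h4 : Even (star J v).card := by
      rw [← ZMod.natCast_eq_zero_iff_even]
      exact h1
    rw [h2, Nat.even_iff] at h4
    omega
  have hsumM := card_star hJMs
  have hsumN := card_star hJNs
  have hdeg : ∑ v, ((star JM v).card : ℤ) ≤ ∑ v, ((star JN v).card : ℤ) :=
    sum_le_sum fun v _ => by exact_mod_cast (hpar v).1
  have hle : (JM.card : ℤ) ≤ JN.card := by
    rw [hsumM, hsumN] at hdeg
    linarith
  rw [hsplit]
  refine mul_nonneg (by norm_num) ?_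
  have hB : (0 : ℤ) ≤ bnd wt := Int.natCast_nonneg _
  rcases lt_or_eq_of_le hle with hlt | heq
  · have h1 := sum_ew_ge S wt JN
    have h2 : (bnd wt + 1 : ℤ) * 1 ≤ (bnd wt + 1 : ℤ) * ((JN.card : ℤ) - JM.card) :=
      mul_le_mul_of_nonneg_left (by linarith) (by linarith)
    linarith
  · rw [heq, sub_self, mul_zero, zero_add]
    by_cases hn : ∃ e ∈ JN, ¬ S.arc e.1 (S.m e.2)
    · obtain ⟨e, he, hn⟩ := hn
      exact sum_ew_ge' S wt he hn
    · push Not at hn
      -- all degrees agree
      have hdeq : ∀ v, (star JN v).card = (star JM v).card := by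
        have h1 : ∑ v, (((star JN v).card : ℤ) - (star JM v).card) = 0 := by
          rw [sum_sub_distrib, hsumM, hsumN, heq, sub_self]
        have h2 := (sum_eq_zero_iff_of_nonneg fun v _ => by
          have := (hpar v).1
          have : ((star JM v).card : ℤ) ≤ (star JN v).card := by exact_mod_cast this
          linarith).1 h1
        intro v
        have h3 := h2 v (mem_univ v)
        have h4 : ((star JN v).card : ℤ) = (star JM v).card := by linarith
        exact_mod_cast h4
      have hd1 : ∀ v, (star JN v).card ≤ 1 := fun v => by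
        rw [hdeq]
        exact star_M_le hJ v
      -- the other perfect matching
      have hex : ∀ v, ∃ u, ((star JN v = ∅ ∧ u = S.m v) ∨
          (∃ e, star JN v = {e} ∧ ((e.1 = v ∧ e.2 = u) ∨ (e.1 = u ∧ e.2 = v)))) := by
        intro v
        rcases Nat.eq_zero_or_pos (star JN v).card with h | h
        · exact ⟨S.m v, Or.inl ⟨card_eq_zero.1 h, rfl⟩⟩
        · have h1 : (star JN v).card = 1 := le_antisymm (hd1 v) h
          obtain ⟨e, he⟩ := card_eq_one.1 h1
          have h2 : e ∈ star JN v := by rw [he]; exact mem_singleton_self e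
          rcases (mem_filter.1 h2).2 with h3 | h3
          · exact ⟨e.2, Or.inr ⟨e, he, Or.inl ⟨h3, rfl⟩⟩⟩
          · exact ⟨e.1, Or.inr ⟨e, he, Or.inr ⟨rfl, h3⟩⟩⟩
      choose g hg using hex
      have hstar_m : ∀ v, star JN v = ∅ → star JN (S.m v) = ∅ := by
        intro v hv
        have h1 := hdeq v
        rw [hv, card_empty] at h1
        have h2 := card_eq_zero.1 h1.symm
        rw [← card_eq_zero, hdeq, card_eq_zero]
        rw [eq_empty_iff_forall_notMem] at h2 ⊢
        intro e he
        obtain ⟨he1, he2⟩ := mem_filter.1 he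
        apply h2 e
        refine mem_filter.2 ⟨he1, ?_⟩
        have he3 := (mem_filter.1 he1).2
        rcases he2 with h | h
        · right
          rw [he3, h, S.mm]
        · left
          rw [h] at he3
          exact (S.m_inj he3).symm
      have hR : ∀ v u, (∃ e ∈ JN, (e.1 = v ∧ e.2 = u) ∨ (e.1 = u ∧ e.2 = v)) → g v = u := by
        rintro v u ⟨e, he, huv⟩
        have hev : e ∈ star JN v := mem_filter.2 ⟨he, by tauto⟩
        rcases hg v with ⟨h1, _⟩ | ⟨e', h1, h2⟩
        · rw [h1] at hev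
          exact absurd hev (notMem_empty e)
        · rw [h1, mem_singleton] at hev
          subst hev
          have hne : e.1 ≠ e.2 := fun h => by
            have := mem_prs.1 (hJNs he)
            rw [h] at this
            exact lt_irrefl _ this
          rcases huv with ⟨h3, h4⟩ | ⟨h3, h4⟩ <;> rcases h2 with ⟨h5, h6⟩ | ⟨h5, h6⟩
          · rw [← h6, h4]
          · exact absurd (h3.trans h6.symm) hne
          · exact absurd (h5.trans h4.symm) hne
          · rw [← h5, h3]
      have hRe : ∀ v, star JN v ≠ ∅ → ∃ e ∈ JN, star JN v = {e} ∧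
          ((e.1 = v ∧ e.2 = g v) ∨ (e.1 = g v ∧ e.2 = v)) := by
        intro v hv
        rcases hg v with ⟨h1, _⟩ | ⟨e, h1, h2⟩
        · exact absurd h1 hv
        · have h3 : e ∈ star JN v := by rw [h1]; exact mem_singleton_self e
          exact ⟨e, (mem_filter.1 h3).1, h1, h2⟩
      have hgm : ∀ v, star JN v = ∅ → g v = S.m v := by
        intro v hv
        rcases hg v with ⟨_, h1⟩ | ⟨e, h1, _⟩
        · exact h1
        · rw [hv] at h1
          exact absurd h1.symm (singleton_ne_empty e)
      have hgg : ∀ v, g (g v) = v := by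
        intro v
        by_cases hv : star JN v = ∅
        · rw [hgm v hv, hgm _ (hstar_m v hv), S.mm]
        · obtain ⟨e, he, _, h2⟩ := hRe v hv
          exact hR _ _ ⟨e, he, h2.symm⟩
      have hgne : ∀ v, g v ≠ v := by
        intro v h
        by_cases hv : star JN v = ∅
        · rw [hgm v hv] at h
          exact S.mne v h
        · obtain ⟨e, he, _, h2⟩ := hRe v hv
          have h3 := mem_prs.1 (hJNs he)
          rw [h] at h2
          rcases h2 with ⟨h4, h5⟩ | ⟨h4, h5⟩ <;> rw [h4, h5] at h3 <;> exact lt_irrefl _ h3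
      have hgm' : ∀ v, star JN v ≠ ∅ → g v ≠ S.m v := by
        intro v hv h
        obtain ⟨e, he, _, h2⟩ := hRe v hv
        have h3 := (mem_filter.1 he).2
        apply h3
        rcases h2 with ⟨h4, h5⟩ | ⟨h4, h5⟩
        · rw [h5, h, h4]
        · rw [h5, h4, h, S.mm]
      have harce : ∀ v, star JN v ≠ ∅ → S.arc v (S.m (g v)) := by
        intro v hv
        obtain ⟨e, he, _, h2⟩ := hRe v hv
        have h3 := hn e he
        rcases h2 with ⟨h4, h5⟩ | ⟨h4, h5⟩
        · rw [h4, h5] at h3
          exact h3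
        · rw [h4, h5] at h3
          have := S.skew _ _ h3
          rw [S.mm] at this
          exact this
      have harc : ∀ v, g v ≠ S.m v → S.arc v (S.m (g v)) := by
        intro v hv
        exact harce v fun h => hv (hgm v h)
      have hpm := pm_nonneg hS g hgg hgne harc
      have hval : ∀ v, gw S wt g v = ∑ e ∈ star JN v, ew S wt e := by
        intro v
        by_cases hv : star JN v = ∅
        · rw [hv, sum_empty]
          exact if_pos (hgm v hv)
        · obtain ⟨e, he, h1, h2⟩ := hRe v hv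
          rw [h1, sum_singleton]
          have h3 := hn e he
          have h4 : ew S wt e = wt e.1 (S.m e.2) := if_pos h3
          have h5 : gw S wt g v = wt v (S.m (g v)) := if_neg (hgm' v hv)
          rw [h4, h5]
          rcases h2 with ⟨h6, h7⟩ | ⟨h6, h7⟩
          · rw [h6, h7]
          · have h8 := hwt _ _ (harce v hv)
            rw [S.mm] at h8
            rw [h6, h7, h8]
      rw [sum_congr rfl fun v _ => hval v, sum_star hJNs] at hpm
      linarith

/-- `K` separates `a` and `b`. -/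
def Cuts (K : Finset V) (a b : V) : Prop := ¬ (a ∈ K ↔ b ∈ K)

instance (K : Finset V) (a b : V) : Decidable (Cuts K a b) := by
  unfold Cuts
  infer_instance

/-- **The certificate.** -/
theorem cert (hS : NonNeg S wt) (hwt : ∀ a b, S.arc a b → wt (S.m b) (S.m a) = wt a b) (r : V) :
    ∃ (n : ℕ) (K : Fin n → Finset V) (N : ℕ), (∀ i, r ∉ K i) ∧
      (∀ i j, K i ⊆ K j ∨ K j ⊆ K i ∨ Disjoint (K i) (K j)) ∧
      (∀ i, ∃ v ∈ K i, S.m v ∉ K i ∧ ∀ u ∈ K i, S.m u ∉ K i → u = v) ∧
      (∀ v, (univ.filter fun i => Cuts (K i) v (S.m v)).card = N) ∧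
      (∀ a b, S.arc a b →
        ((univ.filter fun i => Cuts (K i) a (S.m b)).card : ℤ) ≤ N + 2 * wt a b) := by
  classical
  set rk : V → ℕ := fun v => (Fintype.equivFin V v : ℕ) with hrk
  have hrki : ∀ a b, rk a = rk b → a = b := by
    intro a b h
    exact (Fintype.equivFin V).injective (Fin.ext h)
  have hconn : ∀ v, ∃ J ⊆ prs rk, bd Prod.fst Prod.snd J = pt r + pt v := by
    intro v
    rcases lt_trichotomy (rk r) (rk v) with h | h | h
    · exact ⟨{(r, v)}, singleton_subset_iff.2 (mem_prs.2 h), bd_singleton _ _ _⟩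
    · rw [← hrki _ _ h]
      exact ⟨∅, empty_subset _, by rw [bd_empty, fun_two]⟩
    · refine ⟨{(v, r)}, singleton_subset_iff.2 (mem_prs.2 h), ?_⟩
      rw [bd_singleton, add_comm]
  obtain ⟨n, K, h1, h2, h3, h4, h5⟩ := cert_sub (s := (Prod.fst : V × V → V)) (t := Prod.snd)
    (len := eln S wt) (A := prs rk) (sg := sgn S) (r := r) (fun e _ => eln_pos S wt e)
    (eln_even S wt) (sgn_cases S) (fun J hJ hb => cons_skew hS hwt hJ hb) hconn
  -- pairs in both orders
  have hor : ∀ a b, a ≠ b → ∃ e ∈ prs rk, ((e.1 = a ∧ e.2 = b) ∨ (e.1 = b ∧ e.2 = a)) := by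
    intro a b hab
    rcases lt_trichotomy (rk a) (rk b) with h | h | h
    · exact ⟨(a, b), mem_prs.2 h, Or.inl ⟨rfl, rfl⟩⟩
    · exact absurd (hrki _ _ h) hab
    · exact ⟨(b, a), mem_prs.2 h, Or.inr ⟨rfl, rfl⟩⟩
  have hcuts : ∀ (D : Finset V) (e : V × V) (a b : V),
      ((e.1 = a ∧ e.2 = b) ∨ (e.1 = b ∧ e.2 = a)) → (Cr Prod.fst Prod.snd D e ↔ Cuts D a b) := by
    intro D e a b h
    rw [cr_iff]
    unfold Cuts
    rcases h with ⟨h, h'⟩ | ⟨h, h'⟩
    · rw [h, h']
    · rw [h, h']
      tauto
  have hMe : ∀ (e : V × V) (v : V), ((e.1 = v ∧ e.2 = S.m v) ∨ (e.1 = S.m v ∧ e.2 = v)) →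
      e.2 = S.m e.1 := by
    rintro e v (⟨h, h'⟩ | ⟨h, h'⟩)
    · rw [h, h']
    · rw [h, h', S.mm]
  refine ⟨n, K, 2 * (bnd wt + 1), h1, h2, ?_, ?_, ?_⟩
  · intro i
    obtain ⟨f, hf, hf1, hf2, hf3⟩ := h3 i
    have hfm := (sgn_neg S).1 hf1
    have key : ∀ v, v ∈ K i → S.m v ∉ K i → f.1 = v ∨ f.2 = v := by
      intro v hv hmv
      obtain ⟨e, he, hev⟩ := hor v (S.m v) (S.mne v).symm
      have h6 := hf3 e he ((sgn_neg S).2 (hMe e v hev)) ((hcuts _ e _ _ hev).2 (by
        unfold Cuts; tauto))
      subst h6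
      tauto
    rw [cr_iff] at hf2
    by_cases hv : f.1 ∈ K i
    · have hv2 : f.2 ∉ K i := by tauto
      refine ⟨f.1, hv, by rw [← hfm]; exact hv2, fun u hu hmu => ?_⟩
      rcases key u hu hmu with h | h
      · exact h.symm
      · exact absurd (h ▸ hu) hv2
    · have hv2 : f.2 ∈ K i := by tauto
      refine ⟨f.2, hv2, by rw [hfm, S.mm]; exact hv, fun u hu hmu => ?_⟩
      rcases key u hu hmu with h | h
      · exact absurd (h ▸ hu) hv
      · exact h.symm
  · intro v
    obtain ⟨e, he, hev⟩ := hor v (S.m v) (S.mne v).symm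
    have h6 := h4 e he ((sgn_neg S).2 (hMe e v hev))
    rw [eln_M S wt (hMe e v hev)] at h6
    rw [← h6]
    congr 1
    exact filter_congr fun i _ => (hcuts _ e _ _ hev).symm
  · intro a b hab
    have hne : a ≠ S.m b := fun h => by
      apply S.ne' a b hab
      rw [h, S.mm]
    obtain ⟨e, he, hev⟩ := hor a (S.m b) hne
    have hnM : e.2 ≠ S.m e.1 := by
      intro h
      apply S.ne a b hab
      rcases hev with ⟨h6, h7⟩ | ⟨h6, h7⟩
      · rw [h6, h7] at h
        exact S.m_inj h
      · rw [h6, h7, S.mm] at h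
        exact h.symm
    have hew : ew S wt e = wt a b := by
      unfold ew
      rcases hev with ⟨h6, h7⟩ | ⟨h6, h7⟩
      · rw [h6, h7, S.mm, if_pos hab]
      · rw [h6, h7, if_pos (S.skew a b hab)]
        exact hwt a b hab
    have h6 := h5 e he
    have h7 := (eln_nonM S wt hnM).1
    have h8 : (univ.filter fun i => Cuts (K i) a (S.m b)).card =
        (univ.filter fun i => Cr Prod.fst Prod.snd (K i) e).card := by
      congr 1
      exact filter_congr fun i _ => (hcuts _ e _ _ hev).symm
    rw [h8]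
    have h9 : ((univ.filter fun i => Cr Prod.fst Prod.snd (K i) e).card : ℤ) ≤ eln S wt e := by
      exact_mod_cast h6
    rw [h7, hew] at h9
    push_cast
    linarith

end Main

end Pool.Agent.WUPM.CC
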