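import Mathlib
import Pool.Agent.WUPM.Stmts
import Pool.Agent.WUPM.Cert

/-!
# The certificate of an optimal path
-/

set_option autoImplicit false

namespace Pool.Agent.WUPM.Dual

open Finset Pool.Agent.UPM Pool.Agent.WUPM.CC

/-! ### Closed walks -/

/-- Rotation of a closed walk. -/
def rot {V : Type} (q : ℕ → V) (k j : ℕ) : ℕ → V := fun i => q ((j + i) % (k + 1))

theorem sum_rot (f : ℕ → ℤ) (k j : ℕ) :
    ∑ i ∈ range (k + 1), f ((j + i) % (k + 1)) = ∑ i ∈ range (k + 1), f (i % (k + 1)) := by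
  induction j with
  | zero => simp
  | succ j ih =>
    rw [← ih]
    have h1 := sum_range_succ (fun i => f ((j + i) % (k + 1))) (k + 1)
    have h2 := sum_range_succ' (fun i => f ((j + i) % (k + 1))) (k + 1)
    rw [h1] at h2
    have e : f ((j + (k + 1)) % (k + 1)) = f ((j + 0) % (k + 1)) := by
      congr 1
      exact Nat.add_mod_right j (k + 1)
    rw [e] at h2
    have h3 := add_right_cancel h2
    rw [h3]
    refine sum_congr rfl fun i _ => ?_
    congr 2
    omega

theorem mod_cases (k n : ℕ) : (n % (k + 1) < k ∧ (n + 1) % (k + 1) = n % (k + 1) + 1) ∨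
    (n % (k + 1) = k ∧ (n + 1) % (k + 1) = 0) := by
  have h1 : n % (k + 1) < k + 1 := Nat.mod_lt _ (Nat.succ_pos k)
  rcases Nat.lt_or_ge (n % (k + 1)) k with h | h
  · left
    refine ⟨h, ?_⟩
    rw [Nat.add_mod]
    rcases Nat.eq_zero_or_pos k with h0 | h0
    · omega
    · have h2 : 1 % (k + 1) = 1 := Nat.mod_eq_of_lt (by omega)
      rw [h2]
      exact Nat.mod_eq_of_lt (by omega)
  · right
    have h2 : n % (k + 1) = k := by omega
    refine ⟨h2, ?_⟩
    rw [← Nat.mod_add_mod, h2]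
    exact Nat.mod_self _

theorem cyc_sum {V : Type} (w : V → V → ℤ) (q : ℕ → V) (k : ℕ) :
    ∑ i ∈ range (k + 1), w (q (i % (k + 1))) (q ((i + 1) % (k + 1))) =
      wp w q k + w (q k) (q 0) := by
  rw [sum_range_succ]
  unfold wp
  congr 1
  · refine sum_congr rfl fun i hi => ?_
    have hi' := mem_range.1 hi
    rw [Nat.mod_eq_of_lt (by omega : i < k + 1), Nat.mod_eq_of_lt (by omega : i + 1 < k + 1)]
  · rw [Nat.mod_eq_of_lt (by omega : k < k + 1), Nat.mod_self]

theorem rot_last {V : Type} (q : ℕ → V) {k j : ℕ} (hj : j ≤ k) : rot q k (j + 1) k = q j := by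
  unfold rot
  have e : j + 1 + k = j + (k + 1) := by omega
  rw [e, Nat.add_mod_right, Nat.mod_eq_of_lt (by omega)]

theorem rot_zero {V : Type} (q : ℕ → V) {k j : ℕ} :
    rot q k (j + 1) 0 = q ((j + 1) % (k + 1)) := rfl

theorem rot_weight {V : Type} (w : V → V → ℤ) (q : ℕ → V) (k j : ℕ) :
    wp w (rot q k j) k + w (rot q k j k) (rot q k j 0) = wp w q k + w (q k) (q 0) := by
  rw [← cyc_sum w q k, ← cyc_sum w (rot q k j) k]
  have h := sum_rot (fun n => w (q (n % (k + 1))) (q ((n + 1) % (k + 1)))) k j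
  simp only [Nat.mod_mod, Nat.mod_add_mod] at h
  rw [← h]
  refine sum_congr rfl fun i _ => ?_
  unfold rot
  simp only [Nat.add_mod_mod]
  rfl

theorem rot_path {V : Type} {S : Skew V} {q : ℕ → V} {k : ℕ} (hq : S.Path q k)
    (ha : S.arc (q k) (q 0)) (j : ℕ) :
    S.Path (rot q k j) k ∧ S.arc (rot q k j k) (rot q k j 0) := by
  have harc : ∀ n, S.arc (q (n % (k + 1))) (q ((n + 1) % (k + 1))) := by
    intro n
    rcases mod_cases k n with ⟨h1, h2⟩ | ⟨h1, h2⟩
    · rw [h2]; exact hq.1 _ h1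
    · rw [h2, h1]; exact ha
  refine ⟨⟨fun i _ => harc (j + i), fun a b hab hb => ?_⟩, ?_⟩
  · have h1 : (j + a) % (k + 1) ≠ (j + b) % (k + 1) := by
      intro h
      have h2 : (j + a) ≡ (j + b) [MOD (k + 1)] := h
      have h3 := Nat.ModEq.add_left_cancel' j h2
      have h4 : a % (k + 1) = b % (k + 1) := h3
      rw [Nat.mod_eq_of_lt (by omega), Nat.mod_eq_of_lt (by omega)] at h4
      omega
    have h5 : (j + a) % (k + 1) < k + 1 := Nat.mod_lt _ (Nat.succ_pos k)
    have h6 : (j + b) % (k + 1) < k + 1 := Nat.mod_lt _ (Nat.succ_pos k)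
    exact hq.ne_of h1 (by omega) (by omega)
  · have h := harc (j + k)
    unfold rot
    have e : (j + k + 1) % (k + 1) = (j + 0) % (k + 1) := by
      rw [Nat.add_assoc, ← Nat.add_assoc, Nat.add_zero]
      exact Nat.add_mod_right j (k + 1)
    rw [e] at h
    exact h

theorem wp_rev {V : Type} {S : Skew V} {w : V → V → ℤ} (hw : WSkew S w) (q : ℕ → V) (k : ℕ) :
    wp w (fun i => S.m (q (k - i))) k = wp w q k := by
  unfold wp
  rw [← sum_range_reflect (fun i => w (q i) (q (i + 1))) k]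
  refine sum_congr rfl fun i hi => ?_
  have hi' := mem_range.1 hi
  rw [hw]
  have e1 : k - 1 - i = k - (i + 1) := by omega
  have e2 : k - (i + 1) + 1 = k - i := by omega
  rw [e1, e2]

/-! ### The virtual arcs -/

/-- The arcs `z → x` and `m x → m z`. -/
def Vt {V : Type} (S : Skew V) (x z : V) (a b : V) : Prop :=
  (a = z ∧ b = x) ∨ (a = S.m x ∧ b = S.m z)

theorem Vt.skew {V : Type} {S : Skew V} {x z a b : V} (h : Vt S x z a b) :
    Vt S x z (S.m b) (S.m a) := by
  rcases h with ⟨h1, h2⟩ | ⟨h1, h2⟩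
  · right; rw [h1, h2]; exact ⟨rfl, rfl⟩
  · left; rw [h1, h2, S.mm, S.mm]; exact ⟨rfl, rfl⟩

/-- The digraph with the virtual arcs. -/
def ext {V : Type} (S : Skew V) (x z : V) (h1 : z ≠ x) (h2 : z ≠ S.m x) : Skew V where
  m := S.m
  mm := S.mm
  mne := S.mne
  arc := fun a b => S.arc a b ∨ Vt S x z a b
  skew := fun a b h => by
    rcases h with h | h
    · exact Or.inl (S.skew a b h)
    · exact Or.inr h.skew
  ne := fun a b h => by
    rcases h with h | ⟨h3, h4⟩ | ⟨h3, h4⟩
    · exact S.ne a b h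
    · rw [h3, h4]; exact h1.symm
    · rw [h3, h4]
      exact fun e => h1 (S.m_inj e)
  ne' := fun a b h => by
    rcases h with h | ⟨h3, h4⟩ | ⟨h3, h4⟩
    · exact S.ne' a b h
    · rw [h3, h4]
      exact fun e => h2 (by rw [e, S.mm])
    · rw [h3, h4]
      exact fun e => h2 (S.m_inj e)

open Classical in
/-- The weights with the virtual arcs. -/
noncomputable def wv {V : Type} (S : Skew V) (x z : V) (w : V → V → ℤ) (W : ℤ) (a b : V) : ℤ :=
  if Vt S x z a b then -W else w a b

theorem wv_skew {V : Type} {S : Skew V} {w : V → V → ℤ} (hw : WSkew S w) (x z : V) (W : ℤ)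
    (a b : V) : wv S x z w W (S.m b) (S.m a) = wv S x z w W a b := by
  unfold wv
  by_cases h : Vt S x z a b
  · rw [if_pos h, if_pos h.skew]
  · have h2 : ¬ Vt S x z (S.m b) (S.m a) := by
      intro h3
      apply h
      have := h3.skew
      rwa [S.mm, S.mm] at this
    rw [if_neg h, if_neg h2, hw]

theorem wp_wv {V : Type} {S : Skew V} {w : V → V → ℤ} {x z : V} {W : ℤ} {q : ℕ → V} {k : ℕ}
    (h : ∀ i, i < k → ¬ Vt S x z (q i) (q (i + 1))) : wp (wv S x z w W) q k = wp w q k := by
  unfold wp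
  refine sum_congr rfl fun i hi => ?_
  exact if_neg (h i (mem_range.1 hi))

theorem nonNeg_ext {V : Type} {S : Skew V} {w : V → V → ℤ} (hw : WSkew S w) (hG : Good S w)
    {x z : V} (h1 : z ≠ x) (h2 : z ≠ S.m x) {W : ℤ}
    (hopt : ∀ (q : ℕ → V) (l : ℕ), S.Path q l → q 0 = x → q l = z → W ≤ wp w q l) :
    NonNeg (ext S x z h1 h2) (wv S x z w W) := by
  classical
  intro q k hk hq ha
  change 0 ≤ wp (wv S x z w W) q k + wv S x z w W (q k) (q 0)
  by_cases hv : ∃ i, i ≤ k ∧ Vt S x z (q i) (q ((i + 1) % (k + 1)))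
  · obtain ⟨j, hj, hvj⟩ := hv
    obtain ⟨hr, hra⟩ := rot_path hq ha (j + 1)
    rw [← rot_weight _ q k (j + 1)]
    set r := rot q k (j + 1) with hrdef
    have hvr : Vt S x z (r k) (r 0) := by
      rw [hrdef, rot_last q hj]
      exact hvj
    have hother : ∀ i, i < k → ¬ Vt S x z (r i) (r (i + 1)) := by
      intro i hi hvi
      have h3 := hr.2 i k hi le_rfl
      have h4 : 0 < i → r i ≠ r 0 ∧ r i ≠ S.m (r 0) := fun h0 => hr.2 0 i h0 hi.le
      change r k ≠ r i ∧ r k ≠ S.m (r i) at h3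
      rcases hvr with ⟨ha1, ha2⟩ | ⟨ha1, ha2⟩
      · rcases hvi with ⟨hb1, -⟩ | ⟨hb1, -⟩
        · exact h3.1 (by rw [ha1, hb1])
        · rcases Nat.eq_zero_or_pos i with h0 | h0
          · subst h0
            rw [ha2] at hb1
            exact S.mne x hb1.symm
          · exact (h4 h0).2 (by rw [ha2, hb1])
      · rcases hvi with ⟨hb1, -⟩ | ⟨hb1, -⟩
        · rcases Nat.eq_zero_or_pos i with h0 | h0
          · subst h0
            rw [ha2] at hb1
            exact S.mne z hb1
          · exact (h4 h0).2 (by rw [ha2, hb1, S.mm])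
        · exact h3.1 (by rw [ha1, hb1])
    have hrS : S.Path r k :=
      ⟨fun i hi => (hr.1 i hi).resolve_right (hother i hi), fun i j hij hj => hr.2 i j hij hj⟩
    rw [wp_wv hother]
    have hlast : wv S x z w W (r k) (r 0) = -W := if_pos hvr
    rw [hlast]
    rcases hvr with ⟨ha1, ha2⟩ | ⟨ha1, ha2⟩
    · have := hopt r k hrS ha2 ha1
      linarith
    · have h5 := hopt _ k hrS.rev (by simp only [Nat.sub_zero]; rw [ha1, S.mm])
        (by simp only [Nat.sub_self]; rw [ha2, S.mm])
      rw [wp_rev hw] at h5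
      linarith
  · push Not at hv
    have hother : ∀ i, i < k → ¬ Vt S x z (q i) (q (i + 1)) := by
      intro i hi
      have := hv i hi.le
      rwa [Nat.mod_eq_of_lt (by omega)] at this
    have hlast : ¬ Vt S x z (q k) (q 0) := by
      have := hv k le_rfl
      rwa [Nat.mod_self] at this
    have hqS : S.Path q k :=
      ⟨fun i hi => (hq.1 i hi).resolve_right (hother i hi), fun i j hij hj => hq.2 i j hij hj⟩
    have haS : S.arc (q k) (q 0) := ha.resolve_right hlast
    rw [wp_wv hother]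
    have h5 : wv S x z w W (q k) (q 0) = w (q k) (q 0) := if_neg hlast
    rw [h5]
    exact (hG q k hk hqS haS).le

theorem sum_ite {n : ℕ} (P : Fin n → Prop) [DecidablePred P] :
    ∑ i, (if P i then (0 : ℤ) else 1) = ((univ.filter fun i => ¬ P i).card : ℤ) := by
  rw [card_filter]
  push_cast
  refine sum_congr rfl fun i _ => ?_
  by_cases h : P i
  · rw [if_pos h, if_neg (not_not.2 h)]
  · rw [if_neg h, if_pos h]

theorem sum_cK {V : Type} [DecidableEq V] (S : Skew V) {n : ℕ} (K : Fin n → Finset V) (a b : V) :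
    ∑ i, cK S (K i) a b = ((univ.filter fun i => Cuts (K i) a (S.m b)).card : ℤ) -
      (univ.filter fun i => Cuts (K i) b (S.m b)).card := by
  unfold cK
  rw [sum_sub_distrib, sum_ite, sum_ite]
  congr 2
  refine congrArg card (filter_congr fun i _ => ?_)
  unfold Cuts
  exact not_congr iff_comm

/-- **P2** (duality, from Sebő's theorem). -/
theorem dual : DualStmt := by
  intro V _ _ S w hw hG p h hh hp hopt
  have hne := hp.2 0 h hh le_rfl
  obtain ⟨n, K, N, h1, h2, h3, h4, h5⟩ := cert (S := ext S (p 0) (p h) hne.1 hne.2)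
    (wt := wv S (p 0) (p h) w (wp w p h)) (nonNeg_ext hw hG hne.1 hne.2 hopt)
    (fun a b _ => wv_skew hw _ _ _ a b) (S.m (p 0))
  have hsum : ∀ a b, (ext S (p 0) (p h) hne.1 hne.2).arc a b →
      ∑ i, cK S (K i) a b ≤ 2 * wv S (p 0) (p h) w (wp w p h) a b := by
    intro a b hab
    rw [sum_cK]
    have h6 := h5 a b hab
    have h7 := h4 b
    change ((univ.filter fun i => Cuts (K i) a (S.m b)).card : ℤ) ≤ _ at h6
    change (univ.filter fun i => Cuts (K i) b (S.m b)).card = _ at h7
    rw [h7]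
    linarith
  refine ⟨n, K, ⟨h1, h2, h3, ?_, ?_⟩⟩
  · intro a b hab
    have h6 := hsum a b (Or.inl hab)
    by_cases hv : Vt S (p 0) (p h) a b
    · have h7 : wv S (p 0) (p h) w (wp w p h) a b = -wp w p h := if_pos hv
      rw [h7] at h6
      have h8 : 0 < wp w p h + w a b := by
        rcases hv with ⟨ha, hb⟩ | ⟨ha, hb⟩
        · rw [ha, hb] at hab ⊢
          exact hG p h hh hp hab
        · rw [ha, hb] at hab ⊢
          rw [hw]
          have := S.skew _ _ hab
          rw [S.mm, S.mm] at this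
          exact hG p h hh hp this
      linarith
    · have h7 : wv S (p 0) (p h) w (wp w p h) a b = w a b := if_neg hv
      rw [h7] at h6
      exact h6
  · have hv : Vt S (p 0) (p h) (p h) (p 0) := Or.inl ⟨rfl, rfl⟩
    have h6 := hsum (p h) (p 0) (Or.inr hv)
    have h7 : wv S (p 0) (p h) w (wp w p h) (p h) (p 0) = -wp w p h := if_pos hv
    rw [h7] at h6
    linarith

end Pool.Agent.WUPM.Dual
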