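import Mathlib
import Pool.Agent.WUPM.Defs
import Pool.Agent.WUPM.Stmts

/-!
# P9: the perturbed weight

`gw S W c L a b = 2 ^ L * W a b + 2 ^ c (a, b) + 2 ^ c (m b, m a)`.  On regular objects the second part is the binary number whose
digits are the arcs of the object and their mirror images.
-/

set_option autoImplicit false
set_option linter.unusedSectionVars false

namespace Pool.Agent.WUPM

namespace Gen

open Finset Pool.Agent.UPM

section

variable {V : Type} [DecidableEq V] (S : Skew V)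

/-- The mirror image of an arc. -/
def mir (e : V × V) : V × V := (S.m e.2, S.m e.1)

theorem mir_mir (e : V × V) : mir S (mir S e) = e := by
  simp [mir, S.mm]

theorem mir_inj : Function.Injective (mir S) := fun a b h => by
  rw [← mir_mir S a, h, mir_mir]

/-- The symmetrised object. -/
def sy (o : Finset (V × V)) : Finset (V × V) := o ∪ o.image (mir S)

theorem mem_sy {o : Finset (V × V)} {e : V × V} : e ∈ sy S o ↔ Msk S o e := by
  unfold sy Msk
  rw [mem_union, mem_image]
  constructor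
  · rintro (h | ⟨f, hf, rfl⟩)
    · exact Or.inl h
    · right
      change mir S (mir S f) ∈ o
      rwa [mir_mir]
  · rintro (h | h)
    · exact Or.inl h
    · exact Or.inr ⟨mir S e, h, mir_mir S e⟩

theorem sy_disj {o : Finset (V × V)} (h : Reg S o) : Disjoint o (o.image (mir S)) := by
  rw [Finset.disjoint_left]
  intro e he hm
  obtain ⟨f, hf, rfl⟩ := mem_image.1 hm
  exact h f.1 f.2 hf he

/-- The number with the digits in `A`. -/
def num (c : V × V → ℕ) (A : Finset (V × V)) : ℕ := ∑ i ∈ A.image c, 2 ^ i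

theorem wt_gw (W : V → V → ℤ) (c : V × V → ℕ) (L : ℕ) (hc : Function.Injective c)
    (o : Finset (V × V)) (h : Reg S o) :
    wt (gw S W c L) o = 2 ^ L * wt W o + (num c (sy S o) : ℤ) := by
  have h1 : num c (sy S o) = ∑ e ∈ o, (2 ^ c e + 2 ^ c (mir S e)) := by
    unfold num
    rw [Finset.sum_image (fun a _ b _ hab => hc hab)]
    unfold sy
    rw [Finset.sum_union (sy_disj S h), Finset.sum_image (fun a _ b _ hab => mir_inj S hab),
      Finset.sum_add_distrib]
  rw [h1]
  unfold wt gw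
  push_cast
  rw [Finset.mul_sum, ← Finset.sum_add_distrib]
  refine Finset.sum_congr rfl fun e _ => ?_
  unfold mir
  ring

theorem num_lt (c : V × V → ℕ) (L : ℕ) (hL : ∀ e, c e < L) (A : Finset (V × V)) :
    num c A < 2 ^ L := by
  refine Nat.geomSum_lt le_rfl fun i hi => ?_
  obtain ⟨e, _, rfl⟩ := mem_image.1 hi
  exact hL e

theorem num_inj (c : V × V → ℕ) (hc : Function.Injective c) {A B : Finset (V × V)}
    (h : num c A = num c B) : A = B := by
  have h1 : A.image c = B.image c := Finset.geomSum_injective (n := 2) le_rfl h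
  exact Finset.image_injective hc h1

theorem num_lt_iff (c : V × V → ℕ) (hc : Function.Injective c) (A B : Finset (V × V)) :
    num c A < num c B ↔ Cx c (fun e => e ∈ A) (fun e => e ∈ B) := by
  unfold num
  rw [Finset.geomSum_lt_geomSum_iff_toColex_lt_toColex (n := 2) le_rfl,
    Finset.Colex.toColex_lt_toColex_iff_exists_forall_lt]
  constructor
  · rintro ⟨a, ha, ha', h⟩
    obtain ⟨e, he, rfl⟩ := mem_image.1 ha
    refine ⟨e, he, fun h' => ha' (mem_image_of_mem c h'), fun f hf hfA => ?_⟩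
    by_contra hfB
    have := h (c f) (mem_image_of_mem c hfA) (fun h' => by
      obtain ⟨g, hg, hgf⟩ := mem_image.1 h'
      rw [hc hgf] at hg
      exact hfB hg)
    omega
  · rintro ⟨e, he, he', h⟩
    refine ⟨c e, mem_image_of_mem c he, fun h' => ?_, fun b hb hb' => ?_⟩
    · obtain ⟨g, hg, hgf⟩ := mem_image.1 h'
      rw [hc hgf] at hg
      exact he' hg
    · obtain ⟨f, hf, rfl⟩ := mem_image.1 hb
      by_contra hcon
      have hne : c f ≠ c e := fun h' => by
        rw [hc h'] at hf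
        exact he' hf
      exact hb' (mem_image_of_mem c (h f (by omega) hf))

theorem Cx_congr {c : V × V → ℕ} {M1 M2 N1 N2 : V × V → Prop} (h1 : ∀ e, M1 e ↔ N1 e)
    (h2 : ∀ e, M2 e ↔ N2 e) : Cx c M1 M2 ↔ Cx c N1 N2 := by
  have e1 : M1 = N1 := funext fun e => propext (h1 e)
  have e2 : M2 = N2 := funext fun e => propext (h2 e)
  rw [e1, e2]

/-! ### Regularity -/

theorem mem_arcs {p : ℕ → V} {k : ℕ} {e : V × V} :
    e ∈ arcs p k ↔ ∃ i, i < k ∧ (p i, p (i + 1)) = e := by
  unfold arcs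
  simp [mem_image, mem_range]

theorem reg_arcs {p : ℕ → V} {k : ℕ} (hp : S.Path p k) : Reg S (arcs p k) := by
  intro a b h1 h2
  obtain ⟨i, hi, ei⟩ := mem_arcs.1 h1
  obtain ⟨j, hj, ej⟩ := mem_arcs.1 h2
  simp only [Prod.mk.injEq] at ei ej
  have e : p j = S.m (p (i + 1)) := by rw [ej.1, ei.2]
  by_cases hij : i + 1 = j
  · subst hij
    exact S.mne _ e.symm
  · exact (hp.ne_of (i := i + 1) (j := j) hij (by omega) (by omega)).2 e

theorem reg_IsQ {x z : V} {o : Finset (V × V)} (h : IsQ S x z o) : Reg S o := by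
  obtain ⟨p, k, hp, -, -, rfl⟩ := h
  exact reg_arcs S hp

theorem reg_IsT {A B C E : V} {o : Finset (V × V)} (h : IsT S A B C E o) : Reg S o := by
  obtain ⟨p, k, q, l, hp, hq, hd, -, -, -, -, rfl⟩ := h
  intro a b h1 h2
  rcases mem_union.1 h1 with h1 | h1 <;> rcases mem_union.1 h2 with h2 | h2
  · exact reg_arcs S hp a b h1 h2
  · obtain ⟨i, hi, ei⟩ := mem_arcs.1 h1
    obtain ⟨j, hj, ej⟩ := mem_arcs.1 h2
    simp only [Prod.mk.injEq] at ei ej
    have e : q j = S.m (p (i + 1)) := by rw [ej.1, ei.2]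
    exact (hd (i + 1) j (by omega) (by omega)).2 e
  · obtain ⟨i, hi, ei⟩ := mem_arcs.1 h1
    obtain ⟨j, hj, ej⟩ := mem_arcs.1 h2
    simp only [Prod.mk.injEq] at ei ej
    have e : q (i + 1) = S.m (p j) := by rw [ej.1, ei.2, S.mm]
    exact (hd j (i + 1) (by omega) (by omega)).2 e
  · exact reg_arcs S hq a b h1 h2

/-! ### Uniqueness -/

/-- A path which uses only arcs of another path with the same start (or of a disjoint object, or mirror images)
follows this path. -/
theorem follow {p q : ℕ → V} {k l : ℕ} {T : Finset (V × V)} (hq : S.Path q l)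
    (h0 : p 0 = q 0) (hs : ∀ i, i < k → Msk S (arcs q l ∪ T) (p i, p (i + 1)))
    (hT : ∀ i, i ≤ l → ∀ e ∈ T, e.1 ≠ q i ∧ e.2 ≠ S.m (q i)) :
    ∀ i, i ≤ k → i ≤ l ∧ p i = q i := by
  intro i
  induction i with
  | zero => exact fun _ => ⟨Nat.zero_le _, h0⟩
  | succ i ih =>
    intro hi
    obtain ⟨hil, he⟩ := ih (by omega)
    rcases hs i (by omega) with h | h
    · rcases mem_union.1 h with h | h
      · obtain ⟨j, hj, ej⟩ := mem_arcs.1 h
        simp only [Prod.mk.injEq] at ej
        have hji : j = i := by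
          by_contra hne
          exact (hq.ne_of (i := i) (j := j) (fun h => hne h.symm) (by omega) (by omega)).1
            (by rw [ej.1, he])
        subst hji
        exact ⟨hj, ej.2.symm⟩
      · exact absurd he (hT i hil _ h).1
    · rcases mem_union.1 h with h | h
      · exfalso
        obtain ⟨j, hj, ej⟩ := mem_arcs.1 h
        simp only [Prod.mk.injEq] at ej
        have e : q (j + 1) = S.m (q i) := by rw [ej.2, he]
        by_cases hji : i = j + 1
        · rw [← hji] at e
          exact S.mne _ e.symm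
        · exact (hq.ne_of (i := i) (j := j + 1) hji (by omega) (by omega)).2 e
      · exfalso
        refine (hT i hil _ h).2 ?_
        change S.m (p i) = S.m (q i)
        rw [he]

theorem arcs_congr {p q : ℕ → V} {k : ℕ} (h : ∀ i, i ≤ k → p i = q i) : arcs p k = arcs q k := by
  unfold arcs
  refine Finset.image_congr fun i hi => ?_
  rw [Finset.mem_coe, mem_range] at hi
  simp only [Prod.mk.injEq]
  exact ⟨h i (by omega), h (i + 1) (by omega)⟩

theorem Msk_self {o : Finset (V × V)} {e : V × V} (h : e ∈ o) : Msk S o e := Or.inl h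

theorem uniqQ {x z : V} {o o' : Finset (V × V)} (h : IsQ S x z o) (h' : IsQ S x z o')
    (hs : ∀ e, Msk S o e ↔ Msk S o' e) : o = o' := by
  obtain ⟨p, k, hp, hp0, hpk, rfl⟩ := h
  obtain ⟨q, l, hq, hq0, hql, rfl⟩ := h'
  have h1 := follow S (p := p) (q := q) (k := k) (l := l) (T := ∅) hq (by rw [hp0, hq0])
    (fun i hi => by
      rw [union_empty]
      exact (hs _).1 (Msk_self S (mem_arcs.2 ⟨i, hi, rfl⟩))) (by simp)
  have h2 := follow S (p := q) (q := p) (k := l) (l := k) (T := ∅) hp (by rw [hp0, hq0])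
    (fun i hi => by
      rw [union_empty]
      exact (hs _).2 (Msk_self S (mem_arcs.2 ⟨i, hi, rfl⟩))) (by simp)
  have hkl : k = l := le_antisymm (h1 k le_rfl).1 (h2 l le_rfl).1
  subst hkl
  exact arcs_congr fun i hi => (h1 i hi).2

theorem Dj_T1 {p q : ℕ → V} {k l : ℕ} (hd : Dj S p k q l) :
    ∀ i, i ≤ k → ∀ e ∈ arcs q l, e.1 ≠ p i ∧ e.2 ≠ S.m (p i) := by
  intro i hi e he
  obtain ⟨j, hj, rfl⟩ := mem_arcs.1 he
  exact ⟨(hd i j hi (by omega)).1, (hd i (j + 1) hi (by omega)).2⟩

theorem Dj_symm {p q : ℕ → V} {k l : ℕ} (hd : Dj S p k q l) : Dj S q l p k := by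
  intro i j hi hj
  refine ⟨fun e => (hd j i hj hi).1 e.symm, fun e => (hd j i hj hi).2 ?_⟩
  rw [e, S.mm]

theorem uniqT {A B C E : V} {o o' : Finset (V × V)} (h : IsT S A B C E o)
    (h' : IsT S A B C E o') (hs : ∀ e, Msk S o e ↔ Msk S o' e) : o = o' := by
  obtain ⟨p, k, q, l, hp, hq, hd, hp0, hpk, hq0, hql, rfl⟩ := h
  obtain ⟨p', k', q', l', hp', hq', hd', hp0', hpk', hq0', hql', rfl⟩ := h'
  have a1 := follow S (p := p) (q := p') (k := k) (l := k') (T := arcs q' l') hp'
    (by rw [hp0, hp0'])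
    (fun i hi => (hs _).1 (Msk_self S (mem_union_left _ (mem_arcs.2 ⟨i, hi, rfl⟩))))
    (Dj_T1 S hd')
  have a2 := follow S (p := p') (q := p) (k := k') (l := k) (T := arcs q l) hp
    (by rw [hp0, hp0'])
    (fun i hi => (hs _).2 (Msk_self S (mem_union_left _ (mem_arcs.2 ⟨i, hi, rfl⟩))))
    (Dj_T1 S hd)
  have b1 := follow S (p := q) (q := q') (k := l) (l := l') (T := arcs p' k') hq'
    (by rw [hq0, hq0'])
    (fun i hi => by
      rw [union_comm]
      exact (hs _).1 (Msk_self S (mem_union_right _ (mem_arcs.2 ⟨i, hi, rfl⟩))))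
    (Dj_T1 S (Dj_symm S hd'))
  have b2 := follow S (p := q') (q := q) (k := l') (l := l) (T := arcs p k) hq
    (by rw [hq0, hq0'])
    (fun i hi => by
      rw [union_comm]
      exact (hs _).2 (Msk_self S (mem_union_right _ (mem_arcs.2 ⟨i, hi, rfl⟩))))
    (Dj_T1 S (Dj_symm S hd))
  have hk : k = k' := le_antisymm (a1 k le_rfl).1 (a2 k' le_rfl).1
  have hl : l = l' := le_antisymm (b1 l le_rfl).1 (b2 l' le_rfl).1
  subst hk
  subst hl
  rw [arcs_congr fun i hi => (a1 i hi).2, arcs_congr fun i hi => (b1 i hi).2]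

/-! ### The main statement -/

theorem split_eq {L : ℕ} {x y : ℤ} {r s : ℕ} (hr : r < 2 ^ L) (hs : s < 2 ^ L)
    (h : (2 : ℤ) ^ L * x + r = 2 ^ L * y + s) : x = y ∧ r = s := by
  have hL : (0 : ℤ) < 2 ^ L := by positivity
  have hr' : (r : ℤ) < 2 ^ L := by exact_mod_cast hr
  have hs' : (s : ℤ) < 2 ^ L := by exact_mod_cast hs
  have hr0 : (0 : ℤ) ≤ r := by positivity
  have hs0 : (0 : ℤ) ≤ s := by positivity
  have hxy : x = y := by
    rcases lt_trichotomy x y with h1 | h1 | h1
    · nlinarith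
    · exact h1
    · nlinarith
  subst hxy
  exact ⟨rfl, by exact_mod_cast add_left_cancel h⟩

theorem split_lt {L : ℕ} {x y : ℤ} {r s : ℕ} (hr : r < 2 ^ L) (hs : s < 2 ^ L) :
    (2 : ℤ) ^ L * x + r < 2 ^ L * y + s ↔ x < y ∨ (x = y ∧ r < s) := by
  have hL : (0 : ℤ) < 2 ^ L := by positivity
  have hr' : (r : ℤ) < 2 ^ L := by exact_mod_cast hr
  have hs' : (s : ℤ) < 2 ^ L := by exact_mod_cast hs
  have hr0 : (0 : ℤ) ≤ r := by positivity
  have hs0 : (0 : ℤ) ≤ s := by positivity
  constructor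
  · intro h
    rcases lt_trichotomy x y with h1 | h1 | h1
    · exact Or.inl h1
    · subst h1
      exact Or.inr ⟨rfl, by exact_mod_cast lt_of_add_lt_add_left h⟩
    · exfalso
      nlinarith
  · rintro (h | ⟨rfl, h⟩)
    · nlinarith
    · have : (r : ℤ) < s := by exact_mod_cast h
      linarith

end

end Gen

open Finset Pool.Agent.UPM Gen

/-- **P9.** -/
theorem genericStmt : GenericStmt := by
  intro V _ _ S W c L hc hL
  refine ⟨?_, ?_, ?_, fun x z o h => reg_IsQ S h, fun A B C E o h => reg_IsT S h, ?_⟩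
  · intro h a b
    unfold gw
    rw [S.mm, S.mm, h a b]
    ring
  · intro h p k hk hp harc
    have h1 := h p k hk hp harc
    have h2 : wp (gw S W c L) p k + gw S W c L (p k) (p 0) =
        2 ^ L * (wp W p k + W (p k) (p 0)) +
          (∑ i ∈ range k, ((2 : ℤ) ^ c (p i, p (i + 1)) + 2 ^ c (S.m (p (i + 1)), S.m (p i))) +
            (2 ^ c (p k, p 0) + 2 ^ c (S.m (p 0), S.m (p k)))) := by
      unfold wp gw
      have : ∀ i ∈ range k, 2 ^ L * W (p i) (p (i + 1)) + 2 ^ c (p i, p (i + 1)) +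
          2 ^ c (S.m (p (i + 1)), S.m (p i)) = 2 ^ L * W (p i) (p (i + 1)) +
          ((2 : ℤ) ^ c (p i, p (i + 1)) + 2 ^ c (S.m (p (i + 1)), S.m (p i))) := by
        intro i _
        ring
      rw [Finset.sum_congr rfl this, Finset.sum_add_distrib, ← Finset.mul_sum]
      ring
    rw [h2]
    have h3 : (0 : ℤ) ≤ ∑ i ∈ range k,
        ((2 : ℤ) ^ c (p i, p (i + 1)) + 2 ^ c (S.m (p (i + 1)), S.m (p i))) :=
      Finset.sum_nonneg fun i _ => by positivity
    have h4 : (0 : ℤ) < 2 ^ L * (wp W p k + W (p k) (p 0)) := mul_pos (by positivity) h1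
    have h5 : (0 : ℤ) < 2 ^ c (p k, p 0) + 2 ^ c (S.m (p 0), S.m (p k)) := by positivity
    linarith
  · have key : ∀ o o', Reg S o → Reg S o' → wt (gw S W c L) o = wt (gw S W c L) o' →
        ∀ e, Msk S o e ↔ Msk S o' e := by
      intro o o' h h' he e
      rw [wt_gw S W c L hc o h, wt_gw S W c L hc o' h'] at he
      have h1 := (split_eq (num_lt c L hL _) (num_lt c L hL _) he).2
      have h2 := num_inj c hc h1
      rw [← mem_sy, ← mem_sy, h2]
    refine ⟨fun x z o o' h h' he => uniqQ S h h' (key o o' (reg_IsQ S h) (reg_IsQ S h') he),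
      fun A B C E o o' h h' he => uniqT S h h' (key o o' (reg_IsT S h) (reg_IsT S h') he)⟩
  · intro o o' h h'
    rw [wt_gw S W c L hc o h, wt_gw S W c L hc o' h',
      split_lt (num_lt c L hL _) (num_lt c L hL _), num_lt_iff c hc]
    rw [Cx_congr (fun e => mem_sy S) (fun e => mem_sy S)]

end Pool.Agent.WUPM
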