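import Mathlib
import Pool.Agent.WUPM.Stmts

/-!
# The pattern of the certificate along the optimal path
-/

set_option autoImplicit false

namespace Pool.Agent.WUPM

open Finset Pool.Agent.UPM

/-- Crossing indicator of a sequence of truth values. -/
def xr (Q : ℕ → Prop) [DecidablePred Q] (t : ℕ) : ℤ := if (Q t ↔ Q (t + 1)) then 0 else 1

theorem xr_nonneg (Q : ℕ → Prop) [DecidablePred Q] (t : ℕ) : 0 ≤ xr Q t := by
  unfold xr; split_ifs <;> norm_num

theorem xr_of (Q : ℕ → Prop) [DecidablePred Q] {t : ℕ} (h : Q t ↔ Q (t + 1)) : xr Q t = 0 := by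
  unfold xr; rw [if_pos h]

theorem xr_of_not (Q : ℕ → Prop) [DecidablePred Q] {t : ℕ} (h : ¬ (Q t ↔ Q (t + 1))) :
    xr Q t = 1 := by
  unfold xr; rw [if_neg h]

theorem const_of {Q : ℕ → Prop} {a b : ℕ} (hab : a ≤ b)
    (h : ∀ t, a ≤ t → t < b → (Q t ↔ Q (t + 1))) : Q a ↔ Q b := by
  induction b, hab using Nat.le_induction with
  | base => rfl
  | succ n hn ih =>
    rw [ih (fun t h1 h2 => h t h1 (by omega))]
    exact h n hn (by omega)

theorem seq_main (Q : ℕ → Prop) [DecidablePred Q] (h : ℕ) (h0 : ¬ Q 0) (he : ¬ Q (2 * h + 2))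
    (hu : ∀ a a', a ≤ h → a' ≤ h → ¬ (Q (2 * a) ↔ Q (2 * a + 1)) →
      ¬ (Q (2 * a') ↔ Q (2 * a' + 1)) → a = a') :
    0 ≤ ∑ i ∈ range (h + 1), (xr Q (2 * i + 1) - xr Q (2 * i)) ∧
    (∑ i ∈ range (h + 1), (xr Q (2 * i + 1) - xr Q (2 * i)) = 0 → (∀ t, t ≤ 2 * h + 1 → ¬ Q t) ∨
      ∃ s t, 1 ≤ s ∧ s ≤ t ∧ t ≤ 2 * h + 1 ∧ s % 2 = t % 2 ∧
        ∀ u, u ≤ 2 * h + 1 → (Q u ↔ s ≤ u ∧ u ≤ t)) := by
  rw [sum_sub_distrib]
  by_cases hc : ∃ a, a ≤ h ∧ ¬ (Q (2 * a) ↔ Q (2 * a + 1))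
  · obtain ⟨a, ha, hx⟩ := hc
    have hev : ∀ i, i ≤ h → i ≠ a → (Q (2 * i) ↔ Q (2 * i + 1)) := by
      intro i hi hia
      by_contra hn
      exact hia (hu i a hi ha hn hx)
    have hs : ∑ i ∈ range (h + 1), xr Q (2 * i) = 1 := by
      rw [sum_eq_single a]
      · exact xr_of_not Q hx
      · intro i hi hia
        exact xr_of Q (hev i (by have := mem_range.1 hi; omega) hia)
      · intro hn
        exact absurd (mem_range.2 (by omega)) hn
    have hex : ∃ c, c ≤ h ∧ ¬ (Q (2 * c + 1) ↔ Q (2 * c + 1 + 1)) := by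
      by_contra hno
      push Not at hno
      have h1 : Q 0 ↔ Q (2 * a) := by
        refine const_of (by omega) fun t _ ht => ?_
        rcases Nat.even_or_odd' t with ⟨i, hi | hi⟩
        · rw [hi]; exact hev i (by omega) (by omega)
        · rw [hi]; exact hno i (by omega)
      have h2 : Q (2 * a + 1) ↔ Q (2 * h + 2) := by
        refine const_of (by omega) fun t ht1 ht => ?_
        rcases Nat.even_or_odd' t with ⟨i, hi | hi⟩
        · rw [hi]; exact hev i (by omega) (by omega)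
        · rw [hi]; exact hno i (by omega)
      exact hx ⟨fun h3 => absurd (h1.2 h3) h0, fun h3 => absurd (h2.1 h3) he⟩
    obtain ⟨c, hc, hcx⟩ := hex
    have hc1 : xr Q (2 * c + 1) = 1 := xr_of_not Q hcx
    have hge : xr Q (2 * c + 1) ≤ ∑ i ∈ range (h + 1), xr Q (2 * i + 1) :=
      single_le_sum (f := fun i => xr Q (2 * i + 1)) (fun i _ => xr_nonneg Q _)
        (mem_range.2 (by omega))
    refine ⟨by rw [hs]; linarith, fun hz => Or.inr ?_⟩
    have hodd : ∀ i, i ≤ h → i ≠ c → (Q (2 * i + 1) ↔ Q (2 * i + 1 + 1)) := by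
      intro i hi hic
      by_contra hn
      have h1 : xr Q (2 * i + 1) = 1 := xr_of_not Q hn
      have h2 : ∑ j ∈ ({i, c} : Finset ℕ), xr Q (2 * j + 1) ≤
          ∑ j ∈ range (h + 1), xr Q (2 * j + 1) := by
        refine sum_le_sum_of_subset_of_nonneg ?_ fun _ _ _ => xr_nonneg Q _
        intro j hj
        rw [mem_insert, mem_singleton] at hj
        rw [mem_range]
        rcases hj with rfl | rfl <;> omega
      rw [sum_pair hic, h1, hc1] at h2
      rw [hs] at hz
      linarith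
    have hstep : ∀ t, t ≤ 2 * h + 1 → t ≠ 2 * a → t ≠ 2 * c + 1 → (Q t ↔ Q (t + 1)) := by
      intro t ht h1 h2
      rcases Nat.even_or_odd' t with ⟨i, hi | hi⟩
      · rw [hi]; exact hev i (by omega) (by omega)
      · rw [hi]; exact hodd i (by omega) (by omega)
    rcases Nat.lt_or_ge c a with hca | hac
    · -- entered through a non-matching edge
      refine ⟨2 * c + 2, 2 * a, by omega, by omega, by omega, by omega, fun u hu' => ?_⟩
      have hA : ∀ t, t ≤ 2 * c + 1 → ¬ Q t := by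
        intro t ht h1
        exact h0 ((const_of (Nat.zero_le t) fun s _ hs' => hstep s (by omega) (by omega)
          (by omega)).2 h1)
      have hC : ∀ t, 2 * a + 1 ≤ t → t ≤ 2 * h + 1 → ¬ Q t := by
        intro t ht1 ht h1
        exact he ((const_of (b := 2 * h + 2) (by omega) fun s hs1 hs' =>
          hstep s (by omega) (by omega) (by omega)).1 h1)
      have hBc : Q (2 * c + 1 + 1) := by
        by_contra hn
        exact hcx ⟨fun h1 => absurd h1 (hA _ le_rfl), fun h1 => absurd h1 hn⟩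
      by_cases h1 : u ≤ 2 * c + 1
      · exact ⟨fun h2 => absurd h2 (hA u h1), fun h2 => by omega⟩
      · by_cases h2 : 2 * a + 1 ≤ u
        · exact ⟨fun h3 => absurd h3 (hC u h2 hu'), fun h3 => by omega⟩
        · refine ⟨fun _ => by omega, fun _ => ?_⟩
          exact (const_of (a := 2 * c + 1 + 1) (by omega) fun s hs1 hs' =>
            hstep s (by omega) (by omega) (by omega)).1 hBc
    · refine ⟨2 * a + 1, 2 * c + 1, by omega, by omega, by omega, by omega, fun u hu' => ?_⟩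
      have hA : ∀ t, t ≤ 2 * a → ¬ Q t := by
        intro t ht h1
        exact h0 ((const_of (Nat.zero_le t) fun s _ hs' => hstep s (by omega) (by omega)
          (by omega)).2 h1)
      have hC : ∀ t, 2 * c + 2 ≤ t → t ≤ 2 * h + 1 → ¬ Q t := by
        intro t ht1 ht h1
        exact he ((const_of (b := 2 * h + 2) (by omega) fun s hs1 hs' =>
          hstep s (by omega) (by omega) (by omega)).1 h1)
      have hBc : Q (2 * a + 1) := by
        by_contra hn
        exact hx ⟨fun h1 => absurd h1 (hA _ le_rfl), fun h1 => absurd h1 hn⟩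
      by_cases h1 : u ≤ 2 * a
      · exact ⟨fun h2 => absurd h2 (hA u h1), fun h2 => by omega⟩
      · by_cases h2 : 2 * c + 2 ≤ u
        · exact ⟨fun h3 => absurd h3 (hC u h2 hu'), fun h3 => by omega⟩
        · refine ⟨fun _ => by omega, fun _ => ?_⟩
          exact (const_of (a := 2 * a + 1) (by omega) fun s hs1 hs' =>
            hstep s (by omega) (by omega) (by omega)).1 hBc
  · push Not at hc
    have hs : ∑ i ∈ range (h + 1), xr Q (2 * i) = 0 :=
      sum_eq_zero fun i hi => xr_of Q (hc i (by have := mem_range.1 hi; omega))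
    rw [hs, sub_zero]
    refine ⟨sum_nonneg fun i _ => xr_nonneg Q _, fun hz => Or.inl ?_⟩
    have hz' := (sum_eq_zero_iff_of_nonneg (fun i _ => xr_nonneg Q (2 * i + 1))).1 hz
    have hodd : ∀ i, i ≤ h → (Q (2 * i + 1) ↔ Q (2 * i + 1 + 1)) := by
      intro i hi
      by_contra hn
      have h1 := xr_of_not Q hn
      rw [hz' i (mem_range.2 (by omega))] at h1
      exact absurd h1 (by norm_num)
    intro t ht h1
    refine h0 ((const_of (Nat.zero_le t) fun s _ hs' => ?_).2 h1)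
    rcases Nat.even_or_odd' s with ⟨i, hi | hi⟩
    · rw [hi]; exact hc i (by omega)
    · rw [hi]; exact hodd i (by omega)

section

variable {V : Type} [DecidableEq V]

/-- The walk `m p_0, p_0, m p_1, p_1, …` and the set `K`. -/
def Qs (S : Skew V) (K : Finset V) (p : ℕ → V) (h t : ℕ) : Prop :=
  t ≤ 2 * h + 1 ∧ (if t % 2 = 0 then S.m (p (t / 2)) ∈ K else p (t / 2) ∈ K)

instance (S : Skew V) (K : Finset V) (p : ℕ → V) (h : ℕ) : DecidablePred (Qs S K p h) := by
  intro t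
  unfold Qs
  split_ifs <;> infer_instance

theorem Qs_even (S : Skew V) (K : Finset V) (p : ℕ → V) (h : ℕ) {i : ℕ} (hi : i ≤ h) :
    Qs S K p h (2 * i) ↔ S.m (p i) ∈ K := by
  unfold Qs
  rw [if_pos (by omega), show 2 * i / 2 = i by omega]
  exact ⟨fun h1 => h1.2, fun h1 => ⟨by omega, h1⟩⟩

theorem Qs_odd (S : Skew V) (K : Finset V) (p : ℕ → V) (h : ℕ) {i : ℕ} (hi : i ≤ h) :
    Qs S K p h (2 * i + 1) ↔ p i ∈ K := by
  unfold Qs
  rw [if_neg (by omega), show (2 * i + 1) / 2 = i by omega]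
  exact ⟨fun h1 => h1.2, fun h1 => ⟨by omega, h1⟩⟩

theorem Qs_end (S : Skew V) (K : Finset V) (p : ℕ → V) (h : ℕ) : ¬ Qs S K p h (2 * h + 2) := by
  unfold Qs
  exact fun h1 => by omega

theorem cl_eq (S : Skew V) (K : Finset V) (p : ℕ → V) (h : ℕ) (hr : S.m (p 0) ∉ K) :
    wp (cK S K) p h + cK S K (p h) (p 0) =
      ∑ i ∈ range (h + 1), (xr (Qs S K p h) (2 * i + 1) - xr (Qs S K p h) (2 * i)) := by
  rw [sum_sub_distrib, sum_range_succ, sum_range_succ' (fun i => xr (Qs S K p h) (2 * i))]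
  have e1 : wp (cK S K) p h = ∑ i ∈ range h, xr (Qs S K p h) (2 * i + 1) -
      ∑ i ∈ range h, xr (Qs S K p h) (2 * (i + 1)) := by
    unfold wp
    rw [← sum_sub_distrib]
    refine sum_congr rfl fun i hi => ?_
    have hi' := mem_range.1 hi
    unfold cK xr
    rw [show 2 * i + 1 + 1 = 2 * (i + 1) by ring]
    simp only [Qs_even S K p h (i := i + 1) (by omega), Qs_odd S K p h (i := i) (by omega),
      Qs_odd S K p h (i := i + 1) (by omega)]
  have e2 : cK S K (p h) (p 0) = xr (Qs S K p h) (2 * h + 1) - xr (Qs S K p h) (2 * 0) := by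
    unfold cK xr
    rw [show 2 * h + 1 + 1 = 2 * h + 2 by ring]
    simp only [Qs_even S K p h (i := 0) (by omega), Qs_odd S K p h (i := h) le_rfl,
      Qs_odd S K p h (i := 0) (by omega), Qs_end S K p h, hr]
  rw [e1, e2]
  ring

theorem cl_main (S : Skew V) (K : Finset V) (p : ℕ → V) (h : ℕ) (hp : S.Path p h)
    (hr : S.m (p 0) ∉ K) (hb : ∃ b ∈ K, S.m b ∉ K ∧ ∀ v ∈ K, S.m v ∉ K → v = b) :
    0 ≤ wp (cK S K) p h + cK S K (p h) (p 0) ∧
    (wp (cK S K) p h + cK S K (p h) (p 0) = 0 →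
      (∀ j, j ≤ h → p j ∉ K ∧ S.m (p j) ∉ K) ∨ ∃ s t, Iv S K p h s t) := by
  obtain ⟨b, hbK, hbm, hbu⟩ := hb
  have hcut : ∀ v, ¬ (S.m v ∈ K ↔ v ∈ K) → v = b ∨ v = S.m b := by
    intro v hv
    by_cases h1 : v ∈ K
    · by_cases h2 : S.m v ∈ K
      · exact absurd ⟨fun _ => h1, fun _ => h2⟩ hv
      · exact Or.inl (hbu v h1 h2)
    · by_cases h2 : S.m v ∈ K
      · have := hbu (S.m v) h2 (by rw [S.mm]; exact h1)
        right
        rw [← this, S.mm]
      · exact absurd ⟨fun h3 => absurd h3 h2, fun h3 => absurd h3 h1⟩ hv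
  have key := seq_main (Qs S K p h) h
    (by rw [show (0 : ℕ) = 2 * 0 by rfl, Qs_even S K p h (Nat.zero_le h)]; exact hr)
    (Qs_end S K p h) (by
      intro a a' ha ha' h1 h2
      rw [Qs_even S K p h ha, Qs_odd S K p h ha] at h1
      rw [Qs_even S K p h ha', Qs_odd S K p h ha'] at h2
      by_contra hne
      have h3 := hp.ne_of hne ha ha'
      rcases hcut _ h1 with e1 | e1 <;> rcases hcut _ h2 with e2 | e2
      · exact h3.1 (e2.trans e1.symm)
      · exact h3.2 (by rw [e2, e1])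
      · exact h3.2 (by rw [e2, e1, S.mm])
      · exact h3.1 (e2.trans e1.symm))
  rw [cl_eq S K p h hr]
  refine ⟨key.1, fun hz => ?_⟩
  rcases key.2 hz with h1 | ⟨s, t, h1, h2, h3, h4, h5⟩
  · left
    intro j hj
    refine ⟨fun h2 => h1 (2 * j + 1) (by omega) ((Qs_odd S K p h hj).2 h2), fun h2 =>
      h1 (2 * j) (by omega) ((Qs_even S K p h hj).2 h2)⟩
  · right
    refine ⟨s, t, h1, h2, h3, h4, fun i hi => ⟨?_, ?_⟩⟩
    · rw [← Qs_even S K p h hi]
      exact h5 (2 * i) (by omega)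
    · rw [← Qs_odd S K p h hi]
      exact h5 (2 * i + 1) (by omega)

end

/-- **P4**. -/
theorem pattern : PatternStmt := by
  intro V _ _ S w p h hh hp n K hF
  have hcl : ∀ i, _ := fun i => cl_main S (K i) p h hp (hF.root i) (hF.base i)
  have hwp : ∑ i, wp (cK S (K i)) p h =
      ∑ j ∈ range h, ∑ i, cK S (K i) (p j) (p (j + 1)) := by
    unfold wp
    rw [sum_comm]
  have hW : ∑ j ∈ range h, 2 * w (p j) (p (j + 1)) = 2 * wp w p h := by
    unfold wp
    rw [mul_sum]
  have hle : ∑ j ∈ range h, ∑ i, cK S (K i) (p j) (p (j + 1)) ≤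
      ∑ j ∈ range h, 2 * w (p j) (p (j + 1)) :=
    sum_le_sum fun j hj => hF.le _ _ (hp.1 j (mem_range.1 hj))
  have hv := hF.virt
  have hsum : ∑ i, (wp (cK S (K i)) p h + cK S (K i) (p h) (p 0)) ≤ 0 := by
    rw [sum_add_distrib, hwp]
    linarith
  have hz0 : ∑ i, (wp (cK S (K i)) p h + cK S (K i) (p h) (p 0)) = 0 :=
    le_antisymm hsum (sum_nonneg fun i _ => (hcl i).1)
  have hz := (sum_eq_zero_iff_of_nonneg (fun i _ => (hcl i).1)).1 hz0
  refine ⟨fun i => (hcl i).2 (hz i (mem_univ i)), ?_⟩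
  have hd : ∑ j ∈ range h,
      (2 * w (p j) (p (j + 1)) - ∑ i, cK S (K i) (p j) (p (j + 1))) = 0 := by
    refine le_antisymm ?_ (sum_nonneg fun j hj =>
      sub_nonneg.2 (hF.le _ _ (hp.1 j (mem_range.1 hj))))
    rw [sum_sub_distrib, ← hwp, hW]
    rw [sum_add_distrib] at hz0
    linarith
  have hd' := (sum_eq_zero_iff_of_nonneg (fun j hj =>
    sub_nonneg.2 (hF.le _ _ (hp.1 j (mem_range.1 hj))))).1 hd
  intro j hj
  have := hd' j (mem_range.2 hj)
  linarith

end Pool.Agent.WUPM
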