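import Pool.Agent.WUPM.Stmts

/-!
# The test for uniqueness of the minimum weight perfect matching
-/

set_option autoImplicit false

namespace Pool.Agent.WUPM

open Finset Pool.Agent.UPM

section

variable {V : Type} [DecidableEq V]

/-- The weight of the arcs of a regular path. -/
theorem wt_arcs_path {S : Skew V} (w : V → V → ℤ) {p : ℕ → V} {k : ℕ} (h : S.Path p k) :
    wt w (arcs p k) = wp w p k := by
  unfold wt arcs wp
  rw [sum_image]
  intro i hi j hj e
  simp only [coe_range, Set.mem_Iio] at hi hj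
  have e1 : p i = p j := congrArg Prod.fst e
  by_contra hne
  exact (h.ne_of (i := i) (j := j) hne (by omega) (by omega)).1 e1.symm

omit [DecidableEq V] in
theorem wp_cons (w : V → V → ℤ) (p : ℕ → V) (k : ℕ) :
    wp w p (k + 1) = w (p 0) (p 1) + wp w (fun j => p (j + 1)) k := by
  unfold wp
  rw [sum_range_succ']
  ring

omit [DecidableEq V] in
theorem cut_path {S : Skew V} {idx : V → ℕ} {h : ∀ v, idx (S.m v) = idx v} {κ : ℕ} {p : ℕ → V}
    {k : ℕ} (hp : (cutS S idx h κ).Path p k) : S.Path p k :=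
  ⟨fun i hi => (hp.1 i hi).1, hp.2⟩

omit [DecidableEq V] in
theorem path_cut {S : Skew V} {idx : V → ℕ} {h : ∀ v, idx (S.m v) = idx v} {κ : ℕ} {p : ℕ → V}
    {k : ℕ} (hp : S.Path p k) (hi : ∀ i, i ≤ k → κ ≤ idx (p i)) : (cutS S idx h κ).Path p k :=
  ⟨fun i hik => ⟨hp.1 i hik, hi i hik.le, hi (i + 1) hik⟩, hp.2⟩

/-- One step of rotation of a cycle. -/
theorem rot_step {S : Skew V} (w : V → V → ℤ) {p : ℕ → V} {k : ℕ} (hk : 1 ≤ k)
    (hp : S.Path p k) (ha : S.arc (p k) (p 0)) :
    ∃ q : ℕ → V, S.Path q k ∧ S.arc (q k) (q 0) ∧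
      wp w q k + w (q k) (q 0) = wp w p k + w (p k) (p 0) ∧ ∀ j, j < k → q j = p (j + 1) := by
  refine ⟨fun j => if j < k then p (j + 1) else p 0, ⟨?_, ?_⟩, ?_, ?_, ?_⟩
  · intro i hi
    simp only [hi, if_true]
    by_cases h1 : i + 1 < k
    · simp only [h1, if_true]
      exact hp.1 (i + 1) h1
    · have e : i + 1 = k := by omega
      rw [if_neg h1, e]
      exact ha
  · intro i j hij hj
    have hi : i < k := by omega
    simp only [hi, if_true]
    by_cases h1 : j < k
    · simp only [h1, if_true]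
      exact hp.2 (i + 1) (j + 1) (by omega) (by omega)
    · simp only [h1, if_false]
      exact hp.ne_of (i := i + 1) (j := 0) (by omega) (by omega) (by omega)
  · have h0 : 0 < k := by omega
    simp only [lt_irrefl, if_false, h0, if_true, zero_add]
    exact hp.1 0 h0
  · obtain ⟨n, rfl⟩ : ∃ n, k = n + 1 := ⟨k - 1, by omega⟩
    have hlt : ∀ j, j < n + 1 → (fun j => if j < n + 1 then p (j + 1) else p 0) j = p (j + 1) :=
      fun j hj => if_pos hj
    have hk' : (fun j => if j < n + 1 then p (j + 1) else p 0) (n + 1) = p 0 :=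
      if_neg (lt_irrefl _)
    generalize (fun j => if j < n + 1 then p (j + 1) else p 0) = q at hlt hk'
    rw [wp_cons w p n]
    unfold wp
    rw [sum_range_succ, hk', hlt n (by omega), hlt 0 (by omega)]
    have e1 : ∑ x ∈ range n, w (q x) (q (x + 1)) = ∑ x ∈ range n, w (p (x + 1)) (p (x + 1 + 1)) := by
      refine sum_congr rfl fun x hx => ?_
      rw [mem_range] at hx
      rw [hlt x (by omega), hlt (x + 1) (by omega)]
    rw [e1]
    ring
  · intro j hj
    simp only [hj, if_true]

/-- Rotation of a cycle. -/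
theorem rot {S : Skew V} (w : V → V → ℤ) {k : ℕ} (hk : 1 ≤ k) (i : ℕ) : ∀ (p : ℕ → V), i ≤ k →
    S.Path p k → S.arc (p k) (p 0) → ∃ q : ℕ → V, S.Path q k ∧ S.arc (q k) (q 0) ∧
      wp w q k + w (q k) (q 0) = wp w p k + w (p k) (p 0) ∧ q 0 = p i := by
  induction i with
  | zero => exact fun p _ hp ha => ⟨p, hp, ha, rfl, rfl⟩
  | succ i ih =>
    intro p hi hp ha
    obtain ⟨q, h1, h2, h3, h4⟩ := rot_step w hk hp ha
    obtain ⟨r, h5, h6, h7, h8⟩ := ih q (by omega) h1 h2
    exact ⟨r, h5, h6, h7.trans h3, by rw [h8, h4 i (by omega)]⟩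

/-- A cycle through a deleted node. -/
theorem cyc_of_cut {S : Skew V} {idx : V → ℕ} {h : ∀ v, idx (S.m v) = idx v}
    (w : V → V → ℤ) {v x y : V} {o : Finset (V × V)} (hv : S.arc v x) (hy : S.arc y v)
    (ho : IsQ (cutS S idx h (idx v + 1)) x y o) :
    ∃ (q : ℕ → V) (k : ℕ), 1 ≤ k ∧ S.Path q k ∧ S.arc (q k) (q 0) ∧
      wp w q k + w (q k) (q 0) = w v x + wt w o + w y v := by
  obtain ⟨p, k, hp, hp0, hpk, rfl⟩ := ho
  have hpS : S.Path p k := cut_path hp
  have hne : ∀ i, i ≤ k → p i ≠ v ∧ p i ≠ S.m v := by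
    intro i hi
    rcases Nat.eq_zero_or_pos k with h0 | h0
    · have e : i = 0 := by omega
      subst e
      rw [hp0]
      exact ⟨S.ne _ _ hv, S.ne' _ _ hv⟩
    · have hlt : idx v + 1 ≤ idx (p i) := by
        rcases Nat.lt_or_ge i k with h1 | h1
        · exact (hp.1 i h1).2.1
        · have e : i = (k - 1) + 1 := by omega
          rw [e]
          exact (hp.1 (k - 1) (by omega)).2.2
      constructor
      · intro e; rw [e] at hlt; omega
      · intro e; rw [e, h] at hlt; omega
  refine ⟨fun i => if i = 0 then v else p (i - 1), k + 1, by omega, ⟨?_, ?_⟩, ?_, ?_⟩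
  · intro i hi
    by_cases h0 : i = 0
    · subst h0
      simp only [if_true, zero_add, one_ne_zero, if_false, Nat.sub_self]
      rw [hp0]; exact hv
    · have e : i + 1 - 1 = (i - 1) + 1 := by omega
      have h1 : ¬ (i + 1 = 0) := by omega
      simp only [h0, if_false, h1, e]
      exact hpS.1 (i - 1) (by omega)
  · intro i j hij hj
    have hj0 : ¬ (j = 0) := by omega
    by_cases h0 : i = 0
    · subst h0
      simp only [if_true, hj0, if_false]
      exact hne (j - 1) (by omega)
    · simp only [h0, if_false, hj0]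
      exact hpS.2 (i - 1) (j - 1) (by omega) (by omega)
  · have h1 : ¬ (k + 1 = 0) := by omega
    simp only [h1, if_false, if_true, Nat.add_sub_cancel]
    rw [hpk]; exact hy
  · rw [wt_arcs_path w hpS, wp_cons]
    have h1 : ¬ (k + 1 = 0) := by omega
    simp only [h1, if_false, if_true, Nat.add_sub_cancel, one_ne_zero, Nat.sub_self,
      Nat.succ_ne_zero]
    rw [hpk, hp0]

end

/-- **P7** (from P6a, P5 + P6 and P9). -/
theorem test_of (hS : SoundStmt) (hC : CompleteStmt) (hG : GenericStmt) : TestStmt := by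
  intro V _ _ S idx hidx W c L K τ hinj hW hc hL hcard hrnd
  constructor
  · -- `⇒`
    intro hA
    by_contra hng
    -- the largest `κ`
    have hbig : ∃ κ, Good (cutS S idx hidx κ) W := by
      refine ⟨(univ.sup idx) + 1, ?_⟩
      intro p k hk hp _
      exfalso
      have h1 := (hp.1 0 (by omega)).2.1
      have h2 : idx (p 0) ≤ univ.sup idx := le_sup (f := idx) (mem_univ (p 0))
      omega
    have h0 : ¬ Good (cutS S idx hidx 0) W := by
      intro hg
      apply hng
      intro p k hk hp ha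
      exact hg p k hk (path_cut hp fun i _ => Nat.zero_le _) ⟨ha, Nat.zero_le _, Nat.zero_le _⟩
    classical
    obtain ⟨κ, hκ1, hκ2⟩ : ∃ κ, ¬ Good (cutS S idx hidx κ) W ∧
        Good (cutS S idx hidx (κ + 1)) W := by
      have hn := Nat.find_spec hbig
      have hpos : Nat.find hbig ≠ 0 := by
        intro e; rw [e] at hn; exact h0 hn
      refine ⟨Nat.find hbig - 1, Nat.find_min hbig (by omega), ?_⟩
      have e : Nat.find hbig - 1 + 1 = Nat.find hbig := by omega
      rw [e]; exact hn
    -- the bad cycle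
    have hbad : ∃ (p : ℕ → V) (k : ℕ), 1 ≤ k ∧ (cutS S idx hidx κ).Path p k ∧
        (cutS S idx hidx κ).arc (p k) (p 0) ∧ wp W p k + W (p k) (p 0) ≤ 0 := by
      by_contra hcon
      apply hκ1
      intro p k hk hp ha
      by_contra hle
      exact hcon ⟨p, k, hk, hp, ha, by omega⟩
    obtain ⟨p, k, hk, hp, ha, hw⟩ := hbad
    have hge : ∀ i, i ≤ k → κ ≤ idx (p i) := by
      intro i hi
      rcases Nat.lt_or_ge i k with h1 | h1
      · exact (hp.1 i h1).2.1
      · have e : i = k := by omega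
        rw [e]
        exact ha.2.1
    have hex : ∃ i, i ≤ k ∧ idx (p i) = κ := by
      by_contra hcon
      have hall : ∀ i, i ≤ k → κ + 1 ≤ idx (p i) := by
        intro i hi
        have h1 := hge i hi
        have h2 : idx (p i) ≠ κ := fun e => hcon ⟨i, hi, e⟩
        omega
      have h3 := hκ2 p k hk (path_cut (cut_path hp) hall)
        ⟨ha.1, hall k le_rfl, hall 0 (Nat.zero_le _)⟩
      omega
    obtain ⟨i, hi, hiκ⟩ := hex
    obtain ⟨q, hq, hqa, hqw, hq0⟩ := rot W hk i p hi hp ha
    have hqS : S.Path q k := cut_path hq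
    have hq0κ : idx (q 0) = κ := by rw [hq0, hiκ]
    have hqge : ∀ j, j ≤ k → κ ≤ idx (q j) := by
      intro j hj
      rcases Nat.lt_or_ge j k with h1 | h1
      · exact (hq.1 j h1).2.1
      · have e : j = k := by omega
        rw [e]
        exact hqa.2.1
    have hqgt : ∀ j, 1 ≤ j → j ≤ k → κ + 1 ≤ idx (q j) := by
      intro j hj1 hj2
      have h1 := hqge j hj2
      have h2 : idx (q j) ≠ κ := by
        intro e
        rcases hinj (q 0) (q j) (by rw [hq0κ, e]) with h3 | h3
        · exact (hqS.2 0 j (by omega) hj2).1 h3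
        · exact (hqS.2 0 j (by omega) hj2).2 h3
      omega
    -- the rest of the cycle
    set S' := cutS S idx hidx (κ + 1) with hS'
    have hr : S'.Path (fun j => q (j + 1)) (k - 1) := by
      refine ⟨fun j hj => ⟨hqS.1 (j + 1) (by omega), hqgt _ (by omega) (by omega),
        hqgt _ (by omega) (by omega)⟩, fun j j' hjj hj' => ?_⟩
      exact hqS.2 (j + 1) (j' + 1) (by omega) (by omega)
    set o_r := arcs (fun j => q (j + 1)) (k - 1) with ho_r
    have hor : IsQ S' (q 1) (q k) o_r := by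
      refine ⟨fun j => q (j + 1), k - 1, hr, rfl, ?_, rfl⟩
      change q (k - 1 + 1) = q k
      congr 1; omega
    have hwr : wt W o_r = wp W (fun j => q (j + 1)) (k - 1) := wt_arcs_path W hr
    have hsum : W (q 0) (q 1) + wt W o_r + W (q k) (q 0) ≤ 0 := by
      rw [hwr]
      have e : k = (k - 1) + 1 := by omega
      have h1 := wp_cons W q (k - 1)
      rw [← e] at h1
      rw [← h1, hqw]
      exact hw
    -- generic weights
    obtain ⟨g1, g2, g3, g4, _, g5⟩ := hG V S' W c L hc hL
    have hgwS : gw S' W c L = gw S W c L := rfl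
    -- the optimal object
    obtain ⟨o, ho⟩ : ∃ o, OptQ S' (gw S W c L) (q 1) (q k) o := by
      obtain ⟨o, ho1, ho2⟩ := Set.exists_min_image {o | IsQ S' (q 1) (q k) o}
        (fun o => wt (gw S W c L) o) (Set.toFinite _) ⟨o_r, hor⟩
      exact ⟨o, ho1, fun o' ho' => ho2 o' ho'⟩
    have htab := hC V S' (gw S W c L) K τ (g1 hW) (g2 hκ2) g3 hcard hrnd (q 1) (q k) o ho
    have hmem : o ∈ tQ (cutS S idx hidx (idx (q 0) + 1)) (gw S W c L) τ (q 1) (q k) := by
      rw [hq0κ, ← hS', htab]
      exact Set.mem_singleton o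
    have hacc := hA (q 0) (q 1) (q k) o (hqS.1 0 (by omega)) hqa.1 hmem
    have hle : wt W o ≤ wt W o_r := by
      have h1 := ho.2 o_r hor
      rcases lt_or_eq_of_le h1 with h2 | h2
      · rcases (g5 o o_r (g4 _ _ _ ho.1) (g4 _ _ _ hor)).1 h2 with h3 | h3
        · exact h3.le
        · exact h3.1.le
      · have h3 : o = o_r := g3.1 _ _ _ _ ho.1 hor h2
        rw [h3]
    omega
  · -- `⇐`
    intro hg v x y o hv hy ho
    have h1 := (hS V (cutS S idx hidx (idx v + 1)) (gw S W c L) τ).1 x y o ho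
    obtain ⟨q, k, h2, h3, h4, h5⟩ := cyc_of_cut W hv hy h1
    rw [← h5]
    exact hg q k h2 h3 h4

end Pool.Agent.WUPM
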