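import Mathlib
import Pool.Agent.WUPM.Dual
import Pool.Agent.WUPM.Cross
import Pool.Agent.WUPM.Pattern
import Pool.Agent.WUPM.Chain
import Pool.Agent.WUPM.Sound
import Pool.Agent.WUPM.Complete
import Pool.Agent.WUPM.Generic
import Pool.Agent.WUPM.Test
import Pool.Agent.WUPM.Cycle

/-!
# The combinatorial side: the test accepts iff the matching is the unique lightest one
-/

set_option autoImplicit false

namespace Pool.Agent.WUPM

open Finset Pool.Agent.UPM

theorem chainStmt : ChainStmt := chain_of Dual.dual crossStmt pattern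

theorem completeStmt : CompleteStmt := complete_of chainStmt cand sound

theorem testStmt : TestStmt := test_of sound completeStmt genericStmt

/-- **The combinatorial theorem.** -/
theorem acc_iff_unique {V : Type} [Fintype V] [DecidableEq V] (adj : V → V → Prop)
    (hs : ∀ a b, adj a b → adj b a) (hi : ∀ a, ¬ adj a a) (f : V → V) (hf : IsPM adj f)
    (wt : V → V → ℤ) (hwt : ∀ a b, wt a b = wt b a) (idx : V → ℕ) (hidx : ∀ v, idx (f v) = idx v)
    (hinj : ∀ u v, idx u = idx v → v = u ∨ v = f u) (c : V × V → ℕ) (hc : Function.Injective c)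
    (L : ℕ) (hL : ∀ e, c e < L) (K τ : ℕ) (hK : Fintype.card V ≤ 2 ^ K) (hτ : rnd K ≤ τ) :
    Acc (skewOf adj hs hi f hf) idx hidx (aw wt f) (gw (skewOf adj hs hi f hf) (aw wt f) c L) τ ↔
      ∀ g, IsPM adj g → g ≠ f → pmw wt f < pmw wt g :=
  (testStmt V (skewOf adj hs hi f hf) idx hidx (aw wt f) c L K τ hinj
    (cycle V adj hs hi f hf wt hwt).1 hc hL hK hτ).trans (cycle V adj hs hi f hf wt hwt).2

end Pool.Agent.WUPM
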