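import Mathlib
import Pool.Agent.UPM.DetRec
import Pool.Agent.WUPM.SysDefs

/-!
# Determinants modulo 2 over power series (MP_695160, package P10a)
-/

set_option autoImplicit false

namespace Pool.Agent.WUPM.Dt

open Finset Matrix Pool.Agent.UPM

/-- Power series modulo 2. -/
abbrev PS := PowerSeries (ZMod 2)

/-- The leading `i × i` block. -/
noncomputable def bk (a : ℕ → ℕ → PS) (i : ℕ) : Matrix (Fin i) (Fin i) PS :=
  Matrix.of fun x y => a x y

/-- `det (1 - a)` for the leading block. -/
noncomputable def dp (a : ℕ → ℕ → PS) (i : ℕ) : PS := (1 - bk a i).det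

/-- The geometric series of the leading block. -/
noncomputable def gp (a : ℕ → ℕ → PS) (i : ℕ) : Matrix (Fin i) (Fin i) PS :=
  Matrix.of fun x y => PowerSeries.mk fun k =>
    ∑ m ∈ range (k + 1), PowerSeries.coeff k ((bk a i ^ m) x y)

theorem X_pow_dvd {a : ℕ → ℕ → PS} (ha : ∀ x y, PowerSeries.X ∣ a x y) (i m : ℕ) :
    ∀ x y : Fin i, (PowerSeries.X : PS) ^ m ∣ (bk a i ^ m) x y := by
  induction m with
  | zero => intro x y; simp
  | succ m ih =>
    intro x y
    rw [pow_succ, pow_succ, Matrix.mul_apply]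
    exact Finset.dvd_sum fun w _ => mul_dvd_mul (ih x w) (ha w y)

theorem coeff_pow_zero {a : ℕ → ℕ → PS} (ha : ∀ x y, PowerSeries.X ∣ a x y) (i : ℕ) {m k : ℕ}
    (hk : k < m) (x y : Fin i) : PowerSeries.coeff k ((bk a i ^ m) x y) = 0 :=
  PowerSeries.X_pow_dvd_iff.1 (X_pow_dvd ha i m x y) k hk

theorem coeff_gp {a : ℕ → ℕ → PS} (ha : ∀ x y, PowerSeries.X ∣ a x y) (i : ℕ) {k M : ℕ}
    (hk : k < M) (x y : Fin i) : PowerSeries.coeff k (gp a i x y) =
      PowerSeries.coeff k ((∑ m ∈ range M, bk a i ^ m) x y) := by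
  rw [gp, Matrix.of_apply, PowerSeries.coeff_mk, Matrix.sum_apply, map_sum]
  refine Finset.sum_subset (Finset.range_subset_range.2 hk) fun m _ hm => ?_
  rw [Finset.mem_range, not_lt] at hm
  exact coeff_pow_zero ha i (by omega) x y

theorem gp_mul {a : ℕ → ℕ → PS} (ha : ∀ x y, PowerSeries.X ∣ a x y) (i : ℕ) :
    (1 - bk a i) * gp a i = 1 := by
  ext x y k
  have h1 : (1 - bk a i) * ∑ m ∈ range (k + 1), bk a i ^ m = 1 - bk a i ^ (k + 1) :=
    mul_neg_geom_sum (bk a i) (k + 1)
  have h2 := congrFun (congrFun h1 x) y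
  have h3 : PowerSeries.coeff k (((1 - bk a i) * gp a i) x y) =
      PowerSeries.coeff k (((1 - bk a i) * ∑ m ∈ range (k + 1), bk a i ^ m) x y) := by
    rw [Matrix.mul_apply, Matrix.mul_apply, map_sum, map_sum]
    refine Finset.sum_congr rfl fun w _ => ?_
    rw [PowerSeries.coeff_mul, PowerSeries.coeff_mul]
    refine Finset.sum_congr rfl fun p hp => ?_
    have hp' : p.1 + p.2 = k := by simpa using hp
    rw [coeff_gp ha i (M := k + 1) (by omega)]
  rw [h3, h2, Matrix.sub_apply, map_sub, coeff_pow_zero ha i (by omega), sub_zero]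

theorem gp_last {a : ℕ → ℕ → PS} (ha : ∀ x y, PowerSeries.X ∣ a x y) (i : ℕ) :
    dp a (i + 1) * gp a (i + 1) (Fin.last i) (Fin.last i) = dp a i := by
  set B : Matrix (Fin (i + 1)) (Fin (i + 1)) PS := 1 - bk a (i + 1) with hB
  have h1 : B * gp a (i + 1) = 1 := gp_mul ha (i + 1)
  have h2 : B.det • gp a (i + 1) = B.adjugate := by
    calc B.det • gp a (i + 1) = (B.adjugate * B) * gp a (i + 1) := by
          rw [Matrix.adjugate_mul, Matrix.smul_mul, one_mul]
      _ = B.adjugate := by rw [Matrix.mul_assoc, h1, mul_one]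
  have h3 := congrFun (congrFun h2 (Fin.last i)) (Fin.last i)
  rw [Matrix.smul_apply, smul_eq_mul, Matrix.adjugate_fin_succ_eq_det_submatrix] at h3
  have h4 : dp a (i + 1) = B.det := rfl
  rw [h4, h3, ← two_mul, pow_mul, neg_one_sq, one_pow, one_mul, dp]
  congr 1
  ext1 x y
  simp only [Matrix.submatrix_apply, Fin.succAbove_last, hB, Matrix.sub_apply,
    Matrix.one_apply, bk, Matrix.of_apply, Fin.val_castSucc, Fin.castSucc_inj]

/-- The matrix of power series with given coefficients. -/
noncomputable def cm (c : ℕ → ℕ → ℕ → ZMod 2) (x y : ℕ) : PS := PowerSeries.mk (c x y)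

theorem powd_eq (c : ℕ → ℕ → ℕ → ZMod 2) (i m : ℕ) :
    ∀ (x y : Fin i) (k : ℕ), powd c i m k x y = PowerSeries.coeff k ((bk (cm c) i ^ m) x y) := by
  induction m using Nat.strong_induction_on with
  | _ m ih =>
    intro x y k
    match m, ih with
    | 0, _ =>
      rw [powd, pow_zero, Matrix.one_apply]
      by_cases e : x = y
      · subst e
        simp [PowerSeries.coeff_one]
      · simp [e, Fin.val_inj]
    | 1, _ => simp [powd, bk, cm]
    | m + 2, ih =>
      rw [powd, Finset.sum_range]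
      have e : bk (cm c) i ^ (m + 2) =
          bk (cm c) i ^ ((m + 2) / 2) * bk (cm c) i ^ (m + 2 - (m + 2) / 2) := by
        rw [← pow_add]; congr 1; omega
      rw [e, Matrix.mul_apply, map_sum]
      refine Finset.sum_congr rfl fun w _ => ?_
      rw [PowerSeries.coeff_mul, Finset.Nat.sum_antidiagonal_eq_sum_range_succ_mk]
      refine Finset.sum_congr rfl fun k₁ _ => ?_
      rw [ih _ (by omega), ih _ (by omega)]

theorem dp_zero (a : ℕ → ℕ → PS) : dp a 0 = 1 := by
  rw [dp, Matrix.det_fin_zero]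

/-- **P10a**: the determinant by the recursions. -/
theorem detRecStmt : DetRecStmt := by
  intro n c hc K
  have hdp : (1 - Matrix.of fun x y : Fin n => PowerSeries.mk (c x y)).det = dp (cm c) n := rfl
  rw [hdp]
  have ha : ∀ x y, PowerSeries.X ∣ cm c x y := by
    intro x y
    rw [PowerSeries.X_dvd_iff, ← PowerSeries.coeff_zero_eq_constantCoeff_apply, cm,
      PowerSeries.coeff_mk]
    exact hc x y
  have hprod : ∀ n : ℕ, dp (cm c) n * ∏ j ∈ range n, PowerSeries.mk (geod c j) = 1 := by
    intro n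
    induction n with
    | zero => simp [dp_zero]
    | succ n ih =>
      have h1 : PowerSeries.mk (geod c n) = gp (cm c) (n + 1) (Fin.last n) (Fin.last n) := by
        rw [gp, Matrix.of_apply]
        congr 1
        funext k
        rw [geod]
        refine Finset.sum_congr rfl fun m _ => ?_
        have := powd_eq c (n + 1) m (Fin.last n) (Fin.last n) k
        rwa [Fin.val_last] at this
      rw [Finset.prod_range_succ, h1, mul_comm (∏ j ∈ range n, _), ← mul_assoc, gp_last ha, ih]
  have hg : PowerSeries.mk (fun k => prodc (geod c) n 0 k) =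
      ∏ j ∈ range n, PowerSeries.mk (geod c j) := by
    ext k
    rw [PowerSeries.coeff_mk, prodc_eq]
    simp only [Nat.zero_add]
  have hg0 : prodc (geod c) n 0 0 = 1 := by
    rw [prodc_eq, PowerSeries.coeff_zero_eq_constantCoeff_apply, map_prod]
    refine Finset.prod_eq_one fun j _ => ?_
    rw [← PowerSeries.coeff_zero_eq_constantCoeff_apply, PowerSeries.coeff_mk, geod,
      Finset.sum_range_one, powd, if_pos ⟨rfl, rfl⟩]
  rw [detd, invc_inv _ hg0 (dp (cm c) n) (by rw [hg]; exact hprod n) K]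

end Pool.Agent.WUPM.Dt
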