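import Mathlib
import Pool.Agent.WUPM.SysDefs
import Pool.Agent.WUPM.DetRec

/-!
# The determinant and the perfect matching of minimum weight (MP_695160, package P10b)
-/

set_option autoImplicit false

namespace Pool.Agent.WUPM.Mt

open Finset Equiv Matrix Pool.Agent.UPM

/-- For symmetric matrices in characteristic 2 the determinant is the sum over the involutions. -/
theorem det_char2 {R : Type*} [CommRing R] (h2 : ∀ x : R, x + x = 0) {n : ℕ}
    (M : Matrix (Fin n) (Fin n) R) (hM : ∀ x y, M x y = M y x) :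
    M.det = ∑ σ ∈ (univ : Finset (Perm (Fin n))).filter (fun σ => σ⁻¹ = σ), ∏ i, M (σ i) i := by
  have hneg : ∀ x : R, -x = x := fun x => neg_eq_of_add_eq_zero_left (h2 x)
  rw [Matrix.det_apply]
  have h1 : ∀ σ : Perm (Fin n), (Equiv.Perm.sign σ • ∏ i, M (σ i) i) = ∏ i, M (σ i) i := by
    intro σ
    rcases Int.units_eq_one_or (Perm.sign σ) with h | h
    · rw [h, one_smul]
    · rw [h, Units.neg_smul, one_smul, hneg]
  simp_rw [h1]
  rw [← Finset.sum_filter_add_sum_filter_not univ (fun σ : Perm (Fin n) => σ⁻¹ = σ)]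
  have h2' : ∀ σ : Perm (Fin n), ∏ i, M (σ⁻¹ i) i = ∏ i, M (σ i) i := by
    intro σ
    rw [← Equiv.prod_comp σ (fun i => M (σ⁻¹ i) i)]
    refine Finset.prod_congr rfl fun i _ => ?_
    have h' : σ⁻¹ (σ i) = i := σ.symm_apply_apply i
    rw [h']
    exact hM _ _
  have h3 : ∑ σ ∈ (univ : Finset (Perm (Fin n))).filter (fun σ => ¬ σ⁻¹ = σ), ∏ i, M (σ i) i = 0 := by
    refine Finset.sum_involution (fun σ _ => σ⁻¹) ?_ ?_ ?_ ?_
    · intro σ _
      rw [h2']
      exact h2 _
    · intro σ hσ _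
      exact (mem_filter.1 hσ).2
    · intro σ hσ
      have := (mem_filter.1 hσ).2
      refine mem_filter.2 ⟨mem_univ _, ?_⟩
      rw [inv_inv]
      exact fun h => this h.symm
    · intro σ _
      exact inv_inv σ
  rw [h3, add_zero]

theorem ps_add_self (x : Dt.PS) : x + x = 0 := by
  ext k
  rw [map_add, map_zero]
  exact zmod2_cases_add _
where
  zmod2_cases_add (x : ZMod 2) : x + x = 0 := by revert x; decide

/-- The pairs which count. -/
def Gd (adj : ℕ → ℕ → Prop) (u v x y : ℕ) : Prop := adj x y ∧ x ≠ u ∧ x ≠ v ∧ y ≠ u ∧ y ≠ v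

open Classical in
theorem mk_matd (adj : ℕ → ℕ → Prop) (wt : ℕ → ℕ → ℕ) (D u v x y : ℕ) :
    (PowerSeries.mk (matd adj wt D u v x y) : Dt.PS) =
      if Gd adj u v x y then PowerSeries.X ^ (D + wt x y) else 0 := by
  ext d
  rw [PowerSeries.coeff_mk, matd]
  by_cases h : Gd adj u v x y
  · rw [if_pos h, PowerSeries.coeff_X_pow]
    have h' := h
    unfold Gd at h'
    by_cases hd : d = D + wt x y
    · rw [if_pos hd, if_pos ⟨h'.1, h'.2.1, h'.2.2.1, h'.2.2.2.1, h'.2.2.2.2, hd⟩]
    · rw [if_neg hd, if_neg (by tauto)]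
  · rw [if_neg h, map_zero, if_neg]
    unfold Gd at h
    tauto

section

variable {n : ℕ} (adj : ℕ → ℕ → Prop) (wt : ℕ → ℕ → ℕ) (D : ℕ)

/-- The degree of an involution. -/
def dg (wt : ℕ → ℕ → ℕ) (D : ℕ) (σ : Perm (Fin n)) : ℕ := ∑ i, if σ i = i then 0 else D + wt (σ i) i

/-- The involutions which count. -/
def Ok (adj : ℕ → ℕ → Prop) (u v : ℕ) (σ : Perm (Fin n)) : Prop :=
  (∀ i, σ (σ i) = i) ∧ ∀ i, σ i ≠ i → Gd adj u v (σ i) i

open Classical in
theorem coeff_det (hs : ∀ x y, adj x y → adj y x) (hi : ∀ x, ¬ adj x x)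
    (hw : ∀ x y, wt x y = wt y x) (u v m : ℕ) :
    PowerSeries.coeff m
      (1 - Matrix.of fun x y : Fin n => PowerSeries.mk (matd adj wt D u v x y)).det =
      ∑ σ : Perm (Fin n), if Ok adj u v σ ∧ m = dg wt D σ then 1 else 0 := by
  set M : Matrix (Fin n) (Fin n) Dt.PS :=
    1 - Matrix.of fun x y : Fin n => PowerSeries.mk (matd adj wt D u v x y) with hM
  have hMe : ∀ x y, M x y = if x = y then 1 else
      if Gd adj u v x y then PowerSeries.X ^ (D + wt x y) else 0 := by
    intro x y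
    have hneg : ∀ x : Dt.PS, -x = x := fun x => neg_eq_of_add_eq_zero_left (ps_add_self x)
    rw [hM, Matrix.sub_apply, Matrix.of_apply, mk_matd, Matrix.one_apply]
    by_cases e : x = y
    · subst e
      have : ¬ Gd adj u v x x := fun h => hi _ h.1
      rw [if_pos rfl, if_pos rfl, if_neg this, sub_zero]
    · rw [if_neg e, if_neg e, zero_sub, hneg]
  have hGs : ∀ x y, Gd adj u v x y ↔ Gd adj u v y x := by
    intro x y
    unfold Gd
    constructor
    · rintro ⟨h1, h2, h3, h4, h5⟩; exact ⟨hs _ _ h1, h4, h5, h2, h3⟩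
    · rintro ⟨h1, h2, h3, h4, h5⟩; exact ⟨hs _ _ h1, h4, h5, h2, h3⟩
  have hsym : ∀ x y, M x y = M y x := by
    intro x y
    rw [hMe, hMe, hw]
    have e1 : x = y ↔ y = x := eq_comm
    simp only [e1, hGs x y]
  rw [det_char2 ps_add_self M hsym, map_sum, Finset.sum_filter]
  refine Finset.sum_congr rfl fun σ _ => ?_
  have hinv : σ⁻¹ = σ ↔ ∀ i, σ (σ i) = i := by
    constructor
    · intro h i
      have h1 := congrArg (fun τ : Perm (Fin n) => τ (σ i)) h
      have h' : σ⁻¹ (σ i) = i := σ.symm_apply_apply i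
      simp only [h'] at h1
      exact h1.symm
    · intro h
      ext i
      have h' : σ⁻¹ (σ (σ i)) = σ i := σ.symm_apply_apply _
      rw [h] at h'
      rw [h']
  by_cases hσ : σ⁻¹ = σ
  · rw [if_pos hσ]
    by_cases hg : ∀ i, σ i ≠ i → Gd adj u v (σ i) i
    · have hp : ∏ i, M (σ i) i = PowerSeries.X ^ dg wt D σ := by
        rw [dg, ← Finset.prod_pow_eq_pow_sum]
        refine Finset.prod_congr rfl fun i _ => ?_
        rw [hMe]
        by_cases e : σ i = i
        · rw [if_pos e, if_pos e, pow_zero]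
        · rw [if_neg e, if_neg e, if_pos (hg i e)]
      rw [hp, PowerSeries.coeff_X_pow]
      have : Ok adj u v σ := ⟨hinv.1 hσ, hg⟩
      simp only [this, true_and]
    · rw [if_neg (fun h => hg h.1.2)]
      push Not at hg
      obtain ⟨i, hi1, hi2⟩ := hg
      rw [Finset.prod_eq_zero (mem_univ i), map_zero]
      rw [hMe, if_neg hi1, if_neg hi2]
  · rw [if_neg hσ, if_neg (fun h => hσ (hinv.2 h.1.1))]

theorem dg_eq (σ : Perm (Fin n)) : dg wt D σ =
    (univ.filter fun i => σ i ≠ i).card * D + ∑ i ∈ univ.filter (fun i => σ i ≠ i), wt (σ i) i := by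
  rw [dg]
  have : ∀ i, (if σ i = i then 0 else D + wt (σ i) i) = if σ i ≠ i then D + wt (σ i) i else 0 := by
    intro i
    by_cases h : σ i = i <;> simp [h]
  simp_rw [this]
  rw [← Finset.sum_filter, Finset.sum_add_distrib, Finset.sum_const, smul_eq_mul]

theorem dg_lt {P : ℕ} (hP : ∀ x y, adj x y → wt x y ≤ P) (hD : n * P < D) {u v : ℕ}
    {σ : Perm (Fin n)} (h : Ok adj u v σ) : dg wt D σ < ((univ.filter fun i => σ i ≠ i).card + 1) * D := by
  rw [dg_eq, add_mul, one_mul]
  refine Nat.add_lt_add_left (lt_of_le_of_lt ?_ hD) _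
  calc ∑ i ∈ univ.filter (fun i => σ i ≠ i), wt (σ i) i ≤ ∑ i ∈ univ.filter (fun i => σ i ≠ i), P :=
        Finset.sum_le_sum fun i hi => hP _ _ (h.2 i (mem_filter.1 hi).2).1
    _ = (univ.filter fun i => σ i ≠ i).card * P := by rw [Finset.sum_const, smul_eq_mul]
    _ ≤ n * P := Nat.mul_le_mul_right _ ((Finset.card_filter_le _ _).trans (by simp))

end

/-- The involution of a perfect matching. -/
def pmPerm {n : ℕ} (f : Fin n → Fin n) (hf : ∀ v, f (f v) = v) : Perm (Fin n) :=
  Function.Involutive.toPerm f hf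

theorem mate_all {n P D : ℕ} {adj : ℕ → ℕ → Prop} {wt : ℕ → ℕ → ℕ}
    (hs : ∀ x y, adj x y → adj y x) (hw : ∀ x y, wt x y = wt y x)
    (hP : ∀ x y, adj x y → wt x y ≤ P) (hD : n * P < D) {σ : Perm (Fin n)} (h : Ok adj n n σ)
    (hm : n * D ≤ dg wt D σ) :
    IsPM (fun x y : Fin n => adj x y) σ ∧ dg wt D σ = n * D + ∑ v : Fin n, wt v (σ v) := by
  have h1 := dg_lt adj wt D hP hD h
  have h2 : n < (univ.filter fun i => σ i ≠ i).card + 1 :=
    Nat.lt_of_mul_lt_mul_right (lt_of_le_of_lt hm h1)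
  have h3 : (univ.filter fun i => σ i ≠ i) = univ := by
    refine Finset.eq_univ_of_card _ (le_antisymm (Finset.card_le_univ _) ?_)
    rw [Fintype.card_fin]
    omega
  have h4 : ∀ i, σ i ≠ i := fun i => by
    have := Finset.mem_univ i
    rw [← h3] at this
    exact (mem_filter.1 this).2
  refine ⟨⟨h.1, fun v => hs _ _ (h.2 v (h4 v)).1⟩, ?_⟩
  rw [dg_eq, h3, Finset.card_univ, Fintype.card_fin]
  congr 1
  exact Finset.sum_congr rfl fun i _ => hw _ _

theorem ok_of_pm {n : ℕ} {adj : ℕ → ℕ → Prop} (hs : ∀ x y, adj x y → adj y x)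
    {f : Fin n → Fin n} (hf : IsPM (fun x y : Fin n => adj x y) f) : Ok adj n n (pmPerm f hf.1) := by
  refine ⟨hf.1, fun i _ => ⟨hs _ _ (hf.2 i), ?_, ?_, ?_, ?_⟩⟩
  · exact ((pmPerm f hf.1) i).2.ne
  · exact ((pmPerm f hf.1) i).2.ne
  · exact i.2.ne
  · exact i.2.ne

theorem dg_of_pm {n D : ℕ} {adj : ℕ → ℕ → Prop} {wt : ℕ → ℕ → ℕ} (hi : ∀ x, ¬ adj x x)
    (hw : ∀ x y, wt x y = wt y x)
    {f : Fin n → Fin n} (hf : IsPM (fun x y : Fin n => adj x y) f) :
    dg wt D (pmPerm f hf.1) = n * D + ∑ v : Fin n, wt v (f v) := by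
  have h4 : ∀ i, f i ≠ i := fun i h => hi i (by have := hf.2 i; rwa [h] at this)
  have h3 : (univ.filter fun i => (pmPerm f hf.1) i ≠ i) = univ := by
    refine Finset.filter_true_of_mem fun i _ => h4 i
  rw [dg_eq, h3, Finset.card_univ, Fintype.card_fin]
  congr 1
  exact Finset.sum_congr rfl fun i _ => hw _ _

/-- The perfect matching of an involution which fixes `u` and `v`. -/
def ext {n : ℕ} (u v : Fin n) (σ : Fin n → Fin n) (i : Fin n) : Fin n :=
  if i = u then v else if i = v then u else σ i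

/-- The involution without `u` and `v`. -/
def res {n : ℕ} (u v : Fin n) (σ : Fin n → Fin n) (i : Fin n) : Fin n :=
  if i = u ∨ i = v then i else σ i

theorem ok_fix {n : ℕ} {adj : ℕ → ℕ → Prop} {u v : Fin n} {σ : Perm (Fin n)} (h : Ok adj u v σ) :
    σ u = u ∧ σ v = v := by
  constructor
  · by_contra e
    exact (h.2 u e).2.2.2.1 rfl
  · by_contra e
    exact (h.2 v e).2.2.2.2 rfl

theorem sum_split {n : ℕ} {u v : Fin n} (huv : u ≠ v) (g : Fin n → ℕ) :
    ∑ i, g i = g u + g v + ∑ i ∈ univ.filter (fun i => i ≠ u ∧ i ≠ v), g i := by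
  rw [← Finset.sum_filter_add_sum_filter_not univ (fun i => i ≠ u ∧ i ≠ v), add_comm]
  congr 1
  have : (univ.filter fun i : Fin n => ¬ (i ≠ u ∧ i ≠ v)) = {u, v} := by
    ext i
    simp only [mem_filter, mem_univ, true_and, mem_insert, mem_singleton]
    tauto
  rw [this, Finset.sum_pair huv]

theorem mate_del {n P D : ℕ} {adj : ℕ → ℕ → Prop} {wt : ℕ → ℕ → ℕ}
    (hs : ∀ x y, adj x y → adj y x) (hw : ∀ x y, wt x y = wt y x)
    (hP : ∀ x y, adj x y → wt x y ≤ P) (hD : n * P < D) {u v : Fin n} (huv : u ≠ v)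
    (hadj : adj u v) {σ : Perm (Fin n)} (h : Ok adj u v σ) (hm : n * D ≤ dg wt D σ + 2 * D) :
    IsPM (fun x y : Fin n => adj x y) (ext u v σ) ∧
      dg wt D σ + 2 * (D + wt u v) = n * D + ∑ i : Fin n, wt i (ext u v σ i) := by
  obtain ⟨hu, hv⟩ := ok_fix h
  have h1 := dg_lt adj wt D hP hD h
  have h2 : n < (univ.filter fun i => σ i ≠ i).card + 1 + 2 := by
    refine Nat.lt_of_mul_lt_mul_right (a := D) ?_
    rw [add_mul _ 2]
    omega
  have hsub : (univ.filter fun i => σ i ≠ i) ⊆ univ.filter fun i => i ≠ u ∧ i ≠ v := by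
    intro i hi
    have hi' := (mem_filter.1 hi).2
    refine mem_filter.2 ⟨mem_univ _, ?_, ?_⟩
    · rintro rfl; exact hi' hu
    · rintro rfl; exact hi' hv
  have hc : (univ.filter fun i : Fin n => i ≠ u ∧ i ≠ v).card + 2 = n := by
    have := sum_split huv (fun _ => 1)
    simp only [Finset.sum_const, smul_eq_mul, mul_one, Finset.card_univ, Fintype.card_fin] at this
    omega
  have h3 : (univ.filter fun i => σ i ≠ i) = univ.filter fun i => i ≠ u ∧ i ≠ v :=
    Finset.eq_of_subset_of_card_le hsub (by omega)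
  have h4 : ∀ i, i ≠ u → i ≠ v → σ i ≠ i := fun i h5 h6 => by
    have : i ∈ univ.filter fun i => i ≠ u ∧ i ≠ v := mem_filter.2 ⟨mem_univ _, h5, h6⟩
    rw [← h3] at this
    exact (mem_filter.1 this).2
  have h5 : ∀ i, i ≠ u → i ≠ v → σ i ≠ u ∧ σ i ≠ v := fun i h6 h7 =>
    ⟨fun e => h6 (by rw [← h.1 i, e, hu]), fun e => h7 (by rw [← h.1 i, e, hv])⟩
  refine ⟨⟨?_, ?_⟩, ?_⟩
  · intro i
    unfold ext
    by_cases e1 : i = u
    · subst e1; simp [huv.symm]
    · by_cases e2 : i = v
      · subst e2; simp [e1]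
      · obtain ⟨h6, h7⟩ := h5 i e1 e2
        simp [e1, e2, h6, h7, h.1 i]
  · intro i
    unfold ext
    by_cases e1 : i = u
    · subst e1; simpa using hadj
    · by_cases e2 : i = v
      · subst e2; simpa [e1] using hs _ _ hadj
      · simpa [e1, e2] using hs _ _ (h.2 i (h4 i e1 e2)).1
  · rw [dg_eq, h3, sum_split huv (fun i => wt i (ext u v σ i))]
    have e1 : wt u (ext u v σ u) = wt u v := by simp [ext]
    have e2 : wt v (ext u v σ v) = wt u v := by simp [ext, huv.symm, hw v u]
    have e3 : ∑ i ∈ univ.filter (fun i : Fin n => i ≠ u ∧ i ≠ v), wt i (ext u v σ i) =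
        ∑ i ∈ univ.filter (fun i : Fin n => i ≠ u ∧ i ≠ v), wt (σ i) i := by
      refine Finset.sum_congr rfl fun i hi => ?_
      obtain ⟨h6, h7⟩ := (mem_filter.1 hi).2
      rw [ext, if_neg h6, if_neg h7, hw]
    simp only [e1, e2, e3]
    have e4 : n * D = (univ.filter fun i : Fin n => i ≠ u ∧ i ≠ v).card * D + 2 * D := by
      rw [← add_mul, hc]
    rw [e4]
    ring

theorem res_ok {n : ℕ} {adj : ℕ → ℕ → Prop} (hs : ∀ x y, adj x y → adj y x)
    {f : Fin n → Fin n} (hf : IsPM (fun x y : Fin n => adj x y) f) {u v : Fin n} (hfu : f u = v) :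
    ∃ h : ∀ i, res u v f (res u v f i) = i, Ok adj u v (pmPerm (res u v f) h) := by
  have hfv : f v = u := by rw [← hfu]; exact hf.1 u
  have h1 : ∀ i, ¬ (i = u ∨ i = v) → ¬ (f i = u ∨ f i = v) := by
    rintro i hi (h | h)
    · exact hi (Or.inr (by rw [← hf.1 i, h, hfu]))
    · exact hi (Or.inl (by rw [← hf.1 i, h, hfv]))
  have h2 : ∀ i, res u v f (res u v f i) = i := by
    intro i
    unfold res
    by_cases hi : i = u ∨ i = v
    · simp [hi]
    · simp [hi, h1 i hi, hf.1 i]
  refine ⟨h2, h2, fun i hi => ?_⟩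
  have hi' : res u v f i ≠ i := hi
  change Gd adj u v (res u v f i) i
  have h3 : ¬ (i = u ∨ i = v) := fun e => hi' (by rw [res, if_pos e])
  rw [res, if_neg h3]
  have h4 := h1 i h3
  refine ⟨hs _ _ (hf.2 i), fun e => h4 (Or.inl (Fin.ext e)), fun e => h4 (Or.inr (Fin.ext e)),
    fun e => h3 (Or.inl (Fin.ext e)), fun e => h3 (Or.inr (Fin.ext e))⟩

theorem ext_res {n : ℕ} {u v : Fin n} {f : Fin n → Fin n} (hfu : f u = v) (hfv : f v = u) :
    ext u v (res u v f) = f := by
  funext i
  unfold ext res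
  by_cases e1 : i = u
  · subst e1; simp [hfu]
  · by_cases e2 : i = v
    · subst e2; simp [e1, hfv]
    · simp [e1, e2]

theorem res_ext {n : ℕ} {u v : Fin n} {σ : Fin n → Fin n} (hu : σ u = u) (hv : σ v = v) :
    res u v (ext u v σ) = σ := by
  funext i
  unfold ext res
  by_cases e1 : i = u
  · subst e1; simp [hu]
  · by_cases e2 : i = v
    · subst e2; simp [hv]
    · simp [e1, e2]

open Classical in
/-- **P10b**. -/
theorem mateStmt : MateStmt := by
  intro n P D adj wt hs hi hw hP hD f hf hu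
  have hD0 : 0 < D := lt_of_le_of_lt (Nat.zero_le _) hD
  have hco : ∀ u v m, detd n (matd adj wt D u v) m =
      ∑ σ : Perm (Fin n), if Ok adj u v σ ∧ m = dg wt D σ then 1 else 0 := by
    intro u v m
    rw [Dt.detRecStmt n (matd adj wt D u v) (fun x y => ?_) m, coeff_det adj wt D hs hi hw]
    rw [matd, if_neg]
    rintro ⟨-, -, -, -, -, h⟩
    omega
  have hle : ∀ g, IsPM (fun x y : Fin n => adj x y) g →
      ∑ v : Fin n, wt v (g v) ≤ ∑ v : Fin n, wt v (f v) → g = f := by
    intro g hg h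
    by_contra hne
    exact absurd (hu g hg hne) (not_lt.2 h)
  refine ⟨?_, ?_, ?_⟩
  · rw [hco, Finset.sum_eq_single (pmPerm f hf.1)]
    · rw [if_pos ⟨ok_of_pm hs hf, (dg_of_pm hi hw hf).symm⟩]
    · intro σ _ hne
      rw [if_neg]
      rintro ⟨h1, h2⟩
      obtain ⟨h3, h4⟩ := mate_all hs hw hP hD h1 (by omega)
      have h5 := hle σ h3 (by omega)
      exact hne (Equiv.ext fun i => congrFun h5 i)
    · intro h
      exact absurd (mem_univ _) h
  · intro m h1 h2
    rw [hco]
    refine Finset.sum_eq_zero fun σ _ => ?_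
    rw [if_neg]
    rintro ⟨h3, h4⟩
    obtain ⟨h5, h6⟩ := mate_all hs hw hP hD h3 (by omega)
    have h7 := hle σ h5 (by omega)
    rw [h7] at h6
    omega
  · intro u v hadj
    have huv : u ≠ v := fun h => hi v (by rw [h] at hadj; exact hadj)
    constructor
    · rintro ⟨h1, h2⟩
      by_contra hne
      rw [hco, Finset.sum_eq_zero] at h2
      · exact absurd h2 (by decide)
      · intro σ _
        rw [if_neg]
        rintro ⟨h3, h4⟩
        have hn2 : 2 * D ≤ n * D := by
          refine Nat.mul_le_mul_right _ ?_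
          have h5 := u.2
          have h6 := v.2
          have h7 : (u : ℕ) ≠ v := fun e => huv (Fin.ext e)
          omega
        obtain ⟨h5, h6⟩ := mate_del hs hw hP hD huv hadj h3 (by omega)
        have h7 := hle _ h5 (by omega)
        apply hne
        rw [← h7]
        simp [ext]
    · intro hfu
      have hfv : f v = u := by rw [← hfu]; exact hf.1 u
      have hW : 2 * wt u v ≤ ∑ v : Fin n, wt v (f v) := by
        rw [sum_split huv (fun i : Fin n => wt i (f i))]
        simp only [hfu, hfv, hw v u]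
        omega
      obtain ⟨hr, hok⟩ := res_ok hs hf hfu
      have hn2 : n * D ≤ dg wt D (pmPerm (res u v f) hr) + 2 * D := by
        have hc : (univ.filter fun i => (pmPerm (res u v f) hr) i ≠ i) =
            univ.filter fun i : Fin n => i ≠ u ∧ i ≠ v := by
          ext i
          simp only [mem_filter, mem_univ, true_and]
          change res u v f i ≠ i ↔ _
          unfold res
          by_cases h : i = u ∨ i = v
          · rw [if_pos h]; tauto
          · rw [if_neg h]
            have h4 : f i ≠ i := fun h => hi i (by have := hf.2 i; rwa [h] at this)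
            tauto
        have hc2 : (univ.filter fun i : Fin n => i ≠ u ∧ i ≠ v).card + 2 = n := by
          have := sum_split huv (fun _ => 1)
          simp only [Finset.sum_const, smul_eq_mul, mul_one, Finset.card_univ,
            Fintype.card_fin] at this
          omega
        rw [dg_eq, hc]
        have : n * D = (univ.filter fun i : Fin n => i ≠ u ∧ i ≠ v).card * D + 2 * D := by
          rw [← add_mul, hc2]
        omega
      have hdg := (mate_del hs hw hP hD huv hadj hok hn2).2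
      have hext : ext u v (pmPerm (res u v f) hr) = f := ext_res hfu hfv
      rw [hext] at hdg
      refine ⟨hW, ?_⟩
      rw [hco, Finset.sum_eq_single (pmPerm (res u v f) hr)]
      · rw [if_pos ⟨hok, by omega⟩]
      · intro σ _ hne
        rw [if_neg]
        rintro ⟨h3, h4⟩
        obtain ⟨h5, h6⟩ := mate_del hs hw hP hD huv hadj h3 (by omega)
        have h7 := hle _ h5 (by omega)
        obtain ⟨h8, h9⟩ := ok_fix h3
        apply hne
        refine Equiv.ext fun i => ?_
        have h10 := res_ext h8 h9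
        rw [h7] at h10
        exact (congrFun h10 i).symm
      · intro h
        exact absurd (mem_univ _) h

end Pool.Agent.WUPM.Mt
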