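import Mathlib
import Pool.Agent.WUPM.SysDefs
import Pool.Agent.UPM.SysDet

/-!
# The system of formulas: values of the relations computing the determinant (weighted case)
-/

set_option autoImplicit false

namespace Pool.Agent.WUPM

open Finset Pool.Agent.NC
open Pool.Agent.UPM (par_iff mul_eq_one_iff prodc invc)

theorem St_succ (p : Polynomial ℕ) (B : ℕ) (w : List Bool) (t i : ℕ) (e : ℕ → ℕ) :
    St p B w (t + 1) i e ↔ sys p i w (Fc p B w t) e := Iff.rfl

theorem Fc_vec {p : Polynomial ℕ} {B : ℕ} {w : List Bool} {t i : ℕ} {l : List ℕ}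
    (hl : l.length ≤ 8) (hB : ∀ a ∈ l, a ≤ B) : Fc p B w t i (vec l) ↔ St p B w t i (vec l) := by
  unfold Fc
  rw [clamp_vec hl hB]

theorem dmat_iff (p : Polynomial ℕ) (N : ℕ) (w : List Bool) (u v x y d : ℕ) :
    dmat p N w u v x y d = 1 ↔ delF p N w u v x y d := by
  unfold dmat
  split_ifs with h
  · exact iff_of_true rfl h
  · exact iff_of_false (by decide) h

theorem nn_le₀ (p : Polynomial ℕ) (N : ℕ) : nn p N ≤ N := by
  unfold nn
  exact (card_filter_le _ _).trans (card_range N).le

theorem nn_le_MX (p : Polynomial ℕ) (N : ℕ) : nn p N ≤ MX p N := by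
  unfold MX DD
  exact Nat.le_mul_of_pos_right _ (by omega)

section

variable {p : Polynomial ℕ} {B : ℕ} {w : List Bool}

theorem powd_sem (j : ℕ) : ∀ t, j + 1 ≤ t → ∀ u v i k d x y, k ≤ 2 ^ j → u ≤ B → v ≤ B → i ≤ B →
    k ≤ B → d ≤ B → x ≤ B → y ≤ B →
    (St p B w t 1 (vec [u, v, i, k, d, x, y]) ↔
      powd (dmat p w.length w u v) i k d x y = 1) := by
  induction j with
  | zero =>
    intro t ht u v i k d x y hk _ _ _ _ _ _ _
    obtain ⟨t, rfl⟩ : ∃ t', t = t' + 1 := ⟨t - 1, by omega⟩
    rw [St_succ]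
    change powF p w.length w (Fc p B w t) u v i k d x y ↔ _
    unfold powF
    simp only [pow_zero] at hk
    interval_cases k
    · rw [powd]
      simp
    · rw [powd, dmat_iff]
      simp
  | succ j ih =>
    intro t ht u v i k d x y hk hu hv hi hkB hd hx hy
    obtain ⟨t, rfl⟩ : ∃ t', t = t' + 1 := ⟨t - 1, by omega⟩
    rw [St_succ]
    change powF p w.length w (Fc p B w t) u v i k d x y ↔ _
    unfold powF
    match k, hk, hkB with
    | 0, _, _ =>
      rw [powd]
      simp
    | 1, _, _ =>
      rw [powd, dmat_iff]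
      simp
    | k + 2, hk, hkB =>
      rw [powd]
      have h2 : 2 ^ (j + 1) = 2 ^ j * 2 := pow_succ 2 j
      rw [← par_iff (P := fun z => Par (d + 1) fun e =>
        Fc p B w t 1 (vec [u, v, i, (k + 2) / 2, e, x, z]) ∧
        Fc p B w t 1 (vec [u, v, i, k + 2 - (k + 2) / 2, d - e, z, y]))]
      · simp
      · intro z hz
        refine par_iff fun e he => ?_
        rw [mul_eq_one_iff, Fc_vec (by simp) (by simp; omega), Fc_vec (by simp) (by simp; omega),
          ih t (by omega) _ _ _ _ _ _ _ (by omega) hu hv hi (by omega) (by omega) hx (by omega),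
          ih t (by omega) _ _ _ _ _ _ _ (by omega) hu hv hi (by omega) (by omega) (by omega) hy]

theorem geo_sem {κ : ℕ} {t : ℕ} (ht : κ + 1 ≤ t) {u v i m : ℕ} (hm : m ≤ 2 ^ κ) (hu : u ≤ B)
    (hv : v ≤ B) (hi : i + 1 ≤ B) (hmB : m ≤ B) :
    geoF (Fc p B w t) u v i m ↔ geod (dmat p w.length w u v) i m = 1 := by
  unfold geoF geod
  refine par_iff fun k hk => ?_
  rw [Fc_vec (by simp) (by simp; omega),
    powd_sem κ t ht _ _ _ _ _ _ _ (by omega) hu hv hi (by omega) hmB (by omega) (by omega)]

theorem prod_sem {κ : ℕ} (j : ℕ) : ∀ t, κ + j + 2 ≤ t → ∀ u v len lo k, len ≤ 2 ^ j → k ≤ 2 ^ κ →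
    u ≤ B → v ≤ B → lo + len ≤ B → k ≤ B →
    (St p B w t 2 (vec [u, v, len, lo, k]) ↔
      prodc (geod (dmat p w.length w u v)) len lo k = 1) := by
  induction j with
  | zero =>
    intro t ht u v len lo k hl hk hu hv hlo hkB
    obtain ⟨t, rfl⟩ : ∃ t', t = t' + 1 := ⟨t - 1, by omega⟩
    rw [St_succ]
    change prodF (Fc p B w t) u v len lo k ↔ _
    unfold prodF
    simp only [pow_zero] at hl
    interval_cases len
    · rw [prodc]
      simp
    · rw [prodc, geo_sem (κ := κ) (by omega) hk hu hv (by omega) hkB]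
      simp
  | succ j ih =>
    intro t ht u v len lo k hl hk hu hv hlo hkB
    obtain ⟨t, rfl⟩ : ∃ t', t = t' + 1 := ⟨t - 1, by omega⟩
    rw [St_succ]
    change prodF (Fc p B w t) u v len lo k ↔ _
    unfold prodF
    match len, hl, hlo with
    | 0, _, _ =>
      rw [prodc]
      simp
    | 1, _, _ =>
      rw [prodc, geo_sem (κ := κ) (by omega) hk hu hv (by omega) hkB]
      simp
    | len + 2, hl, hlo =>
      rw [prodc]
      have h2 : 2 ^ (j + 1) = 2 ^ j * 2 := pow_succ 2 j
      rw [← par_iff (P := fun z => Fc p B w t 2 (vec [u, v, (len + 2) / 2, lo, z]) ∧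
        Fc p B w t 2 (vec [u, v, len + 2 - (len + 2) / 2, lo + (len + 2) / 2, k - z]))]
      · simp
      · intro z hz
        rw [mul_eq_one_iff, Fc_vec (by simp) (by simp; omega), Fc_vec (by simp) (by simp; omega),
          ih t (by omega) _ _ _ _ _ (by omega) (by omega) hu hv (by omega) (by omega),
          ih t (by omega) _ _ _ _ _ (by omega) (by omega) hu hv (by omega) (by omega)]

theorem inv_sem {κ : ℕ} (hn : nn p w.length ≤ 2 ^ κ) (hnB : nn p w.length ≤ B) (j : ℕ) :
    ∀ t, 2 * κ + j + 3 ≤ t → ∀ u v q k, k < q * 2 ^ j → k ≤ 2 ^ κ → u ≤ B → v ≤ B → q ≤ B →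
    2 * k ≤ B → (St p B w t 3 (vec [u, v, q, k]) ↔
      invc (fun k => prodc (geod (dmat p w.length w u v)) (nn p w.length) 0 k) q k = 1) := by
  induction j with
  | zero =>
    intro t ht u v q k hk _ _ _ _ _
    obtain ⟨t, rfl⟩ : ∃ t', t = t' + 1 := ⟨t - 1, by omega⟩
    rw [St_succ]
    change invF p w.length (Fc p B w t) u v q k ↔ _
    unfold invF
    rw [pow_zero, mul_one] at hk
    rw [invc, dif_pos (Or.inr hk)]
    simp only [hk, or_true, true_and, not_true_eq_false, false_and, or_false]
    split_ifs with h <;> simp [h]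
  | succ j ih =>
    intro t ht u v q k hk hkk hu hv hq hkB
    obtain ⟨t, rfl⟩ : ∃ t', t = t' + 1 := ⟨t - 1, by omega⟩
    rw [St_succ]
    change invF p w.length (Fc p B w t) u v q k ↔ _
    unfold invF
    by_cases h : q = 0 ∨ k < q
    · rw [invc, dif_pos h]
      simp only [h, true_and, not_true_eq_false, false_and, or_false]
      split_ifs with h <;> simp [h]
    · rw [invc, dif_neg h]
      simp only [h, false_and, not_false_eq_true, true_and, false_or]
      rw [Finset.sum_attach (range (k + 1)) (fun k₁ => if q ∣ k₁ then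
        prodc (geod (dmat p w.length w u v)) (nn p w.length) 0 (k₁ / q) *
          invc (fun k => prodc (geod (dmat p w.length w u v)) (nn p w.length) 0 k)
            (2 * q) (k - k₁) else 0)]
      refine par_iff fun z hz => ?_
      push Not at h
      have h2 : q * 2 ^ (j + 1) = 2 * q * 2 ^ j := by ring
      have h3 : z / q ≤ k := (Nat.div_le_self _ _).trans (by omega)
      rw [Fc_vec (by simp) (by simp; omega), Fc_vec (by simp) (by simp; omega)]
      rw [prod_sem (κ := κ) κ t (by omega) _ _ _ _ _ hn (by omega) hu hv (by omega) (by omega),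
        ih t (by omega) _ _ _ _ (by omega) (by omega) hu hv (by omega) (by omega)]
      by_cases hd : q ∣ z
      · rw [if_pos hd, mul_eq_one_iff]
        simp [Nat.mod_eq_zero_of_dvd hd]
      · rw [if_neg hd]
        have : z % q ≠ 0 := fun e => hd (Nat.dvd_of_mod_eq_zero e)
        simp [this]

end

/-- **P12a**. -/
theorem detSem : DetSemStmt := by
  intro p w B t κ u v m hκ hB ht hu hv hm
  have h1 := nn_le₀ p w.length
  have h2 := nn_le_MX p w.length
  rw [Fc_vec (by simp) (by simp; omega), inv_sem (κ := κ) (by omega) (by omega) κ t (by omega) _ _ _ _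
    (by omega) (by omega) (by omega) (by omega) (by omega) (by omega)]
  rfl

end Pool.Agent.WUPM
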