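import Mathlib
import Pool.Agent.WUPM.SysTabDefs
import Pool.Agent.WUPM.SysDetW
import Pool.Agent.WUPM.SysFO
import Pool.Agent.WUPM.Mate
import Pool.Agent.WUPM.Comb

/-!
# The matching and the final theorem
-/

set_option autoImplicit false

namespace Pool.Agent.WUPM

open Finset Pool.Agent.NC Pool.Agent.UPM

/-! ### The matching -/

/-- Coefficients of the determinant. -/
noncomputable def DC (p : Polynomial ℕ) (w : List Bool) (u v m : ℕ) : ZMod 2 :=
  detd (nn p w.length) (dmat p w.length w u v) m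

/-- The formula for the matching, in terms of the determinant. -/
def mateD (p : Polynomial ℕ) (w : List Bool) (u v : ℕ) : Prop :=
  ∃ c, c < PP p w.length + 1 ∧ wtF p w.length w u v c ∧ ∃ m, m < MX p w.length + 1 ∧
    (nn p w.length * DD p w.length ≤ m ∧ DC p w (nn p w.length) (nn p w.length) m = 1 ∧
      ∀ m', m' < m → nn p w.length * DD p w.length ≤ m' →
        ¬ DC p w (nn p w.length) (nn p w.length) m' = 1) ∧
    nn p w.length * DD p w.length + 2 * c ≤ m ∧
    DC p w u v (m - 2 * (DD p w.length + c)) = 1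

theorem mateF_iff {p : Polynomial ℕ} {w : List Bool} {t : ℕ} (ht : 3 * km p w.length + 3 ≤ t)
    {u v : ℕ} (hu : u ≤ nn p w.length) (hv : v ≤ nn p w.length) :
    mateF p w.length w (Fc p (bnd p w.length) w t) u v ↔ mateD p w u v := by
  have hκ : MX p w.length < 2 ^ km p w.length :=
    Nat.lt_pow_succ_log_self (by norm_num) _
  have hB : 2 * MX p w.length + w.length + 2 ≤ bnd p w.length := by
    unfold bnd
    omega
  have key : ∀ u v m, u ≤ nn p w.length → v ≤ nn p w.length → m ≤ MX p w.length →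
      (Fc p (bnd p w.length) w t 3 (vec [u, v, 1, m]) ↔ DC p w u v m = 1) :=
    fun u v m hu hv hm => detSem p w _ t _ u v m hκ hB ht hu hv hm
  unfold mateF mateD minF
  refine exists_congr fun c => and_congr_right fun _ => and_congr_right fun _ =>
    exists_congr fun m => and_congr_right fun hm => and_congr (and_congr_right fun _ =>
      and_congr (key _ _ _ le_rfl le_rfl (by omega)) ?_) (and_congr_right fun _ => ?_)
  · exact forall_congr' fun m' => imp_congr_right fun hm' => imp_congr_right fun _ =>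
      not_congr (key _ _ _ le_rfl le_rfl (by omega))
  · exact key _ _ _ hu hv (by omega)

open Classical in
/-- Adjacency of numbers. -/
def adjN (p : Polynomial ℕ) (w : List Bool) (x y : ℕ) : Prop :=
  x < nn p w.length ∧ y < nn p w.length ∧ bitF p w.length w x y 0

open Classical in
/-- Weights of numbers. -/
noncomputable def wtM (p : Polynomial ℕ) (w : List Bool) (x y : ℕ) : ℕ :=
  if x < nn p w.length ∧ y < nn p w.length then wtN p w x y else 0

theorem DC_eq {p : Polynomial ℕ} {w : List Bool} (hi : inpF p w.length w) (u v m : ℕ) :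
    DC p w u v m = detd (nn p w.length) (matd (adjN p w) (wtM p w) (DD p w.length) u v) m := by
  classical
  unfold DC
  rw [Dt.detRecStmt, Dt.detRecStmt]
  · congr 2
    refine congrArg _ ?_
    ext x y
    simp only [Matrix.of_apply]
    congr 1
    ext d
    rw [PowerSeries.coeff_mk, PowerSeries.coeff_mk]
    have hx := x.2
    have hy := y.2
    have e : wtM p w x y = wtV p w x y := by
      unfold wtM
      rw [if_pos ⟨hx, hy⟩]
      rfl
    have hle := wtV_le x y
    have hiff : delF p w.length w u v x y d ↔ adjN p w x y ∧ (x : ℕ) ≠ u ∧ (x : ℕ) ≠ v ∧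
        (y : ℕ) ≠ u ∧ (y : ℕ) ≠ v ∧ d = DD p w.length + wtM p w x y := by
      rw [e]
      unfold delF
      constructor
      · rintro ⟨h1, h2, h3, h4, c, hc, h5, h6⟩
        obtain ⟨h7, h8⟩ := (wtF_iff hi x y hc).1 h5
        exact ⟨⟨hx, hy, h7⟩, h1, h2, h3, h4, by rw [h6, h8]⟩
      · rintro ⟨h0, h1, h2, h3, h4, h5⟩
        exact ⟨h1, h2, h3, h4, wtV p w x y, by omega,
          (wtF_iff hi x y (by omega)).2 ⟨h0.2.2, rfl⟩, h5⟩
    unfold dmat matd
    by_cases h : delF p w.length w u v x y d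
    · rw [if_pos h, if_pos (hiff.1 h)]
    · rw [if_neg h, if_neg (fun h' => h (hiff.2 h'))]
  · intro x y
    unfold matd DD
    rw [if_neg]
    rintro ⟨-, -, -, -, -, h⟩
    omega
  · intro x y
    unfold dmat delF DD
    rw [if_neg]
    rintro ⟨-, -, -, -, c, -, -, h⟩
    omega

theorem mateSem : MateSemStmt := by
  classical
  intro p w hi
  refine ⟨fun t t' ht ht' u v => (mateF_iff ht u.2.le v.2.le).trans
    (mateF_iff ht' u.2.le v.2.le).symm, ?_⟩
  intro f hf hmin t ht u v
  rw [mateF_iff ht u.2.le v.2.le]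
  have hadj : (fun x y : VV p w => adjN p w x y) = adjV p w := by
    funext x y
    exact propext ⟨fun h => h.2.2, fun h => ⟨x.2, y.2, h⟩⟩
  have hwt : ∀ x y : VV p w, wtM p w x y = wtV p w x y := by
    intro x y
    unfold wtM
    rw [if_pos ⟨x.2, y.2⟩]
    rfl
  have hsum : ∀ g : VV p w → VV p w, ∑ v : VV p w, wtM p w v (g v) = ∑ v, wtV p w v (g v) :=
    fun g => sum_congr rfl fun v _ => hwt v (g v)
  obtain ⟨m1, m2, m3⟩ := Mt.mateStmt (nn p w.length) (PP p w.length) (DD p w.length) (adjN p w)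
    (wtM p w)
    (fun x y h => ⟨h.2.1, h.1, (hi.2 x h.1 y h.2.1).2.2 0 (Nat.succ_pos _) h.2.2⟩)
    (fun x h => (hi.2 x h.1 x h.1).1 h.2.2)
    (fun x y => by
      unfold wtM
      by_cases h : x < nn p w.length ∧ y < nn p w.length
      · rw [if_pos h, if_pos ⟨h.2, h.1⟩]
        exact wtV_comm hi ⟨x, h.1⟩ ⟨y, h.2⟩
      · rw [if_neg h, if_neg (fun h' => h ⟨h'.2, h'.1⟩)])
    (fun x y h => by
      have := hwt ⟨x, h.1⟩ ⟨y, h.2.1⟩
      dsimp only at this
      rw [this]
      exact wtV_le _ _)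
    (Nat.lt_succ_self _) f (by rw [hadj]; exact hf)
    (fun g hg hne => by
      rw [hsum, hsum]
      rw [hadj] at hg
      exact hmin g hg hne)
  rw [hsum f] at m1 m2 m3
  have hs : ∑ v, wtV p w v (f v) ≤ nn p w.length * PP p w.length := by
    refine (sum_le_sum fun v _ => wtV_le v (f v)).trans ?_
    simp
  have hMX : nn p w.length * DD p w.length + ∑ v, wtV p w v (f v) ≤ MX p w.length := by
    unfold MX
    rw [Nat.mul_add]
    omega
  unfold mateD
  constructor
  · rintro ⟨c, hc, h1, m, hm, ⟨h2, h3, h4⟩, h5, h6⟩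
    obtain ⟨h7, h8⟩ := (wtF_iff hi u v hc).1 h1
    have hmeq : m = nn p w.length * DD p w.length + ∑ v, wtV p w v (f v) := by
      rcases Nat.lt_trichotomy m (nn p w.length * DD p w.length + ∑ v, wtV p w v (f v)) with
        h | h | h
      · rw [DC_eq hi, m2 m h2 h] at h3
        exact absurd h3 (by decide)
      · exact h
      · refine absurd ?_ (h4 _ h (Nat.le_add_right _ _))
        rw [DC_eq hi]
        exact m1
    have h9 := (m3 u v ⟨u.2, v.2, h7⟩).1
    rw [hwt, h8] at h9
    refine h9 ⟨by omega, ?_⟩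
    rw [DC_eq hi, hmeq] at h6
    exact h6
  · rintro rfl
    have h7 : adjV p w u (f u) := hf.2 u
    have h9 := (m3 u (f u) ⟨u.2, (f u).2, h7⟩).2 rfl
    rw [hwt] at h9
    have hle := wtV_le u (f u)
    refine ⟨wtV p w u (f u), by omega, (wtF_iff hi _ _ (by omega)).2 ⟨h7, rfl⟩,
      nn p w.length * DD p w.length + ∑ v, wtV p w v (f v),
      by omega, ⟨Nat.le_add_right _ _, ?_, fun m' h h' => ?_⟩, by omega, ?_⟩
    · rw [DC_eq hi]
      exact m1
    · rw [DC_eq hi, m2 m' h' h]
      decide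
    · rw [DC_eq hi]
      exact h9.2

/-! ### The final theorem -/

theorem pmw_wtZ {p : Polynomial ℕ} {w : List Bool} (f : VV p w → VV p w) :
    pmw (wtZ p w) f = ((∑ v, wtV p w v (f v) : ℕ) : ℤ) := by
  unfold pmw wtZ
  push_cast
  rfl

theorem acc_iff {p : Polynomial ℕ} {w : List Bool} (hi : inpF p w.length w)
    {f : VV p w → VV p w} (hf : IsPM (adjV p w) f) :
    Acc (SV hi hf) (idxV f) (idxV_mate hf.1) (WV f) (GV hi hf) (rd w.length) ↔
      ∀ g, IsPM (adjV p w) g → g ≠ f → ∑ v, wtV p w v (f v) < ∑ v, wtV p w v (g v) := by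
  have hK : Fintype.card (VV p w) ≤ 2 ^ kk w.length := by
    rw [Fintype.card_fin]
    exact (nn_le_length p w.length).trans (Nat.lt_pow_succ_log_self (by norm_num) _).le
  refine (acc_iff_unique (adjV p w) (adjV_symm hi) (adjV_irrefl hi) f hf (wtZ p w)
    (fun a b => by unfold wtZ; rw [wtV_comm hi]) (idxV f) (idxV_mate hf.1) (idxV_inj hf.1)
    (cV p w) cV_inj _ cV_lt (kk w.length) (rd w.length) hK le_rfl).trans ?_
  simp only [pmw_wtZ, Nat.cast_lt]

theorem final_of (h2 : TimeStmt) (h3 : AccSemStmt) : FinalStmt := by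
  intro p w
  set t := 3 * km p w.length + rd w.length + 7 with ht
  have hlang := lang p w
  have hst : stage (sys p) 8 (bnd p w.length) w (tot p w.length) 0 (fun _ => 0) ↔
      outF p w.length w (Fc p (bnd p w.length) w t) := Iff.rfl
  rw [hst, hlang]
  unfold outF
  refine and_congr_right fun hi => ?_
  obtain ⟨hM1, hM2⟩ := mateSem p w hi
  have main : ∀ (f : VV p w → VV p w) (hf : IsPM (adjV p w) f),
      (∀ t, 3 * km p w.length + 3 ≤ t → ∀ u v : VV p w,
        mateF p w.length w (Fc p (bnd p w.length) w t) u v ↔ f u = v) →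
      (accF p w.length w (Fc p (bnd p w.length) w t) ↔
        ∀ g, IsPM (adjV p w) g → g ≠ f → ∑ v, wtV p w v (f v) < ∑ v, wtV p w v (g v)) := by
    intro f hf hM
    rw [h3 p w (Fc p (bnd p w.length) w t) f hi hf (hM t (by omega)) fun κ hκ =>
      h2 p w f hi hf (3 * km p w.length + 3) hM (rd w.length) t κ le_rfl (by omega) hκ]
    exact acc_iff hi hf
  constructor
  · rintro ⟨f, hf, hmin⟩
    have hM := hM2 f hf hmin
    refine ⟨fun u hu => ⟨f ⟨u, hu⟩, (f ⟨u, hu⟩).2, (hM t (by omega) ⟨u, hu⟩ _).2 rfl,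
      (hM t (by omega) _ ⟨u, hu⟩).2 (hf.1 _), fun v' hv' h => ?_⟩, (main f hf hM).2 hmin⟩
    exact (congrArg Fin.val ((hM t (by omega) ⟨u, hu⟩ ⟨v', hv'⟩).1 h)).symm
  · rintro ⟨hpm, hacc⟩
    have hpm' : ∀ u : VV p w, ∃ v : VV p w,
        mateF p w.length w (Fc p (bnd p w.length) w t) u v ∧
        mateF p w.length w (Fc p (bnd p w.length) w t) v u ∧
        ∀ v' : VV p w, mateF p w.length w (Fc p (bnd p w.length) w t) u v' → v' = v := by
      intro u
      obtain ⟨v, hv, g1, g2, g3⟩ := hpm u u.2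
      exact ⟨⟨v, hv⟩, g1, g2, fun v' h => Fin.ext (g3 v' v'.2 h)⟩
    choose f f1 f2 f3 using hpm'
    have hf : IsPM (adjV p w) f := by
      refine ⟨fun v => (f3 (f v) v (f2 v)).symm, fun v => ?_⟩
      obtain ⟨c, hc, h, _⟩ := f1 v
      exact ((wtF_iff hi v (f v) hc).1 h).1
    have hM : ∀ t', 3 * km p w.length + 3 ≤ t' → ∀ u v : VV p w,
        (mateF p w.length w (Fc p (bnd p w.length) w t') u v ↔ f u = v) := by
      intro t' ht' u v
      rw [hM1 t' t ht' (by omega) u v]
      exact ⟨fun h => (f3 u v h).symm, fun h => h ▸ f1 u⟩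
    exact ⟨f, hf, (main f hf hM).1 hacc⟩

end Pool.Agent.WUPM
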