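import Mathlib
import Pool.Agent.WUPM.SysTabDefs
import Pool.Agent.WUPM.Cands
import Pool.Agent.WUPM.Generic

/-!
# Semantics of the formulas for the tables: one round
-/

set_option autoImplicit false

namespace Pool.Agent.WUPM

open Finset Pool.Agent.NC Pool.Agent.UPM

/-! ### Candidates -/

/-- The candidate of type `t` with the nodes `a, b, c, e` gives the object `o`. -/
def Cand {V : Type} [DecidableEq V] (S : Skew V) (tq : V → V → Set (Finset (V × V)))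
    (tt : V → V → V → V → Set (Finset (V × V))) (A B C E : V) (t : ℕ) (a b c e : V)
    (o : Finset (V × V)) : Prop :=
  (t = 0 ∧ ∃ o₁ ∈ tq A B, ∃ o₂ ∈ tq C E, OK1 S A B C E o₁ o₂ ∧ o = o₁ ∪ o₂) ∨
  (t = 1 ∧ ∃ o₁ ∈ tt A b c E, ∃ o₂ ∈ tt a B C e, Lk S b a ∧ Lk S e c ∧
    OK2 S A B C E a b c e o₁ o₂ ∧ o = (o₁ ∪ o₂) ∪ (lk b a ∪ lk e c)) ∨
  (t = 2 ∧ A = B ∧ o = ∅) ∨
  (t = 3 ∧ ∃ o₁ ∈ tt A b c B, S.arc b c ∧ o = insert (b, c) o₁)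

theorem mem_CT {V : Type} [DecidableEq V] {S : Skew V} {tq : V → V → Set (Finset (V × V))}
    {tt : V → V → V → V → Set (Finset (V × V))} {A B C E : V} {o : Finset (V × V)} :
    o ∈ CT S tq tt A B C E ↔ ∃ t, t < 2 ∧ ∃ a b c e, Cand S tq tt A B C E (0 + t) a b c e o := by
  constructor
  · rintro (⟨o₁, h₁, o₂, h₂, h₃, h₄⟩ | ⟨A1, B1, C1, E1, o₁, h₁, o₂, h₂, h₃, h₄, h₅, h₆⟩)
    · exact ⟨0, by norm_num, A, A, A, A, Or.inl ⟨rfl, o₁, h₁, o₂, h₂, h₃, h₄⟩⟩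
    · exact ⟨1, by norm_num, A1, B1, C1, E1, Or.inr (Or.inl ⟨rfl, o₁, h₁, o₂, h₂, h₃, h₄, h₅, h₆⟩)⟩
  · rintro ⟨t, ht, a, b, c, e, (⟨_, o₁, h₁, o₂, h₂, h₃, h₄⟩ | ⟨_, o₁, h₁, o₂, h₂, h₃, h₄, h₅, h₆⟩ |
      ⟨h, _⟩ | ⟨h, _⟩)⟩
    · exact Or.inl ⟨o₁, h₁, o₂, h₂, h₃, h₄⟩
    · exact Or.inr ⟨a, b, c, e, o₁, h₁, o₂, h₂, h₃, h₄, h₅, h₆⟩
    · omega
    · omega

theorem mem_CQ {V : Type} [DecidableEq V] {S : Skew V} {tq : V → V → Set (Finset (V × V))}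
    {tt : V → V → V → V → Set (Finset (V × V))} {A B C E : V} {o : Finset (V × V)} :
    o ∈ CQ S tt A B ↔ ∃ t, t < 2 ∧ ∃ a b c e, Cand S tq tt A B C E (2 + t) a b c e o := by
  constructor
  · rintro (⟨h₁, h₂⟩ | ⟨b, c, o₁, h₁, h₂, h₃⟩)
    · exact ⟨0, by norm_num, A, A, A, A, Or.inr (Or.inr (Or.inl ⟨rfl, h₁, h₂⟩))⟩
    · exact ⟨1, by norm_num, A, b, c, A, Or.inr (Or.inr (Or.inr ⟨rfl, o₁, h₁, h₂, h₃⟩))⟩
  · rintro ⟨t, ht, a, b, c, e, (⟨h, _⟩ | ⟨h, _⟩ | ⟨_, h₁, h₂⟩ | ⟨_, o₁, h₁, h₂, h₃⟩)⟩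
    · omega
    · omega
    · exact Or.inl ⟨h₁, h₂⟩
    · exact Or.inr ⟨b, c, o₁, h₁, h₂, h₃⟩

/-- Genuine tables with at most one entry for every key. -/
structure Gen {V : Type} [DecidableEq V] (S : Skew V) (tq : V → V → Set (Finset (V × V)))
    (tt : V → V → V → V → Set (Finset (V × V))) : Prop where
  gq : ∀ x z, ∀ o ∈ tq x z, IsQ S x z o
  gt : ∀ A B C E, ∀ o ∈ tt A B C E, IsT S A B C E o
  uq : ∀ x z, ∀ o ∈ tq x z, ∀ o' ∈ tq x z, o = o'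
  ut : ∀ A B C E, ∀ o ∈ tt A B C E, ∀ o' ∈ tt A B C E, o = o'

section

variable {p : Polynomial ℕ} {w : List Bool} {F : Itp} {f : VV p w → VV p w}
  {hi : inpF p w.length w} {hf : IsPM (adjV p w) f}

theorem num_of {x : ℤ} (h : |x| ≤ 2 * PP p w.length * Fintype.card (VV p w)) :
    ∃ s : ℕ, s < 2 * off p w.length + 1 ∧ (s : ℤ) = x + off p w.length := by
  have e : ((off p w.length : ℕ) : ℤ) = 2 * PP p w.length * Fintype.card (VV p w) := by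
    unfold off
    rw [Fintype.card_fin]
    push_cast
    ring
  rw [← e, abs_le] at h
  exact ⟨(x + off p w.length).toNat, by omega, by omega⟩

theorem num_q {κ : ℕ} {x z : VV p w} {o : Finset (VV p w × VV p w)}
    (h : IsQ (SK hi hf κ) x z o) :
    ∃ s : ℕ, s < 2 * off p w.length + 1 ∧ (s : ℤ) = wt (WV f) o + off p w.length :=
  num_of (h.abs_wt_le (by positivity) fun a b _ => aw_bound a b)

theorem num_t {κ : ℕ} {A B C E : VV p w} {o : Finset (VV p w × VV p w)}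
    (h : IsT (SK hi hf κ) A B C E o) :
    ∃ s : ℕ, s < 2 * off p w.length + 1 ∧ (s : ℤ) = wt (WV f) o + off p w.length :=
  num_of (h.abs_wt_le (by positivity) fun a b _ => aw_bound a b)

section rep

variable {κ τ : ℕ} {tq : VV p w → VV p w → Set (Finset (VV p w × VV p w))}
  {tt : VV p w → VV p w → VV p w → VV p w → Set (Finset (VV p w × VV p w))}
  (hM : ∀ u v : VV p w, mateF p w.length w F u v ↔ f u = v)
  (hR : Rep F κ τ (WV f) tq tt) (hG : Gen (SK hi hf κ) tq tt)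

include hR hG

theorem qA_iff {x z : VV p w} {o : Finset (VV p w × VV p w)} (ho : o ∈ tq x z) (a b : VV p w) :
    qA F κ τ x z a b ↔ (a, b) ∈ o := by
  rw [hR.qa]
  constructor
  · rintro ⟨o', h', h⟩
    rwa [hG.uq x z o ho o' h']
  · exact fun h => ⟨o, ho, h⟩

theorem tA_iff {A B C E : VV p w} {o : Finset (VV p w × VV p w)} (ho : o ∈ tt A B C E)
    (a b : VV p w) : tA F κ τ A B C E a b ↔ (a, b) ∈ o := by
  rw [hR.ta]
  constructor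
  · rintro ⟨o', h', h⟩
    rwa [hG.ut A B C E o ho o' h']
  · exact fun h => ⟨o, ho, h⟩

theorem nq_sem {x z : VV p w} {o : Finset (VV p w × VV p w)} (ho : o ∈ tq x z) (v : VV p w) :
    nqF p w.length F κ τ x z v ↔ NQ x z o v := by
  unfold nqF NQ
  rw [← Fin.ext_iff, ← Fin.ext_iff, exV]
  refine or_congr Iff.rfl (or_congr Iff.rfl (exists_congr fun u => ?_))
  rw [qA_iff hR hG ho, qA_iff hR hG ho]

theorem nt_sem {A B C E : VV p w} {o : Finset (VV p w × VV p w)} (ho : o ∈ tt A B C E)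
    (v : VV p w) : ntF p w.length F κ τ A B C E v ↔ NT A B C E o v := by
  unfold ntF NT
  rw [← Fin.ext_iff, ← Fin.ext_iff, ← Fin.ext_iff, ← Fin.ext_iff, exV]
  refine or_congr Iff.rfl (or_congr Iff.rfl (or_congr Iff.rfl (or_congr Iff.rfl
    (exists_congr fun u => ?_))))
  rw [tA_iff hR hG ho, tA_iff hR hG ho]

include hM

theorem ok1_sem {A B C E : VV p w} {o₁ o₂ : Finset (VV p w × VV p w)} (h₁ : o₁ ∈ tq A B)
    (h₂ : o₂ ∈ tq C E) :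
    ok1F p w.length w F κ τ A B C E ↔ OK1 (SK hi hf κ) A B C E o₁ o₂ := by
  unfold ok1F OK1
  rw [allV]
  refine forall_congr' fun u => ?_
  rw [allV]
  refine forall_congr' fun v => ?_
  rw [nq_sem hR hG h₁, nq_sem hR hG h₂, hM]
  refine imp_congr Iff.rfl (imp_congr Iff.rfl (and_congr ?_ ?_))
  · exact not_congr Fin.ext_iff.symm
  · exact ⟨fun h e => h e.symm, fun h e => h e.symm⟩

theorem ok2_sem {c₀ e₀ : ℕ} {A B C E a b c e : VV p w} {t : ℕ} (hC : c₀ = C) (hE : e₀ = E)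
    {o₁ o₂ : Finset (VV p w × VV p w)} (h₁ : o₁ ∈ tt A b c E) (h₂ : o₂ ∈ tt a B C e) :
    ok2F p w.length w F ⟨κ, τ, A, B, c₀, e₀⟩ ⟨t, a, b, c, e⟩ ↔
      OK2 (SK hi hf κ) A B C E a b c e o₁ o₂ := by
  subst hC hE
  unfold ok2F OK2
  rw [allV]
  refine forall_congr' fun u => ?_
  rw [allV]
  refine forall_congr' fun v => ?_
  dsimp only
  rw [nt_sem hR hG h₁, nt_sem hR hG h₂, hM]
  refine imp_congr Iff.rfl (imp_congr Iff.rfl (and_congr ?_ ?_))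
  · simp only [Fin.ext_iff]
  · exact ⟨fun h e => h e.symm, fun h e => h e.symm⟩

omit hR hG in
theorem lk_sem (b a : VV p w) (l : ℕ) : lkF p w.length w F κ b a l ↔
    Lk (SK hi hf κ) b a ∧ (l : ℤ) = (if b = a then 0 else WV f b a) + 2 * PP p w.length := by
  unfold lkF Lk
  rw [arc_sem hi hf hM, ← Fin.ext_iff]
  by_cases h : b = a
  · subst h
    simp only [true_and, true_or, if_true]
    constructor
    · rintro (h | h)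
      · omega
      · exact absurd rfl ((SK hi hf κ).ne _ _ h.1)
    · intro h
      left
      omega
  · simp only [h, false_and, false_or, if_false]

omit hM hR hG in
/-- Numbers of links. -/
theorem num_lk {b a : VV p w} (h : Lk (SK hi hf κ) b a) : ∃ l : ℕ, l < 4 * PP p w.length + 1 ∧
    (l : ℤ) = (if b = a then 0 else WV f b a) + 2 * PP p w.length := by
  have hb : |WV f b a| ≤ 2 * PP p w.length := aw_bound b a
  have := abs_le.1 hb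
  refine ⟨((if b = a then 0 else WV f b a) + 2 * PP p w.length).toNat, ?_, ?_⟩ <;>
  split_ifs <;> omega

/-! ### Validity and weight of candidates -/

theorem cW_sem {c₀ e₀ : ℕ} {A B C E a b c e : VV p w} {t : ℕ}
    (hC : t < 2 → c₀ = C ∧ e₀ = E) (s : ℕ) :
    cW p w.length w F ⟨κ, τ, A, B, c₀, e₀⟩ ⟨t, a, b, c, e⟩ s ↔
      ∃ o, Cand (SK hi hf κ) tq tt A B C E t a b c e o ∧
        (s : ℤ) = wt (WV f) o + off p w.length := by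
  unfold cW Cand
  dsimp only
  constructor
  · rintro (⟨rfl, h₁, s₁, hs₁, h₂, s₂, hs₂, h₃, h₄⟩ | ⟨rfl, h₁, s₁, hs₁, h₂, s₂, hs₂, h₃, l₁, hl₁, h₄, l₂, hl₂, h₅, h₆⟩ |
      ⟨rfl, h₁, h₂⟩ | ⟨rfl, s₁, hs₁, h₁, l, hl, h₂, h₃⟩)
    · obtain ⟨rfl, rfl⟩ := hC (by norm_num)
      obtain ⟨o₁, g₁, g₂⟩ := (hR.qw _ _ _ hs₁).1 h₂
      obtain ⟨o₂, g₃, g₄⟩ := (hR.qw _ _ _ hs₂).1 h₃
      have hok := (ok1_sem hM hR hG g₁ g₃).1 h₁
      refine ⟨_, Or.inl ⟨rfl, o₁, g₁, o₂, g₃, hok, rfl⟩, ?_⟩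
      rw [wt_ok1 _ (hG.gq _ _ _ g₁) (hG.gq _ _ _ g₃) hok]
      omega
    · obtain ⟨rfl, rfl⟩ := hC (by norm_num)
      obtain ⟨o₁, g₁, g₂⟩ := (hR.tw _ _ _ _ _ hs₁).1 h₂
      obtain ⟨o₂, g₃, g₄⟩ := (hR.tw _ _ _ _ _ hs₂).1 h₃
      have hok := (ok2_sem hM hR hG rfl rfl g₁ g₃).1 h₁
      rw [lk_sem (hi := hi) (hf := hf) hM] at h₄ h₅
      refine ⟨_, Or.inr (Or.inl ⟨rfl, o₁, g₁, o₂, g₃, h₄.1, h₅.1, hok, rfl⟩), ?_⟩
      rw [wt_ok2 _ (hG.gt _ _ _ _ _ g₁) (hG.gt _ _ _ _ _ g₃) hok]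
      have e1 := h₄.2
      have e2 := h₅.2
      omega
    · refine ⟨∅, Or.inr (Or.inr (Or.inl ⟨rfl, Fin.ext h₁, rfl⟩)), ?_⟩
      rw [wt_empty, h₂, zero_add]
    · obtain ⟨o₁, g₁, g₂⟩ := (hR.tw _ _ _ _ _ hs₁).1 h₁
      rw [arc_sem hi hf hM] at h₂
      refine ⟨_, Or.inr (Or.inr (Or.inr ⟨rfl, o₁, g₁, h₂.1, rfl⟩)), ?_⟩
      rw [wt_ins _ (hG.gt _ _ _ _ _ g₁)]
      have e1 : (l : ℤ) = WV f b c + 2 * PP p w.length := h₂.2
      omega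
  · rintro ⟨o, (⟨rfl, o₁, h₁, o₂, h₂, h₃, rfl⟩ | ⟨rfl, o₁, h₁, o₂, h₂, h₃, h₄, h₅, rfl⟩ |
      ⟨rfl, rfl, rfl⟩ | ⟨rfl, o₁, h₁, h₂, rfl⟩), hs⟩
    · obtain ⟨rfl, rfl⟩ := hC (by norm_num)
      left
      obtain ⟨s₁, g₁, g₂⟩ := num_q (hG.gq _ _ _ h₁)
      obtain ⟨s₂, g₃, g₄⟩ := num_q (hG.gq _ _ _ h₂)
      rw [wt_ok1 _ (hG.gq _ _ _ h₁) (hG.gq _ _ _ h₂) h₃] at hs
      exact ⟨rfl, (ok1_sem hM hR hG h₁ h₂).2 h₃, s₁, g₁, (hR.qw _ _ _ g₁).2 ⟨o₁, h₁, g₂⟩, s₂, g₃,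
        (hR.qw _ _ _ g₃).2 ⟨o₂, h₂, g₄⟩, by omega⟩
    · obtain ⟨rfl, rfl⟩ := hC (by norm_num)
      right
      left
      obtain ⟨s₁, g₁, g₂⟩ := num_t (hG.gt _ _ _ _ _ h₁)
      obtain ⟨s₂, g₃, g₄⟩ := num_t (hG.gt _ _ _ _ _ h₂)
      obtain ⟨l₁, k₁, k₂⟩ := num_lk (hi := hi) (hf := hf) h₃
      obtain ⟨l₂, k₃, k₄⟩ := num_lk (hi := hi) (hf := hf) h₄
      rw [wt_ok2 _ (hG.gt _ _ _ _ _ h₁) (hG.gt _ _ _ _ _ h₂) h₅] at hs
      exact ⟨rfl, (ok2_sem hM hR hG rfl rfl h₁ h₂).2 h₅, s₁, g₁,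
        (hR.tw _ _ _ _ _ g₁).2 ⟨o₁, h₁, g₂⟩, s₂, g₃, (hR.tw _ _ _ _ _ g₃).2 ⟨o₂, h₂, g₄⟩,
        l₁, k₁, (lk_sem (hi := hi) (hf := hf) hM _ _ _).2 ⟨h₃, k₂⟩,
        l₂, k₃, (lk_sem (hi := hi) (hf := hf) hM _ _ _).2 ⟨h₄, k₄⟩, by omega⟩
    · right
      right
      left
      rw [wt_empty, zero_add] at hs
      exact ⟨rfl, rfl, by omega⟩
    · right
      right
      right
      obtain ⟨s₁, g₁, g₂⟩ := num_t (hG.gt _ _ _ _ _ h₁)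
      have hb : |WV f b c| ≤ 2 * PP p w.length := aw_bound b c
      have hb' := abs_le.1 hb
      rw [wt_ins _ (hG.gt _ _ _ _ _ h₁)] at hs
      obtain ⟨l, hl⟩ : ∃ l : ℕ, (l : ℤ) = WV f b c + 2 * PP p w.length :=
        ⟨(WV f b c + 2 * PP p w.length).toNat, by omega⟩
      exact ⟨rfl, s₁, g₁, (hR.tw _ _ _ _ _ g₁).2 ⟨o₁, h₁, g₂⟩, l, by omega,
        (arc_sem hi hf hM _ _ _ _).2 ⟨h₂, hl⟩, by omega⟩

omit hM in
theorem cA_sem {c₀ e₀ : ℕ} {A B C E a b c e : VV p w} {t : ℕ}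
    (hC : t < 2 → c₀ = C ∧ e₀ = E) {o : Finset (VV p w × VV p w)}
    (ho : Cand (SK hi hf κ) tq tt A B C E t a b c e o) (x y : VV p w) :
    cA F ⟨κ, τ, A, B, c₀, e₀⟩ ⟨t, a, b, c, e⟩ x y ↔ (x, y) ∈ o := by
  unfold cA
  dsimp only
  rcases ho with (⟨rfl, o₁, h₁, o₂, h₂, h₃, rfl⟩ | ⟨rfl, o₁, h₁, o₂, h₂, h₃, h₄, h₅, rfl⟩ |
      ⟨rfl, rfl, rfl⟩ | ⟨rfl, o₁, h₁, h₂, rfl⟩)
  · obtain ⟨rfl, rfl⟩ := hC (by norm_num)
    rw [qA_iff hR hG h₁, qA_iff hR hG h₂, mem_union]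
    simp
  · obtain ⟨rfl, rfl⟩ := hC (by norm_num)
    have hl : ∀ u v : VV p w, (x, y) ∈ lk u v ↔ ¬ (u : ℕ) = v ∧ (x : ℕ) = u ∧ (y : ℕ) = v := by
      intro u v
      unfold lk
      by_cases h : u = v
      · simp [h]
      · have : ¬ (u : ℕ) = v := fun e => h (Fin.ext e)
        simp only [h, if_false, mem_singleton, Prod.mk.injEq, this, not_false_eq_true, true_and,
          Fin.ext_iff]
    rw [tA_iff hR hG h₁, tA_iff hR hG h₂, mem_union, mem_union, mem_union, hl, hl]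
    simp [or_assoc]
  · simp
  · rw [tA_iff hR hG h₁, mem_insert, Prod.mk.injEq, Fin.ext_iff, Fin.ext_iff]
    simp [or_comm]

theorem msk_sem {c₀ e₀ : ℕ} {A B C E a b c e : VV p w} {t : ℕ}
    (hC : t < 2 → c₀ = C ∧ e₀ = E) {o : Finset (VV p w × VV p w)}
    (ho : Cand (SK hi hf κ) tq tt A B C E t a b c e o) (x y : VV p w) :
    mskF p w.length w F ⟨κ, τ, A, B, c₀, e₀⟩ ⟨t, a, b, c, e⟩ x y ↔
      Msk (SK hi hf κ) o (x, y) := by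
  unfold mskF Msk
  rw [cA_sem hR hG hC ho, exV]
  refine or_congr Iff.rfl ?_
  change _ ↔ (f y, f x) ∈ o
  constructor
  · rintro ⟨x', h₁, h₂⟩
    obtain ⟨y', h₃, h₄⟩ := exV.1 h₂
    rw [hM] at h₁ h₃
    subst h₁ h₃
    exact (cA_sem hR hG hC ho _ _).1 h₄
  · intro h
    exact ⟨f x, (hM _ _).2 rfl, exV.2 ⟨f y, (hM _ _).2 rfl, (cA_sem hR hG hC ho _ _).2 h⟩⟩

theorem less_sem {c₀ e₀ : ℕ} {A B C E a₁ b₁ c₁ e₁ a₂ b₂ c₂ e₂ : VV p w} {t₁ t₂ : ℕ}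
    (hC₁ : t₁ < 2 → c₀ = C ∧ e₀ = E) (hC₂ : t₂ < 2 → c₀ = C ∧ e₀ = E)
    {o₁ o₂ : Finset (VV p w × VV p w)}
    (ho₁ : Cand (SK hi hf κ) tq tt A B C E t₁ a₁ b₁ c₁ e₁ o₁)
    (ho₂ : Cand (SK hi hf κ) tq tt A B C E t₂ a₂ b₂ c₂ e₂ o₂)
    (r₁ : Reg (SK hi hf κ) o₁) (r₂ : Reg (SK hi hf κ) o₂) {s₁ s₂ : ℕ}
    (hs₁ : (s₁ : ℤ) = wt (WV f) o₁ + off p w.length)
    (hs₂ : (s₂ : ℤ) = wt (WV f) o₂ + off p w.length) :
    lessF p w.length w F ⟨κ, τ, A, B, c₀, e₀⟩ ⟨t₁, a₁, b₁, c₁, e₁⟩ s₁ ⟨t₂, a₂, b₂, c₂, e₂⟩ s₂ ↔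
      wt (GV hi hf) o₁ < wt (GV hi hf) o₂ := by
  have hg := (genericStmt (VV p w) (SK hi hf κ) (WV f) (cV p w) (nn p w.length * nn p w.length)
    cV_inj cV_lt).2.2.2.2.2 o₁ o₂ r₁ r₂
  change wt (GV hi hf) o₁ < wt (GV hi hf) o₂ ↔ _ at hg
  rw [hg]
  unfold lessF Cx
  refine or_congr (by omega) (and_congr (by omega) ?_)
  rw [exV, Prod.exists]
  refine exists_congr fun a => ?_
  rw [exV]
  refine exists_congr fun b => ?_
  rw [msk_sem hM hR hG hC₁ ho₁, msk_sem hM hR hG hC₂ ho₂, allV, Prod.forall]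
  refine and_congr Iff.rfl (and_congr Iff.rfl (forall_congr' fun a' => ?_))
  rw [allV]
  refine forall_congr' fun b' => ?_
  rw [msk_sem hM hR hG hC₁ ho₁, msk_sem hM hR hG hC₂ ho₂]
  exact Iff.rfl

omit hM hR hG in
theorem exCd_iff {lo : ℕ} {P : Cd → Prop} : exCd (nn p w.length) lo P ↔
    ∃ t, t < 2 ∧ ∃ a b c e : VV p w, P ⟨lo + t, a, b, c, e⟩ := by
  unfold exCd
  refine exists_congr fun t => and_congr Iff.rfl ?_
  simp only [exV]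

/-- The best candidates. -/
theorem best_sem {lo c₀ e₀ : ℕ} {A B C E : VV p w} (hC : lo < 2 → c₀ = C ∧ e₀ = E) {CC : Set (Finset (VV p w × VV p w))}
    (hCC : ∀ o, o ∈ CC ↔ ∃ t, t < 2 ∧ ∃ a b c e, Cand (SK hi hf κ) tq tt A B C E (lo + t) a b c e o)
    (hreg : ∀ o ∈ CC, Reg (SK hi hf κ) o)
    (hnum : ∀ o ∈ CC, ∃ s : ℕ, s < 2 * off p w.length + 1 ∧
      (s : ℤ) = wt (WV f) o + off p w.length) {t : ℕ} (ht : t < 2) (a b c e : VV p w) (s : ℕ) :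
    bestF p w.length w F lo ⟨κ, τ, A, B, c₀, e₀⟩ ⟨lo + t, a, b, c, e⟩ s ↔
      ∃ o, Cand (SK hi hf κ) tq tt A B C E (lo + t) a b c e o ∧
        (s : ℤ) = wt (WV f) o + off p w.length ∧ o ∈ best (GV hi hf) CC := by
  have hC' : ∀ t, t < 2 → lo + t < 2 → c₀ = C ∧ e₀ = E := fun t _ h => hC (by omega)
  unfold bestF
  rw [cW_sem hM hR hG (hC' t ht), exCd_iff]
  constructor
  · rintro ⟨⟨o, h₁, h₂⟩, h₃⟩
    have hm : o ∈ CC := (hCC o).2 ⟨t, ht, a, b, c, e, h₁⟩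
    refine ⟨o, h₁, h₂, hm, fun o' ho' => ?_⟩
    by_contra hlt
    rw [not_le] at hlt
    obtain ⟨t', ht', a', b', c', e', h₄⟩ := (hCC o').1 ho'
    obtain ⟨s', hs', h₅⟩ := hnum o' ho'
    refine h₃ ⟨t', ht', a', b', c', e', s', hs', (cW_sem hM hR hG (hC' t' ht') s').2 ⟨o', h₄, h₅⟩, ?_⟩
    rw [less_sem hM hR hG (hC' t' ht') (hC' t ht) h₄ h₁ (hreg _ ho') (hreg _ hm) h₅ h₂]
    exact hlt
  · rintro ⟨o, h₁, h₂, h₃⟩
    refine ⟨⟨o, h₁, h₂⟩, ?_⟩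
    rintro ⟨t', ht', a', b', c', e', s', hs', h₄, h₅⟩
    obtain ⟨o', h₆, h₇⟩ := (cW_sem hM hR hG (hC' t' ht') s').1 h₄
    have hm : o' ∈ CC := (hCC o').2 ⟨t', ht', a', b', c', e', h₆⟩
    rw [less_sem hM hR hG (hC' t' ht') (hC' t ht) h₆ h₁ (hreg _ hm) (hreg _ h₃.1) h₇ h₂] at h₅
    exact absurd (h₃.2 o' hm) (not_le.2 h₅)

theorem newW_sem {lo c₀ e₀ : ℕ} {A B C E : VV p w} (hC : lo < 2 → c₀ = C ∧ e₀ = E)
    {CC : Set (Finset (VV p w × VV p w))}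
    (hCC : ∀ o, o ∈ CC ↔ ∃ t, t < 2 ∧ ∃ a b c e, Cand (SK hi hf κ) tq tt A B C E (lo + t) a b c e o)
    (hreg : ∀ o ∈ CC, Reg (SK hi hf κ) o)
    (hnum : ∀ o ∈ CC, ∃ s : ℕ, s < 2 * off p w.length + 1 ∧
      (s : ℤ) = wt (WV f) o + off p w.length) (s : ℕ) :
    newW p w.length w F lo ⟨κ, τ + 1, A, B, c₀, e₀⟩ s ↔
      ∃ o ∈ best (GV hi hf) CC, (s : ℤ) = wt (WV f) o + off p w.length := by
  unfold newW
  rw [exCd_iff]
  dsimp only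
  rw [Nat.add_sub_cancel]
  constructor
  · rintro ⟨_, t, ht, a, b, c, e, h⟩
    obtain ⟨o, _, h₂, h₃⟩ := (best_sem hM hR hG hC hCC hreg hnum ht a b c e s).1 h
    exact ⟨o, h₃, h₂⟩
  · rintro ⟨o, h₃, h₂⟩
    obtain ⟨t, ht, a, b, c, e, h₁⟩ := (hCC o).1 h₃.1
    exact ⟨by omega, t, ht, a, b, c, e,
      (best_sem hM hR hG hC hCC hreg hnum ht a b c e s).2 ⟨o, h₁, h₂, h₃⟩⟩

theorem newA_sem {lo c₀ e₀ : ℕ} {A B C E : VV p w} (hC : lo < 2 → c₀ = C ∧ e₀ = E)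
    {CC : Set (Finset (VV p w × VV p w))}
    (hCC : ∀ o, o ∈ CC ↔ ∃ t, t < 2 ∧ ∃ a b c e, Cand (SK hi hf κ) tq tt A B C E (lo + t) a b c e o)
    (hreg : ∀ o ∈ CC, Reg (SK hi hf κ) o)
    (hnum : ∀ o ∈ CC, ∃ s : ℕ, s < 2 * off p w.length + 1 ∧
      (s : ℤ) = wt (WV f) o + off p w.length) (x y : VV p w) :
    newA p w.length w F lo ⟨κ, τ + 1, A, B, c₀, e₀⟩ x y ↔
      ∃ o ∈ best (GV hi hf) CC, (x, y) ∈ o := by
  have hC' : ∀ t, t < 2 → lo + t < 2 → c₀ = C ∧ e₀ = E := fun t _ h => hC (by omega)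
  unfold newA
  rw [exCd_iff]
  dsimp only
  rw [Nat.add_sub_cancel]
  constructor
  · rintro ⟨_, t, ht, a, b, c, e, ⟨s, hs, h⟩, h'⟩
    obtain ⟨o, h₁, h₂, h₃⟩ := (best_sem hM hR hG hC hCC hreg hnum ht a b c e s).1 h
    exact ⟨o, h₃, (cA_sem hR hG (hC' t ht) h₁ _ _).1 h'⟩
  · rintro ⟨o, h₃, h⟩
    obtain ⟨t, ht, a, b, c, e, h₁⟩ := (hCC o).1 h₃.1
    obtain ⟨s, hs, h₂⟩ := hnum o h₃.1
    exact ⟨by omega, t, ht, a, b, c, e,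
      ⟨s, hs, (best_sem hM hR hG hC hCC hreg hnum ht a b c e s).2 ⟨o, h₁, h₂, h₃⟩⟩,
      (cA_sem hR hG (hC' t ht) h₁ _ _).2 h⟩

end rep

/-- The tables are genuine and have at most one entry for every key. -/
theorem gen_tab (κ τ : ℕ) : Gen (SK hi hf κ) (tQ (SK hi hf κ) (GV hi hf) τ)
    (tT (SK hi hf κ) (GV hi hf) τ) := by
  have hg := genericStmt (VV p w) (SK hi hf κ) (WV f) (cV p w)
    (nn p w.length * nn p w.length) cV_inj cV_lt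
  have hU : Uniq (SK hi hf κ) (GV hi hf) := hg.2.2.1
  have hs := fun τ => sound (VV p w) (SK hi hf κ) (GV hi hf) τ
  refine ⟨fun x z o ho => (hs τ).1 x z o ho, fun A B C E o ho => (hs τ).2 A B C E o ho, ?_, ?_⟩
  · intro x z o ho o' ho'
    cases τ with
    | zero => exact absurd ho (Set.notMem_empty o)
    | succ τ =>
      exact best_uniqQ hU (C := CQ (SK hi hf κ) (tT (SK hi hf κ) (GV hi hf) τ) x z)
        (fun o h => CQ_sound (tq := tQ (SK hi hf κ) (GV hi hf) τ) (hs τ).1 (hs τ).2 h) ho ho'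
  · intro A B C E o ho o' ho'
    cases τ with
    | zero => exact absurd ho (Set.notMem_empty o)
    | succ τ =>
      exact best_uniqT hU (D := CT (SK hi hf κ) (tQ (SK hi hf κ) (GV hi hf) τ)
        (tT (SK hi hf κ) (GV hi hf) τ) A B C E)
        (fun o h => CT_sound (hs τ).1 (hs τ).2 h) ho ho'

end

theorem stepStmt : StepStmt := by
  intro p w F f hi hf hM κ τ hR
  have hG := gen_tab (hi := hi) (hf := hf) κ τ
  have hg := genericStmt (VV p w) (SK hi hf κ) (WV f) (cV p w)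
    (nn p w.length * nn p w.length) cV_inj cV_lt
  have q1 : ∀ x z : VV p w, ∀ o ∈ CQ (SK hi hf κ) (tT (SK hi hf κ) (GV hi hf) τ) x z,
      IsQ (SK hi hf κ) x z o := fun x z o h => CQ_sound hG.gq hG.gt h
  have t1 : ∀ A B C E : VV p w, ∀ o ∈ CT (SK hi hf κ) (tQ (SK hi hf κ) (GV hi hf) τ)
      (tT (SK hi hf κ) (GV hi hf) τ) A B C E,
      IsT (SK hi hf κ) A B C E o := fun A B C E o h => CT_sound hG.gq hG.gt h
  refine ⟨fun x z s => ?_, fun x z a b => ?_, fun A B C E s => ?_, fun A B C E a b => ?_⟩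
  · exact newW_sem (C := x) (E := x) hM hR hG (fun h => by omega)
      (fun o => mem_CQ) (fun o h => hg.2.2.2.1 x z o (q1 x z o h)) (fun o h => num_q (q1 x z o h)) s
  · exact newA_sem (C := x) (E := x) hM hR hG (fun h => by omega)
      (fun o => mem_CQ) (fun o h => hg.2.2.2.1 x z o (q1 x z o h)) (fun o h => num_q (q1 x z o h))
      a b
  · exact newW_sem (C := C) (E := E) hM hR hG (fun h => ⟨rfl, rfl⟩)
      (fun o => mem_CT) (fun o h => hg.2.2.2.2.1 A B C E o (t1 A B C E o h))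
      (fun o h => num_t (t1 A B C E o h)) s
  · exact newA_sem (C := C) (E := E) hM hR hG (fun h => ⟨rfl, rfl⟩)
      (fun o => mem_CT) (fun o h => hg.2.2.2.2.1 A B C E o (t1 A B C E o h))
      (fun o h => num_t (t1 A B C E o h)) a b

end Pool.Agent.WUPM
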