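import Mathlib
import Pool.Agent.WUPM.SysTabDefs
import Pool.Agent.WUPM.SysDetW

/-!
# The tables at all rounds (S2)
-/

set_option autoImplicit false

namespace Pool.Agent.WUPM

open Finset Pool.Agent.NC Pool.Agent.UPM

namespace Tm

variable {p : Polynomial ℕ} {w : List Bool}

theorem qW_succ {t κ τ x z s : ℕ} (h1 : κ ≤ bnd p w.length) (h2 : τ ≤ bnd p w.length)
    (h3 : x ≤ bnd p w.length) (h4 : z ≤ bnd p w.length) (h5 : s ≤ bnd p w.length) :
    qW (Fc p (bnd p w.length) w (t + 1)) κ τ x z s ↔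
      newW p w.length w (Fc p (bnd p w.length) w t) 2 ⟨κ, τ, x, z, 0, 0⟩ s := by
  unfold qW
  rw [Fc_vec (by simp) (by simp [h1, h2, h3, h4, h5]), St_succ]
  rfl

theorem qA_succ {t κ τ x z a b : ℕ} (h1 : κ ≤ bnd p w.length) (h2 : τ ≤ bnd p w.length)
    (h3 : x ≤ bnd p w.length) (h4 : z ≤ bnd p w.length) (h5 : a ≤ bnd p w.length)
    (h6 : b ≤ bnd p w.length) :
    qA (Fc p (bnd p w.length) w (t + 1)) κ τ x z a b ↔
      newA p w.length w (Fc p (bnd p w.length) w t) 2 ⟨κ, τ, x, z, 0, 0⟩ a b := by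
  unfold qA
  rw [Fc_vec (by simp) (by simp [h1, h2, h3, h4, h5, h6]), St_succ]
  rfl

theorem tW_succ {t κ τ A B C E s : ℕ} (h1 : κ ≤ bnd p w.length) (h2 : τ ≤ bnd p w.length)
    (h3 : A ≤ bnd p w.length) (h4 : B ≤ bnd p w.length) (h5 : C ≤ bnd p w.length)
    (h6 : E ≤ bnd p w.length) (h7 : s ≤ bnd p w.length) :
    tW (Fc p (bnd p w.length) w (t + 1)) κ τ A B C E s ↔
      newW p w.length w (Fc p (bnd p w.length) w t) 0 ⟨κ, τ, A, B, C, E⟩ s := by
  unfold tW
  rw [Fc_vec (by simp) (by simp [h1, h2, h3, h4, h5, h6, h7]), St_succ]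
  rfl

theorem tA_succ {t κ τ A B C E a b : ℕ} (h1 : κ ≤ bnd p w.length) (h2 : τ ≤ bnd p w.length)
    (h3 : A ≤ bnd p w.length) (h4 : B ≤ bnd p w.length) (h5 : C ≤ bnd p w.length)
    (h6 : E ≤ bnd p w.length) (h7 : a ≤ bnd p w.length) (h8 : b ≤ bnd p w.length) :
    tA (Fc p (bnd p w.length) w (t + 1)) κ τ A B C E a b ↔
      newA p w.length w (Fc p (bnd p w.length) w t) 0 ⟨κ, τ, A, B, C, E⟩ a b := by
  unfold tA
  rw [Fc_vec (by simp) (by simp [h1, h2, h3, h4, h5, h6, h7, h8]), St_succ]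
  rfl

end Tm

open Tm in
/-- **S2.** -/
theorem timeStmt_of (hS : StepStmt) : TimeStmt := by
  intro p w f hi hf t₀ hM τ
  have hn : nn p w.length ≤ w.length := nn_le₀ p w.length
  have hv : ∀ v : VV p w, (v : ℕ) ≤ bnd p w.length := fun v => by
    have := v.2
    unfold bnd
    omega
  have hrd : rd w.length ≤ bnd p w.length := by
    unfold bnd
    omega
  have hk : ∀ κ, κ ≤ nn p w.length + 1 → κ ≤ bnd p w.length := fun κ h => by
    unfold bnd
    omega
  have hs : ∀ s, s < 2 * off p w.length + 1 → s ≤ bnd p w.length := fun s h => by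
    unfold bnd
    omega
  induction τ with
  | zero =>
    intro t κ hτ ht hκ
    obtain ⟨t, rfl⟩ : ∃ t', t = t' + 1 := ⟨t - 1, by omega⟩
    have h0 : 0 ≤ bnd p w.length := Nat.zero_le _
    refine ⟨fun x z s h => ?_, fun x z a b => ?_, fun A B C E s h => ?_, fun A B C E a b => ?_⟩
    · rw [qW_succ (hk κ hκ) h0 (hv _) (hv _) (hs s h)]
      constructor
      · rintro ⟨h1, _⟩
        exact absurd h1 (by norm_num)
      · rintro ⟨o, h1, _⟩
        exact absurd h1 (Set.notMem_empty _)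
    · rw [qA_succ (hk κ hκ) h0 (hv _) (hv _) (hv _) (hv _)]
      constructor
      · rintro ⟨h1, _⟩
        exact absurd h1 (by norm_num)
      · rintro ⟨o, h1, _⟩
        exact absurd h1 (Set.notMem_empty _)
    · rw [tW_succ (hk κ hκ) h0 (hv _) (hv _) (hv _) (hv _) (hs s h)]
      constructor
      · rintro ⟨h1, _⟩
        exact absurd h1 (by norm_num)
      · rintro ⟨o, h1, _⟩
        exact absurd h1 (Set.notMem_empty _)
    · rw [tA_succ (hk κ hκ) h0 (hv _) (hv _) (hv _) (hv _) (hv _) (hv _)]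
      constructor
      · rintro ⟨h1, _⟩
        exact absurd h1 (by norm_num)
      · rintro ⟨o, h1, _⟩
        exact absurd h1 (Set.notMem_empty _)
  | succ τ ih =>
    intro t κ hτ ht hκ
    obtain ⟨t, rfl⟩ : ∃ t', t = t' + 1 := ⟨t - 1, by omega⟩
    have h1 := ih t κ (by omega) (by omega) hκ
    obtain ⟨g1, g2, g3, g4⟩ := hS p w _ f hi hf (hM t (by omega)) κ τ h1
    have hr : τ + 1 ≤ bnd p w.length := hτ.trans hrd
    refine ⟨fun x z s h => ?_, fun x z a b => ?_, fun A B C E s h => ?_, fun A B C E a b => ?_⟩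
    · rw [qW_succ (hk κ hκ) hr (hv _) (hv _) (hs s h)]
      exact g1 x z s
    · rw [qA_succ (hk κ hκ) hr (hv _) (hv _) (hv _) (hv _)]
      exact g2 x z a b
    · rw [tW_succ (hk κ hκ) hr (hv _) (hv _) (hv _) (hv _) (hs s h)]
      exact g3 A B C E s
    · rw [tA_succ (hk κ hκ) hr (hv _) (hv _) (hv _) (hv _) (hv _) (hv _)]
      exact g4 A B C E a b

end Pool.Agent.WUPM
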